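import Pool.Agent.Helper83.SD.LOps

/-!
Project SD, module Meas: the sphere mean.

Rotation invariance of the surface measure: see `Pool.Agent.Helper78.LE.sph_inv` (LB5) for a
proof.  `mu_Lr`: for the rotation `R_s` about axis `a`, `mu (p ∘ R_s) = mu p`; differentiate at
`s = 0` under the integral (the integrand is smooth and the sphere compact), or expand
`ev p (R_s x)` as a trigonometric polynomial in `s`.
-/

set_option autoImplicit false

open MeasureTheory Real
open scoped Pointwise

namespace Pool.Agent.Helper83.SD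

namespace MeasAux

/-- the surface measure -/
noncomputable abbrev sM : Measure (Metric.sphere (0 : E3) 1) := (volume : Measure E3).toSphere

theorem norm_pt (x : Metric.sphere (0 : E3) 1) : ‖(x : E3)‖ = 1 := by
  simp

theorem sM_ne : sM ≠ 0 := by
  unfold sM
  exact Measure.toSphere_ne_zero _

theorem ev_cont_S (p : Poly) : Continuous (fun y : Metric.sphere (0 : E3) 1 => ev p (y : E3)) :=
  (ev_continuous p).comp continuous_subtype_val

theorem integ_cont {f : Metric.sphere (0 : E3) 1 → ℝ} (hf : Continuous f) : Integrable f sM := by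
  have h := hf.integrable_of_hasCompactSupport (μ := sM) (HasCompactSupport.of_compactSpace f)
  exact h

theorem integ_ev (p : Poly) :
    Integrable (fun y : Metric.sphere (0 : E3) 1 => ev p (y : E3)) sM :=
  integ_cont (ev_cont_S p)

theorem mu_def (p : Poly) :
    mu p = (sM.real Set.univ)⁻¹ * ∫ y : Metric.sphere (0 : E3) 1, ev p (y : E3) ∂sM := by
  unfold mu
  rw [average_eq, smul_eq_mul]

theorem area_pos : 0 < sM.real Set.univ := by
  have h1 : sM Set.univ ≠ 0 := by
    intro h
    exact sM_ne (Measure.measure_univ_eq_zero.mp h)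
  rw [measureReal_def]
  exact ENNReal.toReal_pos h1 (measure_ne_top _ _)

end MeasAux

open MeasAux

theorem mu_add (p q : Poly) : mu (p + q) = mu p + mu q := by
  rw [mu_def, mu_def, mu_def, ← mul_add, ← integral_add (integ_ev p) (integ_ev q)]
  simp only [ev_add]

theorem mu_sub (p q : Poly) : mu (p - q) = mu p - mu q := by
  rw [mu_def, mu_def, mu_def, ← mul_sub, ← integral_sub (integ_ev p) (integ_ev q)]
  simp only [ev_sub]

theorem mu_smul (c : ℝ) (p : Poly) : mu (c • p) = c * mu p := by
  rw [mu_def, mu_def]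
  simp only [ev_smul]
  rw [integral_const_mul]
  ring

theorem mu_sum {ι : Type*} (s : Finset ι) (f : ι → Poly) :
    mu (∑ i ∈ s, f i) = ∑ i ∈ s, mu (f i) := by
  classical
  induction s using Finset.induction_on with
  | empty =>
    simp only [Finset.sum_empty]
    have := mu_smul 0 0
    simpa using this
  | insert a s ha ih =>
    rw [Finset.sum_insert ha, Finset.sum_insert ha, mu_add, ih]

theorem mu_C (c : ℝ) : mu (MvPolynomial.C c) = c := by
  rw [mu_def]
  simp only [ev_C]
  rw [integral_const, smul_eq_mul, ← mul_assoc, inv_mul_cancel₀ area_pos.ne', one_mul]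

theorem mu_congr {p q : Poly} (h : ∀ x : E3, ‖x‖ = 1 → ev p x = ev q x) : mu p = mu q := by
  rw [mu_def, mu_def]
  congr 1
  apply integral_congr_ae
  filter_upwards with y
  exact h _ (norm_pt y)

theorem mu_nonneg {p : Poly} (h : ∀ x : E3, ‖x‖ = 1 → 0 ≤ ev p x) : 0 ≤ mu p := by
  rw [mu_def]
  apply mul_nonneg (inv_nonneg.mpr area_pos.le)
  apply integral_nonneg
  intro y
  exact h _ (norm_pt y)

theorem mu_mono {p q : Poly} (h : ∀ x : E3, ‖x‖ = 1 → ev p x ≤ ev q x) : mu p ≤ mu q := by
  have h1 : 0 ≤ mu (q - p) := by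
    apply mu_nonneg
    intro x hx
    rw [ev_sub]
    linarith [h x hx]
  rw [mu_sub] at h1
  linarith

theorem mu_sq_zero {p : Poly} (h : mu (p ^ 2) = 0) : ∀ x : E3, ‖x‖ = 1 → ev p x = 0 := by
  have h1 : ∫ y : Metric.sphere (0 : E3) 1, ev (p ^ 2) (y : E3) ∂sM = 0 := by
    rw [mu_def] at h
    rcases mul_eq_zero.mp h with h | h
    · exact absurd (inv_eq_zero.mp h) area_pos.ne'
    · exact h
  have h2 : (fun y : Metric.sphere (0 : E3) 1 => ev (p ^ 2) (y : E3)) = 0 := by
    have hc := ev_cont_S (p ^ 2)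
    have h3 : 0 ≤ (fun y : Metric.sphere (0 : E3) 1 => ev (p ^ 2) (y : E3)) := by
      intro y
      simp only [Pi.zero_apply, ev_pow]
      positivity
    have h4 := (integral_eq_zero_iff_of_nonneg h3 (integ_ev (p ^ 2))).mp h1
    exact (Continuous.ae_eq_iff_eq sM hc continuous_zero).mp h4
  intro x hx
  have h3 := congrFun h2 ⟨x, by simpa using hx⟩
  simp only [Pi.zero_apply, ev_pow] at h3
  exact pow_eq_zero_iff (two_ne_zero) |>.mp h3

namespace MeasAux

/-- the isometry on the sphere -/
noncomputable def onS (R : E3 ≃ₗᵢ[ℝ] E3) :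
    Metric.sphere (0 : E3) 1 → Metric.sphere (0 : E3) 1 :=
  fun x => ⟨R x, by simp⟩

theorem onS_cont (R : E3 ≃ₗᵢ[ℝ] E3) : Continuous (onS R) :=
  (R.continuous.comp continuous_subtype_val).subtype_mk _

theorem onS_mp (R : E3 ≃ₗᵢ[ℝ] E3) :
    MeasurePreserving (onS R) sM sM := by
  refine ⟨(onS_cont R).measurable, ?_⟩
  ext s hs
  rw [Measure.map_apply (onS_cont R).measurable hs]
  unfold sM
  rw [Measure.toSphere_apply' _ hs, Measure.toSphere_apply' _ ((onS_cont R).measurable hs)]
  congr 1
  have h1 : (Set.Ioo (0 : ℝ) 1 • ((↑) '' (onS R ⁻¹' s) : Set E3)) =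
      R ⁻¹' (Set.Ioo (0 : ℝ) 1 • ((↑) '' s : Set E3)) := by
    ext z
    simp only [Set.mem_smul, Set.mem_preimage]
    constructor
    · rintro ⟨c, hc, w, ⟨x, hx, rfl⟩, rfl⟩
      exact ⟨c, hc, R x, ⟨onS R x, hx, rfl⟩, by simp⟩
    · rintro ⟨c, hc, w, ⟨x, hx, rfl⟩, h⟩
      refine ⟨c, hc, R.symm x, ⟨onS R.symm x, ?_, rfl⟩, ?_⟩
      · have : onS R (onS R.symm x) = x := by
          apply Subtype.ext
          simp [onS]
        show onS R (onS R.symm x) ∈ s
        rw [this]
        exact hx
      · apply R.injective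
        rw [← h]
        simp
  rw [h1]
  exact R.measurePreserving.measure_preimage_emb R.toHomeomorph.measurableEmbedding _

theorem sph_inv (R : E3 ≃ₗᵢ[ℝ] E3) (F : E3 → ℝ) (hF : Measurable F) :
    ∫ x, F (R (x : E3)) ∂sM = ∫ x, F (x : E3) ∂sM := by
  have h := onS_mp R
  have h2 : ∫ x, F (x : E3) ∂(Measure.map (onS R) sM) =
      ∫ x, F ((onS R x : Metric.sphere (0 : E3) 1) : E3) ∂sM :=
    integral_map h.measurable.aemeasurable
      (hF.comp measurable_subtype_coe).aestronglyMeasurable
  rw [h.map_eq] at h2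
  rw [h2]
  rfl

/-- substitution of the coordinates of `R x` -/
noncomputable def sub (R : E3 ≃ₗᵢ[ℝ] E3) (i : Fin 3) : Poly :=
  ∑ j : Fin 3, MvPolynomial.C ((R (EuclideanSpace.single j 1)) i) * MvPolynomial.X j

theorem sub_deg (R : E3 ≃ₗᵢ[ℝ] E3) (i : Fin 3) : (sub R i).totalDegree ≤ 1 := by
  unfold sub
  refine MvPolynomial.totalDegree_finsetSum_le ?_
  intro j _
  refine (MvPolynomial.totalDegree_mul _ _).trans ?_
  simp

theorem ev_sub' (R : E3 ≃ₗᵢ[ℝ] E3) (i : Fin 3) (x : E3) : ev (sub R i) x = (R x) i := by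
  have h : x = ∑ j : Fin 3, x j • (EuclideanSpace.single j (1 : ℝ) : E3) := by
    ext k
    simp [Fin.sum_univ_three]
    fin_cases k <;> simp
  unfold sub
  rw [ev_sum]
  conv_rhs => rw [h]
  simp only [map_sum, map_smul, ev_mul, ev_C, ev_X]
  simp [Fin.sum_univ_three]
  ring

theorem bind_deg (f : Fin 3 → Poly) (hf : ∀ i, (f i).totalDegree ≤ 1) (p : Poly) :
    (MvPolynomial.bind₁ f p).totalDegree ≤ p.totalDegree := by
  conv_lhs => rw [p.as_sum]
  rw [map_sum]
  refine MvPolynomial.totalDegree_finsetSum_le ?_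
  intro v hv
  rw [MvPolynomial.bind₁_monomial]
  refine (MvPolynomial.totalDegree_mul _ _).trans ?_
  rw [MvPolynomial.totalDegree_C, zero_add]
  refine (MvPolynomial.totalDegree_finsetProd _ _).trans ?_
  have h1 : ∑ i ∈ v.support, (f i ^ v i).totalDegree ≤ ∑ i ∈ v.support, v i := by
    apply Finset.sum_le_sum
    intro i _
    refine (MvPolynomial.totalDegree_pow _ _).trans ?_
    calc v i * (f i).totalDegree ≤ v i * 1 := Nat.mul_le_mul_left _ (hf i)
      _ = v i := mul_one _
  exact h1.trans (MvPolynomial.le_totalDegree hv)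

end MeasAux

/-- composition with a rotation -/
theorem mu_rot (R : E3 ≃ₗᵢ[ℝ] E3) (p : Poly) :
    ∃ q : Poly, q.totalDegree ≤ p.totalDegree ∧ (∀ x : E3, ev q x = ev p (R x)) ∧
      mu q = mu p ∧ mu (q ^ 2) = mu (p ^ 2) := by
  have hev : ∀ x : E3, ev (MvPolynomial.bind₁ (sub R) p) x = ev p (R x) := by
    intro x
    have h1 := MvPolynomial.aeval_bind₁ (fun i => x i) (sub R) p
    unfold ev
    simp only [MvPolynomial.aeval_eq_eval] at h1
    rw [h1]
    have h2 : (fun i => (MvPolynomial.eval fun i => x i) (sub R i)) = fun i => (R x) i := by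
      funext i
      exact ev_sub' R i x
    rw [h2]
  refine ⟨MvPolynomial.bind₁ (sub R) p, bind_deg _ (sub_deg R) p, hev, ?_, ?_⟩
  · rw [mu_def, mu_def]
    simp only [hev]
    rw [sph_inv R (ev p) (ev_continuous p).measurable]
  · rw [mu_def, mu_def]
    simp only [ev_pow, hev]
    rw [sph_inv R (fun x => ev p x ^ 2) ((ev_continuous p).pow 2).measurable]

namespace MeasAux

/-- rotation about the axis `a` -/
noncomputable def rotF (a : Fin 3) (s : ℝ) (x : E3) : E3 :=
  WithLp.toLp 2 (fun i => if i = a then x a else if i = a + 1 then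
    cos s * x (a + 1) - sin s * x (a + 2) else sin s * x (a + 1) + cos s * x (a + 2))

theorem rotF_inv (a : Fin 3) (s : ℝ) (x : E3) : rotF a (-s) (rotF a s x) = x := by
  have h := Real.sin_sq_add_cos_sq s
  ext i
  fin_cases a <;> fin_cases i <;> simp [rotF]
  · linear_combination (x.ofLp 1) * h
  · linear_combination (x.ofLp 2) * h
  · linear_combination (x.ofLp 0) * h
  · linear_combination (x.ofLp 2) * h
  · linear_combination (x.ofLp 0) * h
  · linear_combination (x.ofLp 1) * h

theorem rotF_norm (a : Fin 3) (s : ℝ) (x : E3) : ‖rotF a s x‖ = ‖x‖ := by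
  have h := Real.sin_sq_add_cos_sq s
  rw [EuclideanSpace.norm_eq, EuclideanSpace.norm_eq]
  congr 1
  simp only [Real.norm_eq_abs, sq_abs, Fin.sum_univ_three]
  fin_cases a <;> simp [rotF]
  · linear_combination (x.ofLp 1 ^ 2 + x.ofLp 2 ^ 2) * h
  · linear_combination (x.ofLp 2 ^ 2 + x.ofLp 0 ^ 2) * h
  · linear_combination (x.ofLp 0 ^ 2 + x.ofLp 1 ^ 2) * h

/-- the rotation as a linear isometry -/
noncomputable def rot (a : Fin 3) (s : ℝ) : E3 ≃ₗᵢ[ℝ] E3 where
  toFun := rotF a s
  invFun := rotF a (-s)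
  left_inv := rotF_inv a s
  right_inv := by
    intro x
    have := rotF_inv a (-s) x
    rwa [neg_neg] at this
  map_add' := by
    intro x y
    ext i
    simp only [rotF, PiLp.toLp_apply, PiLp.add_apply]
    split_ifs <;> ring
  map_smul' := by
    intro c x
    ext i
    simp only [rotF, PiLp.toLp_apply, PiLp.smul_apply, smul_eq_mul, RingHom.id_apply]
    split_ifs <;> ring
  norm_map' := rotF_norm a s

theorem rot_apply (a : Fin 3) (s : ℝ) (x : E3) : rot a s x = rotF a s x := rfl

/-- derivative of the rotation -/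
noncomputable def rotD (a : Fin 3) (x : E3) : E3 :=
  WithLp.toLp 2 (fun i => (EuclideanSpace.single a (1 : ℝ) : E3) (i + 1) * x (i + 2)
    - (EuclideanSpace.single a (1 : ℝ) : E3) (i + 2) * x (i + 1))

theorem rotF_deriv (a : Fin 3) (x : E3) (s : ℝ) :
    HasDerivAt (fun r => rotF a r x) (rotD a (rotF a s x)) s := by
  have h := (((Real.hasDerivAt_cos s).smul_const
    (WithLp.toLp 2 (fun i => if i = a then 0 else x i) : E3)).add
    ((Real.hasDerivAt_sin s).smul_const
    (WithLp.toLp 2 (fun i => if i = a then 0 else if i = a + 1 then -x (a + 2)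
      else x (a + 1)) : E3))).add_const
    (WithLp.toLp 2 (fun i => if i = a then x a else 0) : E3)
  have e1 : (fun r => rotF a r x) = fun r => (cos r • (WithLp.toLp 2 (fun i => if i = a then 0
      else x i) : E3) + sin r • (WithLp.toLp 2 (fun i => if i = a then 0 else if i = a + 1 then
      -x (a + 2) else x (a + 1)) : E3)) +
      (WithLp.toLp 2 (fun i => if i = a then x a else 0) : E3) := by
    funext r
    ext i
    fin_cases a <;> fin_cases i <;> simp [rotF] <;> first | rfl | ring
  have e2 : rotD a (rotF a s x) = -sin s • (WithLp.toLp 2 (fun i => if i = a then 0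
      else x i) : E3) + cos s • (WithLp.toLp 2 (fun i => if i = a then 0 else if i = a + 1 then
      -x (a + 2) else x (a + 1)) : E3) := by
    ext i
    fin_cases a <;> fin_cases i <;> simp [rotF, rotD]
    all_goals ring
  rw [e1, e2]
  exact h

theorem ev_rot_deriv (a : Fin 3) (p : Poly) (x : E3) (s : ℝ) :
    HasDerivAt (fun r => ev p (rotF a r x)) (ev (Lr a p) (rotF a s x)) s := by
  have h := hasDerivAt_ev p (rotF_deriv a x s)
  have h2 := sum_Lr p (EuclideanSpace.single a (1 : ℝ)) (rotF a s x)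
  have h3 : ∑ b : Fin 3, (EuclideanSpace.single a (1 : ℝ) : E3) b * ev (Lr b p) (rotF a s x) =
      ev (Lr a p) (rotF a s x) := by
    simp
  rw [h3] at h2
  rw [← h2]
  exact h

end MeasAux

theorem mu_Lr (a : Fin 3) (p : Poly) : mu (Lr a p) = 0 := by
  have hI : ∀ s : ℝ, ∫ x : Metric.sphere (0 : E3) 1, ev p (rotF a s (x : E3)) ∂sM =
      ∫ x : Metric.sphere (0 : E3) 1, ev p (x : E3) ∂sM := fun s =>
    sph_inv (rot a s) (ev p) (ev_continuous p).measurable
  have hI2 : ∫ x : Metric.sphere (0 : E3) 1, ev (Lr a p) (rotF a 0 (x : E3)) ∂sM =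
      ∫ x : Metric.sphere (0 : E3) 1, ev (Lr a p) (x : E3) ∂sM :=
    sph_inv (rot a 0) (ev (Lr a p)) (ev_continuous (Lr a p)).measurable
  obtain ⟨C, hC⟩ : ∃ C : ℝ, ∀ x : E3, ‖x‖ = 1 → ‖ev (Lr a p) x‖ ≤ C := by
    obtain ⟨C, hC⟩ := (isCompact_sphere (0 : E3) 1).exists_bound_of_continuousOn
      (ev_continuous (Lr a p)).continuousOn
    exact ⟨C, fun x hx => hC x (by simpa using hx)⟩
  have hc : ∀ (q : Poly) (s : ℝ),
      Continuous (fun x : Metric.sphere (0 : E3) 1 => ev q (rotF a s (x : E3))) := fun q s =>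
    (ev_continuous q).comp ((rot a s).continuous.comp continuous_subtype_val)
  have hD := hasDerivAt_integral_of_dominated_loc_of_deriv_le (μ := sM) (𝕜 := ℝ)
    (F := fun (s : ℝ) (x : Metric.sphere (0 : E3) 1) => ev p (rotF a s (x : E3)))
    (F' := fun (s : ℝ) (x : Metric.sphere (0 : E3) 1) => ev (Lr a p) (rotF a s (x : E3)))
    (x₀ := 0) (bound := fun _ => C) (s := Set.univ) Filter.univ_mem
    (Filter.Eventually.of_forall fun s => (hc p s).aestronglyMeasurable)
    (integ_cont (hc p 0)) ((hc _ 0).aestronglyMeasurable)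
    (Filter.Eventually.of_forall fun x s _ => hC _ (by rw [rotF_norm, norm_pt]))
    (integrable_const _)
    (Filter.Eventually.of_forall fun x s _ => ev_rot_deriv a p x s)
  have hD2 := hD.2
  simp only [hI] at hD2
  have hD3 := hD2.unique (hasDerivAt_const (0 : ℝ) _)
  rw [mu_def, ← hI2, hD3, mul_zero]

/-- integration by parts -/
theorem mu_parts (a : Fin 3) (p q : Poly) : mu (Lr a p * q) = -mu (p * Lr a q) := by
  have h := mu_Lr a (p * q)
  rw [Derivation.leibniz, smul_eq_mul, smul_eq_mul, mu_add] at h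
  have h2 : q * Lr a p = Lr a p * q := mul_comm _ _
  rw [h2] at h
  linarith

end Pool.Agent.Helper83.SD
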