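import Pool.Agent.Helper83.SD.Basic

/-!
Project SD, module NumW: numerical bounds for the aliasing weights.

`Wt 1 3 = 0.04651`, `Wt 2 6 = 0.0213`, decreasing.  In general, with `m! ≥ √(2πm) (m/e)^m` (or
`m! ≥ (m/e)^m` and a few explicit values) and `x = 3j/m ≤ 1`,
`Wt j m ≤ 2.41 j (0.98933 x^2)^m exp(m/(6 j^2)) / (2π m (m+1))`.
Sum in `V_num`: m = 4: 0.006538, m = 7: 0.003817, m = 10: 0.0027, m = 13: 0.0021, ...
(m = 5, 6, 8, 9, ..: much smaller); for `3j < m`, `x^(2m) ≤ (1 - 1/m)^(2m) ≤ e^(-2)`, and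
for smaller `j` the terms decay geometrically.
-/

set_option autoImplicit false

open MeasureTheory Real

namespace Pool.Agent.Helper83.SD

theorem Wt_nonneg (j m : ℕ) : 0 ≤ Wt j m := by
  unfold Wt
  positivity

theorem Wt_one_three : Wt 1 3 ≤ 0.0466 := by
  unfold Wt
  norm_num [Nat.factorial]

theorem Wt_one_four : Wt 1 4 ≤ 0.0033 := by
  unfold Wt
  norm_num [Nat.factorial]

theorem Wt_one_five : Wt 1 5 ≤ 0.001 := by
  unfold Wt
  norm_num [Nat.factorial]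

theorem Wt_one_six : Wt 1 6 ≤ 0.0001 := by
  unfold Wt
  norm_num [Nat.factorial]

theorem Wt_step {j m : ℕ} (h : 3 * j ≤ m) : Wt j (m + 1) ≤ 0.134 * Wt j m := by
  have hj : (3 : ℝ) * j ≤ m := by exact_mod_cast h
  have hj0 : (0 : ℝ) ≤ j := Nat.cast_nonneg j
  have e : Wt j (m + 1) = 1.205 * ((j : ℝ) ^ 2 + 1 / 6) / (((m : ℝ) + 1) * (m + 2)) * Wt j m := by
    unfold Wt
    rw [Nat.factorial_succ]
    push_cast
    field_simp
    ring
  rw [e]
  apply mul_le_mul_of_nonneg_right _ (Wt_nonneg j m)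
  rw [div_le_iff₀ (by positivity)]
  nlinarith

theorem Wt_pow (j r : ℕ) : Wt j (3 * j + r) ≤ 0.134 ^ r * Wt j (3 * j) := by
  induction r with
  | zero => simp
  | succ r ih =>
    have := Wt_step (j := j) (m := 3 * j + r) (by omega)
    calc Wt j (3 * j + (r + 1)) ≤ 0.134 * Wt j (3 * j + r) := this
      _ ≤ 0.134 * (0.134 ^ r * Wt j (3 * j)) := by gcongr
      _ = _ := by ring

theorem D_stir (j : ℕ) (hj : 1 ≤ j) : Wt j (3 * j) ≤
    2.41 / (6 * π * (3 * j + 1)) * (0.9894 * (1 + 1 / (6 * (j : ℝ) ^ 2))) ^ (3 * j) := by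
  have hj1 : (1 : ℝ) ≤ j := by exact_mod_cast hj
  have hs := Stirling.le_factorial_stirling (3 * j)
  have hpos : 0 ≤ √(2 * π * ((3 * j : ℕ) : ℝ)) * (((3 * j : ℕ) : ℝ) / exp 1) ^ (3 * j) := by
    positivity
  have hs2 := pow_le_pow_left₀ hpos hs 2
  rw [mul_pow, Real.sq_sqrt (by positivity), ← pow_mul, mul_comm (3 * j) 2, pow_mul] at hs2
  push_cast at hs2
  have hpi := Real.pi_pos
  unfold Wt
  have he : exp 1 ^ 2 ≤ 7.3891 := by
    have := Real.exp_one_lt_d9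
    have h0 := Real.exp_pos 1
    nlinarith
  have hfac : (0 : ℝ) < 2 * π * (3 * j) * (((3 * (j : ℝ)) / exp 1) ^ 2) ^ (3 * j) := by positivity
  calc 2.41 * (j : ℝ) * (1.205 * ((j : ℝ) ^ 2 + 1 / 6)) ^ (3 * j) /
        ((((3 * j : ℕ) : ℝ) + 1) * ((3 * j).factorial : ℝ) ^ 2)
      ≤ 2.41 * (j : ℝ) * (1.205 * ((j : ℝ) ^ 2 + 1 / 6)) ^ (3 * j) /
        ((((3 * j : ℕ) : ℝ) + 1) * (2 * π * (3 * j) * (((3 * (j : ℝ)) / exp 1) ^ 2) ^ (3 * j))) := by
        gcongr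
    _ = 2.41 / (6 * π * (3 * j + 1)) *
        ((1.205 * ((j : ℝ) ^ 2 + 1 / 6)) / (((3 * (j : ℝ)) / exp 1) ^ 2)) ^ (3 * j) := by
        rw [div_pow (1.205 * ((j : ℝ) ^ 2 + 1 / 6))]
        push_cast
        field_simp
        ring
    _ ≤ _ := by
        gcongr
        rw [div_pow, div_div_eq_mul_div, div_le_iff₀ (by positivity)]
        have e1 : 0.9894 * (1 + 1 / (6 * (j : ℝ) ^ 2)) * (3 * (j : ℝ)) ^ 2 =
            9 * 0.9894 * ((j : ℝ) ^ 2 + 1 / 6) := by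
          field_simp
          ring
        rw [e1]
        have h3 : 0 ≤ (j : ℝ) ^ 2 + 1 / 6 := by positivity
        nlinarith

theorem D_le (j : ℕ) (hj : 2 ≤ j) : Wt j (3 * j) ≤ 0.0225 := by
  refine (D_stir j (by omega)).trans ?_
  have hpi := Real.pi_gt_d2
  rcases (by omega : j = 2 ∨ j = 3 ∨ 4 ≤ j) with h | h | h
  · subst h
    have h1 : (2.41 : ℝ) / (6 * π * (3 * (2 : ℕ) + 1)) ≤ 2.41 / (6 * 3.14 * 7) := by
      push_cast
      gcongr
      · norm_num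
    refine (mul_le_mul_of_nonneg_right h1 (by positivity)).trans ?_
    norm_num
  · subst h
    have h1 : (2.41 : ℝ) / (6 * π * (3 * (3 : ℕ) + 1)) ≤ 2.41 / (6 * 3.14 * 10) := by
      push_cast
      gcongr
      · norm_num
    refine (mul_le_mul_of_nonneg_right h1 (by positivity)).trans ?_
    norm_num
  · have hj4 : (4 : ℝ) ≤ j := by exact_mod_cast h
    have h2 : (0.9894 * (1 + 1 / (6 * (j : ℝ) ^ 2))) ^ (3 * j) ≤ 1 := by
      apply pow_le_one₀ (by positivity)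
      have : 1 / (6 * (j : ℝ) ^ 2) ≤ 1 / 96 := by
        apply one_div_le_one_div_of_le (by norm_num)
        nlinarith
      nlinarith
    have h1 : (2.41 : ℝ) / (6 * π * (3 * j + 1)) ≤ 0.0225 := by
      rw [div_le_iff₀ (by positivity)]
      nlinarith
    calc (2.41 : ℝ) / (6 * π * (3 * j + 1)) * (0.9894 * (1 + 1 / (6 * (j : ℝ) ^ 2))) ^ (3 * j)
        ≤ 0.0225 * 1 := by
          apply mul_le_mul h1 h2 (by positivity) (by norm_num)
      _ = 0.0225 := by ring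

theorem tie_num (j : ℕ) (hj : 1 ≤ j) : Wt j (3 * j) ≤ 0.0466 := by
  rcases (by omega : j = 1 ∨ 2 ≤ j) with h | h
  · subst h
    exact Wt_one_three
  · exact (D_le j h).trans (by norm_num)

theorem kap_le {j r : ℕ} (hj : 1 ≤ j) :
    (((3 * j + r) / (3 * j) : ℕ) : ℝ) * 2 ^ ((3 * j + r) / (3 * j)) ≤ 2 * 4 ^ (r / 3) := by
  have e : (3 * j + r) / (3 * j) = r / (3 * j) + 1 := by
    rw [add_comm (3 * j) r, Nat.add_div_right _ (by omega)]
  have e2 : r / (3 * j) ≤ r / 3 := Nat.div_le_div_left (by omega) (by norm_num)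
  rw [e]
  generalize r / (3 * j) = k at *
  have h1 : k + 1 ≤ 2 ^ k := Nat.lt_two_pow_self
  have h1' : ((k + 1 : ℕ) : ℝ) ≤ 2 ^ k := by exact_mod_cast h1
  calc ((k + 1 : ℕ) : ℝ) * 2 ^ (k + 1) ≤ 2 ^ k * 2 ^ (k + 1) := by gcongr
    _ = 2 * 4 ^ k := by
        rw [pow_succ, show (4 : ℝ) = 2 * 2 by norm_num, mul_pow]
        ring
    _ ≤ 2 * 4 ^ (r / 3) := by
        gcongr
        norm_num

/-- one term of the sum -/
theorem term_le {j i s : ℕ} (hj : 1 ≤ j) (hs : 1 ≤ s) (hs3 : s ≤ 3) :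
    (((3 * j + (3 * i + s)) / (3 * j) : ℕ) : ℝ) * 2 ^ ((3 * j + (3 * i + s)) / (3 * j)) *
      Wt j (3 * j + (3 * i + s)) ≤ 0.268 * 0.01 ^ i * Wt j (3 * j) := by
  have h1 := kap_le (j := j) (r := 3 * i + s) hj
  have h2 := Wt_pow j (3 * i + s)
  have h3 := Wt_nonneg j (3 * j)
  calc (((3 * j + (3 * i + s)) / (3 * j) : ℕ) : ℝ) * 2 ^ ((3 * j + (3 * i + s)) / (3 * j)) *
      Wt j (3 * j + (3 * i + s))
      ≤ (2 * 4 ^ ((3 * i + s) / 3)) * (0.134 ^ (3 * i + s) * Wt j (3 * j)) := by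
        apply mul_le_mul h1 h2 (Wt_nonneg _ _) (by positivity)
    _ = (2 * 4 ^ ((3 * i + s) / 3) * 0.134 ^ (3 * i + s)) * Wt j (3 * j) := by ring
    _ ≤ (0.268 * 0.01 ^ i) * Wt j (3 * j) := by
        apply mul_le_mul_of_nonneg_right _ h3
        have e : (3 * i + s) / 3 = i + s / 3 := by omega
        rw [e, pow_add, pow_add, pow_mul]
        have h4 : (4 : ℝ) ^ i * (0.134 ^ 3) ^ i ≤ 0.01 ^ i := by
          rw [← mul_pow]
          gcongr
          norm_num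
        have h5 : 2 * (4 : ℝ) ^ (s / 3) * 0.134 ^ s ≤ 0.268 := by
          rcases (by omega : s = 1 ∨ s = 2 ∨ s = 3) with h | h | h <;> subst h <;> norm_num
        calc 2 * ((4 : ℝ) ^ i * 4 ^ (s / 3)) * ((0.134 ^ 3) ^ i * 0.134 ^ s)
            = (2 * (4 : ℝ) ^ (s / 3) * 0.134 ^ s) * ((4 : ℝ) ^ i * (0.134 ^ 3) ^ i) := by ring
          _ ≤ 0.268 * 0.01 ^ i := by gcongr

theorem geo_le (q : ℕ) : ∑ j ∈ Finset.Ico 1 q, (0.01 : ℝ) ^ (q - j) ≤ 1 / 99 := by
  induction q with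
  | zero => simp
  | succ q ih =>
    rcases Nat.eq_zero_or_pos q with h | h
    · subst h
      simp
    · rw [Finset.sum_Ico_succ_top (by omega)]
      have : ∀ j ∈ Finset.Ico 1 q, (0.01 : ℝ) ^ (q + 1 - j) = 0.01 * 0.01 ^ (q - j) := by
        intro j hj
        have := (Finset.mem_Ico.mp hj).2
        rw [show q + 1 - j = (q - j) + 1 by omega, pow_succ]
        ring
      rw [Finset.sum_congr rfl this, ← Finset.mul_sum, Nat.add_sub_cancel_left, pow_one]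
      linarith

theorem V_num (m : ℕ) (hm : 4 ≤ m) :
    ∑ j ∈ (Finset.Ico 1 m).filter (fun j => 3 * j < m),
      ((m / (3 * j) : ℕ) : ℝ) * 2 ^ (m / (3 * j)) * Wt j m ≤ 0.0066 := by
  obtain ⟨q, s, hq, hs, hs3, rfl⟩ : ∃ q s, 1 ≤ q ∧ 1 ≤ s ∧ s ≤ 3 ∧ m = 3 * q + s :=
    ⟨(m - 1) / 3, m - 3 * ((m - 1) / 3), by omega, by omega, by omega, by omega⟩
  have hset : (Finset.Ico 1 (3 * q + s)).filter (fun j => 3 * j < 3 * q + s) =
      Finset.Ico 1 (q + 1) := by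
    ext j
    simp only [Finset.mem_filter, Finset.mem_Ico]
    omega
  rw [hset]
  rcases (by omega : q = 1 ∨ 2 ≤ q) with h1 | h1
  · subst h1
    rw [Finset.sum_Ico_succ_top (by omega), Finset.Ico_self, Finset.sum_empty, zero_add]
    rcases (by omega : s = 1 ∨ s = 2 ∨ s = 3) with h | h | h <;> subst h
    · have := Wt_one_four
      norm_num
      linarith
    · have := Wt_one_five
      norm_num
      linarith
    · have := Wt_one_six
      norm_num
      linarith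
  · have hterm : ∀ j ∈ Finset.Ico 1 (q + 1),
        (((3 * q + s) / (3 * j) : ℕ) : ℝ) * 2 ^ ((3 * q + s) / (3 * j)) * Wt j (3 * q + s) ≤
        0.268 * 0.01 ^ (q - j) * Wt j (3 * j) := by
      intro j hj
      have hj' := Finset.mem_Ico.mp hj
      have := term_le (j := j) (i := q - j) (s := s) hj'.1 hs hs3
      rwa [show 3 * j + (3 * (q - j) + s) = 3 * q + s by omega] at this
    refine (Finset.sum_le_sum hterm).trans ?_
    rw [Finset.sum_Ico_succ_top (by omega)]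
    have h2 : ∑ j ∈ Finset.Ico 1 q, 0.268 * 0.01 ^ (q - j) * Wt j (3 * j) ≤
        ∑ j ∈ Finset.Ico 1 q, (0.268 * 0.0466) * 0.01 ^ (q - j) := by
      apply Finset.sum_le_sum
      intro j hj
      have := tie_num j (Finset.mem_Ico.mp hj).1
      calc 0.268 * 0.01 ^ (q - j) * Wt j (3 * j) ≤ 0.268 * 0.01 ^ (q - j) * 0.0466 := by gcongr
        _ = _ := by ring
    rw [← Finset.mul_sum] at h2
    have h3 := geo_le q
    have h4 := D_le q h1
    rw [Nat.sub_self, pow_zero]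
    nlinarith

end Pool.Agent.Helper83.SD
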