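import Pool.Agent.Helper83.SD.Pars
import Pool.Agent.Helper83.SD.NumW

/-!
Project SD, module Alias: the total aliasing error (see the guide for the full proof).
-/

set_option autoImplicit false

open MeasureTheory Real

namespace Pool.Agent.Helper83.SD

namespace Alias

/-- `m` is above `m'` -/
def Hi (m m' : ℤ) : Prop := m'.natAbs < m.natAbs ∨ (m'.natAbs = m.natAbs ∧ m' < m)

instance (m m' : ℤ) : Decidable (Hi m m') := by unfold Hi; infer_instance

theorem geo4 (M : ℕ) : ∑ l ∈ Finset.range M, (1 / 4 : ℝ) ^ l ≤ 4 / 3 := by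
  rw [geom_sum_eq (by norm_num)]
  have h5 : (0 : ℝ) ≤ (1 / 4) ^ M := by positivity
  rw [div_le_iff_of_neg (by norm_num)]
  linarith

/-- sum over the elements of the progression on the same side -/
theorem sum_same (a r : ℕ) (ha : 1 ≤ a) (S : Finset ℤ) (M : ℕ)
    (hS : ∀ x ∈ S, ∃ l : ℕ, l < M ∧ x = (r : ℤ) + 2 * (a : ℤ) * ((l : ℤ) + 1)) :
    ∑ x ∈ S, (1 / 2 : ℝ) ^ (x.natAbs / a) ≤ (1 / 2) ^ (r / a) * (1 / 3) := by
  have hsub : S ⊆ (Finset.range M).image (fun l : ℕ => (r : ℤ) + 2 * (a : ℤ) * ((l : ℤ) + 1)) := by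
    intro x hx
    obtain ⟨l, hl, rfl⟩ := hS x hx
    exact Finset.mem_image_of_mem _ (Finset.mem_range.mpr hl)
  refine (Finset.sum_le_sum_of_subset_of_nonneg hsub fun _ _ _ => by positivity).trans ?_
  rw [Finset.sum_image]
  · have h1 : ∀ l ∈ Finset.range M,
        (1 / 2 : ℝ) ^ (((r : ℤ) + 2 * (a : ℤ) * ((l : ℤ) + 1)).natAbs / a) =
          (1 / 2) ^ (r / a) * (1 / 4) * (1 / 4) ^ l := by
      intro l _
      have h2 : ((r : ℤ) + 2 * (a : ℤ) * ((l : ℤ) + 1)).natAbs = r + a * (2 * l + 2) := by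
        have : (r : ℤ) + 2 * (a : ℤ) * ((l : ℤ) + 1) = ((r + a * (2 * l + 2) : ℕ) : ℤ) := by
          push_cast; ring
        rw [this, Int.natAbs_natCast]
      rw [h2, Nat.add_mul_div_left _ _ (by omega), pow_add, pow_add, pow_mul]
      norm_num
      ring
    rw [Finset.sum_congr rfl h1, ← Finset.mul_sum]
    have h2 := geo4 M
    have h3 : (0 : ℝ) ≤ (1 / 2) ^ (r / a) * (1 / 4) := by positivity
    calc _ ≤ (1 / 2 : ℝ) ^ (r / a) * (1 / 4) * (4 / 3) := by gcongr
      _ = _ := by ring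
  · intro l _ l' _ h
    have ha' : (a : ℤ) ≠ 0 := by exact_mod_cast (by omega : a ≠ 0)
    have h2 : (a : ℤ) * ((l : ℤ) - l') = 0 := by
      have h : (r : ℤ) + 2 * (a : ℤ) * ((l : ℤ) + 1) = (r : ℤ) + 2 * (a : ℤ) * ((l' : ℤ) + 1) := h
      linarith
    rcases mul_eq_zero.mp h2 with h3 | h3
    · exact absurd h3 ha'
    · omega

/-- sum over the elements of the progression on the opposite side -/
theorem sum_opp (a r C : ℕ) (ha : 1 ≤ a) (hC : r ≤ a * C) (hC' : a * C < r + a) (S : Finset ℤ)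
    (M : ℕ)
    (hS : ∀ x ∈ S, ∃ l : ℕ, l < M ∧ x = (r : ℤ) - 2 * (a : ℤ) * ((l : ℤ) + C)) :
    ∑ x ∈ S, (1 / 2 : ℝ) ^ (x.natAbs / a) ≤ (1 / 2) ^ C * (4 / 3) := by
  have hsub : S ⊆ (Finset.range M).image (fun l : ℕ => (r : ℤ) - 2 * (a : ℤ) * ((l : ℤ) + C)) := by
    intro x hx
    obtain ⟨l, hl, rfl⟩ := hS x hx
    exact Finset.mem_image_of_mem _ (Finset.mem_range.mpr hl)
  refine (Finset.sum_le_sum_of_subset_of_nonneg hsub fun _ _ _ => by positivity).trans ?_
  rw [Finset.sum_image]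
  · have h1 : ∀ l ∈ Finset.range M,
        (1 / 2 : ℝ) ^ (((r : ℤ) - 2 * (a : ℤ) * ((l : ℤ) + C)).natAbs / a) =
          (1 / 2) ^ C * (1 / 4) ^ l := by
      intro l _
      have h2 : ((r : ℤ) - 2 * (a : ℤ) * ((l : ℤ) + C)).natAbs = (a * C - r) + a * (2 * l + C) := by
        have : (r : ℤ) - 2 * (a : ℤ) * ((l : ℤ) + C) =
            -(((a * C - r) + a * (2 * l + C) : ℕ) : ℤ) := by
          rw [Nat.cast_add, Nat.cast_sub hC]
          push_cast; ring
        rw [this, Int.natAbs_neg, Int.natAbs_natCast]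
      have h3 : (a * C - r) / a = 0 := Nat.div_eq_of_lt (by omega)
      rw [h2, Nat.add_mul_div_left _ _ (by omega), h3, zero_add, pow_add, pow_mul]
      norm_num
      ring
    rw [Finset.sum_congr rfl h1, ← Finset.mul_sum]
    have h2 := geo4 M
    gcongr
  · intro l _ l' _ h
    have ha' : (a : ℤ) ≠ 0 := by exact_mod_cast (by omega : a ≠ 0)
    have h2 : (a : ℤ) * ((l : ℤ) - l') = 0 := by
      have h : (r : ℤ) - 2 * (a : ℤ) * ((l : ℤ) + C) = (r : ℤ) - 2 * (a : ℤ) * ((l' : ℤ) + C) := h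
      linarith
    rcases mul_eq_zero.mp h2 with h3 | h3
    · exact absurd h3 ha'
    · omega

/-- weights of the elements above a given one, nonnegative case -/
theorem sum_hi_nonneg (t a r : ℕ) (ha : 1 ≤ a) (S : Finset ℤ)
    (hS : ∀ x ∈ S, x ≠ (r : ℤ) ∧ (2 * (a : ℤ)) ∣ x - r ∧ r ≤ x.natAbs ∧ x.natAbs ≤ t) :
    ∑ x ∈ S, (1 / 2 : ℝ) ^ (x.natAbs / a) ≤ 1 := by
  classical
  have haZ : (1 : ℤ) ≤ a := by exact_mod_cast ha
  rw [← Finset.sum_filter_add_sum_filter_not S (fun x => (r : ℤ) < x)]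
  -- same side
  have h1 : ∑ x ∈ S.filter (fun x => (r : ℤ) < x), (1 / 2 : ℝ) ^ (x.natAbs / a) ≤
      (1 / 2) ^ (r / a) * (1 / 3) := by
    refine sum_same a r ha _ (t + 1) ?_
    intro x hx
    rw [Finset.mem_filter] at hx
    obtain ⟨h1, ⟨k, hk⟩, h3, h4⟩ := hS x hx.1
    have h5 : 0 < k := by
      by_contra h
      push Not at h
      nlinarith [hx.2]
    refine ⟨(k - 1).toNat, ?_, ?_⟩
    · have h6 : k ≤ t := by
        have : x ≤ t := by omega
        nlinarith
      omega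
    · have h6 : (((k - 1).toNat : ℕ) : ℤ) = k - 1 := Int.toNat_of_nonneg (by omega)
      rw [h6]
      linarith
  rcases Nat.eq_zero_or_pos r with h0 | h0
  · -- r = 0
    subst h0
    have h2 : ∑ x ∈ S.filter (fun x => ¬ ((0 : ℕ) : ℤ) < x), (1 / 2 : ℝ) ^ (x.natAbs / a) ≤
        (1 / 2) ^ (0 / a) * (1 / 3) := by
      have h3 : ∑ x ∈ S.filter (fun x => ¬ ((0 : ℕ) : ℤ) < x), (1 / 2 : ℝ) ^ (x.natAbs / a) =
          ∑ x ∈ (S.filter (fun x => ¬ ((0 : ℕ) : ℤ) < x)).image (fun x => -x),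
            (1 / 2 : ℝ) ^ (x.natAbs / a) := by
        rw [Finset.sum_image (fun x _ y _ h => by simpa using h)]
        refine Finset.sum_congr rfl fun x _ => ?_
        rw [Int.natAbs_neg]
      rw [h3]
      refine sum_same a 0 ha _ (t + 1) ?_
      intro y hy
      obtain ⟨x, hx, rfl⟩ := Finset.mem_image.mp hy
      rw [Finset.mem_filter] at hx
      obtain ⟨h1, ⟨k, hk⟩, h3, h4⟩ := hS x hx.1
      have hx2 := hx.2
      push_cast at hk h1 hx2
      have h5 : k < 0 := by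
        by_contra h
        push Not at h
        have : 0 ≤ x := by nlinarith
        omega
      refine ⟨(-k - 1).toNat, ?_, ?_⟩
      · have h6 : -k ≤ t := by
          have : -x ≤ t := by omega
          nlinarith
        omega
      · have h6 : (((-k - 1).toNat : ℕ) : ℤ) = -k - 1 := Int.toNat_of_nonneg (by omega)
        rw [h6]
        push_cast
        linarith
    simp only [Nat.zero_div, pow_zero] at h1 h2
    linarith
  · -- r > 0
    obtain ⟨C, hC, hC'⟩ : ∃ C : ℕ, r ≤ a * C ∧ a * C < r + a := by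
      refine ⟨(r + a - 1) / a, ?_, ?_⟩
      · have := Nat.lt_mul_div_succ (r + a - 1) (by omega : 0 < a)
        rw [Nat.mul_succ] at this
        omega
      · have := Nat.mul_div_le (r + a - 1) a
        omega
    have h2 : ∑ x ∈ S.filter (fun x => ¬ (r : ℤ) < x), (1 / 2 : ℝ) ^ (x.natAbs / a) ≤
        (1 / 2) ^ C * (4 / 3) := by
      refine sum_opp a r C ha hC hC' _ (t + 1) ?_
      intro x hx
      rw [Finset.mem_filter] at hx
      obtain ⟨h1, ⟨k, hk⟩, h3, h4⟩ := hS x hx.1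
      have hx2 := hx.2
      -- x < r, |x| ≥ r, so x ≤ -r
      have h5 : x ≤ -(r : ℤ) := by omega
      have hCZ : (a : ℤ) * C < r + a := by exact_mod_cast hC'
      have h6 : (C : ℤ) ≤ -k := by
        have h7 : (r : ℤ) ≤ a * (-k) := by nlinarith
        have h8 : (a : ℤ) * C < a * (-k + 1) := by nlinarith
        have h9 := lt_of_mul_lt_mul_left h8 (by omega)
        omega
      refine ⟨(-k - C).toNat, ?_, ?_⟩
      · have h7 : -k ≤ t := by
          have h8 : (r : ℤ) - x ≤ 2 * t := by omega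
          nlinarith
        omega
      · have h7 : (((-k - C).toNat : ℕ) : ℤ) = -k - C := Int.toNat_of_nonneg (by omega)
        rw [h7]
        linarith
    have hCpos : 1 ≤ C := by
      rcases Nat.eq_zero_or_pos C with h | h
      · subst h; omega
      · exact h
    have hcC : C ≤ r / a + 1 := by
      have h5 : a * C < a * (r / a + 1 + 1) := by
        have := Nat.lt_mul_div_succ r (by omega : 0 < a)
        have h6 : a * (r / a + 1 + 1) = a * (r / a + 1) + a := by ring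
        have h7 : r < a * (r / a + 1) := this
        omega
      have := Nat.lt_of_mul_lt_mul_left h5
      omega
    have hcC' : r / a ≤ C := by
      have h5 := Nat.mul_div_le r a
      have h6 : a * (r / a) ≤ a * C := h5.trans hC
      exact Nat.le_of_mul_le_mul_left h6 (by omega)
    rcases Nat.lt_or_ge (r / a) C with h | h
    · have h5 : C = r / a + 1 := by omega
      rw [h5, pow_succ] at h2
      have h6 : (1 / 2 : ℝ) ^ (r / a) ≤ 1 := pow_le_one₀ (by norm_num) (by norm_num)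
      linarith
    · have h5 : r / a = C := by omega
      rw [h5] at h1
      have h6 : (1 / 2 : ℝ) ^ C ≤ (1 / 2) ^ 1 := pow_le_pow_of_le_one (by norm_num) (by norm_num) hCpos
      norm_num at h6
      linarith

/-- weights of the elements above a given one -/
theorem sum_hi (t a : ℕ) (m : ℤ) (ha : 1 ≤ a) (S : Finset ℤ)
    (hS : ∀ x ∈ S, x ≠ m ∧ (2 * (a : ℤ)) ∣ x - m ∧ m.natAbs ≤ x.natAbs ∧ x.natAbs ≤ t) :
    ∑ x ∈ S, (1 / 2 : ℝ) ^ (x.natAbs / a) ≤ 1 := by
  classical
  rcases le_total 0 m with h | h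
  · refine sum_hi_nonneg t a m.natAbs ha S ?_
    intro x hx
    obtain ⟨h1, h2, h3, h4⟩ := hS x hx
    have h5 : ((m.natAbs : ℕ) : ℤ) = m := Int.natAbs_of_nonneg h
    rw [h5]
    exact ⟨h1, h2, h3, h4⟩
  · have h3 : ∑ x ∈ S, (1 / 2 : ℝ) ^ (x.natAbs / a) =
        ∑ x ∈ S.image (fun x => -x), (1 / 2 : ℝ) ^ (x.natAbs / a) := by
      rw [Finset.sum_image (fun x _ y _ h => by simpa using h)]
      refine Finset.sum_congr rfl fun x _ => ?_
      rw [Int.natAbs_neg]
    rw [h3]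
    refine sum_hi_nonneg t a m.natAbs ha _ ?_
    intro y hy
    obtain ⟨x, hx, rfl⟩ := Finset.mem_image.mp hy
    obtain ⟨h1, ⟨k, hk⟩, h3, h4⟩ := hS x hx
    have h5 : ((m.natAbs : ℕ) : ℤ) = -m := by omega
    rw [h5, Int.natAbs_neg]
    refine ⟨fun h => h1 (by linarith), ⟨-k, by linarith⟩, h3, h4⟩

/-- number of elements below a given one -/
theorem card_lo (a : ℕ) (m : ℤ) (ha : 1 ≤ a) (S : Finset ℤ)
    (hS : ∀ x ∈ S, x ≠ m ∧ (2 * (a : ℤ)) ∣ m - x ∧ Hi m x) :
    S.card ≤ m.natAbs / a := by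
  classical
  have haZ : (1 : ℤ) ≤ a := by exact_mod_cast ha
  have hdiv : ∀ k : ℤ, (a : ℤ) * k ≤ m.natAbs → k ≤ ((m.natAbs / a : ℕ) : ℤ) := by
    intro k hk
    rw [Int.natCast_ediv]
    exact (Int.le_ediv_iff_mul_le (by omega)).mpr (by linarith)
  rcases le_total 0 m with h | h
  · have hsub : S ⊆ (Finset.range (m.natAbs / a)).image
        (fun l : ℕ => m - 2 * (a : ℤ) * ((l : ℤ) + 1)) := by
      intro x hx
      obtain ⟨h1, ⟨k, hk⟩, h3⟩ := hS x hx
      unfold Hi at h3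
      have h4 : x < m := by omega
      have h5 : -m ≤ x := by omega
      have h6 : 0 < k := by
        by_contra h
        push Not at h
        nlinarith
      have h7 := hdiv k (by
        have : ((m.natAbs : ℕ) : ℤ) = m := Int.natAbs_of_nonneg h
        rw [this]; nlinarith)
      refine Finset.mem_image.mpr ⟨(k - 1).toNat, ?_, ?_⟩
      · rw [Finset.mem_range]; omega
      · have h8 : (((k - 1).toNat : ℕ) : ℤ) = k - 1 := Int.toNat_of_nonneg (by omega)
        simp only [h8]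
        linarith
    refine (Finset.card_le_card hsub).trans ?_
    refine Finset.card_image_le.trans ?_
    rw [Finset.card_range]
  · have hsub : S ⊆ (Finset.range (m.natAbs / a)).image
        (fun l : ℕ => m + 2 * (a : ℤ) * ((l : ℤ) + 1)) := by
      intro x hx
      obtain ⟨h1, ⟨k, hk⟩, h3⟩ := hS x hx
      unfold Hi at h3
      have h4 : m < x := by omega
      have h5 : x < -m := by omega
      have h6 : k < 0 := by
        by_contra h
        push Not at h
        nlinarith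
      have h7 := hdiv (-k) (by
        have : ((m.natAbs : ℕ) : ℤ) = -m := by omega
        rw [this]; nlinarith)
      refine Finset.mem_image.mpr ⟨(-k - 1).toNat, ?_, ?_⟩
      · rw [Finset.mem_range]; omega
      · have h8 : (((-k - 1).toNat : ℕ) : ℤ) = -k - 1 := Int.toNat_of_nonneg (by omega)
        simp only [h8]
        linarith
    refine (Finset.card_le_card hsub).trans ?_
    refine Finset.card_image_le.trans ?_
    rw [Finset.card_range]

/-- the aliasing sum of one ring -/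
theorem cross_le (t j : ℕ) (hj : 1 ≤ j) (F : ℤ → ℝ) {b : ℝ} (hb : 0 < b) :
    ∑ m ∈ Finset.Icc (-(t : ℤ)) t,
      ∑ m' ∈ (Finset.Icc (-(t : ℤ)) t).filter (fun m' => m' ≠ m ∧ ((6 * j : ℕ) : ℤ) ∣ m - m'),
        F m * F m' ≤
    ∑ m ∈ (Finset.Icc (-(t : ℤ)) t).filter (fun m => m.natAbs = 3 * j), F m ^ 2
      + b * ∑ m ∈ Finset.Icc (-(t : ℤ)) t, F m ^ 2
      + b⁻¹ * ∑ m ∈ (Finset.Icc (-(t : ℤ)) t).filter (fun m => 3 * j < m.natAbs),
          ((m.natAbs / (3 * j) : ℕ) : ℝ) * 2 ^ (m.natAbs / (3 * j)) * F m ^ 2 := by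
  classical
  obtain ⟨I, hI⟩ : ∃ I : Finset ℤ, I = Finset.Icc (-(t : ℤ)) t := ⟨_, rfl⟩
  rw [← hI]
  have hIt : ∀ m ∈ I, m.natAbs ≤ t := by
    intro m hm
    rw [hI, Finset.mem_Icc] at hm
    omega
  have hjZ : (1 : ℤ) ≤ j := by exact_mod_cast hj
  -- the relation
  let P : ℤ → ℤ → Prop := fun m m' => m' ≠ m ∧ ((6 * j : ℕ) : ℤ) ∣ m - m'
  have hPs : ∀ m m', P m m' ↔ P m' m := by
    intro m m'
    constructor
    · rintro ⟨h1, h2⟩
      exact ⟨h1.symm, by rw [← neg_sub]; exact (dvd_neg.mpr h2)⟩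
    · rintro ⟨h1, h2⟩
      exact ⟨h1.symm, by rw [← neg_sub]; exact (dvd_neg.mpr h2)⟩
  -- split into the two orientations
  have hsplit : ∑ m ∈ I, ∑ m' ∈ I.filter (fun m' => P m m'), F m * F m' =
      ∑ m ∈ I, ∑ m' ∈ I.filter (fun m' => P m m' ∧ Hi m m'), 2 * (F m * F m') := by
    have h1 : ∀ m ∈ I, ∑ m' ∈ I.filter (fun m' => P m m'), F m * F m' =
        ∑ m' ∈ I, (if P m m' ∧ Hi m m' then F m * F m' else 0) +
        ∑ m' ∈ I, (if P m' m ∧ Hi m' m then F m * F m' else 0) := by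
      intro m _
      rw [Finset.sum_filter, ← Finset.sum_add_distrib]
      refine Finset.sum_congr rfl fun m' _ => ?_
      by_cases hP : P m m'
      · have hP' := (hPs m m').mp hP
        by_cases hH : Hi m m'
        · have hH' : ¬ Hi m' m := by
            unfold Hi at hH ⊢
            omega
          rw [if_pos hP, if_pos ⟨hP, hH⟩, if_neg (fun h => hH' h.2), add_zero]
        · have hH' : Hi m' m := by
            have := hP.1
            unfold Hi at hH ⊢
            omega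
          rw [if_pos hP, if_neg (fun h => hH h.2), if_pos ⟨hP', hH'⟩, zero_add]
      · have hP' : ¬ P m' m := fun h => hP ((hPs m m').mpr h)
        rw [if_neg hP, if_neg (fun h => hP h.1), if_neg (fun h => hP' h.1), add_zero]
    rw [Finset.sum_congr rfl h1, Finset.sum_add_distrib]
    have h2 : ∑ m ∈ I, ∑ m' ∈ I, (if P m' m ∧ Hi m' m then F m * F m' else 0) =
        ∑ m ∈ I, ∑ m' ∈ I, (if P m m' ∧ Hi m m' then F m * F m' else 0) := by
      rw [Finset.sum_comm]
      refine Finset.sum_congr rfl fun m _ => Finset.sum_congr rfl fun m' _ => ?_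
      rw [mul_comm (F m') (F m)]
    rw [h2, ← Finset.sum_add_distrib]
    refine Finset.sum_congr rfl fun m _ => ?_
    rw [Finset.sum_filter, ← Finset.sum_add_distrib]
    refine Finset.sum_congr rfl fun m' _ => ?_
    split_ifs <;> ring
  -- facts on related pairs
  have hfact : ∀ m m', P m m' → Hi m m' →
      (m = (3 * j : ℕ) ∧ m' = -((3 * j : ℕ) : ℤ)) ∨ 3 * j < m.natAbs := by
    intro m m' hP hH
    obtain ⟨h1, k, hk⟩ := hP
    unfold Hi at hH
    by_cases h3 : 3 * j < m.natAbs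
    · exact Or.inr h3
    · left
      have hk0 : k ≠ 0 := by
        rintro rfl
        apply h1
        linarith
      have h4 : 6 * (j : ℤ) ≤ |m - m'| := by
        rw [hk, abs_mul]
        push_cast
        have h5 : 1 ≤ |k| := Int.one_le_abs hk0
        have h6 : |(6 * (j : ℤ))| = 6 * j := abs_of_nonneg (by positivity)
        rw [h6]
        nlinarith
      have h5 : (6 * j : ℕ) ≤ (m - m').natAbs := by
        rw [← Nat.cast_le (α := ℤ), Int.natCast_natAbs]
        push_cast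
        exact h4
      push_cast
      omega
  -- pointwise bound
  have hpt : ∀ m ∈ I, ∀ m', P m m' → Hi m m' → 2 * (F m * F m') ≤
      (if m.natAbs = 3 * j then F m ^ 2 + F (-m) ^ 2 else 0) +
      (if 3 * j < m.natAbs then b * ((1 / 2) ^ (m.natAbs / (3 * j)) * F m' ^ 2) else 0) +
      (if 3 * j < m.natAbs then b⁻¹ * (2 ^ (m.natAbs / (3 * j)) * F m ^ 2) else 0) := by
    intro m _ m' hP hH
    rcases hfact m m' hP hH with ⟨h1, h2⟩ | h1
    · have h3 : m.natAbs = 3 * j := by rw [h1, Int.natAbs_natCast]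
      have h4 : m' = -m := by rw [h1, h2]
      rw [if_pos h3, if_neg (by omega), if_neg (by omega), h4]
      nlinarith [sq_nonneg (F m - F (-m))]
    · rw [if_neg (by omega), if_pos h1, if_pos h1, zero_add]
      obtain ⟨k, hk⟩ : ∃ k : ℕ, k = m.natAbs / (3 * j) := ⟨_, rfl⟩
      rw [← hk]
      have h5 : (0 : ℝ) < 2 ^ k := by positivity
      have h6 : (1 / 2 : ℝ) ^ k = (2 ^ k)⁻¹ := by rw [one_div, inv_pow]
      rw [h6]
      have h7 : b * ((2 ^ k)⁻¹ * F m' ^ 2) + b⁻¹ * (2 ^ k * F m ^ 2) - 2 * (F m * F m') =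
          b * (2 ^ k)⁻¹ * (F m' - b⁻¹ * 2 ^ k * F m) ^ 2 := by
        field_simp
        ring
      have h8 : 0 ≤ b * (2 ^ k)⁻¹ * (F m' - b⁻¹ * 2 ^ k * F m) ^ 2 := by positivity
      linarith
  change ∑ m ∈ I, ∑ m' ∈ I.filter (fun m' => P m m'), F m * F m' ≤ _
  rw [hsplit]
  have hsum : ∑ m ∈ I, ∑ m' ∈ I.filter (fun m' => P m m' ∧ Hi m m'), 2 * (F m * F m') ≤
      ∑ m ∈ I, ∑ m' ∈ I.filter (fun m' => P m m' ∧ Hi m m'),
        (if m.natAbs = 3 * j then F m ^ 2 + F (-m) ^ 2 else 0) +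
      ∑ m ∈ I, ∑ m' ∈ I.filter (fun m' => P m m' ∧ Hi m m'),
        (if 3 * j < m.natAbs then b * ((1 / 2) ^ (m.natAbs / (3 * j)) * F m' ^ 2) else 0) +
      ∑ m ∈ I, ∑ m' ∈ I.filter (fun m' => P m m' ∧ Hi m m'),
        (if 3 * j < m.natAbs then b⁻¹ * (2 ^ (m.natAbs / (3 * j)) * F m ^ 2) else 0) := by
    rw [← Finset.sum_add_distrib, ← Finset.sum_add_distrib]
    refine Finset.sum_le_sum fun m hm => ?_
    rw [← Finset.sum_add_distrib, ← Finset.sum_add_distrib]
    refine Finset.sum_le_sum fun m' hm' => ?_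
    rw [Finset.mem_filter] at hm'
    exact hpt m hm m' hm'.2.1 hm'.2.2
  refine hsum.trans ?_
  refine add_le_add (add_le_add ?_ ?_) ?_
  · -- ties
    have h1 : ∀ m ∈ I, ∑ m' ∈ I.filter (fun m' => P m m' ∧ Hi m m'),
        (if m.natAbs = 3 * j then F m ^ 2 + F (-m) ^ 2 else 0) ≤
        if m = (3 * j : ℕ) then F m ^ 2 + F (-m) ^ 2 else 0 := by
      intro m _
      by_cases h2 : m = (3 * j : ℕ)
      · rw [if_pos h2]
        have h3 : m.natAbs = 3 * j := by rw [h2, Int.natAbs_natCast]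
        rw [if_pos h3, Finset.sum_const, nsmul_eq_mul]
        have h4 : (I.filter (fun m' => P m m' ∧ Hi m m')).card ≤ 1 := by
          rw [Finset.card_le_one]
          intro x hx y hy
          rw [Finset.mem_filter] at hx hy
          rcases hfact m x hx.2.1 hx.2.2 with ⟨_, e1⟩ | e1
          · rcases hfact m y hy.2.1 hy.2.2 with ⟨_, e2⟩ | e2
            · rw [e1, e2]
            · omega
          · omega
        have h5 : ((I.filter (fun m' => P m m' ∧ Hi m m')).card : ℝ) ≤ 1 := by exact_mod_cast h4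
        have h6 : 0 ≤ F m ^ 2 + F (-m) ^ 2 := by positivity
        nlinarith
      · rw [if_neg h2]
        refine le_of_eq (Finset.sum_eq_zero fun m' hm' => ?_)
        rw [Finset.mem_filter] at hm'
        rcases hfact m m' hm'.2.1 hm'.2.2 with ⟨e1, _⟩ | e1
        · exact absurd e1 h2
        · rw [if_neg (by omega)]
    refine (Finset.sum_le_sum h1).trans ?_
    rw [← Finset.sum_filter]
    by_cases h2 : ((3 * j : ℕ) : ℤ) ∈ I
    · have h3 : I.filter (fun m => m = ((3 * j : ℕ) : ℤ)) = {((3 * j : ℕ) : ℤ)} := by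
        ext x
        rw [Finset.mem_filter, Finset.mem_singleton]
        constructor
        · exact fun h => h.2
        · rintro rfl
          exact ⟨h2, rfl⟩
      rw [h3, Finset.sum_singleton]
      have h4 : ({((3 * j : ℕ) : ℤ), -((3 * j : ℕ) : ℤ)} : Finset ℤ) ⊆
          I.filter (fun m => m.natAbs = 3 * j) := by
        intro x hx
        rw [Finset.mem_insert, Finset.mem_singleton] at hx
        rw [Finset.mem_filter]
        rw [hI, Finset.mem_Icc] at h2 ⊢
        rcases hx with rfl | rfl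
        · exact ⟨h2, Int.natAbs_natCast _⟩
        · exact ⟨by omega, by rw [Int.natAbs_neg, Int.natAbs_natCast]⟩
      refine le_trans (le_of_eq ?_)
        (Finset.sum_le_sum_of_subset_of_nonneg h4 fun _ _ _ => sq_nonneg _)
      rw [Finset.sum_pair]
      push_cast
      omega
    · have h3 : I.filter (fun m => m = ((3 * j : ℕ) : ℤ)) = ∅ := by
        rw [Finset.filter_eq_empty_iff]
        rintro x hx rfl
        exact h2 hx
      rw [h3, Finset.sum_empty]
      exact Finset.sum_nonneg fun _ _ => sq_nonneg _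
  · -- low elements
    have h1 : ∑ m ∈ I, ∑ m' ∈ I.filter (fun m' => P m m' ∧ Hi m m'),
        (if 3 * j < m.natAbs then b * ((1 / 2) ^ (m.natAbs / (3 * j)) * F m' ^ 2) else 0) =
        ∑ m' ∈ I, b * F m' ^ 2 *
          ∑ m ∈ I.filter (fun m => (P m m' ∧ Hi m m') ∧ 3 * j < m.natAbs),
            (1 / 2 : ℝ) ^ (m.natAbs / (3 * j)) := by
      have h2 : ∀ m ∈ I, ∑ m' ∈ I.filter (fun m' => P m m' ∧ Hi m m'),
          (if 3 * j < m.natAbs then b * ((1 / 2) ^ (m.natAbs / (3 * j)) * F m' ^ 2) else 0) =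
          ∑ m' ∈ I, (if (P m m' ∧ Hi m m') ∧ 3 * j < m.natAbs then
            b * ((1 / 2) ^ (m.natAbs / (3 * j)) * F m' ^ 2) else 0) := by
        intro m _
        rw [Finset.sum_filter]
        refine Finset.sum_congr rfl fun m' _ => ?_
        by_cases c1 : P m m' ∧ Hi m m'
        · by_cases c2 : 3 * j < m.natAbs
          · rw [if_pos c1, if_pos c2, if_pos ⟨c1, c2⟩]
          · rw [if_pos c1, if_neg c2, if_neg (fun h => c2 h.2)]
        · rw [if_neg c1, if_neg (fun h => c1 h.1)]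
      rw [Finset.sum_congr rfl h2, Finset.sum_comm]
      refine Finset.sum_congr rfl fun m' _ => ?_
      rw [Finset.sum_filter, Finset.mul_sum]
      refine Finset.sum_congr rfl fun m _ => ?_
      split_ifs
      · ring
      · ring
    rw [h1, Finset.mul_sum]
    refine Finset.sum_le_sum fun m' _ => ?_
    have h2 := sum_hi t (3 * j) m' (by omega)
      (I.filter (fun m => (P m m' ∧ Hi m m') ∧ 3 * j < m.natAbs)) (by
        intro x hx
        rw [Finset.mem_filter] at hx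
        obtain ⟨hx1, ⟨⟨h2, h3⟩, h4⟩, h5⟩ := hx
        refine ⟨h2.symm, ?_, ?_, hIt x hx1⟩
        · push_cast at h3 ⊢
          have : (2 * (3 * (j : ℤ))) = 6 * j := by ring
          rw [this]
          exact h3
        · unfold Hi at h4
          omega)
    have h3 : 0 ≤ b * F m' ^ 2 := by positivity
    calc _ ≤ b * F m' ^ 2 * 1 := by gcongr
      _ = _ := by ring
  · -- high elements
    rw [Finset.sum_filter, Finset.mul_sum]
    refine Finset.sum_le_sum fun m _ => ?_
    by_cases c : 3 * j < m.natAbs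
    · rw [if_pos c, if_pos c, Finset.sum_const, nsmul_eq_mul]
      have h2 := card_lo (3 * j) m (by omega) (I.filter (fun m' => P m m' ∧ Hi m m')) (by
        intro x hx
        rw [Finset.mem_filter] at hx
        obtain ⟨hx1, ⟨h2, h3⟩, h4⟩ := hx
        refine ⟨h2, ?_, h4⟩
        push_cast at h3 ⊢
        have : (2 * (3 * (j : ℤ))) = 6 * j := by ring
        rw [this]
        exact h3)
      have h3 : ((I.filter (fun m' => P m m' ∧ Hi m m')).card : ℝ) ≤
          ((m.natAbs / (3 * j) : ℕ) : ℝ) := by exact_mod_cast h2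
      have h4 : 0 ≤ b⁻¹ * (2 ^ (m.natAbs / (3 * j)) * F m ^ 2) := by positivity
      calc _ ≤ ((m.natAbs / (3 * j) : ℕ) : ℝ) * (b⁻¹ * (2 ^ (m.natAbs / (3 * j)) * F m ^ 2)) := by
            gcongr
        _ = _ := by ring
    · rw [if_neg c, if_neg c, Finset.sum_const_zero, mul_zero]

theorem Fm_sq {u v : ℤ → Polynomial ℝ} {m : ℤ} {z : ℝ} (hz : z ^ 2 ≤ 1) :
    Fm u v m z ^ 2 =
      (1 - z ^ 2) ^ m.natAbs * (((u m).eval z) ^ 2 + ((v m).eval z) ^ 2) := by
  unfold Fm
  have h1 : 0 ≤ 1 - z ^ 2 := by linarith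
  exact Real.sq_sqrt (by positivity)

theorem nmode_nonneg (u v : ℤ → Polynomial ℝ) (m : ℤ) : 0 ≤ nmode u v m := by
  unfold nmode
  exact add_nonneg (nrm_nonneg _ _) (nrm_nonneg _ _)

theorem Wt_nonneg (j m : ℕ) : 0 ≤ Wt j m := by
  unfold Wt
  positivity

theorem Fm_bound {t J : ℕ} {p : Poly} {u v : ℤ → Polynomial ℝ} (ht : 1000 ≤ t)
    (hR : Reg t J) (h : Modes t p u v) {j : ℕ} (hj : j ≤ J) {m : ℤ} (hm : m.natAbs ≤ t) {z : ℝ}
    (hz : z = zr J j ∨ z = -(zr J j)) :
    6 * (j : ℝ) / (6 * (J : ℝ) ^ 2 + 2) * Fm u v m z ^ 2 ≤ Wt j m.natAbs * nmode u v m := by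
  obtain ⟨k, hk⟩ : ∃ k : ℕ, k = m.natAbs := ⟨_, rfl⟩
  have hzz : z ^ 2 = (zr J j) ^ 2 := by rcases hz with rfl | rfl <;> ring
  have hz1 : z ^ 2 ≤ 1 := by rw [hzz]; exact zr_sq_le hj
  have hL := L2_pos J
  have hT := T_le ht hR
  have hs : 1 - z ^ 2 ≤ 2 * ((j : ℝ) ^ 2 + 1 / 6) / L2 J := by rw [hzz]; exact one_sub_zr_sq hj
  have hs0 : 0 ≤ 1 - z ^ 2 := by linarith
  rw [Fm_sq hz1, ← hk]
  have e : (((t : ℝ) + 1) ^ 2) ^ (k + 2 * 0 + 1) /
      (((k : ℝ) + 2 * ((0 : ℕ) : ℝ) + 1) * 4 ^ (k + 0) * ((k + 0).factorial : ℝ) ^ 2) =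
      (((t : ℝ) + 1) ^ 2) ^ (k + 1) / (((k : ℝ) + 1) * 4 ^ k * (k.factorial : ℝ) ^ 2) := by
    simp
  have hu := mode_bound t k 0 (by omega) (u m) (by rw [hk]; exact h.degu m hm) z hz1
  have hv := mode_bound t k 0 (by omega) (v m) (by rw [hk]; exact h.degv m hm) z hz1
  rw [e, Function.iterate_zero, id] at hu hv
  obtain ⟨D, hD⟩ : ∃ D : ℝ, D = ((k : ℝ) + 1) * 4 ^ k * (k.factorial : ℝ) ^ 2 := ⟨_, rfl⟩
  have hD0 : 0 < D := by rw [hD]; positivity
  rw [← hD] at hu hv
  have hn : nmode u v m = nrm k (u m) + nrm k (v m) := by unfold nmode; rw [hk]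
  have hn0 : 0 ≤ nmode u v m := nmode_nonneg u v m
  have h1 : ((u m).eval z) ^ 2 + ((v m).eval z) ^ 2 ≤
      (((t : ℝ) + 1) ^ 2) ^ (k + 1) / D * nmode u v m := by
    rw [hn, mul_add]
    exact add_le_add hu hv
  have h2 : (((t : ℝ) + 1) ^ 2) ^ (k + 1) ≤ (2.41 * L2 J) ^ (k + 1) :=
    pow_le_pow_left₀ (by positivity) hT _
  have h3 : (1 - z ^ 2) ^ k ≤ (2 * ((j : ℝ) ^ 2 + 1 / 6) / L2 J) ^ k :=
    pow_le_pow_left₀ hs0 hs _
  rw [N_eq]
  have h4 : (1 - z ^ 2) ^ k * (((u m).eval z) ^ 2 + ((v m).eval z) ^ 2) ≤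
      (2 * ((j : ℝ) ^ 2 + 1 / 6) / L2 J) ^ k * ((2.41 * L2 J) ^ (k + 1) / D * nmode u v m) := by
    have h5 : (((t : ℝ) + 1) ^ 2) ^ (k + 1) / D * nmode u v m ≤
        (2.41 * L2 J) ^ (k + 1) / D * nmode u v m := by gcongr
    have h6 : 0 ≤ ((u m).eval z) ^ 2 + ((v m).eval z) ^ 2 := by positivity
    have h7 := h1.trans h5
    gcongr
  have h5 : 6 * (j : ℝ) / (6 * L2 J) *
      ((2 * ((j : ℝ) ^ 2 + 1 / 6) / L2 J) ^ k * ((2.41 * L2 J) ^ (k + 1) / D * nmode u v m)) =
      Wt j k * nmode u v m := by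
    unfold Wt
    rw [hD]
    have e1 : (1.205 * ((j : ℝ) ^ 2 + 1 / 6)) ^ k =
        (2 * ((j : ℝ) ^ 2 + 1 / 6)) ^ k * 2.41 ^ k / 4 ^ k := by
      rw [← mul_pow, ← div_pow]
      congr 1
      ring
    rw [e1, div_pow, mul_pow (2.41 : ℝ), pow_succ (2.41 : ℝ), pow_succ (L2 J)]
    have hLk : (L2 J) ^ k ≠ 0 := (pow_pos hL k).ne'
    field_simp
  rw [← h5]
  gcongr

end Alias

open Alias in
theorem alias_bound {t J : ℕ} {p : Poly} {u v : ℤ → Polynomial ℝ} (ht : 1000 ≤ t)
    (hR : Reg t J) (h : Modes t p u v) :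
    AL t J u v ≤ 0.2153 * mu (p ^ 2) + 0.1082 * SZ J (fun z => (modeA t u v).eval z) := by
  classical
  obtain ⟨I, hI⟩ : ∃ I : Finset ℤ, I = Finset.Icc (-(t : ℤ)) t := ⟨_, rfl⟩
  have hIt : ∀ m ∈ I, m.natAbs ≤ t := by
    intro m hm
    rw [hI, Finset.mem_Icc] at hm
    omega
  have hN : (0 : ℝ) < 6 * (J : ℝ) ^ 2 + 2 := by positivity
  obtain ⟨c, hc⟩ : ∃ c : ℕ → ℝ, ∀ j, c j = 6 * (j : ℝ) / (6 * (J : ℝ) ^ 2 + 2) :=
    ⟨_, fun _ => rfl⟩
  have hc0 : ∀ j, 0 ≤ c j := fun j => by rw [hc]; positivity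
  -- modeA is nonnegative
  have hmA : ∀ z : ℝ, z ^ 2 ≤ 1 → (modeA t u v).eval z = ∑ m ∈ I, Fm u v m z ^ 2 := by
    intro z hz
    rw [hI]
    exact modeA_Fm hz
  have hmA0 : ∀ z : ℝ, z ^ 2 ≤ 1 → 0 ≤ (modeA t u v).eval z := by
    intro z hz
    rw [hmA z hz]
    exact Finset.sum_nonneg fun _ _ => sq_nonneg _
  -- one ring
  have hring : ∀ j ∈ Finset.Ico 1 J, ∀ z : ℝ, (z = zr J j ∨ z = -(zr J j)) →
      c j * cross t (6 * j) u v z ≤
        ∑ m ∈ I, (if m.natAbs = 3 * j then Wt j m.natAbs * nmode u v m else 0)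
        + 0.1082 * (c j * (modeA t u v).eval z)
        + 0.1082⁻¹ * ∑ m ∈ I, (if 3 * j < m.natAbs then
          ((m.natAbs / (3 * j) : ℕ) : ℝ) * 2 ^ (m.natAbs / (3 * j)) *
            (Wt j m.natAbs * nmode u v m) else 0) := by
    intro j hj z hz
    rw [Finset.mem_Ico] at hj
    have hzz : z ^ 2 = (zr J j) ^ 2 := by rcases hz with rfl | rfl <;> ring
    have hz1 : z ^ 2 ≤ 1 := by rw [hzz]; exact zr_sq_le hj.2.le
    have h1 := cross_le t j hj.1 (fun m => Fm u v m z) (b := 0.1082) (by norm_num)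
    rw [← hI] at h1
    have h2 : cross t (6 * j) u v z = ∑ m ∈ I, ∑ m' ∈ I.filter
        (fun m' => m' ≠ m ∧ ((6 * j : ℕ) : ℤ) ∣ m - m'), Fm u v m z * Fm u v m' z := by
      unfold cross
      rw [← hI]
    rw [← h2] at h1
    have h3 := mul_le_mul_of_nonneg_left h1 (hc0 j)
    refine h3.trans ?_
    rw [← hmA z hz1]
    rw [mul_add, mul_add]
    have hF : ∀ m ∈ I, c j * Fm u v m z ^ 2 ≤ Wt j m.natAbs * nmode u v m := by
      intro m hm
      rw [hc]
      exact Fm_bound ht hR h hj.2.le (hIt m hm) hz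
    refine add_le_add (add_le_add ?_ (le_of_eq (by ring))) ?_
    · rw [Finset.sum_filter, Finset.mul_sum]
      refine Finset.sum_le_sum fun m hm => ?_
      split_ifs
      · exact hF m hm
      · rw [mul_zero]
    · rw [Finset.sum_filter, mul_left_comm, Finset.mul_sum]
      refine mul_le_mul_of_nonneg_left ?_ (by norm_num)
      refine Finset.sum_le_sum fun m hm => ?_
      split_ifs
      · have h4 := hF m hm
        have h5 : (0 : ℝ) ≤ ((m.natAbs / (3 * j) : ℕ) : ℝ) * 2 ^ (m.natAbs / (3 * j)) := by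
          positivity
        calc _ = ((m.natAbs / (3 * j) : ℕ) : ℝ) * 2 ^ (m.natAbs / (3 * j)) *
              (c j * Fm u v m z ^ 2) := by ring
          _ ≤ _ := by gcongr
      · rw [mul_zero]
  -- sum over the rings
  have hAL : AL t J u v ≤ ∑ j ∈ Finset.Ico 1 J,
      (2 * (∑ m ∈ I, (if m.natAbs = 3 * j then Wt j m.natAbs * nmode u v m else 0))
        + 0.1082 * (c j * ((modeA t u v).eval (zr J j) + (modeA t u v).eval (-(zr J j))))
        + 0.1082⁻¹ * (2 * ∑ m ∈ I, (if 3 * j < m.natAbs then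
          ((m.natAbs / (3 * j) : ℕ) : ℝ) * 2 ^ (m.natAbs / (3 * j)) *
            (Wt j m.natAbs * nmode u v m) else 0))) := by
    unfold AL
    refine Finset.sum_le_sum fun j hj => ?_
    have h1 := hring j hj (zr J j) (Or.inl rfl)
    have h2 := hring j hj (-(zr J j)) (Or.inr rfl)
    rw [← hc]
    linarith
  refine hAL.trans ?_
  rw [Finset.sum_add_distrib, Finset.sum_add_distrib]
  have hmu := mu_sq_sum h
  rw [← hI] at hmu
  -- ties
  have hA : ∑ j ∈ Finset.Ico 1 J,
      2 * (∑ m ∈ I, (if m.natAbs = 3 * j then Wt j m.natAbs * nmode u v m else 0)) ≤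
      0.0932 * mu (p ^ 2) := by
    rw [← Finset.mul_sum, Finset.sum_comm, hmu, Finset.mul_sum, Finset.mul_sum]
    refine Finset.sum_le_sum fun m _ => ?_
    have hn := nmode_nonneg u v m
    have h1 : ∑ j ∈ Finset.Ico 1 J, (if m.natAbs = 3 * j then Wt j m.natAbs * nmode u v m else 0) ≤
        0.0466 * nmode u v m := by
      rw [← Finset.sum_filter]
      rcases Finset.eq_empty_or_nonempty ((Finset.Ico 1 J).filter (fun j => m.natAbs = 3 * j))
        with he | ⟨j0, hj0⟩
      · rw [he, Finset.sum_empty]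
        positivity
      · rw [Finset.mem_filter, Finset.mem_Ico] at hj0
        have h2 : (Finset.Ico 1 J).filter (fun j => m.natAbs = 3 * j) = {j0} := by
          ext x
          rw [Finset.mem_filter, Finset.mem_Ico, Finset.mem_singleton]
          constructor
          · intro hx
            omega
          · rintro rfl
            exact hj0
        rw [h2, Finset.sum_singleton, hj0.2]
        exact mul_le_mul_of_nonneg_right (tie_num j0 hj0.1.1) hn
    calc 2 * _ ≤ 2 * (0.0466 * nmode u v m) := by gcongr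
      _ = 0.0932 * nmode u v m := by ring
  -- middle
  have hB : ∑ j ∈ Finset.Ico 1 J,
      0.1082 * (c j * ((modeA t u v).eval (zr J j) + (modeA t u v).eval (-(zr J j)))) ≤
      0.1082 * SZ J (fun z => (modeA t u v).eval z) := by
    rw [← Finset.mul_sum]
    refine mul_le_mul_of_nonneg_left ?_ (by norm_num)
    unfold SZ
    rw [le_div_iff₀ hN, Finset.sum_mul]
    have h1 : ∀ j ∈ Finset.Ico 1 J, c j * ((modeA t u v).eval (zr J j) +
        (modeA t u v).eval (-(zr J j))) * (6 * (J : ℝ) ^ 2 + 2) =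
        6 * (j : ℝ) * ((modeA t u v).eval (zr J j) + (modeA t u v).eval (-(zr J j))) := by
      intro j _
      rw [hc]
      field_simp
    rw [Finset.sum_congr rfl h1]
    have h2 := hmA0 1 (by norm_num)
    have h3 := hmA0 (-1) (by norm_num)
    have h4 := hmA0 0 (by norm_num)
    have h5 : (0 : ℝ) ≤ 6 * (J : ℝ) * (modeA t u v).eval 0 := by positivity
    linarith
  -- high
  have hC : ∑ j ∈ Finset.Ico 1 J, 0.1082⁻¹ * (2 * ∑ m ∈ I, (if 3 * j < m.natAbs then
          ((m.natAbs / (3 * j) : ℕ) : ℝ) * 2 ^ (m.natAbs / (3 * j)) *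
            (Wt j m.natAbs * nmode u v m) else 0)) ≤ 0.1082⁻¹ * (0.0132 * mu (p ^ 2)) := by
    rw [← Finset.mul_sum]
    refine mul_le_mul_of_nonneg_left ?_ (by norm_num)
    rw [← Finset.mul_sum, Finset.sum_comm, hmu, Finset.mul_sum, Finset.mul_sum]
    refine Finset.sum_le_sum fun m _ => ?_
    have hn := nmode_nonneg u v m
    have h1 : ∑ j ∈ Finset.Ico 1 J, (if 3 * j < m.natAbs then
          ((m.natAbs / (3 * j) : ℕ) : ℝ) * 2 ^ (m.natAbs / (3 * j)) *
            (Wt j m.natAbs * nmode u v m) else 0) ≤ 0.0066 * nmode u v m := by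
      rw [← Finset.sum_filter]
      have h2 : ∑ j ∈ (Finset.Ico 1 J).filter (fun j => 3 * j < m.natAbs),
          ((m.natAbs / (3 * j) : ℕ) : ℝ) * 2 ^ (m.natAbs / (3 * j)) *
            (Wt j m.natAbs * nmode u v m) =
          (∑ j ∈ (Finset.Ico 1 J).filter (fun j => 3 * j < m.natAbs),
          ((m.natAbs / (3 * j) : ℕ) : ℝ) * 2 ^ (m.natAbs / (3 * j)) *
            Wt j m.natAbs) * nmode u v m := by
        rw [Finset.sum_mul]
        refine Finset.sum_congr rfl fun j _ => ?_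
        ring
      rw [h2]
      refine mul_le_mul_of_nonneg_right ?_ hn
      rcases Nat.lt_or_ge m.natAbs 4 with h4 | h4
      · have h5 : (Finset.Ico 1 J).filter (fun j => 3 * j < m.natAbs) = ∅ := by
          rw [Finset.filter_eq_empty_iff]
          intro x hx
          rw [Finset.mem_Ico] at hx
          omega
        rw [h5, Finset.sum_empty]
        norm_num
      · refine le_trans (Finset.sum_le_sum_of_subset_of_nonneg ?_ ?_) (V_num m.natAbs h4)
        · intro x hx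
          rw [Finset.mem_filter, Finset.mem_Ico] at hx ⊢
          omega
        · intro x _ _
          have := Wt_nonneg x m.natAbs
          positivity
    calc 2 * _ ≤ 2 * (0.0066 * nmode u v m) := by gcongr
      _ = 0.0132 * nmode u v m := by ring
  have hmu0 : 0 ≤ mu (p ^ 2) := by
    rw [hmu]
    exact Finset.sum_nonneg fun m _ => nmode_nonneg u v m
  have hD : 0.1082⁻¹ * (0.0132 * mu (p ^ 2)) ≤ 0.1221 * mu (p ^ 2) := by
    rw [← mul_assoc]
    refine mul_le_mul_of_nonneg_right ?_ hmu0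
    norm_num
  linarith

end Pool.Agent.Helper83.SD
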