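import Pool.Agent.Helper83.SD.Basic

/-!
Project SD, module Arc: a complex arcsine.

`Complex.sin` is surjective; replace `w` by `π - w` and by `w + 2πk` to get `|Re w| ≤ π/2`.
With `w = a + i b`: `Re ζ = sin a cosh b`, `Im ζ = cos a sinh b`,
`‖ζ - 1‖ = cosh b - sin a`, `‖ζ + 1‖ = cosh b + sin a`.
-/

set_option autoImplicit false

open MeasureTheory Real

namespace Pool.Agent.Helper83.SD

theorem arc_aux (ζ : ℂ) : ∃ w : ℂ, Complex.sin w = ζ ∧ |w.re| ≤ π / 2 := by
  obtain ⟨w0, hw0⟩ := Complex.sin_surjective ζ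
  have hpi := Real.pi_pos
  obtain ⟨w1, h1, h2⟩ : ∃ w1 : ℂ, Complex.sin w1 = ζ ∧ |w1.re| ≤ π := by
    set k : ℤ := round (w0.re / (2 * π)) with hk
    refine ⟨w0 - k * (2 * π), ?_, ?_⟩
    · rw [Complex.sin_sub_int_mul_two_pi, hw0]
    · have h := abs_sub_round (w0.re / (2 * π))
      rw [← hk] at h
      have h3 : (w0 - k * (2 * π)).re = (w0.re / (2 * π) - k) * (2 * π) := by
        have : (w0 - k * (2 * π)).re = w0.re - k * (2 * π) := by
          simp
        rw [this]
        field_simp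
      rw [h3, abs_mul, abs_of_pos (by positivity : (0:ℝ) < 2 * π)]
      nlinarith
  by_cases h3 : |w1.re| ≤ π / 2
  · exact ⟨w1, h1, h3⟩
  · push Not at h3
    rw [abs_le] at h2
    rcases lt_abs.1 h3 with h4 | h4
    · refine ⟨π - w1, ?_, ?_⟩
      · rw [Complex.sin_pi_sub, h1]
      · rw [Complex.sub_re, Complex.ofReal_re, abs_le]
        constructor <;> linarith [h2.2]
    · refine ⟨-π - w1, ?_, ?_⟩
      · rw [show (-π - w1 : ℂ) = -(w1 + π) by ring, Complex.sin_neg, Complex.sin_add_pi, neg_neg, h1]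
      · have : (-π - w1 : ℂ).re = -π - w1.re := by simp
        rw [this, abs_le]
        constructor <;> linarith [h2.1]

theorem arc (ζ : ℂ) : ∃ w : ℂ, Complex.sin w = ζ ∧ |w.re| ≤ π / 2 ∧
    Real.cosh w.im = (‖ζ - 1‖ + ‖ζ + 1‖) / 2 ∧ |Real.sin w.re| ≤ |ζ.re| := by
  obtain ⟨w, hw, hr⟩ := arc_aux ζ
  refine ⟨w, hw, hr, ?_, ?_⟩
  · have hre : ζ.re = Real.sin w.re * Real.cosh w.im := by
      rw [← hw, Complex.sin_eq]
      simp [← Complex.ofReal_sin, ← Complex.ofReal_cos, ← Complex.ofReal_cosh,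
        ← Complex.ofReal_sinh]
    have him : ζ.im = Real.cos w.re * Real.sinh w.im := by
      rw [← hw, Complex.sin_eq]
      simp [← Complex.ofReal_sin, ← Complex.ofReal_cos, ← Complex.ofReal_cosh,
        ← Complex.ofReal_sinh]
    have hs := Real.sin_sq_add_cos_sq w.re
    have hc := Real.cosh_sq_sub_sinh_sq w.im
    have hc1 := Real.one_le_cosh w.im
    have hs1 := Real.sin_le_one w.re
    have hs2 := Real.neg_one_le_sin w.re
    have e1 : ‖ζ - 1‖ = Real.cosh w.im - Real.sin w.re := by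
      have h0 : 0 ≤ Real.cosh w.im - Real.sin w.re := by linarith
      rw [← abs_of_nonneg (norm_nonneg _), ← abs_of_nonneg h0, ← sq_eq_sq_iff_abs_eq_abs,
        Complex.sq_norm, Complex.normSq_apply, Complex.sub_re, Complex.sub_im, Complex.one_re,
        Complex.one_im, hre, him]
      have h1 : Real.cos w.re ^ 2 = 1 - Real.sin w.re ^ 2 := by linarith
      have h2 : Real.sinh w.im ^ 2 = Real.cosh w.im ^ 2 - 1 := by linarith
      have h3 : (Real.cos w.re * Real.sinh w.im - 0) * (Real.cos w.re * Real.sinh w.im - 0) =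
          (1 - Real.sin w.re ^ 2) * (Real.cosh w.im ^ 2 - 1) := by
        rw [← h1, ← h2]; ring
      rw [h3]; ring
    have e2 : ‖ζ + 1‖ = Real.cosh w.im + Real.sin w.re := by
      have h0 : 0 ≤ Real.cosh w.im + Real.sin w.re := by linarith
      rw [← abs_of_nonneg (norm_nonneg _), ← abs_of_nonneg h0, ← sq_eq_sq_iff_abs_eq_abs,
        Complex.sq_norm, Complex.normSq_apply, Complex.add_re, Complex.add_im, Complex.one_re,
        Complex.one_im, hre, him]
      have h1 : Real.cos w.re ^ 2 = 1 - Real.sin w.re ^ 2 := by linarith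
      have h2 : Real.sinh w.im ^ 2 = Real.cosh w.im ^ 2 - 1 := by linarith
      have h3 : (Real.cos w.re * Real.sinh w.im + 0) * (Real.cos w.re * Real.sinh w.im + 0) =
          (1 - Real.sin w.re ^ 2) * (Real.cosh w.im ^ 2 - 1) := by
        rw [← h1, ← h2]; ring
      rw [h3]; ring
    rw [e1, e2]; ring
  · have hre : ζ.re = Real.sin w.re * Real.cosh w.im := by
      rw [← hw, Complex.sin_eq]
      simp [← Complex.ofReal_sin, ← Complex.ofReal_cos, ← Complex.ofReal_cosh,
        ← Complex.ofReal_sinh]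
    rw [hre, abs_mul]
    have hc1 := Real.one_le_cosh w.im
    rw [abs_of_nonneg (by linarith : (0:ℝ) ≤ Real.cosh w.im)]
    nlinarith [abs_nonneg (Real.sin w.re)]

end Pool.Agent.Helper83.SD
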