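import Pool.Agent.Helper83.SD.Defs

/-!
Project SD: elementary facts on the definitions.
-/

set_option autoImplicit false

open MeasureTheory Real

namespace Pool.Agent.Helper83.SD

theorem L2_pos (J : ℕ) : 0 < L2 J := by unfold L2; positivity

theorem N_eq (J : ℕ) : 6 * (J : ℝ) ^ 2 + 2 = 6 * L2 J := by unfold L2; ring

theorem lam_nonneg (t : ℕ) : 0 ≤ lam t := by unfold lam; positivity

theorem lam_le (t : ℕ) : lam t ≤ ((t : ℝ) + 1) ^ 2 := by
  unfold lam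
  have : (0 : ℝ) ≤ t := Nat.cast_nonneg t
  nlinarith

theorem two_sqrt_lam_le (t : ℕ) : 2 * √(lam t) ≤ 2 * (t : ℝ) + 1 := by
  have h : √(lam t) ≤ (t : ℝ) + 1 / 2 := by
    apply Real.sqrt_le_iff.mpr
    constructor
    · positivity
    · unfold lam; ring_nf; linarith
  linarith

theorem zr_eq (J j : ℕ) : 1 - zr J j = ((j : ℝ) ^ 2 + 1 / 6) / L2 J := by unfold zr; ring

theorem zr_nonneg {J j : ℕ} (h : j ≤ J) : 0 ≤ zr J j := by
  unfold zr
  have h1 : ((j : ℝ) ^ 2 + 1 / 6) / L2 J ≤ 1 := by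
    rw [div_le_one (L2_pos J)]
    unfold L2
    have : (j : ℝ) ^ 2 ≤ (J : ℝ) ^ 2 := by
      have : (j : ℝ) ≤ J := by exact_mod_cast h
      gcongr
    linarith
  linarith

theorem zr_lt_one (J j : ℕ) : zr J j < 1 := by
  have : 0 < ((j : ℝ) ^ 2 + 1 / 6) / L2 J := div_pos (by positivity) (L2_pos J)
  have := zr_eq J j
  linarith

theorem zr_sq_le {J j : ℕ} (h : j ≤ J) : (zr J j) ^ 2 ≤ 1 := by
  have h1 := zr_nonneg h
  have h2 := zr_lt_one J j
  nlinarith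

/-- `1 - z_j^2 ≤ 2 (j^2 + 1/6) / L2` -/
theorem one_sub_zr_sq {J j : ℕ} (h : j ≤ J) :
    1 - (zr J j) ^ 2 ≤ 2 * ((j : ℝ) ^ 2 + 1 / 6) / L2 J := by
  have h1 := zr_nonneg h
  have h2 := zr_lt_one J j
  have h3 := zr_eq J j
  have : 2 * ((j : ℝ) ^ 2 + 1 / 6) / L2 J = 2 * (1 - zr J j) := by rw [h3]; ring
  rw [this]
  nlinarith

theorem L2_ge {t J : ℕ} (hR : Reg t J) : 0.416 * (t : ℝ) ^ 2 ≤ L2 J := by
  have h := hR.lo
  have h0 : (0 : ℝ) ≤ t := Nat.cast_nonneg t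
  have : (0.645 * (t : ℝ)) ^ 2 ≤ (J : ℝ) ^ 2 := by gcongr
  unfold L2
  nlinarith

theorem T_le {t J : ℕ} (ht : 1000 ≤ t) (hR : Reg t J) : ((t : ℝ) + 1) ^ 2 ≤ 2.41 * L2 J := by
  have h := hR.lo
  have h0 : (1000 : ℝ) ≤ t := by exact_mod_cast ht
  have : (0.645 * (t : ℝ)) ^ 2 ≤ (J : ℝ) ^ 2 := by gcongr
  unfold L2
  nlinarith

theorem J_pos {t J : ℕ} (ht : 1000 ≤ t) (hR : Reg t J) : 645 ≤ J := by
  have h := hR.lo
  have h0 : (1000 : ℝ) ≤ t := by exact_mod_cast ht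
  have : (645 : ℝ) ≤ J := by linarith
  exact_mod_cast this

/-- no aliasing on the equator -/
theorem no_alias {t J : ℕ} (ht : 1000 ≤ t) (hR : Reg t J) : 2 * t < 6 * J := by
  have h := hR.lo
  have h0 : (1000 : ℝ) ≤ t := by exact_mod_cast ht
  have : (2 * t : ℝ) < 6 * J := by linarith
  exact_mod_cast this

theorem refl_eval (B : Polynomial ℝ) (z : ℝ) : (refl B).eval z = B.eval (-z) := by
  simp [refl]

theorem refl_aeval (B : Polynomial ℝ) (z : ℂ) :
    Polynomial.aeval z (refl B) = Polynomial.aeval (-z) B := by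
  simp [refl, Polynomial.aeval_comp]

theorem refl_natDegree (B : Polynomial ℝ) : (refl B).natDegree ≤ B.natDegree := by
  unfold refl
  refine (Polynomial.natDegree_comp_le).trans ?_
  simp

theorem sp_norm {z : ℝ} (hz : z ^ 2 ≤ 1) (φ : ℝ) : ‖sp z φ‖ = 1 := by
  rw [EuclideanSpace.norm_eq, Real.sqrt_eq_one]
  simp only [sp, Fin.sum_univ_three, Real.norm_eq_abs, sq_abs]
  simp only [PiLp.toLp_apply, Matrix.cons_val_zero, Matrix.cons_val_one, Matrix.cons_val]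
  have h1 : √(1 - z ^ 2) ^ 2 = 1 - z ^ 2 := Real.sq_sqrt (by linarith)
  have h2 := Real.sin_sq_add_cos_sq φ
  rw [mul_pow, mul_pow, h1]
  linear_combination (1 - z ^ 2) * h2

theorem pt_norm (ψ φ : ℝ) : ‖pt ψ φ‖ = 1 := by
  rw [EuclideanSpace.norm_eq, Real.sqrt_eq_one]
  simp only [pt, Fin.sum_univ_three, Real.norm_eq_abs, sq_abs]
  simp only [PiLp.toLp_apply, Matrix.cons_val_zero, Matrix.cons_val_one, Matrix.cons_val]
  have h2 := Real.sin_sq_add_cos_sq φ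
  have h3 := Real.sin_sq_add_cos_sq ψ
  linear_combination (cos ψ) ^ 2 * h2 + h3

theorem sp_sin {ψ : ℝ} (h : |ψ| ≤ π / 2) (φ : ℝ) : sp (sin ψ) φ = pt ψ φ := by
  have hc : 0 ≤ cos ψ := Real.cos_nonneg_of_mem_Icc ⟨by linarith [(abs_le.mp h).1], (abs_le.mp h).2⟩
  have : √(1 - sin ψ ^ 2) = cos ψ := by
    rw [← Real.cos_sq', Real.sqrt_sq hc]
  unfold sp pt
  rw [this]

theorem ev_add (p q : Poly) (x : E3) : ev (p + q) x = ev p x + ev q x := by simp [ev]
theorem ev_sub (p q : Poly) (x : E3) : ev (p - q) x = ev p x - ev q x := by simp [ev]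
theorem ev_mul (p q : Poly) (x : E3) : ev (p * q) x = ev p x * ev q x := by simp [ev]
theorem ev_pow (p : Poly) (n : ℕ) (x : E3) : ev (p ^ n) x = ev p x ^ n := by simp [ev]
theorem ev_smul (c : ℝ) (p : Poly) (x : E3) : ev (c • p) x = c * ev p x := by
  simp [ev, MvPolynomial.smul_eval]
theorem ev_sum {ι : Type*} (s : Finset ι) (f : ι → Poly) (x : E3) :
    ev (∑ i ∈ s, f i) x = ∑ i ∈ s, ev (f i) x := by simp [ev]
theorem ev_C (c : ℝ) (x : E3) : ev (MvPolynomial.C c) x = c := by simp [ev]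
theorem ev_X (i : Fin 3) (x : E3) : ev (MvPolynomial.X i) x = x i := by simp [ev]

theorem ev_continuous (p : Poly) : Continuous (ev p) := by
  unfold ev
  have h : Continuous fun x : E3 => (fun i : Fin 3 => x i) := by fun_prop
  exact (MvPolynomial.continuous_eval p).comp h

end Pool.Agent.Helper83.SD
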