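import Pool.Agent.Helper83.SD.Bern

/-!
Project SD, module Basis: an orthonormal basis for the gradient form.

`V = restrictTotalDegree (Fin 3) ℝ t` is finite dimensional, `gr` is a symmetric positive
semidefinite form on it; `gr p p = 0` implies that all `L_a p` vanish on the sphere
(`mu_sq_zero`), hence `p` is constant on the sphere (connect two points by a rotation and use
`hasDerivAt_ev`, `sum_Lr`), hence `p = mu p` on the sphere.
-/

set_option autoImplicit false

open MeasureTheory Real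

namespace Pool.Agent.Helper83.SD

theorem gr_sub_left (p q r : Poly) : gr (p - q) r = gr p r - gr q r := by
  rw [gr_eq, gr_eq, gr_eq, sub_mul, mu_sub]

theorem gr_smul_left (c : ℝ) (p r : Poly) : gr (c • p) r = c * gr p r := by
  rw [gr_eq, gr_eq, smul_mul_assoc, mu_smul]

theorem gr_sum_left {ι : Type*} (s : Finset ι) (f : ι → Poly) (r : Poly) :
    gr (∑ i ∈ s, f i) r = ∑ i ∈ s, gr (f i) r := by
  rw [gr_eq, Finset.sum_mul, mu_sum]
  exact Finset.sum_congr rfl fun i _ => (gr_eq _ _).symm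

theorem gr_C_left (c : ℝ) (r : Poly) : gr (MvPolynomial.C c) r = 0 := by
  rw [gr_comm, gr_eq, Tm_apply]
  simp only [Lr_C, map_zero, Finset.sum_const_zero, neg_zero, mul_zero]
  exact mu_zero'

theorem pt_eq_phi (ψ φ : ℝ) : pt ψ φ = cos φ • (!₂[cos ψ, 0, 0] : E3) +
    sin φ • (!₂[0, cos ψ, 0] : E3) + (!₂[0, 0, sin ψ] : E3) := by
  ext i
  fin_cases i <;> simp [pt] <;> ring

theorem pt_eq_psi (ψ : ℝ) : pt ψ 0 = cos ψ • (!₂[1, 0, 0] : E3) +
    sin ψ • (!₂[0, 0, 1] : E3) := by
  ext i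
  fin_cases i <;> simp [pt]

theorem deriv_phi (ψ φ : ℝ) : HasDerivAt (fun s => pt ψ s)
    (-sin φ • (!₂[cos ψ, 0, 0] : E3) + cos φ • (!₂[0, cos ψ, 0] : E3)) φ := by
  have h := (((Real.hasDerivAt_cos φ).smul_const (!₂[cos ψ, 0, 0] : E3)).add
    ((Real.hasDerivAt_sin φ).smul_const (!₂[0, cos ψ, 0] : E3))).add_const (!₂[0, 0, sin ψ] : E3)
  refine h.congr_of_eventuallyEq (Filter.Eventually.of_forall fun s => ?_)
  simp only [Pi.add_apply]
  exact pt_eq_phi ψ s

theorem deriv_psi (ψ : ℝ) : HasDerivAt (fun s => pt s 0)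
    (-sin ψ • (!₂[1, 0, 0] : E3) + cos ψ • (!₂[0, 0, 1] : E3)) ψ := by
  have h := ((Real.hasDerivAt_cos ψ).smul_const (!₂[1, 0, 0] : E3)).add
    ((Real.hasDerivAt_sin ψ).smul_const (!₂[0, 0, 1] : E3))
  refine h.congr_of_eventuallyEq (Filter.Eventually.of_forall fun s => ?_)
  simp only [Pi.add_apply]
  exact pt_eq_psi s

/-- if all rotational derivatives vanish on the sphere, the polynomial is constant there -/
theorem ev_pt_const {q : Poly} (h : ∀ a, Van (Lr a q)) (ψ φ : ℝ) :
    ev q (pt ψ φ) = ev q (pt 0 0) := by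
  have key : ∀ (γ : ℝ → E3) (γ' : ℝ → E3) (ω : E3), (∀ s, HasDerivAt γ (γ' s) s) →
      (∀ s, ‖γ s‖ = 1) →
      (∀ s, ∀ i : Fin 3, γ' s i = ω (i + 1) * γ s (i + 2) - ω (i + 2) * γ s (i + 1)) →
      ∀ s s', ev q (γ s) = ev q (γ s') := by
    intro γ γ' ω hd hn hγ s s'
    have hD : ∀ s, HasDerivAt (fun r => ev q (γ r)) 0 s := by
      intro s
      have h1 := hasDerivAt_ev q (hd s)
      have h2 : ∑ i, ev (MvPolynomial.pderiv i q) (γ s) * γ' s i = 0 := by
        have h3 := sum_Lr q ω (γ s)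
        simp only [hγ s]
        rw [h3]
        exact Finset.sum_eq_zero fun a _ => by rw [h a (γ s) (hn s), mul_zero]
      rwa [h2] at h1
    exact is_const_of_deriv_eq_zero (fun s => (hD s).differentiableAt) (fun s => (hD s).deriv) s s'
  have h1 : ev q (pt ψ φ) = ev q (pt ψ 0) := by
    refine key (fun s => pt ψ s) _ (!₂[0, 0, 1] : E3) (deriv_phi ψ) (pt_norm ψ) ?_ φ 0
    intro s i
    fin_cases i <;> simp [pt] <;> ring
  have h2 : ev q (pt ψ 0) = ev q (pt 0 0) := by
    refine key (fun s => pt s 0) _ (!₂[0, -1, 0] : E3) deriv_psi (fun s => pt_norm s 0) ?_ ψ 0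
    intro s i
    fin_cases i <;> simp [pt]
  rw [h1, h2]

theorem exists_pt {x : E3} (hx : ‖x‖ = 1) : ∃ ψ φ : ℝ, x = pt ψ φ := by
  have hx2 : x 0 ^ 2 + x 1 ^ 2 + x 2 ^ 2 = 1 := by
    rw [EuclideanSpace.norm_eq, Real.sqrt_eq_one] at hx
    simpa [Fin.sum_univ_three] using hx
  set w : ℂ := ⟨x 0, x 1⟩ with hw
  have h1 : cos (arcsin (x 2)) = ‖w‖ := by
    rw [Real.cos_arcsin, Complex.norm_def, Complex.normSq_mk]
    congr 1
    nlinarith
  have h2 : sin (arcsin (x 2)) = x 2 := Real.sin_arcsin (by nlinarith) (by nlinarith)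
  refine ⟨arcsin (x 2), w.arg, ?_⟩
  ext i
  fin_cases i
  · simp only [pt, h1]
    simp [hw]
  · simp only [pt, h1]
    simp [hw]
  · simp [pt, h2]

theorem van_of_en_zero {q : Poly} (h : gr q q = 0) (h0 : mu q = 0) : Van q := by
  have hL : ∀ a, Van (Lr a q) := by
    intro a
    unfold gr at h
    have h1 := (Finset.sum_eq_zero_iff_of_nonneg (fun a _ => mu_nonneg fun x _ => by
      rw [ev_mul]; exact mul_self_nonneg _)).1 h a (Finset.mem_univ a)
    exact mu_sq_zero (by rw [pow_two]; exact h1)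
  have h2 : ∀ x : E3, ‖x‖ = 1 → ev q x = ev q (pt 0 0) := by
    intro x hx
    obtain ⟨ψ, φ, rfl⟩ := exists_pt hx
    exact ev_pt_const hL ψ φ
  have h3 : mu q = ev q (pt 0 0) := by
    rw [← mu_C (ev q (pt 0 0))]
    exact mu_congr fun x hx => by rw [h2 x hx, ev_C]
  intro x hx
  rw [h2 x hx, ← h3, h0]

/-- orthonormal families for the gradient form -/
def Fam (t n : ℕ) (e : Fin n → Poly) : Prop :=
  (∀ i, (e i).totalDegree ≤ t) ∧ (∀ i, mu (e i) = 0) ∧
    (∀ i j, gr (e i) (e j) = if i = j then 1 else 0)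

theorem Fam.card_le {t n : ℕ} {e : Fin n → Poly} (h : Fam t n e) :
    n ≤ Module.finrank ℝ (MvPolynomial.restrictTotalDegree (Fin 3) ℝ t) := by
  let f : Fin n → MvPolynomial.restrictTotalDegree (Fin 3) ℝ t :=
    fun i => ⟨e i, (MvPolynomial.mem_restrictTotalDegree (Fin 3) t (e i)).2 (h.1 i)⟩
  have hf : LinearIndependent ℝ f := by
    rw [Fintype.linearIndependent_iff]
    intro g hg i
    have h1 : ∑ j, g j • e j = 0 := by
      have := congrArg Subtype.val hg
      simpa [f] using this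
    have h2 : gr (∑ j, g j • e j) (e i) = g i := by
      rw [gr_sum_left]
      simp only [gr_smul_left, h.2.2]
      simp
    rw [h1] at h2
    have h3 : gr 0 (e i) = 0 := by
      have := gr_C_left 0 (e i)
      simpa using this
    rw [h3] at h2
    exact h2.symm
  have := hf.fintype_card_le_finrank
  simpa using this

theorem basis (t : ℕ) : ∃ (n : ℕ) (e : Fin n → Poly), (∀ i, (e i).totalDegree ≤ t) ∧
    (∀ i, mu (e i) = 0) ∧ (∀ i j, gr (e i) (e j) = if i = j then 1 else 0) ∧
    ∀ p : Poly, p.totalDegree ≤ t → ∀ x : E3, ‖x‖ = 1 →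
      ev p x = mu p + ∑ i, gr p (e i) * ev (e i) x := by
  classical
  obtain ⟨n, ⟨e, he⟩, hn⟩ : ∃ n, (∃ e : Fin n → Poly, Fam t n e) ∧
      ¬ ∃ e : Fin (n + 1) → Poly, Fam t (n + 1) e := by
    by_contra hcon
    push Not at hcon
    have hall : ∀ n, ∃ e : Fin n → Poly, Fam t n e := by
      intro n
      induction n with
      | zero => exact ⟨fun i => i.elim0, fun i => i.elim0, fun i => i.elim0, fun i => i.elim0⟩
      | succ n ih => exact hcon n ih
    obtain ⟨e, he⟩ := hall (Module.finrank ℝ (MvPolynomial.restrictTotalDegree (Fin 3) ℝ t) + 1)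
    have := he.card_le
    omega
  refine ⟨n, e, he.1, he.2.1, he.2.2, ?_⟩
  intro p hp x hx
  set q : Poly := p - MvPolynomial.C (mu p) - ∑ i, gr p (e i) • e i with hq
  have hqd : q.totalDegree ≤ t := by
    refine (MvPolynomial.totalDegree_sub _ _).trans (max_le ?_ ?_)
    · exact (MvPolynomial.totalDegree_sub_C_le _ _).trans hp
    · exact MvPolynomial.totalDegree_finsetSum_le fun i _ =>
        (MvPolynomial.totalDegree_smul_le _ _).trans (he.1 i)
  have hq0 : mu q = 0 := by
    rw [hq, mu_sub, mu_sub, mu_C, mu_sum]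
    simp [mu_smul, he.2.1]
  have hqe : ∀ j, gr q (e j) = 0 := by
    intro j
    rw [hq, gr_sub_left, gr_sub_left, gr_C_left, gr_sum_left]
    simp only [gr_smul_left, he.2.2]
    simp
  have hqq : gr q q = 0 := by
    by_contra hne
    have hpos : 0 < gr q q := lt_of_le_of_ne (en_nonneg q) (Ne.symm hne)
    apply hn
    set c : ℝ := (√(gr q q))⁻¹ with hc
    have hcc : c * (c * gr q q) = 1 := by
      rw [hc]
      have h1 : √(gr q q) * √(gr q q) = gr q q := Real.mul_self_sqrt hpos.le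
      have h2 : √(gr q q) ≠ 0 := (Real.sqrt_pos.2 hpos).ne'
      nth_rewrite 3 [← h1]
      field_simp
    refine ⟨Fin.cons (c • q) e, ?_, ?_, ?_⟩
    · intro i
      refine Fin.cases ?_ (fun i => ?_) i
      · simpa using (MvPolynomial.totalDegree_smul_le _ _).trans hqd
      · simpa using he.1 i
    · intro i
      refine Fin.cases ?_ (fun i => ?_) i
      · simp [mu_smul, hq0]
      · simpa using he.2.1 i
    · intro i j
      refine Fin.cases ?_ (fun i => ?_) i
      · refine Fin.cases ?_ (fun j => ?_) j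
        · simp only [Fin.cons_zero, if_true]
          rw [gr_smul_left, gr_comm, gr_smul_left, hcc]
        · simp only [Fin.cons_zero, Fin.cons_succ]
          rw [gr_smul_left, hqe j, mul_zero, if_neg (Fin.succ_ne_zero j).symm]
      · refine Fin.cases ?_ (fun j => ?_) j
        · simp only [Fin.cons_zero, Fin.cons_succ]
          rw [gr_comm, gr_smul_left, hqe i, mul_zero, if_neg (Fin.succ_ne_zero i)]
        · simp only [Fin.cons_succ]
          rw [he.2.2 i j]
          simp
  have hv := van_of_en_zero hqq hq0 x hx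
  rw [hq, ev_sub, ev_sub, ev_C, ev_sum] at hv
  simp only [ev_smul] at hv
  linarith

end Pool.Agent.Helper83.SD
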