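import Pool.Agent.Helper83.SD.Meas

/-!
Project SD, module Bern: the L2 Bernstein inequality `∫ |∇p|^2 ≤ t(t+1) ∫ p^2`.

`T = -Σ L_a^2` is symmetric for `(p,q) ↦ mu (p q)` (`mu_parts`), `mu (p T p) = en p`; modulo
polynomials vanishing on the sphere it maps degree `≤ k` to itself and `T p - k(k+1) p` has
degree `< k` (mod) for `deg p ≤ k` (`sum_Lr_Lr`, `r^2 = 1`).  So `Π_{k≤t} (T - k(k+1))` kills
everything of degree `≤ t`; with Lagrange interpolation (`Σ_k Π_{j≠k} (X-λ_j)/(λ_k-λ_j) = 1`)
`p = Σ p_k`, `T p_k = k(k+1) p_k` on the sphere, the `p_k` are orthogonal, and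
`en p = Σ k(k+1) mu (p_k^2) ≤ t(t+1) mu (p^2)`.
-/

set_option autoImplicit false

open MeasureTheory Real

namespace Pool.Agent.Helper83.SD

/-- the spherical Laplacian (with a minus sign) -/
noncomputable def Tm : Poly →ₗ[ℝ] Poly :=
  -∑ a, ((Lr a : Poly →ₗ[ℝ] Poly) ∘ₗ (Lr a : Poly →ₗ[ℝ] Poly))

theorem Tm_apply (p : Poly) : Tm p = -∑ a, Lr a (Lr a p) := by
  simp [Tm]

/-- polynomials vanishing on the sphere -/
def Van (p : Poly) : Prop := ∀ x : E3, ‖x‖ = 1 → ev p x = 0

theorem van_zero : Van 0 := by intro x _; simp [ev]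

theorem van_add {p q : Poly} (hp : Van p) (hq : Van q) : Van (p + q) := by
  intro x hx; rw [ev_add, hp x hx, hq x hx, add_zero]

theorem van_smul (c : ℝ) {p : Poly} (hp : Van p) : Van (c • p) := by
  intro x hx; rw [ev_smul, hp x hx, mul_zero]

theorem van_neg {p : Poly} (hp : Van p) : Van (-p) := by
  have := van_smul (-1) hp
  simpa using this

theorem van_mul {p : Poly} (hp : Van p) (q : Poly) : Van (p * q) := by
  intro x hx; rw [ev_mul, hp x hx, zero_mul]

theorem van_sum {ι : Type*} (s : Finset ι) (f : ι → Poly) (h : ∀ i ∈ s, Van (f i)) :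
    Van (∑ i ∈ s, f i) := by
  intro x hx
  rw [ev_sum]
  exact Finset.sum_eq_zero fun i hi => h i hi x hx

theorem mu_zero' : mu 0 = 0 := by
  have := mu_C 0
  simpa using this

theorem mu_van {p : Poly} (hp : Van p) : mu p = 0 := by
  rw [← mu_zero']
  refine mu_congr fun x hx => ?_
  rw [hp x hx, van_zero x hx]

theorem Lr_van (a : Fin 3) {p : Poly} (hp : Van p) : Van (Lr a p) := by
  have h1 : mu (Lr a p * Lr a p) = 0 := by
    rw [mu_parts, mu_van (van_mul hp _), neg_zero]
  exact mu_sq_zero (by rw [pow_two]; exact h1)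

theorem Tm_van {p : Poly} (hp : Van p) : Van (Tm p) := by
  rw [Tm_apply]
  exact van_neg (van_sum _ _ fun a _ => Lr_van a (Lr_van a hp))

theorem aeval_van (f : Polynomial ℝ) {p : Poly} (hp : Van p) :
    Van ((Polynomial.aeval Tm f) p) := by
  have hpow : ∀ n : ℕ, ∀ q : Poly, Van q → Van ((Tm ^ n) q) := by
    intro n
    induction n with
    | zero => intro q hq; simpa using hq
    | succ n ih =>
      intro q hq
      rw [pow_succ]
      exact ih _ (Tm_van hq)
  induction f using Polynomial.induction_on' with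
  | add f g hf hg =>
    rw [map_add, LinearMap.add_apply]
    exact van_add hf hg
  | monomial n c =>
    rw [Polynomial.aeval_monomial]
    have : ((algebraMap ℝ (Module.End ℝ Poly)) c * Tm ^ n) p = c • ((Tm ^ n) p) := by
      simp [Module.End.mul_apply, Module.algebraMap_end_apply]
    rw [this]
    exact van_smul c (hpow n p hp)

theorem Tm_deg (p : Poly) : (Tm p).totalDegree ≤ p.totalDegree := by
  rw [Tm_apply, MvPolynomial.totalDegree_neg]
  exact MvPolynomial.totalDegree_finsetSum_le fun a _ =>
    (Lr_deg a _).trans (Lr_deg a _)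

theorem low_deg {k : ℕ} {p : Poly} (hp : p.totalDegree ≤ k + 1) :
    (p - MvPolynomial.homogeneousComponent (k + 1) p).totalDegree ≤ k := by
  refine Finset.sup_le fun d hd => ?_
  rw [MvPolynomial.mem_support_iff, MvPolynomial.coeff_sub,
    MvPolynomial.coeff_homogeneousComponent] at hd
  have h1 : d.degree ≠ k + 1 := by
    intro h
    rw [if_pos h, sub_self] at hd
    exact hd rfl
  rw [if_neg h1, sub_zero] at hd
  have h2 := MvPolynomial.le_totalDegree (MvPolynomial.mem_support_iff.2 hd)
  have h3 : d.degree = d.sum fun _ e => e := by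
    rfl
  rw [h3] at h1
  omega

theorem step {k : ℕ} {p : Poly} (hp : p.totalDegree ≤ k + 1) :
    ∃ q : Poly, q.totalDegree ≤ k ∧ Van (Tm p - lam (k + 1) • p - q) := by
  set h := MvPolynomial.homogeneousComponent (k + 1) p with hh
  have hom : h.IsHomogeneous (k + 1) := MvPolynomial.homogeneousComponent_isHomogeneous _ _
  have hl := low_deg hp
  rw [← hh] at hl
  set l := p - h with hldef
  set D : Poly := ∑ i, MvPolynomial.pderiv i (MvPolynomial.pderiv i h) with hD
  have hDd : D.totalDegree ≤ k := by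
    refine MvPolynomial.totalDegree_finsetSum_le fun i _ => ?_
    have := (hom.pderiv (i := i)).pderiv (i := i)
    exact this.totalDegree_le.trans (by omega)
  refine ⟨-D + (Tm l - lam (k + 1) • l), ?_, ?_⟩
  · refine (MvPolynomial.totalDegree_add _ _).trans (max_le ?_ ?_)
    · rw [MvPolynomial.totalDegree_neg]; exact hDd
    · refine (MvPolynomial.totalDegree_sub _ _).trans (max_le ?_ ?_)
      · exact (Tm_deg l).trans hl
      · exact (MvPolynomial.totalDegree_smul_le _ _).trans hl
  · have h1 := sum_Lr_Lr hom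
    rw [← hD] at h1
    have h2 : Tm h = MvPolynomial.C (((k + 1 : ℕ) : ℝ) * (((k + 1 : ℕ) : ℝ) + 1)) * h -
        (∑ i, (MvPolynomial.X i : Poly) ^ 2) * D := by
      rw [Tm_apply, h1]; ring
    have h3 : p = h + l := by rw [hldef]; ring
    have h4 : Tm p = Tm h + Tm l := by rw [h3, map_add]
    intro x hx
    have hx2 : ∑ i : Fin 3, (x i) ^ 2 = 1 := by
      rw [EuclideanSpace.norm_eq, Real.sqrt_eq_one] at hx
      simpa using hx
    have h5 : ev (∑ i, (MvPolynomial.X i : Poly) ^ 2) x = 1 := by
      rw [ev_sum]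
      simpa [ev_pow, ev_X] using hx2
    rw [h4, h2]
    have h6 : ev p x = ev h x + ev l x := by rw [← ev_add, ← h3]
    have h7 : ev (-D) x = - ev D x := by
      have := ev_smul (-1) D x
      simpa using this
    simp only [ev_sub, ev_add, ev_mul, ev_smul, ev_C, h5, h6, h7]
    unfold lam
    push_cast
    ring

theorem Lr_C (a : Fin 3) (c : ℝ) : Lr a (MvPolynomial.C c : Poly) = 0 := by
  have : (MvPolynomial.C c : Poly) = algebraMap ℝ Poly c := rfl
  rw [this, Derivation.map_algebraMap]

theorem nodal_van (t : ℕ) : ∀ p : Poly, p.totalDegree ≤ t →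
    Van ((Polynomial.aeval Tm (Lagrange.nodal (Finset.range (t + 1)) lam)) p) := by
  induction t with
  | zero =>
    intro p hp
    have h0 : p.totalDegree = 0 := by omega
    have h1 := MvPolynomial.totalDegree_eq_zero_iff_eq_C.1 h0
    have h2 : Lagrange.nodal (Finset.range (0 + 1)) lam = Polynomial.X - Polynomial.C (lam 0) := by
      simp [Lagrange.nodal]
    have h3 : lam 0 = 0 := by simp [lam]
    rw [h2, h3]
    simp only [map_zero, sub_zero, Polynomial.aeval_X]
    rw [Tm_apply, h1]
    simp only [Lr_C, map_zero, Finset.sum_const_zero, neg_zero]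
    exact van_zero
  | succ k ih =>
    intro p hp
    obtain ⟨q, hq, hv⟩ := step hp
    have h2 : Lagrange.nodal (Finset.range (k + 1 + 1)) lam =
        Lagrange.nodal (Finset.range (k + 1)) lam * (Polynomial.X - Polynomial.C (lam (k + 1))) := by
      simp only [Lagrange.nodal]
      rw [Finset.prod_range_succ]
    rw [h2, map_mul]
    have h3 : ((Polynomial.aeval Tm) (Polynomial.X - Polynomial.C (lam (k + 1)))) p =
        Tm p - lam (k + 1) • p := by
      simp [Module.algebraMap_end_apply]
    have h4 : Tm p - lam (k + 1) • p = q + (Tm p - lam (k + 1) • p - q) := by ring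
    rw [Module.End.mul_apply, h3, h4, map_add]
    exact van_add (ih q hq) (aeval_van _ hv)

theorem en_nonneg (p : Poly) : 0 ≤ en p := by
  unfold en gr
  refine Finset.sum_nonneg fun a _ => mu_nonneg fun x _ => ?_
  rw [ev_mul]
  exact mul_self_nonneg _

theorem gr_eq (p q : Poly) : gr p q = mu (p * Tm q) := by
  unfold gr
  simp only [mu_parts]
  have h : p * Tm q = ∑ a, (-1 : ℝ) • (p * Lr a (Lr a q)) := by
    rw [Tm_apply, mul_neg, Finset.mul_sum, ← Finset.sum_neg_distrib]
    exact Finset.sum_congr rfl fun a _ => by simp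
  rw [h, mu_sum]
  exact Finset.sum_congr rfl fun a _ => by rw [mu_smul]; ring

theorem gr_comm (p q : Poly) : gr p q = gr q p := by
  unfold gr
  exact Finset.sum_congr rfl fun a _ => by rw [mul_comm]

theorem Tm_symm (p q : Poly) : mu (p * Tm q) = mu (Tm p * q) := by
  rw [← gr_eq, gr_comm, gr_eq, mul_comm]

theorem lam_strictMono : StrictMono lam := by
  intro a b hab
  have h : (a : ℝ) < b := by exact_mod_cast hab
  have h0 : (0 : ℝ) ≤ a := Nat.cast_nonneg a
  unfold lam
  nlinarith

theorem bern (t : ℕ) (p : Poly) (hp : p.totalDegree ≤ t) : en p ≤ lam t * mu (p ^ 2) := by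
  classical
  set s := Finset.range (t + 1) with hs
  set P : ℕ → Poly := fun k => (Polynomial.aeval Tm (Lagrange.basis s lam k)) p with hP
  have hinj : Set.InjOn lam s := lam_strictMono.injective.injOn
  have hsum : ∑ k ∈ s, P k = p := by
    have h1 := Lagrange.sum_basis hinj (by rw [hs]; simp)
    have h2 : (Polynomial.aeval Tm (∑ k ∈ s, Lagrange.basis s lam k)) p = p := by
      rw [h1, map_one]; rfl
    rw [map_sum, LinearMap.sum_apply] at h2
    exact h2
  have hev : ∀ k ∈ s, Van (Tm (P k) - lam k • P k) := by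
    intro k hk
    have h1 : (Polynomial.X - Polynomial.C (lam k)) * Lagrange.basis s lam k =
        Polynomial.C (Lagrange.nodalWeight s lam k) * Lagrange.nodal s lam := by
      rw [Lagrange.basis_eq_prod_sub_inv_mul_nodal_div hk, ← Lagrange.nodal_erase_eq_nodal_div hk,
        Lagrange.nodal_eq_mul_nodal_erase hk]
      ring
    have h2 : Tm (P k) - lam k • P k = (Polynomial.aeval Tm
        (Polynomial.C (Lagrange.nodalWeight s lam k) * Lagrange.nodal s lam)) p := by
      rw [← h1, map_mul, Module.End.mul_apply]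
      simp [Module.algebraMap_end_apply, hP]
    rw [h2, map_mul, Module.End.mul_apply]
    exact aeval_van _ (nodal_van t p hp)
  have hT : ∀ k ∈ s, ∀ q : Poly, mu (q * Tm (P k)) = lam k * mu (q * P k) := by
    intro k hk q
    rw [← mu_smul]
    have h1 : q * Tm (P k) - lam k • (q * P k) = (Tm (P k) - lam k • P k) * q := by
      rw [sub_mul, mul_comm q, smul_mul_assoc, mul_comm q]
    have h2 := mu_van (van_mul (hev k hk) q)
    rw [← h1, mu_sub] at h2
    linarith
  have horth : ∀ j ∈ s, ∀ k ∈ s, j ≠ k → mu (P j * P k) = 0 := by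
    intro j hj k hk hjk
    have h1 := hT k hk (P j)
    have h2 := hT j hj (P k)
    rw [Tm_symm, mul_comm (Tm (P j)), h2, mul_comm (P k)] at h1
    have h3 : (lam j - lam k) * mu (P j * P k) = 0 := by linarith
    rcases mul_eq_zero.1 h3 with h | h
    · exact absurd (lam_strictMono.injective (sub_eq_zero.1 h)) hjk
    · exact h
  have hsq : mu (p ^ 2) = ∑ k ∈ s, mu (P k * P k) := by
    rw [pow_two]
    nth_rewrite 1 [← hsum]
    rw [Finset.sum_mul, mu_sum]
    refine Finset.sum_congr rfl fun j hj => ?_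
    nth_rewrite 1 [← hsum]
    rw [Finset.mul_sum, mu_sum, Finset.sum_eq_single_of_mem j hj]
    intro k hk hkj
    exact horth j hj k hk hkj.symm
  have hen : en p = ∑ k ∈ s, lam k * mu (P k * P k) := by
    unfold en
    rw [gr_eq]
    nth_rewrite 2 [← hsum]
    rw [map_sum, Finset.mul_sum, mu_sum]
    refine Finset.sum_congr rfl fun j hj => ?_
    rw [hT j hj]
    nth_rewrite 1 [← hsum]
    rw [Finset.sum_mul, mu_sum, Finset.sum_eq_single_of_mem j hj]
    intro k hk hkj
    exact horth k hk j hj hkj
  rw [hen, hsq, Finset.mul_sum]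
  refine Finset.sum_le_sum fun k hk => ?_
  have h1 : 0 ≤ mu (P k * P k) := mu_nonneg fun x _ => by rw [ev_mul]; exact mul_self_nonneg _
  have h2 : lam k ≤ lam t := by
    apply lam_strictMono.monotone
    rw [hs, Finset.mem_range] at hk
    omega
  exact mul_le_mul_of_nonneg_right h2 h1

end Pool.Agent.Helper83.SD
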