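import Pool.Agent.Helper83.SD.Basic

/-!
Project SD, module Growth: crude growth of a polynomial in the complex plane.

`B(cos θ) = Σ_{|k| ≤ D} c_k e^{i k θ}` (a Laurent polynomial in `e^{iθ}`), and
`c_k = (1/2π) ∫_0^{2π} B(cos s) e^{-iks} ds` has modulus at most `S`.
-/

set_option autoImplicit false

open MeasureTheory Real

namespace Pool.Agent.Helper83.SD

/-- `w^D B((w + 1/w)/2)` as a polynomial in `w` -/
private theorem growth_laurent (B : Polynomial ℝ) (D : ℕ) (hD : B.natDegree ≤ D) :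
    ∃ Q : Polynomial ℂ, Q.natDegree ≤ 2 * D ∧ ∀ w : ℂ, w ≠ 0 →
      Q.eval w = w ^ D * Polynomial.aeval ((w + w⁻¹) / 2) B := by
  classical
  refine ⟨∑ n ∈ Finset.range (D + 1), Polynomial.C ((B.coeff n : ℝ) : ℂ) *
    (Polynomial.X ^ (D - n) * (Polynomial.C (1 / 2 : ℂ) * (Polynomial.X ^ 2 + 1)) ^ n), ?_, ?_⟩
  · refine Polynomial.natDegree_sum_le_of_forall_le _ _ fun n hn => ?_
    have hn' : n ≤ D := Nat.lt_succ_iff.1 (Finset.mem_range.1 hn)
    have h1 : (Polynomial.C (1 / 2 : ℂ) * (Polynomial.X ^ 2 + 1)).natDegree ≤ 2 := by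
      refine (Polynomial.natDegree_C_mul_le _ _).trans ?_
      refine (Polynomial.natDegree_add_le _ _).trans ?_
      rw [Polynomial.natDegree_X_pow, Polynomial.natDegree_one]
      simp
    have h2 : ((Polynomial.C (1 / 2 : ℂ) * (Polynomial.X ^ 2 + 1)) ^ n).natDegree ≤ n * 2 :=
      (Polynomial.natDegree_pow_le).trans (Nat.mul_le_mul_left _ h1)
    refine (Polynomial.natDegree_C_mul_le _ _).trans ?_
    refine (Polynomial.natDegree_mul_le).trans ?_
    rw [Polynomial.natDegree_X_pow]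
    omega
  · intro w hw
    rw [Polynomial.aeval_eq_sum_range' (Nat.lt_succ_of_le hD), Polynomial.eval_finset_sum,
      Finset.mul_sum]
    refine Finset.sum_congr rfl fun n hn => ?_
    have hn' : n ≤ D := Nat.lt_succ_iff.1 (Finset.mem_range.1 hn)
    have h1 : (1 / 2 : ℂ) * (w ^ 2 + 1) = w * ((w + w⁻¹) / 2) := by
      field_simp
    simp only [Polynomial.eval_mul, Polynomial.eval_C, Polynomial.eval_pow, Polynomial.eval_X,
      Polynomial.eval_add, Polynomial.eval_one]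
    rw [h1, mul_pow, Complex.real_smul]
    have h2 : w ^ D = w ^ (D - n) * w ^ n := by rw [← pow_add]; congr 1; omega
    rw [h2]
    ring

/-- coefficients are bounded by the maximum on the unit circle -/
private theorem growth_coeff (Q : Polynomial ℂ) {S : ℝ} (hS : ∀ w : ℂ, ‖w‖ = 1 → ‖Q.eval w‖ ≤ S)
    (k : ℕ) : ‖Q.coeff k‖ ≤ S := by
  have hS0 : 0 ≤ S := (norm_nonneg _).trans (hS 1 (by simp))
  by_cases hk : k ∈ Q.support
  · have h1 : ‖Q.coeff k‖ ^ 2 ≤ ∑ i ∈ Q.support, ‖Q.coeff i‖ ^ 2 :=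
      Finset.single_le_sum (f := fun i => ‖Q.coeff i‖ ^ 2) (fun i _ => sq_nonneg _) hk
    rw [Q.sum_sq_norm_coeff_eq_circleAverage] at h1
    have h2 : Real.circleAverage (fun θ ↦ ‖Q.eval θ‖ ^ 2) 0 1 ≤ S ^ 2 := by
      refine Real.circleAverage_mono_on_of_le_circle ?_ ?_
      · refine ContinuousOn.circleIntegrable' ?_
        exact (Continuous.pow (Continuous.norm (Polynomial.continuous Q)) 2).continuousOn
      · intro x hx
        have hx' : ‖x‖ = 1 := by simpa using hx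
        exact pow_le_pow_left₀ (norm_nonneg _) (hS x hx') 2
    exact le_of_sq_le_sq (h1.trans h2) hS0
  · rw [Polynomial.notMem_support_iff.1 hk, norm_zero]
    exact hS0

theorem growth (B : Polynomial ℝ) (D : ℕ) (hD : B.natDegree ≤ D) {S : ℝ}
    (hS : ∀ z : ℝ, z ^ 2 ≤ 1 → |B.eval z| ≤ S) (θ : ℂ) :
    ‖Polynomial.aeval (Complex.cos θ) B‖ ≤
      (2 * (D : ℝ) + 1) * S * Real.exp ((D : ℝ) * |θ.im|) := by
  have hS0 : 0 ≤ S := (abs_nonneg _).trans (hS 0 (by norm_num))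
  obtain ⟨Q, hQd, hQ⟩ := growth_laurent B D hD
  have hQS : ∀ w : ℂ, ‖w‖ = 1 → ‖Q.eval w‖ ≤ S := by
    intro w hw
    have hw0 : w ≠ 0 := by
      intro h; rw [h, norm_zero] at hw; exact zero_ne_one hw
    rw [hQ w hw0, norm_mul, norm_pow, hw, one_pow, one_mul]
    have h1 : w⁻¹ = (starRingEnd ℂ) w := by
      rw [Complex.inv_def, Complex.normSq_eq_norm_sq, hw]
      simp
    have h2 : (w + w⁻¹) / 2 = ((w.re : ℝ) : ℂ) := by
      rw [h1, Complex.add_conj]
      push_cast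
      ring
    have h3 : Polynomial.aeval ((w.re : ℝ) : ℂ) B = ((B.eval w.re : ℝ) : ℂ) := by
      have := Polynomial.aeval_algebraMap_apply ℂ w.re B
      simpa using this
    rw [h2, h3, Complex.norm_real, Real.norm_eq_abs]
    refine hS _ ?_
    have h4 : |w.re| ≤ 1 := (Complex.abs_re_le_norm w).trans hw.le
    have := abs_le.1 h4
    nlinarith
  have hc := growth_coeff Q hQS
  set w : ℂ := Complex.exp (θ * Complex.I) with hwdef
  have hw0 : w ≠ 0 := Complex.exp_ne_zero _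
  have hcos : (w + w⁻¹) / 2 = Complex.cos θ := by
    rw [hwdef, ← Complex.exp_neg, Complex.cos, neg_mul]
  have hnw : ‖w‖ = Real.exp (-θ.im) := by
    rw [hwdef, Complex.norm_exp]
    simp
  have hkey : ‖w‖ ^ D * ‖Polynomial.aeval (Complex.cos θ) B‖ ≤
      ∑ k ∈ Finset.range (2 * D + 1), S * ‖w‖ ^ k := by
    rw [← hcos, ← norm_pow, ← norm_mul, ← hQ w hw0,
      Polynomial.eval_eq_sum_range' (Nat.lt_succ_of_le hQd)]
    refine (norm_sum_le _ _).trans (Finset.sum_le_sum fun k _ => ?_)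
    rw [norm_mul, norm_pow]
    exact mul_le_mul_of_nonneg_right (hc k) (by positivity)
  have hterm : ∀ k ∈ Finset.range (2 * D + 1), S * ‖w‖ ^ k ≤
      ‖w‖ ^ D * (S * Real.exp ((D : ℝ) * |θ.im|)) := by
    intro k hk
    have hk' : k ≤ 2 * D := Nat.lt_succ_iff.1 (Finset.mem_range.1 hk)
    have h1 : ‖w‖ ^ k ≤ ‖w‖ ^ D * Real.exp ((D : ℝ) * |θ.im|) := by
      rw [hnw, ← Real.exp_nat_mul, ← Real.exp_nat_mul, ← Real.exp_add]
      refine Real.exp_le_exp.2 ?_
      have hkR : (k : ℝ) ≤ 2 * D := by exact_mod_cast hk'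
      have hk0 : (0 : ℝ) ≤ k := Nat.cast_nonneg k
      have h2 : ((D : ℝ) - k) * θ.im ≤ (D : ℝ) * |θ.im| := by
        refine (le_abs_self _).trans ?_
        rw [abs_mul]
        refine mul_le_mul_of_nonneg_right ?_ (abs_nonneg _)
        rw [abs_le]
        constructor <;> linarith
      linarith
    calc S * ‖w‖ ^ k ≤ S * (‖w‖ ^ D * Real.exp ((D : ℝ) * |θ.im|)) :=
          mul_le_mul_of_nonneg_left h1 hS0
      _ = ‖w‖ ^ D * (S * Real.exp ((D : ℝ) * |θ.im|)) := by ring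
  have hsum := hkey.trans (Finset.sum_le_sum hterm)
  rw [Finset.sum_const, Finset.card_range, nsmul_eq_mul] at hsum
  have hpos : 0 < ‖w‖ ^ D := pow_pos (norm_pos_iff.2 hw0) D
  have : ‖w‖ ^ D * ‖Polynomial.aeval (Complex.cos θ) B‖ ≤
      ‖w‖ ^ D * ((2 * (D : ℝ) + 1) * S * Real.exp ((D : ℝ) * |θ.im|)) := by
    refine hsum.trans (le_of_eq ?_)
    push_cast
    ring
  exact le_of_mul_le_mul_left this hpos

end Pool.Agent.Helper83.SD
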