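import Pool.Agent.Helper83.SD.Basic

/-!
Project SD, module Near: complex bounds near the equator from real derivative bounds.

`H(w) = B(sin w)` is entire, `H(a + i b) = Σ_k h^(k)(a) (i b)^k / k!` with `h(s) = B(sin s)`,
so `‖H(a+ib) - h(a)‖ ≤ M (exp(Λ|b|) - 1)`, `‖H'‖ ≤ M Λ exp(Λ|b|)`, `‖H''‖ ≤ M Λ^2 exp(Λ|b|)`
at `a + i b`, `|a| ≤ π/4`; `h` is even so `h'(0) = 0` and `|h(a) - h(0)| ≤ M Λ^2 a^2 / 2`.
`B''(sin w) = (H''(w) + H'(w) tan w) / cos^2 w`, `‖cos w‖^2 = cos^2 a + sinh^2 b ≥ 1/2`.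
-/

set_option autoImplicit false

open MeasureTheory Real

namespace Pool.Agent.Helper83.SD

/-- iterated derivatives of an entire function real on the real line -/
theorem near_iter (k : ℕ) : ∀ (F : ℂ → ℂ) (g : ℝ → ℝ), Differentiable ℂ F →
    (∀ x : ℝ, F x = ((g x : ℝ) : ℂ)) →
    ∀ x : ℝ, iteratedDeriv k F (x : ℂ) = ((iteratedDeriv k g x : ℝ) : ℂ) := by
  induction k with
  | zero => intro F g _ h x; simpa using h x
  | succ k ih =>
    intro F g hF h x
    rw [iteratedDeriv_succ', iteratedDeriv_succ']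
    apply ih (deriv F) (deriv g)
    · have hc : ContDiff ℂ 2 F := hF.contDiff
      have hd : ContDiff ℂ 1 (deriv F) := by
        have h11 : ContDiff ℂ (1 + 1) F := by
          have e : (1 : WithTop ℕ∞) + 1 = 2 := one_add_one_eq_two
          rw [e]; exact hc
        exact (contDiff_succ_iff_deriv.mp h11).2.2
      exact hd.differentiable (by norm_num)
    · intro y
      have h1 : HasDerivAt (fun s : ℝ => F (s : ℂ)) (deriv F y) y :=
        (hF (y : ℂ)).hasDerivAt.comp_ofReal
      have h2 : (fun s : ℝ => F (s : ℂ)) = fun s : ℝ => ((g s : ℝ) : ℂ) := by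
        funext s; exact h s
      rw [h2] at h1
      have h3 : HasDerivAt g (deriv F y).re y := by
        have h4 : HasDerivAt (fun s : ℝ => Complex.reCLM ((g s : ℝ) : ℂ))
            (Complex.reCLM (deriv F y)) y :=
          Complex.reCLM.hasFDerivAt.comp_hasDerivAt y h1
        simpa using h4
      have h5 : HasDerivAt (fun s : ℝ => ((g s : ℝ) : ℂ)) (((deriv g y : ℝ)) : ℂ) y := by
        have := h3.differentiableAt.hasDerivAt
        exact this.ofReal_comp
      exact h1.unique h5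

/-- Taylor bound for entire functions -/
theorem near_taylor {F : ℂ → ℂ} (hF : Differentiable ℂ F) {c w : ℂ} {C Λ : ℝ}
    (h : ∀ k : ℕ, ‖iteratedDeriv k F c‖ ≤ C * Λ ^ k) :
    ‖F w‖ ≤ C * Real.exp (Λ * ‖w - c‖) := by
  have h1 := Complex.hasSum_taylorSeries_of_entire hF c w
  have h2 : HasSum (fun k : ℕ => C * ((Λ * ‖w - c‖) ^ k / (k.factorial : ℝ)))
      (C * Real.exp (Λ * ‖w - c‖)) := by
    apply HasSum.mul_left
    rw [Real.exp_eq_exp_ℝ]
    exact NormedSpace.expSeries_div_hasSum_exp (Λ * ‖w - c‖)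
  refine h1.norm_le_of_bounded h2 ?_
  intro k
  rw [norm_smul, norm_smul, norm_inv, norm_pow, Complex.norm_natCast]
  have hf : (0 : ℝ) < (k.factorial : ℝ) := by exact_mod_cast k.factorial_pos
  calc ((k.factorial : ℝ))⁻¹ * (‖w - c‖ ^ k * ‖iteratedDeriv k F c‖)
      ≤ ((k.factorial : ℝ))⁻¹ * (‖w - c‖ ^ k * (C * Λ ^ k)) := by
        gcongr
        exact h k
    _ = C * ((Λ * ‖w - c‖) ^ k / (k.factorial : ℝ)) := by
        rw [mul_pow]; ring

/-- Taylor bound for entire functions, with the value at the centre removed -/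
theorem near_taylor' {F : ℂ → ℂ} (hF : Differentiable ℂ F) {c w : ℂ} {C Λ : ℝ}
    (h : ∀ k : ℕ, 1 ≤ k → ‖iteratedDeriv k F c‖ ≤ C * Λ ^ k) :
    ‖F w - F c‖ ≤ C * (Real.exp (Λ * ‖w - c‖) - 1) := by
  have h1 := Complex.hasSum_taylorSeries_of_entire hF c w
  have h2 : HasSum (fun k : ℕ => C * ((Λ * ‖w - c‖) ^ k / (k.factorial : ℝ)))
      (C * Real.exp (Λ * ‖w - c‖)) := by
    apply HasSum.mul_left
    rw [Real.exp_eq_exp_ℝ]
    exact NormedSpace.expSeries_div_hasSum_exp (Λ * ‖w - c‖)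
  have h3 := (hasSum_nat_add_iff' (f := fun k : ℕ => ((k.factorial : ℂ))⁻¹ • (w - c) ^ k •
    iteratedDeriv k F c) 1).mpr h1
  have h4 := (hasSum_nat_add_iff' (f := fun k : ℕ => C * ((Λ * ‖w - c‖) ^ k /
    (k.factorial : ℝ))) 1).mpr h2
  simp only [Finset.sum_range_one, Nat.factorial_zero, Nat.cast_one, inv_one, one_smul, pow_zero,
    iteratedDeriv_zero, div_one, mul_one] at h3 h4
  have h5 : C * Real.exp (Λ * ‖w - c‖) - C = C * (Real.exp (Λ * ‖w - c‖) - 1) := by ring
  rw [h5] at h4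
  refine h3.norm_le_of_bounded h4 ?_
  intro k
  rw [norm_smul, norm_smul, norm_inv, norm_pow, Complex.norm_natCast]
  have hf : (0 : ℝ) < ((k + 1).factorial : ℝ) := by exact_mod_cast (k + 1).factorial_pos
  calc (((k + 1).factorial : ℝ))⁻¹ * (‖w - c‖ ^ (k + 1) * ‖iteratedDeriv (k + 1) F c‖)
      ≤ (((k + 1).factorial : ℝ))⁻¹ * (‖w - c‖ ^ (k + 1) * (C * Λ ^ (k + 1))) := by
        gcongr
        exact h (k + 1) (by omega)
    _ = C * ((Λ * ‖w - c‖) ^ (k + 1) / ((k + 1).factorial : ℝ)) := by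
        rw [mul_pow]; ring

/-- the pullback -/
noncomputable def nearF (B : Polynomial ℝ) (w : ℂ) : ℂ := Polynomial.aeval (Complex.sin w) B

theorem nearF_diff (B : Polynomial ℝ) : Differentiable ℂ (nearF B) := by
  have h : Differentiable ℂ fun z : ℂ => Polynomial.aeval z B := by
    have : (fun z : ℂ => Polynomial.aeval z B) = fun z : ℂ =>
        (B.map (algebraMap ℝ ℂ)).eval z := by
      funext z
      rw [Polynomial.eval_map_algebraMap]
    rw [this]
    exact Polynomial.differentiable _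
  exact h.comp Complex.differentiable_sin

theorem nearF_hasDerivAt (B : Polynomial ℝ) (w : ℂ) :
    HasDerivAt (nearF B) (nearF (Polynomial.derivative B) w * Complex.cos w) w := by
  have h : HasDerivAt (fun z : ℂ => (B.map (algebraMap ℝ ℂ)).eval z)
      ((Polynomial.derivative (B.map (algebraMap ℝ ℂ))).eval (Complex.sin w)) (Complex.sin w) :=
    Polynomial.hasDerivAt _ _
  have h2 := h.comp w (Complex.hasDerivAt_sin w)
  have e1 : nearF B = (fun z : ℂ => (B.map (algebraMap ℝ ℂ)).eval z) ∘ Complex.sin := by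
    funext z
    simp only [nearF, Function.comp]
    rw [Polynomial.eval_map_algebraMap]
  have e2 : nearF (Polynomial.derivative B) w =
      (Polynomial.derivative (B.map (algebraMap ℝ ℂ))).eval (Complex.sin w) := by
    rw [Polynomial.derivative_map, Polynomial.eval_map_algebraMap]
    rfl
  rw [e1, e2]
  exact h2

theorem nearF_real (B : Polynomial ℝ) (x : ℝ) :
    nearF B x = ((B.eval (sin x) : ℝ) : ℂ) := by
  unfold nearF
  rw [← Complex.ofReal_sin]
  exact Polynomial.aeval_algebraMap_apply_eq_algebraMap_eval (Real.sin x) B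

theorem near_iter_bound {B : Polynomial ℝ} {M Λ : ℝ} (h : NearHyp B M Λ) {a : ℝ}
    (ha : |a| ≤ π / 4) {k : ℕ} (hk : 1 ≤ k) :
    ‖iteratedDeriv k (nearF B) (a : ℂ)‖ ≤ M * Λ ^ k := by
  rw [near_iter k (nearF B) (fun s => B.eval (sin s)) (nearF_diff B) (nearF_real B) a,
    Complex.norm_real, Real.norm_eq_abs]
  exact h.der k hk a ha

theorem near_sub (w : ℂ) : ‖w - ((w.re : ℝ) : ℂ)‖ = |w.im| := by
  have : w - ((w.re : ℝ) : ℂ) = ((w.im : ℝ) : ℂ) * Complex.I := by
    apply Complex.ext <;> simp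
  rw [this, norm_mul, Complex.norm_I, mul_one, Complex.norm_real, Real.norm_eq_abs]

/-- real part: quadratic bound near 0 -/
theorem near_real {B : Polynomial ℝ} {M Λ : ℝ} (h : NearHyp B M Λ) {a : ℝ}
    (ha : |a| ≤ π / 4) :
    |B.eval (sin a) - B.eval 0| ≤ M * (Λ * a) ^ 2 := by
  set g : ℝ → ℝ := fun s => B.eval (sin s) with hg
  have hd : ∀ x, HasDerivAt g (B.derivative.eval (sin x) * cos x) x := fun x =>
    (B.hasDerivAt (sin x)).comp x (Real.hasDerivAt_sin x)
  have hder : deriv g = fun x => B.derivative.eval (sin x) * cos x := by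
    funext x; exact (hd x).deriv
  have hd2 : ∀ x, HasDerivAt (deriv g) (deriv (deriv g) x) x := by
    intro x
    have : DifferentiableAt ℝ (deriv g) x := by
      rw [hder]
      exact (((B.derivative.hasDerivAt (sin x)).comp x
        (Real.hasDerivAt_sin x)).mul (Real.hasDerivAt_cos x)).differentiableAt
    exact this.hasDerivAt
  have h0 : deriv g 0 = 0 := by
    have he : ∀ x, g (-x) = g x := by
      intro x; simp only [hg, Real.sin_neg]; exact h.even _
    have h1 : HasDerivAt (fun x => g (-x)) (-(deriv g 0)) 0 := by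
      have h2 : HasDerivAt g (deriv g 0) (-(0 : ℝ)) := by
        rw [neg_zero]; exact (hd 0).differentiableAt.hasDerivAt
      have h3 := h2.comp (0 : ℝ) (hasDerivAt_neg (0 : ℝ))
      rw [mul_neg_one] at h3
      exact h3
    have h4 : (fun x => g (-x)) = g := by funext x; exact he x
    rw [h4] at h1
    have h5 := h1.unique (hd 0).differentiableAt.hasDerivAt
    linarith
  have hb2 : ∀ x, |x| ≤ π / 4 → ‖deriv (deriv g) x‖ ≤ M * Λ ^ 2 := by
    intro x hx
    have := h.der 2 (by norm_num) x hx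
    rw [iteratedDeriv_succ, iteratedDeriv_one] at this
    exact this
  -- first derivative bound
  have hmem : ∀ x, x ∈ Set.uIcc (0 : ℝ) a → |x| ≤ |a| := by
    intro x hx
    rcases Set.mem_uIcc.mp hx with ⟨h1, h2⟩ | ⟨h1, h2⟩
    · rw [abs_of_nonneg h1, abs_of_nonneg (h1.trans h2)]; exact h2
    · rw [abs_of_nonpos h2, abs_of_nonpos (h1.trans h2)]; linarith
  have hb1 : ∀ x ∈ Set.uIcc (0 : ℝ) a, ‖deriv g x‖ ≤ M * Λ ^ 2 * |a| := by
    intro x hx
    have hx' := hmem x hx
    have hconv : Convex ℝ (Set.uIcc (0 : ℝ) a) := convex_uIcc 0 a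
    have key := hconv.norm_image_sub_le_of_norm_hasDerivWithin_le
      (f := deriv g) (f' := fun x => deriv (deriv g) x) (C := M * Λ ^ 2)
      (fun y _ => (hd2 y).hasDerivWithinAt)
      (fun y hy => hb2 y ((hmem y hy).trans ha)) (Set.left_mem_uIcc) hx
    rw [h0, sub_zero, sub_zero] at key
    refine key.trans ?_
    have hM : 0 ≤ M * Λ ^ 2 := (norm_nonneg _).trans (hb2 0 (by simp; positivity))
    rw [Real.norm_eq_abs]
    gcongr
  have key := (convex_uIcc (0 : ℝ) a).norm_image_sub_le_of_norm_hasDerivWithin_le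
    (f := g) (f' := fun x => deriv g x) (C := M * Λ ^ 2 * |a|)
    (fun y _ => ((hd y).differentiableAt.hasDerivAt).hasDerivWithinAt)
    (fun y hy => hb1 y hy) (Set.left_mem_uIcc) (Set.right_mem_uIcc)
  have e0 : g 0 = B.eval 0 := by simp [hg]
  rw [e0, sub_zero, Real.norm_eq_abs, Real.norm_eq_abs] at key
  have e1 : M * Λ ^ 2 * |a| * |a| = M * (Λ * a) ^ 2 := by
    rw [mul_assoc, abs_mul_abs_self]; ring
  rw [e1] at key
  exact key

theorem near_val {B : Polynomial ℝ} {M Λ : ℝ} (hM : 0 ≤ M) (hΛ : 1 ≤ Λ) (h : NearHyp B M Λ)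
    (w : ℂ) (hw : |w.re| ≤ π / 4) :
    ‖Polynomial.aeval (Complex.sin w) B - ((B.eval 0 : ℝ) : ℂ)‖ ≤
      M * (Real.exp (Λ * |w.im|) - 1 + (Λ * w.re) ^ 2) := by
  have h1 := near_taylor' (nearF_diff B) (c := ((w.re : ℝ) : ℂ)) (w := w) (C := M) (Λ := Λ)
    (fun k hk => near_iter_bound h hw hk)
  rw [near_sub] at h1
  have h2 : ‖nearF B ((w.re : ℝ) : ℂ) - ((B.eval 0 : ℝ) : ℂ)‖ ≤ M * (Λ * w.re) ^ 2 := by
    rw [nearF_real, ← Complex.ofReal_sub, Complex.norm_real, Real.norm_eq_abs]
    exact near_real h hw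
  have e : Polynomial.aeval (Complex.sin w) B - ((B.eval 0 : ℝ) : ℂ) =
      (nearF B w - nearF B ((w.re : ℝ) : ℂ)) +
        (nearF B ((w.re : ℝ) : ℂ) - ((B.eval 0 : ℝ) : ℂ)) := by
    unfold nearF; ring
  rw [e]
  refine (norm_add_le _ _).trans ?_
  linarith

theorem near_der2 {B : Polynomial ℝ} {M Λ : ℝ} (hM : 0 ≤ M) (hΛ : 1 ≤ Λ) (h : NearHyp B M Λ)
    (w : ℂ) (hw : |w.re| ≤ π / 4) (hw2 : |w.im| ≤ 1 / 4) :
    ‖Polynomial.aeval (Complex.sin w) (Polynomial.derivative (Polynomial.derivative B))‖ ≤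
      5 * M * Λ ^ 2 * Real.exp (Λ * |w.im|) := by
  have hFd : deriv (nearF B) = fun z => nearF (Polynomial.derivative B) z * Complex.cos z := by
    funext z; exact (nearF_hasDerivAt B z).deriv
  have hF'diff : Differentiable ℂ (deriv (nearF B)) := by
    rw [hFd]
    exact (nearF_diff _).mul Complex.differentiable_cos
  have hFd2 : ∀ z, deriv (deriv (nearF B)) z =
      nearF (Polynomial.derivative (Polynomial.derivative B)) z * Complex.cos z * Complex.cos z
        + nearF (Polynomial.derivative B) z * (-Complex.sin z) := by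
    intro z
    rw [hFd]
    exact ((nearF_hasDerivAt (Polynomial.derivative B) z).mul (Complex.hasDerivAt_cos z)).deriv
  have hF''diff : Differentiable ℂ (deriv (deriv (nearF B))) := by
    have : deriv (deriv (nearF B)) = fun z =>
      nearF (Polynomial.derivative (Polynomial.derivative B)) z * Complex.cos z * Complex.cos z
        + nearF (Polynomial.derivative B) z * (-Complex.sin z) := by
      funext z; exact hFd2 z
    rw [this]
    exact (((nearF_diff _).mul Complex.differentiable_cos).mul Complex.differentiable_cos).add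
      ((nearF_diff _).mul Complex.differentiable_sin.neg)
  have h1 : ‖deriv (nearF B) w‖ ≤ (M * Λ) * Real.exp (Λ * |w.im|) := by
    rw [← near_sub]
    apply near_taylor hF'diff
    intro k
    rw [← iteratedDeriv_succ']
    refine (near_iter_bound h hw (by omega)).trans (le_of_eq ?_)
    ring
  have h2 : ‖deriv (deriv (nearF B)) w‖ ≤ (M * Λ ^ 2) * Real.exp (Λ * |w.im|) := by
    rw [← near_sub]
    apply near_taylor hF''diff
    intro k
    rw [← iteratedDeriv_succ', ← iteratedDeriv_succ']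
    refine (near_iter_bound h hw (by omega)).trans (le_of_eq ?_)
    ring
  -- norms of sine and cosine
  have hc : Complex.normSq (Complex.cos w) = cos w.re ^ 2 + Real.sinh w.im ^ 2 := by
    rw [Complex.cos_eq, Complex.normSq_apply]
    simp only [Complex.sub_re, Complex.sub_im, Complex.mul_re, Complex.mul_im, Complex.I_re,
      Complex.I_im, ← Complex.ofReal_cos, ← Complex.ofReal_sin, ← Complex.ofReal_cosh,
      ← Complex.ofReal_sinh, Complex.ofReal_re, Complex.ofReal_im]
    have e1 := Real.sin_sq_add_cos_sq w.re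
    have e2 := Real.cosh_sq w.im
    ring_nf
    rw [e2]
    have e3 : Real.sin w.re ^ 2 = 1 - cos w.re ^ 2 := by linarith
    rw [e3]; ring
  have hs : Complex.normSq (Complex.sin w) = sin w.re ^ 2 + Real.sinh w.im ^ 2 := by
    rw [Complex.sin_eq, Complex.normSq_apply]
    simp only [Complex.add_re, Complex.add_im, Complex.mul_re, Complex.mul_im, Complex.I_re,
      Complex.I_im, ← Complex.ofReal_cos, ← Complex.ofReal_sin, ← Complex.ofReal_cosh,
      ← Complex.ofReal_sinh, Complex.ofReal_re, Complex.ofReal_im]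
    have e1 := Real.sin_sq_add_cos_sq w.re
    have e2 := Real.cosh_sq w.im
    ring_nf
    rw [e2]
    have e3 : cos w.re ^ 2 = 1 - Real.sin w.re ^ 2 := by linarith
    rw [e3]; ring
  have hcos : 1 / 2 ≤ cos w.re ^ 2 := by
    have hpi := Real.pi_pos
    have h3 : √2 / 2 ≤ cos w.re := by
      rw [← Real.cos_pi_div_four, ← Real.cos_abs w.re]
      apply Real.cos_le_cos_of_nonneg_of_le_pi (abs_nonneg _) (by linarith) hw
    have h4 : (√2 / 2) ^ 2 ≤ cos w.re ^ 2 := by gcongr
    have h5 : (√2 / 2) ^ 2 = 1 / 2 := by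
      rw [div_pow, Real.sq_sqrt (by norm_num)]; norm_num
    linarith
  have hle : ‖Complex.sin w‖ ≤ ‖Complex.cos w‖ := by
    refine (pow_le_pow_iff_left₀ (norm_nonneg _) (norm_nonneg _) two_ne_zero).mp ?_
    rw [← Complex.normSq_eq_norm_sq, ← Complex.normSq_eq_norm_sq, hc, hs]
    have e1 := Real.sin_sq_add_cos_sq w.re
    linarith
  have hhalf : 1 / 2 ≤ ‖Complex.cos w‖ ^ 2 := by
    rw [← Complex.normSq_eq_norm_sq, hc]
    nlinarith [sq_nonneg (Real.sinh w.im)]
  have hcne : Complex.cos w ≠ 0 := by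
    intro h0
    rw [h0, norm_zero] at hhalf
    norm_num at hhalf
  have hcpos : 0 < ‖Complex.cos w‖ := norm_pos_iff.mpr hcne
  set X := nearF (Polynomial.derivative (Polynomial.derivative B)) w with hX
  have e1 : X * Complex.cos w ^ 2 = deriv (deriv (nearF B)) w +
      nearF (Polynomial.derivative B) w * Complex.sin w := by
    rw [hFd2 w]; ring
  have e2 : ‖nearF (Polynomial.derivative B) w * Complex.sin w‖ ≤ ‖deriv (nearF B) w‖ := by
    rw [hFd, norm_mul, norm_mul]
    gcongr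
  have e3 : ‖X‖ * ‖Complex.cos w‖ ^ 2 ≤ 2 * (M * Λ ^ 2) * Real.exp (Λ * |w.im|) := by
    have : ‖X * Complex.cos w ^ 2‖ ≤ ‖deriv (deriv (nearF B)) w‖ +
        ‖nearF (Polynomial.derivative B) w * Complex.sin w‖ := by
      rw [e1]; exact norm_add_le _ _
    rw [norm_mul, norm_pow] at this
    have h6 : M * Λ * Real.exp (Λ * |w.im|) ≤ M * Λ ^ 2 * Real.exp (Λ * |w.im|) := by
      have : Λ ≤ Λ ^ 2 := by nlinarith
      gcongr
    linarith
  have e4 : ‖X‖ * (1 / 2) ≤ ‖X‖ * ‖Complex.cos w‖ ^ 2 := by gcongr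
  have e5 : 0 ≤ M * Λ ^ 2 * Real.exp (Λ * |w.im|) := by positivity
  have e6 : ‖Polynomial.aeval (Complex.sin w)
      (Polynomial.derivative (Polynomial.derivative B))‖ = ‖X‖ := rfl
  rw [e6]
  nlinarith

end Pool.Agent.Helper83.SD
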