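import Pool.Agent.Helper83.SD.Wt
import Pool.Agent.Helper83.SD.Growth
import Pool.Agent.Helper83.SD.Arc
import Pool.Agent.Helper83.SD.Near

/-!
Project SD, module EqB: the equator functional is bounded by `C M` (see the guide).
-/

set_option autoImplicit false

open MeasureTheory Real

namespace Pool.Agent.Helper83.SD

namespace EqB

theorem even_aeval {B : Polynomial ℝ} (h : ∀ z : ℝ, B.eval (-z) = B.eval z) (z : ℂ) :
    Polynomial.aeval (-z) B = Polynomial.aeval z B := by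
  have h1 : refl B = B := Polynomial.funext (fun z => by rw [refl_eval, h])
  rw [← refl_aeval, h1]

theorem im_zero {B : Polynomial ℝ} (h : ∀ z : ℝ, B.eval (-z) = B.eval z) (τ : ℝ) :
    (Polynomial.aeval ((τ : ℂ) * Complex.I) B).im = 0 := by
  have h1 : (starRingEnd ℂ) (Polynomial.aeval ((τ : ℂ) * Complex.I) B) =
      Polynomial.aeval ((τ : ℂ) * Complex.I) B := by
    rw [← Polynomial.aeval_conj, map_mul, Complex.conj_I, Complex.conj_ofReal, mul_neg,
      even_aeval h]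
  exact Complex.conj_eq_iff_im.mp h1

theorem real_val (B : Polynomial ℝ) (x : ℝ) :
    Polynomial.aeval (x : ℂ) B = ((B.eval x : ℝ) : ℂ) := by
  have := Polynomial.aeval_algebraMap_apply ℂ x B
  simpa using this

/-- second difference on a rectangle -/
theorem rect (B : Polynomial ℝ) {x τ S : ℝ} (hx : 0 ≤ x)
    (hS : ∀ z : ℂ, 0 ≤ z.re → z.re ≤ x → |z.im| ≤ |τ| →
      ‖Polynomial.aeval z (Polynomial.derivative (Polynomial.derivative B))‖ ≤ S) :
    ‖(Polynomial.aeval ((x : ℂ) + (τ : ℂ) * Complex.I) B - Polynomial.aeval (x : ℂ) B)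
      - (Polynomial.aeval ((τ : ℂ) * Complex.I) B - Polynomial.aeval (0 : ℂ) B)‖ ≤
      S * |τ| * x := by
  -- first step
  have h1 : ∀ s : ℝ, 0 ≤ s → s ≤ x →
      ‖Polynomial.aeval ((s : ℂ) + (τ : ℂ) * Complex.I) (Polynomial.derivative B)
        - Polynomial.aeval (s : ℂ) (Polynomial.derivative B)‖ ≤ S * |τ| := by
    intro s hs0 hsx
    have hd : ∀ σ ∈ Set.uIcc (0 : ℝ) τ, HasDerivWithinAt
        (fun σ : ℝ => Polynomial.aeval ((s : ℂ) + (σ : ℂ) * Complex.I) (Polynomial.derivative B))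
        (Polynomial.aeval ((s : ℂ) + (σ : ℂ) * Complex.I)
          (Polynomial.derivative (Polynomial.derivative B)) * Complex.I) (Set.uIcc 0 τ) σ := by
      intro σ _
      have e1 : HasDerivAt (fun z : ℂ => (s : ℂ) + z * Complex.I) (1 * Complex.I) (σ : ℂ) :=
        ((hasDerivAt_id (σ : ℂ)).mul_const Complex.I).const_add _
      rw [one_mul] at e1
      have e2 := (Polynomial.hasDerivAt_aeval (Polynomial.derivative B)
        ((s : ℂ) + (σ : ℂ) * Complex.I)).comp (σ : ℂ) e1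
      exact (HasDerivAt.comp_ofReal e2).hasDerivWithinAt
    have hb : ∀ σ ∈ Set.uIcc (0 : ℝ) τ, ‖Polynomial.aeval ((s : ℂ) + (σ : ℂ) * Complex.I)
          (Polynomial.derivative (Polynomial.derivative B)) * Complex.I‖ ≤ S := by
      intro σ hσ
      rw [norm_mul, Complex.norm_I, mul_one]
      refine hS _ ?_ ?_ ?_
      · simpa using hs0
      · simpa using hsx
      · have : |σ - 0| ≤ |τ - 0| := by
          rcases Set.mem_uIcc.mp hσ with h | h
          · rw [sub_zero, sub_zero, abs_of_nonneg h.1, abs_of_nonneg (h.1.trans h.2)]; exact h.2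
          · rw [sub_zero, sub_zero, abs_of_nonpos h.2, abs_of_nonpos (h.1.trans h.2)]
            linarith [h.1]
        simpa using this
    have key := Convex.norm_image_sub_le_of_norm_hasDerivWithin_le hd hb (convex_uIcc 0 τ)
      Set.left_mem_uIcc Set.right_mem_uIcc
    simpa using key
  have hd : ∀ s ∈ Set.Icc (0 : ℝ) x, HasDerivWithinAt
      (fun s : ℝ => Polynomial.aeval ((s : ℂ) + (τ : ℂ) * Complex.I) B - Polynomial.aeval (s : ℂ) B)
      (Polynomial.aeval ((s : ℂ) + (τ : ℂ) * Complex.I) (Polynomial.derivative B)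
        - Polynomial.aeval (s : ℂ) (Polynomial.derivative B)) (Set.Icc 0 x) s := by
    intro s _
    have e1 : HasDerivAt (fun z : ℂ => z + (τ : ℂ) * Complex.I) 1 (s : ℂ) :=
      (hasDerivAt_id (s : ℂ)).add_const _
    have e2 := (Polynomial.hasDerivAt_aeval B ((s : ℂ) + (τ : ℂ) * Complex.I)).comp (s : ℂ) e1
    rw [mul_one] at e2
    have e3 := e2.sub (Polynomial.hasDerivAt_aeval B (s : ℂ))
    exact (HasDerivAt.comp_ofReal e3).hasDerivWithinAt
  have key := Convex.norm_image_sub_le_of_norm_hasDerivWithin_le hd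
    (fun s hs => h1 s hs.1 hs.2) (convex_Icc 0 x) (Set.left_mem_Icc.mpr hx)
    (Set.right_mem_Icc.mpr hx)
  simpa [abs_of_nonneg hx] using key

theorem cosh_ge (b : ℝ) : 1 + b ^ 2 / 2 ≤ Real.cosh b := by
  have h1 : Real.cosh b = 1 + 2 * Real.sinh (b / 2) ^ 2 := by
    have := Real.cosh_two_mul (b / 2)
    rw [show 2 * (b / 2) = b by ring, Real.cosh_sq] at this
    rw [this]; ring
  have h2 : |b / 2| ≤ |Real.sinh (b / 2)| := by
    rw [Real.abs_sinh]
    exact Real.self_le_sinh_iff.mpr (abs_nonneg _)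
  have h3 : (b / 2) ^ 2 ≤ Real.sinh (b / 2) ^ 2 := sq_le_sq.mpr h2
  rw [h1]
  nlinarith

theorem norm_sq' (z : ℂ) : ‖z‖ ^ 2 = z.re ^ 2 + z.im ^ 2 := by
  rw [← Complex.normSq_eq_norm_sq, Complex.normSq_apply]; ring

theorem norm_le_of {z : ℂ} {r : ℝ} (hr : 0 ≤ r) (h : z.re ^ 2 + z.im ^ 2 ≤ r ^ 2) : ‖z‖ ≤ r := by
  rw [← norm_sq'] at h
  exact (abs_le_of_sq_le_sq' h hr).2

/-- preimages under the sine near the real axis -/
theorem arc_small {z : ℂ} (hs : |z.re| ≤ 1 / 2) : ∃ w : ℂ, Complex.sin w = z ∧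
    |w.re| ≤ π / 2 * |z.re| ∧ |w.im| ≤ |z.im| * (1 + z.re ^ 2) := by
  obtain ⟨w, hw, h1, h2, h3⟩ := arc z
  refine ⟨w, hw, ?_, ?_⟩
  · have h4 := mul_abs_le_abs_sin h1
    have h5 : 2 / π * |w.re| ≤ |z.re| := h4.trans h3
    have hpi := Real.pi_pos
    have h6 : |w.re| = π / 2 * (2 / π * |w.re|) := by field_simp
    rw [h6]
    exact mul_le_mul_of_nonneg_left h5 (by positivity)
  · set s := z.re with hsd
    set σ := z.im with hσd
    have hs' := abs_le.mp hs
    have hu : 1 / 2 ≤ 1 - s := by linarith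
    have hv : 1 / 2 ≤ 1 + s := by linarith
    have n1 : ‖z - 1‖ ≤ (1 - s) + σ ^ 2 / (2 * (1 - s)) := by
      refine norm_le_of (by positivity) ?_
      have e1 : (z - 1).re = -(1 - s) := by simp [hsd]
      have e2 : (z - 1).im = σ := by simp [hσd]
      rw [e1, e2]
      have e3 : ((1 - s) + σ ^ 2 / (2 * (1 - s))) ^ 2 =
          (1 - s) ^ 2 + σ ^ 2 + (σ ^ 2 / (2 * (1 - s))) ^ 2 := by
        have : (1 - s) ≠ 0 := by linarith
        field_simp
        ring
      rw [e3]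
      have := sq_nonneg (σ ^ 2 / (2 * (1 - s)))
      nlinarith
    have n2 : ‖z + 1‖ ≤ (1 + s) + σ ^ 2 / (2 * (1 + s)) := by
      refine norm_le_of (by positivity) ?_
      have e1 : (z + 1).re = 1 + s := by simp [hsd]; ring
      have e2 : (z + 1).im = σ := by simp [hσd]
      rw [e1, e2]
      have e3 : ((1 + s) + σ ^ 2 / (2 * (1 + s))) ^ 2 =
          (1 + s) ^ 2 + σ ^ 2 + (σ ^ 2 / (2 * (1 + s))) ^ 2 := by
        have : (1 + s) ≠ 0 := by linarith
        field_simp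
        ring
      rw [e3]
      have := sq_nonneg (σ ^ 2 / (2 * (1 + s)))
      nlinarith
    have h4 := cosh_ge w.im
    have hss : s ^ 2 ≤ 1 / 4 := by nlinarith
    have h5 : w.im ^ 2 ≤ σ ^ 2 / (1 - s ^ 2) := by
      have e : (1 - s) + σ ^ 2 / (2 * (1 - s)) + ((1 + s) + σ ^ 2 / (2 * (1 + s))) =
          2 + σ ^ 2 / (1 - s ^ 2) := by
        have a1 : (1 - s) ≠ 0 := by linarith
        have a2 : (1 + s) ≠ 0 := by linarith
        have a3 : (1 - s ^ 2) = (1 - s) * (1 + s) := by ring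
        rw [a3]
        field_simp
        ring
      rw [h2] at h4
      linarith
    have h6 : σ ^ 2 / (1 - s ^ 2) ≤ (|σ| * (1 + s ^ 2)) ^ 2 := by
      rw [div_le_iff₀ (by linarith), mul_pow, sq_abs]
      have : 1 ≤ (1 + s ^ 2) ^ 2 * (1 - s ^ 2) := by
        have hs2 := sq_nonneg s
        nlinarith [mul_nonneg hs2 hs2, mul_nonneg hs2 (mul_nonneg hs2 hs2)]
      nlinarith [sq_nonneg σ]
    have h7 : w.im ^ 2 ≤ (|σ| * (1 + s ^ 2)) ^ 2 := h5.trans h6
    have h8 : |w.im| ≤ |(|σ| * (1 + s ^ 2))| := sq_le_sq.mp h7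
    rwa [abs_of_nonneg (a := |σ| * (1 + s ^ 2)) (by positivity)] at h8

/-- preimages under the sine, far away -/
theorem arc_big {z : ℂ} (h0 : 0 ≤ z.re) (hz : z.im ^ 2 ≤ 4 * z.re) : ∃ w : ℂ,
    Complex.sin w = z ∧ w.im ^ 2 ≤ 4 * z.re := by
  obtain ⟨w, hw, h1, h2, h3⟩ := arc z
  refine ⟨w, hw, ?_⟩
  have n1 : ‖z - 1‖ ≤ 1 + z.re := by
    refine norm_le_of (by positivity) ?_
    have e1 : (z - 1).re = z.re - 1 := by simp
    have e2 : (z - 1).im = z.im := by simp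
    rw [e1, e2]
    nlinarith
  have n2 : ‖z + 1‖ ≤ 1 + 3 * z.re := by
    refine norm_le_of (by positivity) ?_
    have e1 : (z + 1).re = z.re + 1 := by simp
    have e2 : (z + 1).im = z.im := by simp
    rw [e1, e2]
    nlinarith
  have h4 := cosh_ge w.im
  rw [h2] at h4
  linarith

theorem zeta_re (J : ℕ) (y : ℝ) : (zeta J y).re = (1 / 6 + y ^ 2) / L2 J := by
  unfold zeta
  rw [Complex.sub_re, Complex.ofReal_re, Complex.re_ofReal_mul, Complex.I_re, mul_zero, sub_zero]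

theorem zeta_im (J : ℕ) (y : ℝ) : (zeta J y).im = -((2 * (J : ℝ) * y) / L2 J) := by
  unfold zeta
  rw [Complex.sub_im, Complex.ofReal_im, Complex.im_ofReal_mul, Complex.I_im, mul_one, zero_sub]

theorem J_sq_le (J : ℕ) : (J : ℝ) ^ 2 ≤ L2 J := by unfold L2; linarith

/-- the integrand without the weight -/
noncomputable def intg (J : ℕ) (B : Polynomial ℝ) (y : ℝ) : ℝ :=
  (((J : ℂ) + Complex.I * (y : ℂ)) *
    (Polynomial.aeval (zeta J y) B - ((B.eval 0 : ℝ) : ℂ))).im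

theorem far {t J : ℕ} (ht : 1000 ≤ (t : ℝ)) (hR : Reg t J) {B : Polynomial ℝ} {M : ℝ}
    (hM : 0 ≤ M) (hD : B.natDegree ≤ 2 * t)
    (hB : ∀ z : ℝ, z ^ 2 ≤ 1 → |B.eval z - B.eval 0| ≤ M * (t : ℝ) ^ 3) {y : ℝ} (hy : 0 < y)
    (hty : (t : ℝ) ≤ Real.exp (y / 100)) :
    |intg J B y| ≤ 300 * M * ((y + y ^ 3) * Real.exp (6.26 * y)) := by
  have hL0 := L2_pos J
  have hL := L2_ge hR
  have hJL := J_sq_le J
  have hlo := hR.lo
  have hhi := hR.hi
  have ht0 : (0 : ℝ) < t := by linarith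
  -- y is at least one
  have hy1 : 1 ≤ y := by
    by_contra hcon
    push Not at hcon
    have h1 : Real.exp (y / 100) ≤ Real.exp 1 := Real.exp_le_exp.mpr (by linarith)
    have h2 := Real.exp_one_lt_d9
    linarith
  set x := (1 / 6 + y ^ 2) / L2 J with hxdef
  have hx0 : 0 ≤ x := by positivity
  have hre : (zeta J y).re = x := zeta_re J y
  obtain ⟨w, hw, hwi⟩ := arc_big (z := zeta J y) (by rw [hre]; exact hx0) (by
    rw [zeta_im, hre, hxdef, neg_sq, div_pow]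
    rw [div_le_iff₀ (by positivity)]
    have e : 4 * ((1 / 6 + y ^ 2) / L2 J) * L2 J ^ 2 = 4 * (1 / 6 + y ^ 2) * L2 J := by
      field_simp
    rw [e]
    have h1 : (2 * (J : ℝ) * y) ^ 2 = 4 * (J : ℝ) ^ 2 * y ^ 2 := by ring
    rw [h1]
    nlinarith [mul_le_mul_of_nonneg_right hJL (sq_nonneg y)])
  rw [hre] at hwi
  have hxL : x * (0.416 * (t : ℝ) ^ 2) ≤ 1 / 6 + y ^ 2 := by
    have : x * L2 J = 1 / 6 + y ^ 2 := by rw [hxdef]; field_simp
    rw [← this]
    exact mul_le_mul_of_nonneg_left hL hx0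
  have hexp : 2 * (t : ℝ) * |w.im| ≤ 6.21 * y + 3 := by
    have h1 : (2 * (t : ℝ) * |w.im|) ^ 2 ≤ (6.21 * y + 3) ^ 2 := by
      rw [mul_pow, mul_pow, sq_abs]
      have h2 : (t : ℝ) ^ 2 * w.im ^ 2 ≤ (t : ℝ) ^ 2 * (4 * x) :=
        mul_le_mul_of_nonneg_left hwi (by positivity)
      nlinarith
    have h3 := sq_le_sq.mp h1
    rw [abs_of_nonneg (a := 6.21 * y + 3) (by positivity)] at h3
    exact (le_abs_self _).trans h3
  set θ : ℂ := (π : ℂ) / 2 - w with hθ
  have hcos : Complex.cos θ = zeta J y := by rw [hθ, Complex.cos_pi_div_two_sub, hw]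
  have hθi : |θ.im| = |w.im| := by
    rw [hθ, Complex.sub_im]
    have : ((π : ℂ) / 2).im = 0 := by
      have : ((π : ℂ) / 2) = ((π / 2 : ℝ) : ℂ) := by push_cast; rfl
      rw [this, Complex.ofReal_im]
    rw [this, zero_sub, abs_neg]
  have hgr := growth (B - Polynomial.C (B.eval 0)) (2 * t) (by rwa [Polynomial.natDegree_sub_C])
    (S := M * (t : ℝ) ^ 3) (fun z hz => by
      rw [Polynomial.eval_sub, Polynomial.eval_C]; exact hB z hz) θ
  rw [hcos, hθi, map_sub, Polynomial.aeval_C] at hgr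
  have halg : (algebraMap ℝ ℂ) (B.eval 0) = ((B.eval 0 : ℝ) : ℂ) := rfl
  rw [halg] at hgr
  push_cast at hgr
  have hn1 : ‖(J : ℂ) + Complex.I * (y : ℂ)‖ ≤ (J : ℝ) + y := by
    refine (norm_add_le _ _).trans ?_
    rw [norm_mul, Complex.norm_I, one_mul, Complex.norm_real, Real.norm_of_nonneg hy.le,
      Complex.norm_natCast]
  have h1 : |intg J B y| ≤ ((J : ℝ) + y) *
      ((2 * (2 * (t : ℝ)) + 1) * (M * (t : ℝ) ^ 3) * Real.exp (2 * (t : ℝ) * |w.im|)) := by
    unfold intg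
    refine (Complex.abs_im_le_norm _).trans ?_
    rw [norm_mul]
    exact mul_le_mul hn1 hgr (norm_nonneg _) (by positivity)
  refine h1.trans ?_
  have h2 : Real.exp (2 * (t : ℝ) * |w.im|) ≤ Real.exp (6.21 * y + 3) := Real.exp_le_exp.mpr hexp
  have h3 : Real.exp (6.21 * y + 3) ≤ 20.2 * Real.exp (6.21 * y) := by
    rw [Real.exp_add, mul_comm]
    refine mul_le_mul_of_nonneg_right ?_ (Real.exp_pos _).le
    have h4 : Real.exp 3 = Real.exp 1 ^ 3 := by rw [← Real.exp_nat_mul]; norm_num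
    rw [h4]
    have h5 := Real.exp_one_lt_d9
    have h6 : Real.exp 1 ^ 3 ≤ 2.7183 ^ 3 :=
      pow_le_pow_left₀ (Real.exp_pos 1).le (by linarith) 3
    refine h6.trans (by norm_num)
  have h7 : (t : ℝ) ^ 5 ≤ Real.exp (0.05 * y) := by
    have : (t : ℝ) ^ 5 ≤ Real.exp (y / 100) ^ 5 := pow_le_pow_left₀ ht0.le hty 5
    rw [← Real.exp_nat_mul] at this
    refine this.trans (Real.exp_le_exp.mpr ?_)
    push_cast
    linarith
  have h8 : ((J : ℝ) + y) * ((2 * (2 * (t : ℝ)) + 1) * (M * (t : ℝ) ^ 3)) ≤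
      10 * M * y * (t : ℝ) ^ 5 := by
    have a1 : (J : ℝ) + y ≤ 2 * (t * y) := by nlinarith
    have a2 : 2 * (2 * (t : ℝ)) + 1 ≤ 5 * t := by linarith
    have a3 : 0 ≤ M * (t : ℝ) ^ 3 := by positivity
    have a4 : (2 * (2 * (t : ℝ)) + 1) * (M * (t : ℝ) ^ 3) ≤ 5 * t * (M * (t : ℝ) ^ 3) :=
      mul_le_mul_of_nonneg_right a2 a3
    have a5 : ((J : ℝ) + y) * ((2 * (2 * (t : ℝ)) + 1) * (M * (t : ℝ) ^ 3)) ≤
        2 * (t * y) * (5 * t * (M * (t : ℝ) ^ 3)) :=
      mul_le_mul a1 a4 (by positivity) (by positivity)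
    refine a5.trans (le_of_eq (by ring))
  have h9 : 0 ≤ Real.exp (6.21 * y) := (Real.exp_pos _).le
  calc ((J : ℝ) + y) *
      ((2 * (2 * (t : ℝ)) + 1) * (M * (t : ℝ) ^ 3) * Real.exp (2 * (t : ℝ) * |w.im|))
      = (((J : ℝ) + y) * ((2 * (2 * (t : ℝ)) + 1) * (M * (t : ℝ) ^ 3))) *
        Real.exp (2 * (t : ℝ) * |w.im|) := by ring
    _ ≤ (10 * M * y * (t : ℝ) ^ 5) * (20.2 * Real.exp (6.21 * y)) :=
        mul_le_mul h8 (h2.trans h3) (Real.exp_pos _).le (by positivity)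
    _ ≤ (10 * M * y * Real.exp (0.05 * y)) * (20.2 * Real.exp (6.21 * y)) := by
        refine mul_le_mul_of_nonneg_right ?_ (by positivity)
        exact mul_le_mul_of_nonneg_left h7 (by positivity)
    _ = 202 * M * y * (Real.exp (0.05 * y) * Real.exp (6.21 * y)) := by ring
    _ = 202 * M * y * Real.exp (6.26 * y) := by
        rw [← Real.exp_add]; congr 2; ring
    _ ≤ 300 * M * ((y + y ^ 3) * Real.exp (6.26 * y)) := by
        have b1 : 0 ≤ M * Real.exp (6.26 * y) := by positivity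
        have b2 : 202 * y ≤ 300 * (y + y ^ 3) := by nlinarith [pow_pos hy 3]
        nlinarith [mul_le_mul_of_nonneg_left b2 b1]

theorem near0 {t J : ℕ} (ht : 1000 ≤ (t : ℝ)) (hR : Reg t J) {B : Polynomial ℝ} {M Λ : ℝ}
    (hM : 0 ≤ M) (hΛ : 1 ≤ Λ) (hΛ2 : Λ ≤ 2 * (t : ℝ) + 1) (h : NearHyp B M Λ) {y : ℝ}
    (hy : 0 < y) (hyt : 1 / 6 + y ^ 2 ≤ 0.005 * (t : ℝ) ^ 2) :
    |intg J B y| ≤ 300 * M * ((y + y ^ 3) * Real.exp (6.26 * y)) := by
  have hL0 := L2_pos J
  have hL := L2_ge hR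
  have hJL := J_sq_le J
  have hlo := hR.lo
  have hhi := hR.hi
  have ht0 : (0 : ℝ) < t := by linarith
  have hJ0 : (0 : ℝ) < J := by nlinarith
  have hpi := Real.pi_lt_d2
  have hpi0 := Real.pi_gt_three
  set L := L2 J with hLdef
  set x := (1 / 6 + y ^ 2) / L with hxdef
  set τ := -((2 * (J : ℝ) * y) / L) with hτdef
  have hxL' : x * L = 1 / 6 + y ^ 2 := by rw [hxdef]; field_simp
  have hx0 : 0 < x := by positivity
  have hx1 : x ≤ 0.0121 := by
    rw [hxdef, div_le_iff₀ hL0]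
    nlinarith
  have hτabs : |τ| = (2 * (J : ℝ) * y) / L := by
    rw [hτdef, abs_neg, abs_of_nonneg (by positivity)]
  -- t * |τ| ≤ 3.1008 y
  have htτ : (t : ℝ) * |τ| ≤ 3.1008 * y := by
    rw [hτabs, mul_div_assoc', div_le_iff₀ hL0]
    have a1 : (t : ℝ) * J ≤ 1.5504 * (J : ℝ) ^ 2 := by nlinarith
    nlinarith [mul_le_mul_of_nonneg_right a1 hy.le, mul_le_mul_of_nonneg_right hJL hy.le]
  have hyt' : y ≤ 0.0708 * t := by
    have : y ^ 2 ≤ (0.0708 * (t : ℝ)) ^ 2 := by nlinarith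
    exact (abs_le_of_sq_le_sq' this (by positivity)).2
  have hτ1 : |τ| ≤ 0.22 := by
    by_contra hcon
    push Not at hcon
    nlinarith
  have hτ0 : 0 ≤ |τ| := abs_nonneg _
  have hx2 : 1 + x ^ 2 ≤ 1.0002 := by
    have : x ^ 2 ≤ 0.0121 ^ 2 := pow_le_pow_left₀ hx0.le hx1 2
    have h2 : (0.0121 : ℝ) ^ 2 ≤ 0.0002 := by norm_num
    linarith only [this, h2]
  have hΛτ : Λ * (|τ| * (1 + x ^ 2)) ≤ 6.25 * y := by
    have a1 : Λ * |τ| ≤ 6.205 * y := by
      have : Λ * |τ| ≤ (2 * (t : ℝ) + 1) * |τ| := mul_le_mul_of_nonneg_right hΛ2 hτ0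
      have a2 : 1000 * |τ| ≤ t * |τ| := mul_le_mul_of_nonneg_right ht hτ0
      nlinarith only [this, a2, htτ, hτ0]
    have a4 : Λ * |τ| * (1 + x ^ 2) ≤ 6.205 * y * 1.0002 :=
      mul_le_mul a1 hx2 (by positivity) (by positivity)
    nlinarith only [a4, hy]
  -- points of the rectangle
  have hpt : ∀ z : ℂ, 0 ≤ z.re → z.re ≤ x → |z.im| ≤ |τ| → ∃ w : ℂ, Complex.sin w = z ∧
      |w.re| ≤ π / 4 ∧ |w.re| ≤ 1.575 * x ∧ |w.im| ≤ 1 / 4 ∧ Λ * |w.im| ≤ 6.25 * y := by
    intro z hz0 hzx hzτ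
    have hzabs : |z.re| = z.re := abs_of_nonneg hz0
    obtain ⟨w, hw, h1, h2⟩ := arc_small (z := z) (by rw [hzabs]; linarith)
    rw [hzabs] at h1
    have b1 : |w.re| ≤ 1.575 * x := by
      refine h1.trans ?_
      exact mul_le_mul (by linarith) hzx hz0 (by norm_num)
    have b2 : |w.im| ≤ |τ| * (1 + x ^ 2) := by
      refine h2.trans ?_
      refine mul_le_mul hzτ ?_ (by positivity) hτ0
      have : z.re ^ 2 ≤ x ^ 2 := pow_le_pow_left₀ hz0 hzx 2
      linarith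
    refine ⟨w, hw, by linarith only [b1, hx1, hpi0], b1, ?_, ?_⟩
    · refine b2.trans ?_
      have : |τ| * (1 + x ^ 2) ≤ 0.22 * 1.0002 := mul_le_mul hτ1 hx2 (by positivity) (by norm_num)
      have h3 : (0.22 : ℝ) * 1.0002 ≤ 1 / 4 := by norm_num
      linarith only [this, h3]
    · refine le_trans ?_ hΛτ
      exact mul_le_mul_of_nonneg_left b2 (by linarith)
  have hE : 1 ≤ Real.exp (6.25 * y) := Real.one_le_exp (by positivity)
  have hE2 : Real.exp (6.25 * y) ≤ Real.exp (6.26 * y) := Real.exp_le_exp.mpr (by linarith)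
  -- ζ
  set ζ := zeta J y with hζ
  have hre : ζ.re = x := zeta_re J y
  have him : ζ.im = τ := zeta_im J y
  have hζeq : ζ = (x : ℂ) + (τ : ℂ) * Complex.I := by
    apply Complex.ext
    · simp [hre]
    · simp [him]
  -- Λ^2 / L
  have hΛL : Λ ^ 2 ≤ 9.64 * L := by
    have a1 : Λ ^ 2 ≤ (2 * (t : ℝ) + 1) ^ 2 := pow_le_pow_left₀ (by linarith) hΛ2 2
    nlinarith
  -- value
  have hval : ‖Polynomial.aeval ζ B - ((B.eval 0 : ℝ) : ℂ)‖ ≤
      M * (Real.exp (6.25 * y) + y ^ 2) := by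
    obtain ⟨w, hw, h1, h2, h3, h4⟩ := hpt ζ (by rw [hre]; exact hx0.le) (by rw [hre])
      (by rw [him])
    have h5 := near_val hM hΛ h w h1
    rw [hw] at h5
    refine h5.trans (mul_le_mul_of_nonneg_left ?_ hM)
    have h6 : Real.exp (Λ * |w.im|) ≤ Real.exp (6.25 * y) := Real.exp_le_exp.mpr h4
    have h7 : (Λ * w.re) ^ 2 ≤ 1 + y ^ 2 := by
      have c1 : w.re ^ 2 ≤ (1.575 * x) ^ 2 := by
        rw [← sq_abs w.re]
        exact pow_le_pow_left₀ (abs_nonneg _) h2 2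
      have c2 : (Λ * w.re) ^ 2 ≤ (9.64 * L) * (1.575 * x) ^ 2 := by
        rw [mul_pow]
        exact mul_le_mul hΛL c1 (sq_nonneg _) (by positivity)
      have c3 : (9.64 * L) * (1.575 * x) ^ 2 = 9.64 * 1.575 ^ 2 * x * (x * L) := by ring
      rw [c3, hxL'] at c2
      have c4 : 9.64 * 1.575 ^ 2 * x ≤ 1 := by norm_num; linarith
      have c5 : 9.64 * 1.575 ^ 2 * x * (1 / 6 + y ^ 2) ≤ 1 * (1 / 6 + y ^ 2) :=
        mul_le_mul_of_nonneg_right c4 (by positivity)
      linarith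
    linarith
  -- imaginary part
  have hIm : |(Polynomial.aeval ζ B).im| ≤ 5 * M * Λ ^ 2 * Real.exp (6.25 * y) * |τ| * x := by
    have h1 := rect B (x := x) (τ := τ) (S := 5 * M * Λ ^ 2 * Real.exp (6.25 * y)) hx0.le
      (fun z hz0 hzx hzτ => by
        obtain ⟨w, hw, h1, h2, h3, h4⟩ := hpt z hz0 hzx hzτ
        rw [← hw]
        refine (near_der2 hM hΛ h w h1 h3).trans ?_
        exact mul_le_mul_of_nonneg_left (Real.exp_le_exp.mpr h4) (by positivity))
    refine le_trans ?_ h1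
    refine le_trans (le_of_eq ?_) (Complex.abs_im_le_norm _)
    congr 1
    have e0 : Polynomial.aeval (0 : ℂ) B = ((B.eval 0 : ℝ) : ℂ) := by
      have := real_val B 0
      simpa using this
    rw [Complex.sub_im, Complex.sub_im, Complex.sub_im, im_zero h.even, real_val, e0,
      Complex.ofReal_im, Complex.ofReal_im, ← hζeq]
    ring
  -- total
  have hsplit : intg J B y = (J : ℝ) * (Polynomial.aeval ζ B).im +
      y * (Polynomial.aeval ζ B - ((B.eval 0 : ℝ) : ℂ)).re := by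
    unfold intg
    rw [← hζ]
    simp only [Complex.mul_im, Complex.add_re, Complex.add_im, Complex.mul_re, Complex.I_re,
      Complex.I_im, Complex.ofReal_re, Complex.ofReal_im, Complex.natCast_re,
      Complex.natCast_im, Complex.sub_im, Complex.sub_re]
    ring
  rw [hsplit]
  refine (abs_add_le _ _).trans ?_
  rw [abs_mul, abs_mul, abs_of_pos hJ0, abs_of_pos hy]
  have g1 : y * |(Polynomial.aeval ζ B - ((B.eval 0 : ℝ) : ℂ)).re| ≤
      M * ((y + y ^ 3) * Real.exp (6.25 * y)) := by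
    have := (Complex.abs_re_le_norm (Polynomial.aeval ζ B - ((B.eval 0 : ℝ) : ℂ))).trans hval
    have h2 := mul_le_mul_of_nonneg_left this hy.le
    refine h2.trans ?_
    have h3 : y ^ 3 ≤ y ^ 3 * Real.exp (6.25 * y) := le_mul_of_one_le_right (by positivity) hE
    have h4 : y * (M * (Real.exp (6.25 * y) + y ^ 2)) =
        M * (y * Real.exp (6.25 * y) + y ^ 3) := by ring
    rw [h4]
    refine mul_le_mul_of_nonneg_left ?_ hM
    linarith
  have g2 : (J : ℝ) * |(Polynomial.aeval ζ B).im| ≤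
      97 * M * ((y + y ^ 3) * Real.exp (6.25 * y)) := by
    refine (mul_le_mul_of_nonneg_left hIm hJ0.le).trans ?_
    rw [hτabs]
    have e1 : (J : ℝ) * (5 * M * Λ ^ 2 * Real.exp (6.25 * y) * (2 * (J : ℝ) * y / L) * x) =
        10 * M * Real.exp (6.25 * y) * ((J : ℝ) ^ 2 / L) * (Λ ^ 2 / L) * (y * (x * L)) := by
      field_simp
      ring
    rw [e1, hxL']
    have e2 : (J : ℝ) ^ 2 / L ≤ 1 := by rw [div_le_one hL0]; exact hJL
    have e3 : Λ ^ 2 / L ≤ 9.64 := by rw [div_le_iff₀ hL0]; exact hΛL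
    have e4 : 0 ≤ (J : ℝ) ^ 2 / L := by positivity
    have e5 : 0 ≤ Λ ^ 2 / L := by positivity
    have e6 : (J : ℝ) ^ 2 / L * (Λ ^ 2 / L) ≤ 1 * 9.64 := mul_le_mul e2 e3 e5 (by norm_num)
    have e7 : y * (1 / 6 + y ^ 2) ≤ y + y ^ 3 := by nlinarith
    have e8 : ((J : ℝ) ^ 2 / L * (Λ ^ 2 / L)) * (y * (1 / 6 + y ^ 2)) ≤ (1 * 9.64) * (y + y ^ 3) :=
      mul_le_mul e6 e7 (by positivity) (by norm_num)
    have e9 : 0 ≤ M * Real.exp (6.25 * y) := by positivity
    have := mul_le_mul_of_nonneg_left e8 e9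
    nlinarith [mul_nonneg e9 (show (0 : ℝ) ≤ y + y ^ 3 by positivity)]
  have g3 : 0 ≤ M * (y + y ^ 3) := by positivity
  have g4 := mul_le_mul_of_nonneg_left hE2 g3
  have g5 : 0 ≤ M * (y + y ^ 3) * Real.exp (6.26 * y) := by positivity
  nlinarith

theorem continuous_zeta (J : ℕ) : Continuous (zeta J) := by
  unfold zeta
  fun_prop

theorem continuous_intg (J : ℕ) (B : Polynomial ℝ) : Continuous (intg J B) := by
  unfold intg
  have h1 : Continuous fun y => Polynomial.aeval (zeta J y) B :=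
    (Polynomial.continuous_aeval B).comp (continuous_zeta J)
  exact Complex.continuous_im.comp ((continuous_const.add
    (continuous_const.mul Complex.continuous_ofReal)).mul (h1.sub continuous_const))

theorem near_axis {t J : ℕ} (ht : 1000 ≤ (t : ℝ)) (hR : Reg t J) {B : Polynomial ℝ} {M Λ : ℝ}
    (hM : 0 ≤ M) (hΛ : 1 ≤ Λ) (hΛ2 : Λ ≤ 2 * (t : ℝ) + 1) (h : NearHyp B M Λ) {z : ℝ}
    (hz : 0 ≤ z) (hz2 : z ≤ 1 / 6 / L2 J) : |B.eval z - B.eval 0| ≤ M * (1 / L2 J) := by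
  have hL0 := L2_pos J
  have hL := L2_ge hR
  have hLbig : 1000 ≤ L2 J := by nlinarith
  have hpi := Real.pi_lt_d2
  have hpi0 := Real.pi_gt_three
  have hzL : z * L2 J ≤ 1 / 6 := by rwa [le_div_iff₀ hL0] at hz2
  have hz1 : z ≤ 1 / 6000 := by
    refine hz2.trans ?_
    rw [div_le_iff₀ hL0]
    linarith
  set a := Real.arcsin z with ha
  have hsin : Real.sin a = z := Real.sin_arcsin (by linarith) (by linarith)
  have ha0 : 0 ≤ a := Real.arcsin_nonneg.mpr hz
  have ha1 : a ≤ π / 2 := Real.arcsin_le_pi_div_two z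
  have ha2 : 2 / π * a ≤ z := by
    have := Real.mul_le_sin ha0 ha1
    rwa [hsin] at this
  have ha3 : a ≤ 1.575 * z := by
    have e : a = π / 2 * (2 / π * a) := by field_simp
    rw [e]
    refine (mul_le_mul_of_nonneg_left ha2 (by positivity)).trans ?_
    exact mul_le_mul_of_nonneg_right (by linarith) hz
  have h1 := near_real h (a := a) (by rw [abs_of_nonneg ha0]; linarith)
  rw [hsin] at h1
  refine h1.trans (mul_le_mul_of_nonneg_left ?_ hM)
  have c1 : a ^ 2 ≤ (1.575 * z) ^ 2 := pow_le_pow_left₀ ha0 ha3 2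
  have hΛL : Λ ^ 2 ≤ 9.64 * L2 J := by
    have a1 : Λ ^ 2 ≤ (2 * (t : ℝ) + 1) ^ 2 := pow_le_pow_left₀ (by linarith) hΛ2 2
    nlinarith
  have c2 : (Λ * a) ^ 2 ≤ (9.64 * L2 J) * (1.575 * z) ^ 2 := by
    rw [mul_pow]
    exact mul_le_mul hΛL c1 (sq_nonneg _) (by positivity)
  refine c2.trans ?_
  rw [le_div_iff₀ hL0]
  have c3 : (9.64 * L2 J) * (1.575 * z) ^ 2 * L2 J = 9.64 * 1.575 ^ 2 * (z * L2 J) ^ 2 := by ring
  rw [c3]
  have c4 : (z * L2 J) ^ 2 ≤ (1 / 6) ^ 2 := pow_le_pow_left₀ (by positivity) hzL 2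
  have c5 : (9.64 : ℝ) * 1.575 ^ 2 * (1 / 6) ^ 2 ≤ 1 := by norm_num
  refine le_trans (mul_le_mul_of_nonneg_left c4 (by norm_num)) c5

theorem two_pi_gt : (6.26 : ℝ) < 2 * π := by
  have := Real.pi_gt_d2
  linarith

theorem int_G : IntegrableOn (fun y : ℝ => (y + y ^ 3) * Real.exp (6.26 * y) * wt y)
    (Set.Ioi 0) := by
  have h1 := int_wt 1 le_rfl two_pi_gt
  have h3 := int_wt 3 (by norm_num) two_pi_gt
  refine (h1.add h3).congr (Filter.Eventually.of_forall (fun y => ?_))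
  simp only [Pi.add_apply, pow_one]
  ring

/-- bound for all positive heights -/
theorem intg_bound : ∃ T1 : ℝ, ∀ (t J : ℕ) (B : Polynomial ℝ) (M Λ : ℝ),
    T1 ≤ (t : ℝ) → Reg t J → B.natDegree ≤ 2 * t → 0 ≤ M → 1 ≤ Λ → Λ ≤ 2 * (t : ℝ) + 1 →
    NearHyp B M Λ → (∀ z : ℝ, z ^ 2 ≤ 1 → |B.eval z - B.eval 0| ≤ M * (t : ℝ) ^ 3) →
    ∀ y : ℝ, 0 < y → |intg J B y| ≤ 300 * M * ((y + y ^ 3) * Real.exp (6.26 * y)) := by
  have h0 := Real.isLittleO_log_id_atTop.def (show (0 : ℝ) < 0.0005 by norm_num)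
  obtain ⟨T2, hT2⟩ := Filter.eventually_atTop.mp h0
  refine ⟨max T2 1000, fun t J B M Λ hT hR hD hM hΛ hΛ2 h hB y hy => ?_⟩
  have ht : 1000 ≤ (t : ℝ) := (le_max_right _ _).trans hT
  have hlog := hT2 (t : ℝ) ((le_max_left _ _).trans hT)
  simp only [id_eq, Real.norm_eq_abs] at hlog
  rw [abs_of_pos (show (0 : ℝ) < t by linarith)] at hlog
  by_cases hc : (t : ℝ) ≤ Real.exp (y / 100)
  · exact far ht hR hM hD hB hy hc
  · push Not at hc
    refine near0 ht hR hM hΛ hΛ2 h hy ?_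
    have h1 : y / 100 < Real.log t := by
      rw [Real.lt_log_iff_exp_lt (by linarith)]
      exact hc
    have h2 : Real.log t ≤ 0.0005 * t := (le_abs_self _).trans hlog
    have h3 : y ≤ 0.05 * t := by linarith
    have h4 : y ^ 2 ≤ (0.05 * (t : ℝ)) ^ 2 := pow_le_pow_left₀ hy.le h3 2
    nlinarith

end EqB

theorem eq_bound : ∃ C T0 : ℝ, 0 < C ∧ ∀ (t J : ℕ) (B : Polynomial ℝ) (M Λ : ℝ),
    T0 ≤ (t : ℝ) → Reg t J → B.natDegree ≤ 2 * t → 0 ≤ M → 1 ≤ Λ → Λ ≤ 2 * (t : ℝ) + 1 →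
    NearHyp B M Λ → (∀ z : ℝ, z ^ 2 ≤ 1 → |B.eval z - B.eval 0| ≤ M * (t : ℝ) ^ 3) →
    |EqF J B| ≤ C * M := by
  obtain ⟨T1, hT1⟩ := EqB.intg_bound
  set I : ℝ := ∫ y in Set.Ioi (0 : ℝ), (y + y ^ 3) * Real.exp (6.26 * y) * wt y with hI
  have hI0 : 0 ≤ I := by
    refine setIntegral_nonneg measurableSet_Ioi (fun y hy => ?_)
    have hy0 : (0 : ℝ) < y := hy
    have := wt_pos hy0
    positivity
  refine ⟨2 + 600 * I, max T1 1000, by positivity, ?_⟩
  intro t J B M Λ hT hR hD hM hΛ hΛ2 h hB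
  have ht : 1000 ≤ (t : ℝ) := (le_max_right _ _).trans hT
  have hpt := hT1 t J B M Λ ((le_max_left _ _).trans hT) hR hD hM hΛ hΛ2 h hB
  have hL0 := L2_pos J
  set b0 := B.eval 0 with hb0
  -- pointwise bound with the weight
  have hpw : ∀ᵐ y ∂(volume.restrict (Set.Ioi (0 : ℝ))),
      ‖EqB.intg J B y * wt y‖ ≤ 300 * M * ((y + y ^ 3) * Real.exp (6.26 * y) * wt y) := by
    refine (ae_restrict_iff' measurableSet_Ioi).mpr (Filter.Eventually.of_forall (fun y hy => ?_))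
    have hy0 : (0 : ℝ) < y := hy
    have hw := wt_pos hy0
    rw [norm_mul, Real.norm_eq_abs, Real.norm_of_nonneg hw.le]
    refine (mul_le_mul_of_nonneg_right (hpt y hy0) hw.le).trans (le_of_eq ?_)
    ring
  have hG := EqB.int_G.const_mul (300 * M)
  have hmeas : AEStronglyMeasurable (fun y => EqB.intg J B y * wt y)
      (volume.restrict (Set.Ioi (0 : ℝ))) :=
    ((EqB.continuous_intg J B).measurable.mul measurable_wt).aestronglyMeasurable
  have hint1 : IntegrableOn (fun y => EqB.intg J B y * wt y) (Set.Ioi (0 : ℝ)) :=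
    Integrable.mono' hG hmeas hpw
  have hint2 : IntegrableOn (fun y => b0 * (y * wt y)) (Set.Ioi (0 : ℝ)) := by
    have := (int_wt0 1 le_rfl).const_mul b0
    simp only [pow_one] at this
    exact this
  have hsplit : ∫ y in Set.Ioi (0 : ℝ),
        (((J : ℂ) + Complex.I * (y : ℂ)) * Polynomial.aeval (zeta J y) B).im * wt y =
      (∫ y in Set.Ioi (0 : ℝ), EqB.intg J B y * wt y) + b0 * (1 / 24) := by
    rw [← moment_one, ← integral_const_mul, ← integral_add hint1 hint2]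
    refine integral_congr_ae (Filter.Eventually.of_forall (fun y => ?_))
    simp only
    have e : (((J : ℂ) + Complex.I * (y : ℂ)) * Polynomial.aeval (zeta J y) B).im =
        EqB.intg J B y + b0 * y := by
      unfold EqB.intg
      simp only [Complex.mul_im, Complex.add_re, Complex.add_im, Complex.mul_re, Complex.I_re,
        Complex.I_im, Complex.ofReal_re, Complex.ofReal_im, Complex.natCast_re,
        Complex.natCast_im, Complex.sub_im, Complex.sub_re]
      ring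
    rw [e]
    ring
  have hbd1 : |∫ y in Set.Ioi (0 : ℝ), EqB.intg J B y * wt y| ≤ 300 * M * I := by
    have := norm_integral_le_of_norm_le hG hpw
    rw [integral_const_mul, ← hI, Real.norm_eq_abs] at this
    exact this
  -- the interval integral
  have hcont : Continuous fun s : ℝ => B.eval (s / L2 J) := by fun_prop
  have hii : ∫ s in (0 : ℝ)..(1 / 6), B.eval (s / L2 J) =
      (∫ s in (0 : ℝ)..(1 / 6), (B.eval (s / L2 J) - b0)) + b0 * (1 / 6) := by
    rw [intervalIntegral.integral_sub (hcont.intervalIntegrable _ _)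
      (continuous_const.intervalIntegrable _ _), intervalIntegral.integral_const]
    simp only [smul_eq_mul]
    ring
  have hL1 : 1 / L2 J ≤ 1 := by
    have hL := L2_ge hR
    rw [div_le_one hL0]
    nlinarith
  have hbd2 : |∫ s in (0 : ℝ)..(1 / 6), (B.eval (s / L2 J) - b0)| ≤ M * 1 * |1 / 6 - 0| := by
    have := intervalIntegral.norm_integral_le_of_norm_le_const (a := (0 : ℝ)) (b := 1 / 6)
      (f := fun s => B.eval (s / L2 J) - b0) (C := M * 1) (fun s hs => by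
        rw [Set.uIoc_of_le (by norm_num)] at hs
        rw [Real.norm_eq_abs]
        refine (EqB.near_axis ht hR hM hΛ hΛ2 h (z := s / L2 J) (by
          have := hs.1.le; positivity) ?_).trans
          (mul_le_mul_of_nonneg_left hL1 hM)
        exact div_le_div_of_nonneg_right hs.2 hL0.le)
    rw [Real.norm_eq_abs] at this
    exact this
  have hbd3 : |(J : ℝ) / 2 * (b0 - B.eval (1 / 6 / L2 J))| ≤ M := by
    have h1 := EqB.near_axis ht hR hM hΛ hΛ2 h (z := 1 / 6 / L2 J) (by positivity) le_rfl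
    rw [abs_mul, abs_sub_comm, abs_of_nonneg (a := (J : ℝ) / 2) (by positivity)]
    refine (mul_le_mul_of_nonneg_left h1 (by positivity)).trans ?_
    have h2 : (J : ℝ) ≤ L2 J := by
      unfold L2
      nlinarith [sq_nonneg ((J : ℝ) - 1 / 2)]
    have h3 : (J : ℝ) / 2 * (M * (1 / L2 J)) = M * ((J : ℝ) / L2 J) / 2 := by ring
    rw [h3]
    have h4 : (J : ℝ) / L2 J ≤ 1 := by rw [div_le_one hL0]; exact h2
    have h5 : M * ((J : ℝ) / L2 J) ≤ M * 1 := mul_le_mul_of_nonneg_left h4 hM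
    linarith
  have hEq : EqF J B = (J : ℝ) / 2 * (b0 - B.eval (1 / 6 / L2 J))
      - (1 / 2) * (∫ s in (0 : ℝ)..(1 / 6), (B.eval (s / L2 J) - b0))
      + 2 * ∫ y in Set.Ioi (0 : ℝ), EqB.intg J B y * wt y := by
    unfold EqF
    rw [hsplit, hii, ← hb0]
    ring
  rw [hEq]
  have k1 := abs_le.mp hbd1
  have k2 := abs_le.mp hbd2
  have k3 := abs_le.mp hbd3
  have k4 : |(1 / 6 : ℝ) - 0| = 1 / 6 := by norm_num
  rw [k4] at k2
  rw [abs_le]
  constructor
  · nlinarith [k1.1, k1.2, k2.1, k2.2, k3.1, k3.2]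
  · nlinarith [k1.1, k1.2, k2.1, k2.2, k3.1, k3.2]

end Pool.Agent.Helper83.SD
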