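import Pool.Agent.Helper83.SD.Leg

/-!
Project SD, module Mode: Christoffel function bound for the weight `(1-z^2)^m`.

Expand `g` in the orthonormal polynomials
`p_l = √((2l+1)(l-m)!/(l+m)!) P_l^(m)`, `l = m..t`; then by Cauchy-Schwarz
`g^(i)(z)^2 ≤ nrm m g * Σ_l (2l+1) ((l-m)!/(l+m)!) ((l+m+i)!/(2^(m+i) (m+i)! (l-m-i)!))^2`,
and `(l+m+i)!/(l-m-i)! ≤ ((l+m)!/(l-m)!) λ^i`, `(l+m)!/(l-m)! ≤ λ^m` with `λ = l(l+1)`
(pair the factors `(l+n)(l-n+1) ≤ λ`), finally
`(2l+1) λ^k ≤ ((l+1)^(2k+2) - l^(2k+2))/(k+1)` with `k = m + 2i`.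
-/

set_option autoImplicit false

open MeasureTheory Real

namespace Pool.Agent.Helper83.SD

namespace Mode

/-- expansion in a basis of derivatives -/
lemma expand (m : ℕ) (Q : ℕ → Polynomial ℝ) (hQ : ∀ l, (Q l).natDegree ≤ l)
    (hQ0 : ∀ l, (Q l).coeff l ≠ 0) : ∀ (d : ℕ) (g : Polynomial ℝ), g.natDegree ≤ d →
      ∃ c : ℕ → ℝ, g = ∑ l ∈ Finset.range (d + 1), Polynomial.C (c l) * Q l := by
  intro d
  induction d with
  | zero =>
    intro g hg
    refine ⟨fun _ => g.coeff 0 / (Q 0).coeff 0, ?_⟩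
    have h1 : g = Polynomial.C (g.coeff 0) := Polynomial.eq_C_of_natDegree_le_zero hg
    have h2 : Q 0 = Polynomial.C ((Q 0).coeff 0) := Polynomial.eq_C_of_natDegree_le_zero (hQ 0)
    rw [zero_add, Finset.sum_range_one, h2, Polynomial.coeff_C_zero, ← Polynomial.C_mul,
      div_mul_cancel₀ _ (hQ0 0)]
    exact h1
  | succ d ih =>
    intro g hg
    obtain ⟨a, ha⟩ : ∃ a : ℝ, a = g.coeff (d + 1) / (Q (d + 1)).coeff (d + 1) := ⟨_, rfl⟩
    have h1 : (g - Polynomial.C a * Q (d + 1)).natDegree ≤ d := by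
      rw [Polynomial.natDegree_le_iff_coeff_eq_zero]
      intro N hN
      rw [Polynomial.coeff_sub, Polynomial.coeff_C_mul]
      rcases Nat.lt_or_ge (d + 1) N with h | h
      · rw [Polynomial.coeff_eq_zero_of_natDegree_lt (lt_of_le_of_lt hg h),
          Polynomial.coeff_eq_zero_of_natDegree_lt (lt_of_le_of_lt (hQ (d + 1)) h)]
        ring
      · have : N = d + 1 := le_antisymm h hN
        rw [this, ha, div_mul_cancel₀ _ (hQ0 (d + 1)), sub_self]
    obtain ⟨c, hc⟩ := ih _ h1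
    refine ⟨fun l => if l = d + 1 then a else c l, ?_⟩
    rw [Finset.sum_range_succ]
    beta_reduce
    rw [if_pos rfl]
    have h2 : ∑ l ∈ Finset.range (d + 1), Polynomial.C (if l = d + 1 then a else c l) * Q l =
        ∑ l ∈ Finset.range (d + 1), Polynomial.C (c l) * Q l := by
      refine Finset.sum_congr rfl fun l hl => ?_
      rw [if_neg (Finset.mem_range.1 hl).ne]
    rw [h2, ← hc]
    ring

/-- `(L+M)!/(L-M)!` -/
noncomputable def aa (L M : ℕ) : ℝ := ((L + M).factorial : ℝ) / ((L - M).factorial : ℝ)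

lemma aa_pos (L M : ℕ) : 0 < aa L M := by
  unfold aa
  exact div_pos (by exact_mod_cast Nat.factorial_pos _) (by exact_mod_cast Nat.factorial_pos _)

lemma aa_succ {L M : ℕ} (h : M + 1 ≤ L) : aa L (M + 1) ≤ (L : ℝ) * (L + 1) * aa L M := by
  have h1 : ((L + (M + 1)).factorial : ℝ) = ((L : ℝ) + M + 1) * ((L + M).factorial : ℝ) := by
    rw [← add_assoc, Nat.factorial_succ]
    push_cast
    ring
  have h2 : ((L - M).factorial : ℝ) = ((L : ℝ) - M) * ((L - (M + 1)).factorial : ℝ) := by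
    have : L - M = (L - (M + 1)) + 1 := by omega
    rw [this, Nat.factorial_succ]
    push_cast [Nat.cast_sub h]
    ring
  have h3 : (0 : ℝ) < ((L - (M + 1)).factorial : ℝ) := by exact_mod_cast Nat.factorial_pos _
  have h4 : (0 : ℝ) < (L : ℝ) - M := by
    have : (M : ℝ) + 1 ≤ L := by exact_mod_cast h
    linarith
  have h5 : (0 : ℝ) < ((L + M).factorial : ℝ) := by exact_mod_cast Nat.factorial_pos _
  have h6 : aa L (M + 1) = (((L : ℝ) + M + 1) * ((L : ℝ) - M)) * aa L M := by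
    unfold aa
    rw [h1, h2]
    field_simp
  rw [h6]
  refine mul_le_mul_of_nonneg_right ?_ (aa_pos L M).le
  have h7 : (0 : ℝ) ≤ M := Nat.cast_nonneg M
  nlinarith

lemma aa_le {L : ℕ} (m i : ℕ) (h : m + i ≤ L) : aa L (m + i) ≤ ((L : ℝ) * (L + 1)) ^ i * aa L m := by
  induction i with
  | zero => simp
  | succ i ih =>
    have h1 := aa_succ (L := L) (M := m + i) (by omega)
    have h2 := ih (by omega)
    have h3 : (0 : ℝ) ≤ (L : ℝ) * (L + 1) := by positivity
    calc aa L (m + (i + 1)) ≤ (L : ℝ) * (L + 1) * aa L (m + i) := h1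
      _ ≤ (L : ℝ) * (L + 1) * (((L : ℝ) * (L + 1)) ^ i * aa L m) :=
        mul_le_mul_of_nonneg_left h2 h3
      _ = _ := by ring

lemma aa_le' {L : ℕ} (m : ℕ) (h : m ≤ L) : aa L m ≤ ((L : ℝ) * (L + 1)) ^ m := by
  have h1 := aa_le (L := L) 0 m (by omega)
  have h2 : aa L 0 = 1 := by
    unfold aa
    rw [add_zero, Nat.sub_zero]
    exact div_self (by exact_mod_cast (Nat.factorial_pos L).ne')
  rwa [h2, mul_one, zero_add] at h1

/-- the weight of one mode -/
lemma aa_main {L : ℕ} (m i : ℕ) (h : m + i ≤ L) :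
    aa L (m + i) ^ 2 / aa L m ≤ ((L : ℝ) * (L + 1)) ^ (m + 2 * i) := by
  have h1 := aa_le m i h
  have h2 := aa_le' (L := L) m (by omega)
  have h3 := aa_pos L m
  have h4 : (0 : ℝ) ≤ ((L : ℝ) * (L + 1)) ^ i := by positivity
  rw [div_le_iff₀ h3]
  calc aa L (m + i) ^ 2 ≤ (((L : ℝ) * (L + 1)) ^ i * aa L m) ^ 2 :=
        pow_le_pow_left₀ (aa_pos _ _).le h1 2
    _ = (((L : ℝ) * (L + 1)) ^ i) ^ 2 * aa L m * aa L m := by ring
    _ ≤ (((L : ℝ) * (L + 1)) ^ i) ^ 2 * ((L : ℝ) * (L + 1)) ^ m * aa L m := by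
        refine mul_le_mul_of_nonneg_right (mul_le_mul_of_nonneg_left h2 (by positivity)) h3.le
    _ = _ := by
        rw [pow_add, pow_mul']
        ring

/-- telescoping bound -/
lemma tele (l : ℝ) (hl : 0 ≤ l) (k : ℕ) :
    ((k : ℝ) + 1) * ((2 * l + 1) * (l * (l + 1)) ^ k) ≤
      ((l + 1) ^ 2) ^ (k + 1) - (l ^ 2) ^ (k + 1) := by
  have h1 := Commute.geom_sum₂_mul (Commute.all ((l + 1) ^ 2) (l ^ 2)) (k + 1)
  have h2 : ((k : ℝ) + 1) * (l * (l + 1)) ^ k ≤
      ∑ j ∈ Finset.range (k + 1), ((l + 1) ^ 2) ^ j * (l ^ 2) ^ (k + 1 - 1 - j) := by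
    have h3 : ∑ j ∈ Finset.range (k + 1), ((l + 1) ^ 2) ^ (k + 1 - 1 - j) *
        (l ^ 2) ^ (k + 1 - 1 - (k + 1 - 1 - j)) =
        ∑ j ∈ Finset.range (k + 1), ((l + 1) ^ 2) ^ j * (l ^ 2) ^ (k + 1 - 1 - j) :=
      Finset.sum_range_reflect
        (fun j => ((l + 1) ^ 2) ^ j * (l ^ 2) ^ (k + 1 - 1 - j)) (k + 1)
    have h4 : ∑ j ∈ Finset.range (k + 1), 2 * (l * (l + 1)) ^ k ≤
        ∑ j ∈ Finset.range (k + 1), (((l + 1) ^ 2) ^ j * (l ^ 2) ^ (k + 1 - 1 - j) +
          ((l + 1) ^ 2) ^ (k + 1 - 1 - j) * (l ^ 2) ^ (k + 1 - 1 - (k + 1 - 1 - j))) := by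
      refine Finset.sum_le_sum fun j hj => ?_
      have hj' : j ≤ k := by
        have := Finset.mem_range.1 hj
        omega
      have e1 : k + 1 - 1 - (k + 1 - 1 - j) = j := by omega
      have e2 : k + 1 - 1 - j = k - j := by omega
      rw [e1, e2]
      have e3 : (l * (l + 1)) ^ k = ((l + 1) ^ j * l ^ (k - j)) * ((l + 1) ^ (k - j) * l ^ j) := by
        have : k = j + (k - j) := by omega
        calc (l * (l + 1)) ^ k = (l * (l + 1)) ^ (j + (k - j)) := by rw [← this]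
          _ = _ := by
            rw [pow_add, mul_pow, mul_pow]
            ring
      rw [e3, ← pow_mul, ← pow_mul, ← pow_mul, ← pow_mul, mul_comm 2 j, mul_comm 2 (k - j),
        pow_mul, pow_mul, pow_mul, pow_mul]
      nlinarith [sq_nonneg ((l + 1) ^ j * l ^ (k - j) - (l + 1) ^ (k - j) * l ^ j)]
    rw [Finset.sum_add_distrib, h3, Finset.sum_const, Finset.card_range, nsmul_eq_mul] at h4
    rw [Nat.cast_add, Nat.cast_one] at h4
    linarith
  rw [← h1]
  have h5 : (l + 1) ^ 2 - l ^ 2 = 2 * l + 1 := by ring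
  rw [h5]
  have h6 : (0 : ℝ) ≤ 2 * l + 1 := by linarith
  calc ((k : ℝ) + 1) * ((2 * l + 1) * (l * (l + 1)) ^ k)
      = (((k : ℝ) + 1) * (l * (l + 1)) ^ k) * (2 * l + 1) := by ring
    _ ≤ _ := mul_le_mul_of_nonneg_right h2 h6

/-- the sum over the modes -/
lemma sum_le (m d k : ℕ) :
    ∑ l ∈ Finset.range (d + 1), (2 * ((m + l : ℕ) : ℝ) + 1) *
      (((m + l : ℕ) : ℝ) * (((m + l : ℕ) : ℝ) + 1)) ^ k ≤
      ((((m + d : ℕ) : ℝ) + 1) ^ 2) ^ (k + 1) / ((k : ℝ) + 1) := by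
  have hk : (0 : ℝ) < (k : ℝ) + 1 := by positivity
  rw [le_div_iff₀ hk, Finset.sum_mul]
  have h1 := Finset.sum_range_sub (fun l : ℕ => (((m + l : ℕ) : ℝ) ^ 2) ^ (k + 1)) (d + 1)
  have h2 : ∑ l ∈ Finset.range (d + 1), (2 * ((m + l : ℕ) : ℝ) + 1) *
      (((m + l : ℕ) : ℝ) * (((m + l : ℕ) : ℝ) + 1)) ^ k * ((k : ℝ) + 1) ≤
      ∑ l ∈ Finset.range (d + 1), ((((m + (l + 1) : ℕ) : ℝ) ^ 2) ^ (k + 1) -
        (((m + l : ℕ) : ℝ) ^ 2) ^ (k + 1)) := by
    refine Finset.sum_le_sum fun l _ => ?_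
    have h3 := tele ((m + l : ℕ) : ℝ) (Nat.cast_nonneg _) k
    have h4 : ((m + (l + 1) : ℕ) : ℝ) = ((m + l : ℕ) : ℝ) + 1 := by
      push_cast
      ring
    rw [h4]
    linarith
  refine h2.trans ?_
  rw [h1]
  have h5 : ((m + (d + 1) : ℕ) : ℝ) = ((m + d : ℕ) : ℝ) + 1 := by
    push_cast
    ring
  rw [h5]
  have h6 : (0 : ℝ) ≤ (((m + 0 : ℕ) : ℝ) ^ 2) ^ (k + 1) := by positivity
  linarith

lemma int_mul (m : ℕ) (f : Polynomial ℝ) :
    IntervalIntegrable (fun z : ℝ => (1 - z ^ 2) ^ m * f.eval z) volume (-1) 1 := by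
  apply Continuous.intervalIntegrable
  have := f.continuous
  fun_prop

/-- norm of an orthogonal expansion -/
lemma nrm_sum (m : ℕ) (Q : ℕ → Polynomial ℝ)
    (hort : ∀ l k, l ≠ k → ∫ z in (-1 : ℝ)..1, (1 - z ^ 2) ^ m * ((Q l).eval z * (Q k).eval z) = 0)
    (c : ℕ → ℝ) (n : ℕ) :
    nrm m (∑ l ∈ Finset.range n, Polynomial.C (c l) * Q l) =
      ∑ l ∈ Finset.range n, c l ^ 2 * nrm m (Q l) := by
  unfold nrm
  have h1 : ∀ z : ℝ, (1 - z ^ 2) ^ m *
      ((∑ l ∈ Finset.range n, Polynomial.C (c l) * Q l).eval z) ^ 2 =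
      ∑ l ∈ Finset.range n, ∑ k ∈ Finset.range n,
        (1 - z ^ 2) ^ m * (Polynomial.C (c l * c k) * (Q l * Q k)).eval z := by
    intro z
    rw [Polynomial.eval_finset_sum,
      sq (∑ i ∈ Finset.range n, Polynomial.eval z (Polynomial.C (c i) * Q i)),
      Finset.sum_mul_sum, Finset.mul_sum]
    refine Finset.sum_congr rfl fun l _ => ?_
    rw [Finset.mul_sum]
    refine Finset.sum_congr rfl fun k _ => ?_
    simp only [Polynomial.eval_mul, Polynomial.eval_C]
    ring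
  have h2 : ∫ z in (-1 : ℝ)..1, (1 - z ^ 2) ^ m *
      ((∑ l ∈ Finset.range n, Polynomial.C (c l) * Q l).eval z) ^ 2 =
      ∑ l ∈ Finset.range n, ∑ k ∈ Finset.range n, c l * c k *
        ∫ z in (-1 : ℝ)..1, (1 - z ^ 2) ^ m * ((Q l).eval z * (Q k).eval z) := by
    simp only [h1]
    rw [intervalIntegral.integral_finset_sum]
    · refine Finset.sum_congr rfl fun l _ => ?_
      rw [intervalIntegral.integral_finset_sum]
      · refine Finset.sum_congr rfl fun k _ => ?_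
        rw [← intervalIntegral.integral_const_mul]
        congr 1
        funext z
        simp only [Polynomial.eval_mul, Polynomial.eval_C]
        ring
      · intro k _
        exact int_mul m _
    · intro l _
      apply Continuous.intervalIntegrable
      refine continuous_finset_sum _ fun k _ => ?_
      have := (Polynomial.C (c l * c k) * (Q l * Q k)).continuous
      fun_prop
  rw [h2, Finset.mul_sum]
  refine Finset.sum_congr rfl fun l hl => ?_
  rw [Finset.sum_eq_single l]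
  · have h3 : ∀ z : ℝ, (Q l).eval z * (Q l).eval z = ((Q l).eval z) ^ 2 := fun z => (sq _).symm
    simp only [h3]
    ring
  · intro k _ hk
    rw [hort l k hk.symm, mul_zero]
  · intro h
    exact absurd hl h

end Mode

open Mode

theorem nrm_nonneg (m : ℕ) (g : Polynomial ℝ) : 0 ≤ nrm m g := by
  unfold nrm
  refine mul_nonneg (by norm_num) (intervalIntegral.integral_nonneg (by norm_num) fun z hz => ?_)
  refine mul_nonneg (pow_nonneg ?_ m) (sq_nonneg _)
  have h1 := hz.1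
  have h2 := hz.2
  nlinarith

theorem mode_bound (t m i : ℕ) (hm : m ≤ t) (g : Polynomial ℝ) (hg : g.natDegree ≤ t - m)
    (z : ℝ) (hz : z ^ 2 ≤ 1) :
    ((Polynomial.derivative^[i] g).eval z) ^ 2 ≤
      (((t : ℝ) + 1) ^ 2) ^ (m + 2 * i + 1) /
        (((m : ℝ) + 2 * (i : ℝ) + 1) * 4 ^ (m + i) * ((m + i).factorial : ℝ) ^ 2) * nrm m g := by
  obtain ⟨P, hdeg, hne, hort, hnrm, hsup⟩ := legendre_exists
  obtain ⟨Q, hQ⟩ : ∃ Q : ℕ → Polynomial ℝ, ∀ l, Q l = Polynomial.derivative^[m] (P (m + l)) :=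
    ⟨_, fun _ => rfl⟩
  have hQd : ∀ l, (Q l).natDegree ≤ l := by
    intro l
    rw [hQ]
    refine (Polynomial.natDegree_iterate_derivative _ _).trans ?_
    rw [hdeg]
    omega
  have hQ0 : ∀ l, (Q l).coeff l ≠ 0 := by
    intro l
    rw [hQ, Polynomial.coeff_iterate_derivative, nsmul_eq_mul]
    refine mul_ne_zero ?_ ?_
    · have h1 : (l + m).descFactorial m ≠ 0 := by
        rw [Ne, Nat.descFactorial_eq_zero_iff_lt]
        omega
      exact_mod_cast h1
    · have h2 : l + m = (P (m + l)).natDegree := by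
        rw [hdeg]
        omega
      rw [h2, Polynomial.coeff_natDegree]
      exact Polynomial.leadingCoeff_ne_zero.2 (hne _)
  obtain ⟨c, hc⟩ := expand m Q hQd hQ0 (t - m) g hg
  have hQort : ∀ l k, l ≠ k →
      ∫ z in (-1 : ℝ)..1, (1 - z ^ 2) ^ m * ((Q l).eval z * (Q k).eval z) = 0 := by
    intro l k hlk
    rw [hQ, hQ]
    exact hort m (m + l) (m + k) (by omega)
  have hn : nrm m g = ∑ l ∈ Finset.range (t - m + 1), c l ^ 2 * nrm m (Q l) := by
    conv_lhs => rw [hc]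
    exact nrm_sum m Q hQort c _
  have hnl : ∀ l, nrm m (Q l) = aa (m + l) m / (2 * ((m + l : ℕ) : ℝ) + 1) := by
    intro l
    rw [hQ, hnrm m (m + l) (by omega)]
    unfold aa
    have h3 : (0 : ℝ) < ((m + l - m).factorial : ℝ) := by exact_mod_cast Nat.factorial_pos _
    have h4 : (0 : ℝ) < 2 * ((m + l : ℕ) : ℝ) + 1 := by positivity
    field_simp
  have hnpos : ∀ l, 0 < nrm m (Q l) := by
    intro l
    rw [hnl]
    exact div_pos (aa_pos _ _) (by positivity)
  have hev : (Polynomial.derivative^[i] g).eval z =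
      ∑ l ∈ Finset.range (t - m + 1), c l * (Polynomial.derivative^[i] (Q l)).eval z := by
    conv_lhs => rw [hc]
    rw [Polynomial.iterate_derivative_sum, Polynomial.eval_finset_sum]
    refine Finset.sum_congr rfl fun l _ => ?_
    rw [Polynomial.iterate_derivative_C_mul, Polynomial.eval_mul, Polynomial.eval_C]
  have hCS : ((Polynomial.derivative^[i] g).eval z) ^ 2 ≤
      (∑ l ∈ Finset.range (t - m + 1), c l ^ 2 * nrm m (Q l)) *
        ∑ l ∈ Finset.range (t - m + 1),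
          ((Polynomial.derivative^[i] (Q l)).eval z) ^ 2 / nrm m (Q l) := by
    rw [hev]
    refine Finset.sum_sq_le_sum_mul_sum_of_sq_le_mul _ (fun l _ => ?_) (fun l _ => ?_)
      fun l _ => ?_
    · exact mul_nonneg (sq_nonneg _) (hnpos l).le
    · exact div_nonneg (sq_nonneg _) (hnpos l).le
    · have := (hnpos l).ne'
      exact le_of_eq (by field_simp)
  have hD : (0 : ℝ) < 4 ^ (m + i) * ((m + i).factorial : ℝ) ^ 2 := by
    have : (0 : ℝ) < ((m + i).factorial : ℝ) := by exact_mod_cast Nat.factorial_pos _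
    positivity
  have hterm : ∀ l, ((Polynomial.derivative^[i] (Q l)).eval z) ^ 2 / nrm m (Q l) ≤
      (2 * ((m + l : ℕ) : ℝ) + 1) * (((m + l : ℕ) : ℝ) * (((m + l : ℕ) : ℝ) + 1)) ^ (m + 2 * i) /
        (4 ^ (m + i) * ((m + i).factorial : ℝ) ^ 2) := by
    intro l
    have e1 : Polynomial.derivative^[i] (Q l) = Polynomial.derivative^[m + i] (P (m + l)) := by
      rw [hQ, add_comm m i, Function.iterate_add_apply]
    by_cases hle : m + i ≤ m + l
    · have h1 := hsup (m + i) (m + l) hle z hz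
      rw [← e1] at h1
      have h2 : ((m + l + (m + i)).factorial : ℝ) /
          (2 ^ (m + i) * ((m + i).factorial : ℝ) * ((m + l - (m + i)).factorial : ℝ)) =
          aa (m + l) (m + i) / (2 ^ (m + i) * ((m + i).factorial : ℝ)) := by
        unfold aa
        rw [div_div]
        congr 1
        ring
      rw [h2] at h1
      have h3 : ((Polynomial.derivative^[i] (Q l)).eval z) ^ 2 ≤
          (aa (m + l) (m + i) / (2 ^ (m + i) * ((m + i).factorial : ℝ))) ^ 2 := by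
        rw [← sq_abs]
        exact pow_le_pow_left₀ (abs_nonneg _) h1 2
      have h4 := aa_main (L := m + l) m i hle
      have h5 : (aa (m + l) (m + i) / (2 ^ (m + i) * ((m + i).factorial : ℝ))) ^ 2 =
          aa (m + l) (m + i) ^ 2 / (4 ^ (m + i) * ((m + i).factorial : ℝ) ^ 2) := by
        rw [div_pow, mul_pow, ← pow_mul, mul_comm (m + i) 2, pow_mul]
        norm_num
      rw [hnl, div_div_eq_mul_div]
      rw [h5] at h3
      have h6 := aa_pos (m + l) m
      have h7 : (0 : ℝ) ≤ 2 * ((m + l : ℕ) : ℝ) + 1 := by positivity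
      calc ((Polynomial.derivative^[i] (Q l)).eval z) ^ 2 * (2 * ((m + l : ℕ) : ℝ) + 1) /
            aa (m + l) m
          ≤ (aa (m + l) (m + i) ^ 2 / (4 ^ (m + i) * ((m + i).factorial : ℝ) ^ 2)) *
            (2 * ((m + l : ℕ) : ℝ) + 1) / aa (m + l) m :=
            div_le_div_of_nonneg_right (mul_le_mul_of_nonneg_right h3 h7) h6.le
        _ = (2 * ((m + l : ℕ) : ℝ) + 1) * (aa (m + l) (m + i) ^ 2 / aa (m + l) m) /
            (4 ^ (m + i) * ((m + i).factorial : ℝ) ^ 2) := by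
            field_simp
        _ ≤ _ := div_le_div_of_nonneg_right (mul_le_mul_of_nonneg_left h4 h7) hD.le
    · have h1 : Polynomial.derivative^[i] (Q l) = 0 := by
        rw [e1]
        refine Polynomial.iterate_derivative_eq_zero ?_
        rw [hdeg]
        omega
      rw [h1, Polynomial.eval_zero]
      simp only [ne_eq, OfNat.ofNat_ne_zero, not_false_eq_true, zero_pow, zero_div]
      positivity
  have hsum : ∑ l ∈ Finset.range (t - m + 1),
      ((Polynomial.derivative^[i] (Q l)).eval z) ^ 2 / nrm m (Q l) ≤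
      (((t : ℝ) + 1) ^ 2) ^ (m + 2 * i + 1) /
        (((m : ℝ) + 2 * (i : ℝ) + 1) * 4 ^ (m + i) * ((m + i).factorial : ℝ) ^ 2) := by
    refine (Finset.sum_le_sum fun l _ => hterm l).trans ?_
    rw [← Finset.sum_div]
    have h1 := sum_le m (t - m) (m + 2 * i)
    have h2 : m + (t - m) = t := by omega
    rw [h2] at h1
    refine (div_le_div_of_nonneg_right h1 hD.le).trans (le_of_eq ?_)
    push_cast
    rw [div_div]
    ring_nf
  rw [hn]
  refine hCS.trans ?_
  rw [mul_comm]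
  exact mul_le_mul_of_nonneg_right hsum
    (Finset.sum_nonneg fun l _ => mul_nonneg (sq_nonneg _) (hnpos l).le)

end Pool.Agent.Helper83.SD
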