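import Pool.Agent.Helper83.SD.Coord
import Pool.Agent.Helper83.SD.Mode

/-!
Project SD, module Pars: Parseval on circles and on the sphere.
-/

set_option autoImplicit false

open MeasureTheory Real

namespace Pool.Agent.Helper83.SD

variable {t : ℕ} {p : Poly} {u v : ℤ → Polynomial ℝ}

namespace Pars

/-- the integral of a character -/
lemma int_exp (k : ℤ) : ∫ φ in (0 : ℝ)..(2 * π), Complex.exp (Complex.I * (k : ℂ) * (φ : ℂ)) =
    if k = 0 then (2 * π : ℂ) else 0 := by
  by_cases hk : k = 0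
  · rw [if_pos hk, hk]
    simp
  · rw [if_neg hk]
    have hc : Complex.I * (k : ℂ) ≠ 0 :=
      mul_ne_zero Complex.I_ne_zero (Int.cast_ne_zero.mpr hk)
    have h1 := integral_exp_mul_complex (a := 0) (b := 2 * π) hc
    rw [h1]
    have h2 : Complex.exp (Complex.I * (k : ℂ) * ((2 * π : ℝ) : ℂ)) = 1 := by
      rw [Complex.exp_eq_one_iff]
      exact ⟨k, by push_cast; ring⟩
    rw [h2]
    simp

/-- the coefficient of the mode `m` -/
noncomputable def cf (u v : ℤ → Polynomial ℝ) (z : ℝ) (m : ℤ) : ℂ :=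
  ((√(1 - z ^ 2) ^ m.natAbs : ℝ) : ℂ) *
    ((((u m).eval z : ℝ) : ℂ) + (((v m).eval z : ℝ) : ℂ) * Complex.I)

lemma cf_norm {z : ℝ} (hz : z ^ 2 ≤ 1) (m : ℤ) :
    cf u v z m * (starRingEnd ℂ) (cf u v z m) =
      (((1 - z ^ 2) ^ m.natAbs * (((u m).eval z) ^ 2 + ((v m).eval z) ^ 2) : ℝ) : ℂ) := by
  have h1 : √(1 - z ^ 2) ^ 2 = 1 - z ^ 2 := Real.sq_sqrt (by linarith)
  have h2 : (√(1 - z ^ 2) ^ m.natAbs) * (√(1 - z ^ 2) ^ m.natAbs) = (1 - z ^ 2) ^ m.natAbs := by
    rw [← mul_pow, ← sq, h1]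
  rw [← h2]
  unfold cf
  rw [map_mul, map_add, map_mul, Complex.conj_ofReal, Complex.conj_ofReal, Complex.conj_ofReal,
    Complex.conj_I]
  push_cast
  have hI : Complex.I * Complex.I = -1 := Complex.I_mul_I
  linear_combination (-(((√(1 - z ^ 2) : ℝ) : ℂ) ^ m.natAbs) ^ 2 *
    (((v m).eval z : ℝ) : ℂ) ^ 2) * hI

lemma ev_eq (h : Modes t p u v) {z : ℝ} (hz : z ^ 2 ≤ 1) (φ : ℝ) :
    ((ev p (sp z φ) : ℝ) : ℂ) = ∑ m ∈ Finset.Icc (-(t : ℤ)) t,
      cf u v z m * Complex.exp (Complex.I * (m : ℂ) * (φ : ℂ)) := by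
  rw [h.eq z φ hz]
  rfl

lemma sq_eq (h : Modes t p u v) {z : ℝ} (hz : z ^ 2 ≤ 1) (φ : ℝ) :
    (((ev p (sp z φ)) ^ 2 : ℝ) : ℂ) = ∑ m ∈ Finset.Icc (-(t : ℤ)) t,
      ∑ m' ∈ Finset.Icc (-(t : ℤ)) t, (cf u v z m * (starRingEnd ℂ) (cf u v z m')) *
        Complex.exp (Complex.I * ((m - m' : ℤ) : ℂ) * (φ : ℂ)) := by
  have h1 := ev_eq h hz φ
  have h2 : ((ev p (sp z φ) : ℝ) : ℂ) = ∑ m ∈ Finset.Icc (-(t : ℤ)) t,
      (starRingEnd ℂ) (cf u v z m) * Complex.exp (-(Complex.I * (m : ℂ) * (φ : ℂ))) := by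
    have h3 := congrArg (starRingEnd ℂ) h1
    rw [Complex.conj_ofReal, map_sum] at h3
    rw [h3]
    refine Finset.sum_congr rfl fun m _ => ?_
    rw [map_mul, ← Complex.exp_conj, map_mul, map_mul, Complex.conj_I, Complex.conj_ofReal,
      map_intCast]
    congr 2
    ring
  have h4 : (((ev p (sp z φ)) ^ 2 : ℝ) : ℂ) =
      ((ev p (sp z φ) : ℝ) : ℂ) * ((ev p (sp z φ) : ℝ) : ℂ) := by
    push_cast
    ring
  rw [h4]
  nth_rewrite 1 [h1]
  rw [h2, Finset.sum_mul_sum]
  refine Finset.sum_congr rfl fun m _ => Finset.sum_congr rfl fun m' _ => ?_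
  have h5 : Complex.exp (Complex.I * ((m - m' : ℤ) : ℂ) * (φ : ℂ)) =
      Complex.exp (Complex.I * (m : ℂ) * (φ : ℂ)) *
        Complex.exp (-(Complex.I * (m' : ℂ) * (φ : ℂ))) := by
    rw [← Complex.exp_add]
    congr 1
    push_cast
    ring
  rw [h5]
  ring

lemma exp_int (c : ℂ) (k : ℤ) : IntervalIntegrable
    (fun φ : ℝ => c * Complex.exp (Complex.I * (k : ℂ) * (φ : ℂ))) volume 0 (2 * π) := by
  apply Continuous.intervalIntegrable
  fun_prop

end Pars

open Pars

theorem avg_sq (h : Modes t p u v) {z : ℝ} (hz : z ^ 2 ≤ 1) :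
    (1 / (2 * π)) * ∫ φ in (0 : ℝ)..(2 * π), (ev p (sp z φ)) ^ 2 = (modeA t u v).eval z := by
  have h1 : ((∫ φ in (0 : ℝ)..(2 * π), (ev p (sp z φ)) ^ 2 : ℝ) : ℂ) =
      2 * π * (((modeA t u v).eval z : ℝ) : ℂ) := by
    rw [← intervalIntegral.integral_ofReal]
    simp only [sq_eq h hz]
    rw [intervalIntegral.integral_finset_sum (fun m _ => by
      apply Continuous.intervalIntegrable
      fun_prop)]
    have h2 : ∀ m ∈ Finset.Icc (-(t : ℤ)) t,
        (∫ φ in (0 : ℝ)..(2 * π), ∑ m' ∈ Finset.Icc (-(t : ℤ)) t,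
          (cf u v z m * (starRingEnd ℂ) (cf u v z m')) *
            Complex.exp (Complex.I * ((m - m' : ℤ) : ℂ) * (φ : ℂ))) =
        2 * π * (cf u v z m * (starRingEnd ℂ) (cf u v z m)) := by
      intro m hm
      rw [intervalIntegral.integral_finset_sum (fun m' _ => exp_int _ _), Finset.sum_eq_single m]
      · rw [intervalIntegral.integral_const_mul, int_exp, if_pos (sub_self m)]
        ring
      · intro m' _ hne
        rw [intervalIntegral.integral_const_mul, int_exp, if_neg (sub_ne_zero.mpr hne.symm),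
          mul_zero]
      · intro hn
        exact absurd hm hn
    rw [Finset.sum_congr rfl h2, ← Finset.mul_sum]
    congr 1
    simp only [cf_norm hz]
    unfold modeA
    rw [Polynomial.eval_finset_sum]
    push_cast
    refine Finset.sum_congr rfl fun m _ => ?_
    simp
  have h3 : (∫ φ in (0 : ℝ)..(2 * π), (ev p (sp z φ)) ^ 2) = 2 * π * (modeA t u v).eval z := by
    have : ((2 * π * (modeA t u v).eval z : ℝ) : ℂ) =
        2 * π * (((modeA t u v).eval z : ℝ) : ℂ) := by push_cast; ring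
    rw [← this] at h1
    exact_mod_cast h1
  rw [h3]
  have hpi : (2 * π) ≠ 0 := by positivity
  field_simp

theorem avg_lin (h : Modes t p u v) {z : ℝ} (hz : z ^ 2 ≤ 1) :
    (1 / (2 * π)) * ∫ φ in (0 : ℝ)..(2 * π), ev p (sp z φ) = (u 0).eval z := by
  have h0 : cf u v z 0 = (((u 0).eval z : ℝ) : ℂ) := by
    unfold cf
    rw [h.v0]
    simp
  have h1 : ((∫ φ in (0 : ℝ)..(2 * π), ev p (sp z φ) : ℝ) : ℂ) =
      2 * π * (((u 0).eval z : ℝ) : ℂ) := by
    rw [← intervalIntegral.integral_ofReal]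
    simp only [ev_eq h hz]
    rw [intervalIntegral.integral_finset_sum (fun m _ => exp_int _ _),
      Finset.sum_eq_single (0 : ℤ)]
    · rw [intervalIntegral.integral_const_mul, int_exp, if_pos rfl, h0]
      ring
    · intro m' _ hne
      rw [intervalIntegral.integral_const_mul, int_exp, if_neg hne, mul_zero]
    · intro hn
      exact absurd (Finset.mem_Icc.mpr ⟨by simp, by simp⟩) hn
  have h3 : (∫ φ in (0 : ℝ)..(2 * π), ev p (sp z φ)) = 2 * π * (u 0).eval z := by
    have : ((2 * π * (u 0).eval z : ℝ) : ℂ) =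
        2 * π * (((u 0).eval z : ℝ) : ℂ) := by push_cast; ring
    rw [← this] at h1
    exact_mod_cast h1
  rw [h3]
  have hpi : (2 * π) ≠ 0 := by positivity
  field_simp

theorem modeA_eval (z : ℝ) : (modeA t u v).eval z =
    ∑ m ∈ Finset.Icc (-(t : ℤ)) t,
      (1 - z ^ 2) ^ m.natAbs * (((u m).eval z) ^ 2 + ((v m).eval z) ^ 2) := by
  unfold modeA
  rw [Polynomial.eval_finset_sum]
  refine Finset.sum_congr rfl fun m _ => ?_
  simp

theorem modeA_Fm {z : ℝ} (hz : z ^ 2 ≤ 1) : (modeA t u v).eval z =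
    ∑ m ∈ Finset.Icc (-(t : ℤ)) t, (Fm u v m z) ^ 2 := by
  rw [modeA_eval]
  refine Finset.sum_congr rfl fun m _ => ?_
  unfold Fm
  rw [Real.sq_sqrt]
  have : 0 ≤ 1 - z ^ 2 := by linarith
  positivity

theorem modeA_natDegree (h : Modes t p u v) : (modeA t u v).natDegree ≤ 2 * t := by
  unfold modeA
  refine Polynomial.natDegree_sum_le_of_forall_le _ _ fun m hm => ?_
  have hmt : m.natAbs ≤ t := by
    have := Finset.mem_Icc.mp hm
    omega
  have h1 : ((1 - Polynomial.X ^ 2 : Polynomial ℝ) ^ m.natAbs).natDegree ≤ m.natAbs * 2 := by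
    refine Polynomial.natDegree_pow_le.trans (Nat.mul_le_mul_left _ ?_)
    compute_degree
  have h2 : ((u m) ^ 2 + (v m) ^ 2).natDegree ≤ 2 * (t - m.natAbs) := by
    refine Polynomial.natDegree_add_le_of_degree_le ?_ ?_
    · exact Polynomial.natDegree_pow_le.trans (Nat.mul_le_mul_left _ (h.degu m hmt))
    · exact Polynomial.natDegree_pow_le.trans (Nat.mul_le_mul_left _ (h.degv m hmt))
  refine Polynomial.natDegree_mul_le.trans ?_
  omega

theorem mu_sq (h : Modes t p u v) :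
    mu (p ^ 2) = (1 / 2) * ∫ z in (-1 : ℝ)..1, (modeA t u v).eval z := by
  rw [mu_sp']
  congr 1
  refine intervalIntegral.integral_congr fun z hz => ?_
  rw [Set.uIcc_of_le (by norm_num : (-1 : ℝ) ≤ 1)] at hz
  have hz' : z ^ 2 ≤ 1 := by
    have h1 := hz.1
    have h2 := hz.2
    nlinarith
  simp only [ev_pow]
  exact avg_sq h hz'

theorem mu_sq_sum (h : Modes t p u v) :
    mu (p ^ 2) = ∑ m ∈ Finset.Icc (-(t : ℤ)) t, nmode u v m := by
  rw [mu_sq h]
  simp only [modeA_eval]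
  rw [intervalIntegral.integral_finset_sum (fun m _ => by
    apply Continuous.intervalIntegrable
    have h1 := (u m).continuous
    have h2 := (v m).continuous
    fun_prop), Finset.mul_sum]
  refine Finset.sum_congr rfl fun m _ => ?_
  unfold nmode nrm
  have h1 := (u m).continuous
  have h2 := (v m).continuous
  have h3 : IntervalIntegrable (fun z : ℝ => (1 - z ^ 2) ^ m.natAbs * ((u m).eval z) ^ 2) volume
      (-1) 1 := by
    apply Continuous.intervalIntegrable
    fun_prop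
  have h4 : IntervalIntegrable (fun z : ℝ => (1 - z ^ 2) ^ m.natAbs * ((v m).eval z) ^ 2) volume
      (-1) 1 := by
    apply Continuous.intervalIntegrable
    fun_prop
  rw [← mul_add, ← intervalIntegral.integral_add h3 h4]
  congr 1
  refine intervalIntegral.integral_congr fun z _ => ?_
  ring

theorem mu_lin (h : Modes t p u v) :
    mu p = (1 / 2) * ∫ z in (-1 : ℝ)..1, (u 0).eval z := by
  rw [mu_sp']
  congr 1
  refine intervalIntegral.integral_congr fun z hz => ?_
  rw [Set.uIcc_of_le (by norm_num : (-1 : ℝ) ≤ 1)] at hz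
  have hz' : z ^ 2 ≤ 1 := by
    have h1 := hz.1
    have h2 := hz.2
    nlinarith
  exact avg_lin h hz'

end Pool.Agent.Helper83.SD
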