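import Pool.Agent.Helper83.SD.Loc1
import Pool.Agent.Helper83.SD.Pars

/-!
Project SD, module Loc2: pointwise bounds near the equator.

One dimensional Sobolev inequality on `[-π/4, π/4]` (there `cos ≥ 1/√2`):
`N_k(ψ0) ≤ (2/π) ∫ N_k + ∫ |N_k'|`, `|N_k'| ≤ √λ N_k + N_{k+1}/√λ`; constant
`1.81 + 5.66 √λ ≤ 8 (t+1)`.  `modeA(sin ψ) = N_0(ψ)` for `|ψ| ≤ π/2`, and
`∂^k ∫ P^2 = Σ binom(k,i) ∫ ∂^i P ∂^(k-i) P`; `(u 0)(sin ψ) = avg P`.
-/

set_option autoImplicit false

open MeasureTheory Real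
open scoped ContDiff

namespace Pool.Agent.Helper83.SD

namespace Loc2Aux

/-- iterated partial derivatives in the first variable -/
noncomputable def Dk (G : ℝ × ℝ → ℝ) : ℕ → ℝ × ℝ → ℝ
  | 0 => G
  | k + 1 => fun x => fderiv ℝ (Dk G k) x (1, 0)

theorem Dk_smooth {G : ℝ × ℝ → ℝ} (hG : ContDiff ℝ ∞ G) (k : ℕ) : ContDiff ℝ ∞ (Dk G k) := by
  induction k with
  | zero => exact hG
  | succ k ih =>
    have h1 : ContDiff ℝ ∞ (fderiv ℝ (Dk G k)) := ih.fderiv_right (by simp)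
    exact h1.clm_apply contDiff_const

theorem hasDerivAt_first {H : ℝ × ℝ → ℝ} (hH : ContDiff ℝ ∞ H) (φ s : ℝ) :
    HasDerivAt (fun s => H (s, φ)) (fderiv ℝ H (s, φ) (1, 0)) s := by
  have h1 : HasFDerivAt H (fderiv ℝ H (s, φ)) (s, φ) :=
    (hH.differentiable (by simp) (s, φ)).hasFDerivAt
  have h2 : HasDerivAt (fun s : ℝ => (s, φ)) ((1 : ℝ), (0 : ℝ)) s :=
    (hasDerivAt_id s).prodMk (hasDerivAt_const s φ)
  exact h1.comp_hasDerivAt s h2

theorem iter_first {G : ℝ × ℝ → ℝ} (hG : ContDiff ℝ ∞ G) (φ : ℝ) (k : ℕ) :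
    iteratedDeriv k (fun s => G (s, φ)) = fun s => Dk G k (s, φ) := by
  induction k with
  | zero => simp [Dk]
  | succ k ih =>
    rw [iteratedDeriv_succ, ih]
    funext s
    exact (hasDerivAt_first (Dk_smooth hG k) φ s).deriv

theorem hasDerivAt_int {H : ℝ × ℝ → ℝ} (hH : ContDiff ℝ ∞ H) (a b s : ℝ) :
    HasDerivAt (fun s => ∫ φ in a..b, H (s, φ)) (∫ φ in a..b, fderiv ℝ H (s, φ) (1, 0)) s := by
  have hc : Continuous H := hH.continuous
  have hc' : Continuous (fun x : ℝ × ℝ => fderiv ℝ H x (1, 0)) := by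
    have h1 : ContDiff ℝ ∞ (fderiv ℝ H) := hH.fderiv_right (by simp)
    exact (h1.clm_apply contDiff_const).continuous
  have hK : IsCompact ((Metric.closedBall s 1) ×ˢ (Set.uIcc a b) : Set (ℝ × ℝ)) :=
    (isCompact_closedBall s 1).prod isCompact_uIcc
  obtain ⟨C, hC⟩ := hK.exists_bound_of_continuousOn hc'.continuousOn
  have := intervalIntegral.hasDerivAt_integral_of_dominated_loc_of_deriv_le
    (μ := volume) (a := a) (b := b) (F := fun s φ => H (s, φ))
    (F' := fun s φ => fderiv ℝ H (s, φ) (1, 0)) (x₀ := s) (s := Metric.closedBall s 1)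
    (bound := fun _ => C)
    (Metric.closedBall_mem_nhds s one_pos)
    (Filter.Eventually.of_forall fun x => ((hc.comp (by fun_prop)).aestronglyMeasurable))
    ((hc.comp (by fun_prop)).intervalIntegrable _ _)
    ((hc'.comp (by fun_prop)).aestronglyMeasurable)
    (Filter.Eventually.of_forall fun φ hφ x hx =>
      hC (x, φ) ⟨hx, Set.uIoc_subset_uIcc hφ⟩)
    (intervalIntegrable_const)
    (Filter.Eventually.of_forall fun φ _ x _ => hasDerivAt_first hH φ x)
  exact this.2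

theorem iter_int {G : ℝ × ℝ → ℝ} (hG : ContDiff ℝ ∞ G) (a b : ℝ) (k : ℕ) :
    iteratedDeriv k (fun s => ∫ φ in a..b, G (s, φ)) =
      fun s => ∫ φ in a..b, iteratedDeriv k (fun s => G (s, φ)) s := by
  induction k with
  | zero => simp
  | succ k ih =>
    rw [iteratedDeriv_succ, ih]
    funext s
    have h1 : ∀ (j : ℕ) (s : ℝ), (∫ φ in a..b, iteratedDeriv j (fun s => G (s, φ)) s) =
        ∫ φ in a..b, Dk G j (s, φ) := by
      intro j s
      refine intervalIntegral.integral_congr fun φ _ => ?_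
      simp only [iter_first hG φ j]
    simp only [h1]
    exact (hasDerivAt_int (Dk_smooth hG k) a b s).deriv

/-- Cauchy-Schwarz -/
theorem cs {f g : ℝ → ℝ} (hf : Continuous f) (hg : Continuous g) :
    |(1 / (2 * π)) * ∫ φ in (0 : ℝ)..(2 * π), f φ * g φ| ≤
      √(((1 / (2 * π)) * ∫ φ in (0 : ℝ)..(2 * π), f φ ^ 2) *
        ((1 / (2 * π)) * ∫ φ in (0 : ℝ)..(2 * π), g φ ^ 2)) := by
  apply Real.abs_le_sqrt
  set A := (1 / (2 * π)) * ∫ φ in (0 : ℝ)..(2 * π), f φ ^ 2 with hA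
  set B := (1 / (2 * π)) * ∫ φ in (0 : ℝ)..(2 * π), g φ ^ 2 with hB
  set c := (1 / (2 * π)) * ∫ φ in (0 : ℝ)..(2 * π), f φ * g φ with hcdef
  have hpi := Real.pi_pos
  have key : ∀ x : ℝ, 0 ≤ B * (x * x) + (-2 * c) * x + A := by
    intro x
    have h1 : B * (x * x) + (-2 * c) * x + A =
        (1 / (2 * π)) * ∫ φ in (0 : ℝ)..(2 * π), (f φ - x * g φ) ^ 2 := by
      have i1 : IntervalIntegrable (fun φ => f φ ^ 2) volume 0 (2 * π) :=
        (hf.pow 2).intervalIntegrable _ _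
      have i2 : IntervalIntegrable (fun φ => f φ * g φ) volume 0 (2 * π) :=
        (hf.mul hg).intervalIntegrable _ _
      have i3 : IntervalIntegrable (fun φ => g φ ^ 2) volume 0 (2 * π) :=
        (hg.pow 2).intervalIntegrable _ _
      have h2 : (∫ φ in (0 : ℝ)..(2 * π), (f φ - x * g φ) ^ 2) =
          (∫ φ in (0 : ℝ)..(2 * π), f φ ^ 2) - (2 * x) * (∫ φ in (0 : ℝ)..(2 * π), f φ * g φ)
            + x ^ 2 * ∫ φ in (0 : ℝ)..(2 * π), g φ ^ 2 := by
        rw [← intervalIntegral.integral_const_mul, ← intervalIntegral.integral_const_mul,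
          ← intervalIntegral.integral_sub i1 (i2.const_mul _),
          ← intervalIntegral.integral_add (i1.sub (i2.const_mul _)) (i3.const_mul _)]
        refine intervalIntegral.integral_congr fun φ _ => ?_
        ring
      rw [h2, hA, hB, hcdef]
      ring
    rw [h1]
    apply mul_nonneg (by positivity)
    apply intervalIntegral.integral_nonneg (by positivity)
    intro φ _
    positivity
  have := discrim_le_zero key
  unfold discrim at this
  nlinarith

theorem pt_smooth (i : Fin 3) : ContDiff ℝ ∞ (fun x : ℝ × ℝ => (pt x.1 x.2) i) := by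
  fin_cases i
  · simp only [pt]
    simp
    fun_prop
  · simp only [pt]
    simp
    fun_prop
  · simp only [pt]
    simp
    fun_prop

theorem P_smooth (p : Poly) : ContDiff ℝ ∞ (fun x : ℝ × ℝ => ev p (pt x.1 x.2)) := by
  induction p using MvPolynomial.induction_on with
  | C a => simp only [ev_C]; exact contDiff_const
  | add p q hp hq => simp only [ev_add]; exact hp.add hq
  | mul_X p i hp => simp only [ev_mul, ev_X]; exact hp.mul (pt_smooth i)

/-- one dimensional Sobolev inequality -/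
theorem sob {g h : ℝ → ℝ} (hg : Continuous g) (hh : Continuous h)
    (hd : ∀ ψ, ∃ d : ℝ, HasDerivAt g d ψ ∧ |d| ≤ h ψ) {x : ℝ} (hx : |x| ≤ π / 4) :
    g x ≤ (2 / π) * (∫ ψ in (-(π / 4))..(π / 4), g ψ) + ∫ ψ in (-(π / 4))..(π / 4), h ψ := by
  have hpi := Real.pi_pos
  have hx' := abs_le.mp hx
  have hh0 : ∀ ψ, 0 ≤ h ψ := fun ψ => by
    obtain ⟨d, _, h2⟩ := hd ψ
    exact (abs_nonneg d).trans h2
  have hH : ∀ y, HasDerivAt (fun y => ∫ ψ in (0 : ℝ)..y, h ψ) (h y) y := fun y =>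
    intervalIntegral.integral_hasDerivAt_right (hh.intervalIntegrable _ _)
      (hh.stronglyMeasurableAtFilter _ _) hh.continuousAt
  have mono1 : Monotone (fun y => (∫ ψ in (0 : ℝ)..y, h ψ) - g y) := by
    apply monotone_of_deriv_nonneg
    · intro y
      obtain ⟨d, h1, _⟩ := hd y
      exact ((hH y).fun_sub h1).differentiableAt
    · intro y
      obtain ⟨d, h1, h2⟩ := hd y
      rw [((hH y).fun_sub h1).deriv]
      linarith [le_abs_self d]
  have mono2 : Monotone (fun y => (∫ ψ in (0 : ℝ)..y, h ψ) + g y) := by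
    apply monotone_of_deriv_nonneg
    · intro y
      obtain ⟨d, h1, _⟩ := hd y
      exact ((hH y).fun_add h1).differentiableAt
    · intro y
      obtain ⟨d, h1, h2⟩ := hd y
      rw [((hH y).fun_add h1).deriv]
      linarith [neg_abs_le d]
  have mono3 : Monotone (fun y => ∫ ψ in (0 : ℝ)..y, h ψ) := by
    apply monotone_of_deriv_nonneg
    · intro y
      exact (hH y).differentiableAt
    · intro y
      rw [(hH y).deriv]
      exact hh0 y
  set T := ∫ ψ in (-(π / 4))..(π / 4), h ψ with hT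
  have hTeq : T = (∫ ψ in (0 : ℝ)..(π / 4), h ψ) - ∫ ψ in (0 : ℝ)..(-(π / 4)), h ψ := by
    rw [hT, intervalIntegral.integral_interval_sub_left (hh.intervalIntegrable _ _)
      (hh.intervalIntegrable _ _)]
  have hpt : ∀ y ∈ Set.Icc (-(π / 4)) (π / 4), g x - T ≤ g y := by
    intro y hy
    rcases le_total y x with h1 | h1
    · have a1 := mono1 h1
      have a2 := mono3 hx'.2
      have a3 := mono3 hy.1
      simp only at a1 a2 a3
      linarith
    · have a1 := mono2 h1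
      have a2 := mono3 hx'.1
      have a3 := mono3 hy.2
      simp only at a1 a2 a3
      linarith
  have hint : (∫ _ in (-(π / 4))..(π / 4), (g x - T)) ≤ ∫ ψ in (-(π / 4))..(π / 4), g ψ :=
    intervalIntegral.integral_mono_on (by linarith) intervalIntegrable_const
      (hg.intervalIntegrable _ _) hpt
  rw [intervalIntegral.integral_const, smul_eq_mul] at hint
  have : (π / 2) * (g x - T) ≤ ∫ ψ in (-(π / 4))..(π / 4), g ψ := by
    calc (π / 2) * (g x - T) = (π / 4 - -(π / 4)) * (g x - T) := by ring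
      _ ≤ _ := hint
  have h3 : g x - T ≤ (2 / π) * ∫ ψ in (-(π / 4))..(π / 4), g ψ := by
    rw [div_mul_eq_mul_div, le_div_iff₀ hpi]
    linarith
  linarith

theorem cos_ge {ψ : ℝ} (h : |ψ| ≤ π / 4) : √2 / 2 ≤ cos ψ := by
  rw [← Real.cos_abs ψ, ← Real.cos_pi_div_four]
  apply Real.cos_le_cos_of_nonneg_of_le_pi (abs_nonneg _) (by linarith [Real.pi_pos]) h

theorem int_small (j : ℕ) (p : Poly) :
    (∫ ψ in (-(π / 4))..(π / 4), Nk j p ψ) ≤
      2 * √2 * ((1 / 2) * ∫ ψ in (-(π / 2))..(π / 2), Nk j p ψ * cos ψ) := by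
  have hpi := Real.pi_pos
  have hc := Nk_continuous j p
  have hcc : Continuous (fun ψ => Nk j p ψ * cos ψ) := hc.mul Real.continuous_cos
  have h2 : √2 * √2 = 2 := Real.mul_self_sqrt (by norm_num)
  have hc2 : Continuous (fun ψ => √2 * (Nk j p ψ * cos ψ)) := continuous_const.mul hcc
  have h1 : (∫ ψ in (-(π / 4))..(π / 4), Nk j p ψ) ≤
      ∫ ψ in (-(π / 4))..(π / 4), √2 * (Nk j p ψ * cos ψ) := by
    apply intervalIntegral.integral_mono_on (by linarith) (hc.intervalIntegrable _ _)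
      (hc2.intervalIntegrable _ _)
    intro ψ hψ
    have h3 := cos_ge (abs_le.mpr ⟨by linarith [hψ.1], hψ.2⟩)
    have h4 := Nk_nonneg j p ψ
    have h5 : 1 ≤ √2 * cos ψ := by nlinarith [Real.sqrt_nonneg (2 : ℝ)]
    nlinarith
  rw [intervalIntegral.integral_const_mul] at h1
  have h6 : (∫ ψ in (-(π / 4))..(π / 4), Nk j p ψ * cos ψ) ≤
      ∫ ψ in (-(π / 2))..(π / 2), Nk j p ψ * cos ψ := by
    apply intervalIntegral.integral_mono_interval (by linarith) (by linarith) (by linarith)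
    · rw [Filter.EventuallyLE, ae_restrict_iff' measurableSet_Ioc]
      refine Filter.Eventually.of_forall fun ψ hψ => ?_
      exact mul_nonneg (Nk_nonneg j p ψ) (Real.cos_nonneg_of_mem_Icc ⟨hψ.1.le, hψ.2⟩)
    · exact hcc.intervalIntegrable _ _
  have := Real.sqrt_nonneg (2 : ℝ)
  nlinarith

theorem main_bound {t : ℕ} (ht : 1 ≤ t) {p : Poly} {k : ℕ} {A : ℝ} (hA : 0 ≤ A)
    (h1 : (1 / 2) * (∫ ψ in (-(π / 2))..(π / 2), Nk k p ψ * cos ψ) ≤ A)
    (h2 : (1 / 2) * (∫ ψ in (-(π / 2))..(π / 2), Nk (k + 1) p ψ * cos ψ) ≤ lam t * A)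
    {ψ : ℝ} (hψ : |ψ| ≤ π / 4) : Nk k p ψ ≤ 8 * ((t : ℝ) + 1) * A := by
  have ht' : (1 : ℝ) ≤ t := by exact_mod_cast ht
  have hlam : 0 < lam t := by unfold lam; positivity
  set r := √(lam t) with hr
  have hr0 : 0 < r := Real.sqrt_pos.mpr hlam
  have hrr : r * r = lam t := Real.mul_self_sqrt hlam.le
  have hrt : r ≤ (t : ℝ) + 1 / 2 := by have := two_sqrt_lam_le t; linarith
  have hc := Nk_continuous k p
  have hc1 := Nk_continuous (k + 1) p
  have hS := sob (g := Nk k p) (h := fun ψ => r * Nk k p ψ + (1 / r) * Nk (k + 1) p ψ) hc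
    ((continuous_const.mul hc).add (continuous_const.mul hc1)) (by
      intro y
      obtain ⟨d, hd1, hd2⟩ := Nk_deriv k p y
      refine ⟨d, hd1, hd2.trans ?_⟩
      have ha := Nk_nonneg k p y
      have hb := Nk_nonneg (k + 1) p y
      have : √(Nk k p y * Nk (k + 1) p y) ≤ (r * Nk k p y + (1 / r) * Nk (k + 1) p y) / 2 := by
        apply Real.sqrt_le_iff.mpr
        constructor
        · positivity
        · have h5 : (r * Nk k p y) * ((1 / r) * Nk (k + 1) p y) = Nk k p y * Nk (k + 1) p y := by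
            field_simp
          nlinarith [sq_nonneg (r * Nk k p y - (1 / r) * Nk (k + 1) p y)]
      linarith) hψ
  have hc2 : Continuous (fun ψ => r * Nk k p ψ) := continuous_const.mul hc
  have hc3 : Continuous (fun ψ => (1 / r) * Nk (k + 1) p ψ) := continuous_const.mul hc1
  rw [intervalIntegral.integral_add (hc2.intervalIntegrable _ _)
    (hc3.intervalIntegrable _ _), intervalIntegral.integral_const_mul,
    intervalIntegral.integral_const_mul] at hS
  have i1 := int_small k p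
  have i2 := int_small (k + 1) p
  have s2 := Real.sqrt_nonneg (2 : ℝ)
  have s3 : √2 ≤ 1.4143 := by
    apply Real.sqrt_le_iff.mpr
    constructor <;> norm_num
  have j1 : (∫ ψ in (-(π / 4))..(π / 4), Nk k p ψ) ≤ 2 * 1.4143 * A := by
    refine i1.trans ?_
    have : 2 * √2 * ((1 / 2) * ∫ ψ in (-(π / 2))..(π / 2), Nk k p ψ * cos ψ) ≤ 2 * √2 * A :=
      mul_le_mul_of_nonneg_left h1 (by positivity)
    nlinarith
  have j2 : (1 / r) * (∫ ψ in (-(π / 4))..(π / 4), Nk (k + 1) p ψ) ≤ 2 * 1.4143 * r * A := by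
    have h6 : (∫ ψ in (-(π / 4))..(π / 4), Nk (k + 1) p ψ) ≤ 2 * √2 * (lam t * A) :=
      i2.trans (mul_le_mul_of_nonneg_left h2 (by positivity))
    rw [one_div, inv_mul_le_iff₀ hr0]
    refine h6.trans ?_
    have h7 : r * (2 * 1.4143 * r * A) = 2 * 1.4143 * (lam t * A) := by
      rw [← hrr]; ring
    rw [h7]
    have : 0 ≤ lam t * A := by positivity
    nlinarith
  have hpi3 := Real.pi_gt_d2
  have k1 : (2 / π) * (∫ ψ in (-(π / 4))..(π / 4), Nk k p ψ) ≤ 1.81 * A := by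
    have h8 : (2 / π) * (∫ ψ in (-(π / 4))..(π / 4), Nk k p ψ) ≤ (2 / π) * (2 * 1.4143 * A) :=
      mul_le_mul_of_nonneg_left j1 (by positivity)
    refine h8.trans ?_
    rw [div_mul_eq_mul_div, div_le_iff₀ Real.pi_pos]
    nlinarith
  have k2 : r * (∫ ψ in (-(π / 4))..(π / 4), Nk k p ψ) ≤ 2 * 1.4143 * r * A := by
    have := mul_le_mul_of_nonneg_left j1 hr0.le
    linarith
  have k3 : r * A ≤ ((t : ℝ) + 1 / 2) * A := mul_le_mul_of_nonneg_right hrt hA
  have k4 : 0 ≤ (t : ℝ) * A := by positivity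
  nlinarith

theorem Nk_zero (p : Poly) : Nk 0 p = fun s => (1 / (2 * π)) *
    ∫ φ in (0 : ℝ)..(2 * π), (ev p (pt s φ)) ^ 2 := by
  funext s
  simp [Nk]

theorem cont_it (p : Poly) (k : ℕ) (ψ : ℝ) :
    Continuous (fun φ => iteratedDeriv k (fun s => ev p (pt s φ)) ψ) := by
  have h1 : (fun φ => iteratedDeriv k (fun s => ev p (pt s φ)) ψ) =
      fun φ => Dk (fun x : ℝ × ℝ => ev p (pt x.1 x.2)) k (ψ, φ) := by
    funext φ
    exact congrFun (iter_first (P_smooth p) φ k) ψ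
  rw [h1]
  exact (Dk_smooth (P_smooth p) k).continuous.comp (by fun_prop)

theorem cs_Nk (p : Poly) (i j : ℕ) (ψ : ℝ) :
    |(1 / (2 * π)) * ∫ φ in (0 : ℝ)..(2 * π), iteratedDeriv i (fun s => ev p (pt s φ)) ψ *
      iteratedDeriv j (fun s => ev p (pt s φ)) ψ| ≤ √(Nk i p ψ * Nk j p ψ) :=
  cs (cont_it p i ψ) (cont_it p j ψ)

theorem sq_iter {f : ℝ → ℝ} (hf : ContDiff ℝ ∞ f) (k : ℕ) (ψ : ℝ) :
    iteratedDeriv k (fun s => f s ^ 2) ψ =
      ∑ i ∈ Finset.range (k + 1), (k.choose i : ℝ) * (iteratedDeriv i f ψ *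
        iteratedDeriv (k - i) f ψ) := by
  have h4 : (fun s => f s ^ 2) = f * f := by
    funext s
    simp [sq]
  have h5 : ContDiffAt ℝ (k : ℕ) f ψ := hf.contDiffAt.of_le (by exact_mod_cast le_top)
  rw [h4, iteratedDeriv_mul h5 h5]
  refine Finset.sum_congr rfl fun i _ => ?_
  ring

theorem P_smooth1 (p : Poly) (φ : ℝ) : ContDiff ℝ ∞ (fun s => ev p (pt s φ)) := by
  have h1 : ContDiff ℝ ∞ (fun s : ℝ => (s, φ)) := contDiff_id.prodMk contDiff_const
  have h2 := (P_smooth p).comp h1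
  exact h2

theorem near_nhds {ψ : ℝ} (hψ : |ψ| ≤ π / 4) : ∀ᶠ s in nhds ψ, |s| ≤ π / 2 := by
  have h1 : |ψ| < π / 2 := by linarith [Real.pi_pos]
  have h2 : ∀ᶠ s in nhds ψ, |s| < π / 2 := continuous_abs.continuousAt.eventually_lt_const h1
  exact h2.mono fun s hs => hs.le

end Loc2Aux

open Loc2Aux

variable {t : ℕ} {p : Poly} {u v : ℤ → Polynomial ℝ}

theorem Nk_pt (ht : 1 ≤ t) (hp : p.totalDegree ≤ t) (k : ℕ) {ψ : ℝ} (hψ : |ψ| ≤ π / 4) :
    Nk k p ψ ≤ 8 * ((t : ℝ) + 1) * (lam t) ^ k * mu (p ^ 2) := by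
  have h0 : 0 ≤ mu (p ^ 2) := mu_nonneg fun x _ => by rw [ev_pow]; positivity
  have h1 := Nk_int t k p hp
  have h2 := Nk_int t (k + 1) p hp
  have := main_bound (A := (lam t) ^ k * mu (p ^ 2)) ht
    (mul_nonneg (pow_nonneg (lam_nonneg t) k) h0) h1 (h2.trans (le_of_eq (by ring))) hψ
  linarith

theorem Nk_pt' (ht : 1 ≤ t) (hp : p.totalDegree ≤ t) (k : ℕ) (hk : 1 ≤ k) {ψ : ℝ}
    (hψ : |ψ| ≤ π / 4) :
    Nk k p ψ ≤ 8 * ((t : ℝ) + 1) * (lam t) ^ (k - 1) * en p := by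
  have h0 : 0 ≤ en p := en_nonneg p
  have h1 := Nk_int' t k hk p hp
  have h2 := Nk_int' t (k + 1) (by omega) p hp
  have h3 : (lam t) ^ (k + 1 - 1) * en p = lam t * ((lam t) ^ (k - 1) * en p) := by
    obtain ⟨m, rfl⟩ : ∃ m, k = m + 1 := ⟨k - 1, by omega⟩
    simp only [Nat.add_sub_cancel]
    ring
  have := main_bound (A := (lam t) ^ (k - 1) * en p) ht
    (mul_nonneg (pow_nonneg (lam_nonneg t) _) h0) h1 (h2.trans (le_of_eq h3)) hψ
  linarith

theorem loc_A (ht : 1 ≤ t) (hp : p.totalDegree ≤ t) (h : Modes t p u v) (k : ℕ) {ψ : ℝ}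
    (hψ : |ψ| ≤ π / 4) :
    |iteratedDeriv k (fun s => (modeA t u v).eval (sin s)) ψ| ≤
      8 * ((t : ℝ) + 1) * mu (p ^ 2) * (2 * √(lam t)) ^ k := by
  have h0 : 0 ≤ mu (p ^ 2) := mu_nonneg fun x _ => by rw [ev_pow]; positivity
  have hmu : 0 ≤ 8 * ((t : ℝ) + 1) * mu (p ^ 2) := by positivity
  have hev : (fun s => (modeA t u v).eval (sin s)) =ᶠ[nhds ψ]
      fun s => (1 / (2 * π)) * ∫ φ in (0 : ℝ)..(2 * π), (ev p (pt s φ)) ^ 2 := by
    filter_upwards [near_nhds hψ] with s hs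
    have h1 := avg_sq h (z := sin s) (Real.sin_sq_le_one s)
    rw [← h1]
    simp only [sp_sin hs]
  rw [hev.iteratedDeriv_eq, iteratedDeriv_const_mul_field]
  have hG : ContDiff ℝ ∞ (fun x : ℝ × ℝ => (ev p (pt x.1 x.2)) ^ 2) := (P_smooth p).pow 2
  have h2 : iteratedDeriv k (fun s => ∫ φ in (0 : ℝ)..(2 * π), (ev p (pt s φ)) ^ 2) ψ =
      ∫ φ in (0 : ℝ)..(2 * π), iteratedDeriv k (fun s => (ev p (pt s φ)) ^ 2) ψ :=
    congrFun (iter_int hG 0 (2 * π) k) ψ
  rw [h2]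
  have h3 : ∀ φ : ℝ, iteratedDeriv k (fun s => (ev p (pt s φ)) ^ 2) ψ =
      ∑ i ∈ Finset.range (k + 1), (k.choose i : ℝ) * (iteratedDeriv i (fun s => ev p (pt s φ)) ψ *
        iteratedDeriv (k - i) (fun s => ev p (pt s φ)) ψ) := fun φ => sq_iter (P_smooth1 p φ) k ψ
  simp only [h3]
  have hcont : ∀ i : ℕ, Continuous (fun φ => (k.choose i : ℝ) *
      (iteratedDeriv i (fun s => ev p (pt s φ)) ψ *
        iteratedDeriv (k - i) (fun s => ev p (pt s φ)) ψ)) := fun i =>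
    continuous_const.mul ((cont_it p i ψ).mul (cont_it p (k - i) ψ))
  rw [intervalIntegral.integral_finsetSum (fun i _ => (hcont i).intervalIntegrable _ _),
    Finset.mul_sum]
  refine (Finset.abs_sum_le_sum_abs _ _).trans ?_
  set r := √(lam t) with hr
  have hr0 : 0 ≤ r := Real.sqrt_nonneg _
  have hrr : r ^ 2 = lam t := Real.sq_sqrt (lam_nonneg t)
  have hterm : ∀ i ∈ Finset.range (k + 1), |1 / (2 * π) * ∫ φ in (0 : ℝ)..(2 * π),
      (k.choose i : ℝ) * (iteratedDeriv i (fun s => ev p (pt s φ)) ψ *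
        iteratedDeriv (k - i) (fun s => ev p (pt s φ)) ψ)| ≤
      (k.choose i : ℝ) * (8 * ((t : ℝ) + 1) * mu (p ^ 2) * r ^ k) := by
    intro i hi
    have hik : i ≤ k := Nat.lt_succ_iff.mp (Finset.mem_range.mp hi)
    rw [intervalIntegral.integral_const_mul, mul_left_comm, abs_mul, Nat.abs_cast]
    apply mul_le_mul_of_nonneg_left _ (Nat.cast_nonneg _)
    refine (cs_Nk p i (k - i) ψ).trans ?_
    apply Real.sqrt_le_iff.mpr
    constructor
    · positivity
    · have a1 := Nk_pt ht hp i hψ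
      have a2 := Nk_pt ht hp (k - i) hψ
      have b1 := Nk_nonneg i p ψ
      have b2 := Nk_nonneg (k - i) p ψ
      refine (mul_le_mul a1 a2 b2 (b1.trans a1)).trans (le_of_eq ?_)
      have h7 : (lam t) ^ i * (lam t) ^ (k - i) = (r ^ k) ^ 2 := by
        rw [← pow_add, Nat.add_sub_cancel' hik, ← hrr, ← pow_mul, ← pow_mul, mul_comm 2 k]
      calc 8 * ((t : ℝ) + 1) * lam t ^ i * mu (p ^ 2) *
            (8 * ((t : ℝ) + 1) * lam t ^ (k - i) * mu (p ^ 2))
          = (8 * ((t : ℝ) + 1) * mu (p ^ 2)) ^ 2 * ((lam t) ^ i * (lam t) ^ (k - i)) := by ring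
        _ = _ := by rw [h7]; ring
  refine (Finset.sum_le_sum hterm).trans (le_of_eq ?_)
  rw [← Finset.sum_mul]
  have h8 : (∑ i ∈ Finset.range (k + 1), (k.choose i : ℝ)) = 2 ^ k := by
    exact_mod_cast Nat.sum_range_choose k
  rw [h8, mul_pow]
  ring

theorem loc_D (ht : 1 ≤ t) (hp : p.totalDegree ≤ t) (h : Modes t p u v) (k : ℕ) (hk : 1 ≤ k)
    {ψ : ℝ} (hψ : |ψ| ≤ π / 4) :
    |iteratedDeriv k (fun s => (u 0).eval (sin s)) ψ| ≤
      √(8 * ((t : ℝ) + 1)) * √(en p) * (√(lam t)) ^ (k - 1) := by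
  have h0 : 0 ≤ en p := en_nonneg p
  have hev : (fun s => (u 0).eval (sin s)) =ᶠ[nhds ψ]
      fun s => (1 / (2 * π)) * ∫ φ in (0 : ℝ)..(2 * π), ev p (pt s φ) := by
    filter_upwards [near_nhds hψ] with s hs
    have h1 := avg_lin h (z := sin s) (Real.sin_sq_le_one s)
    rw [← h1]
    simp only [sp_sin hs]
  rw [hev.iteratedDeriv_eq, iteratedDeriv_const_mul_field]
  have h2 := congrFun (iter_int (P_smooth p) 0 (2 * π) k) ψ
  simp only at h2
  rw [h2]
  have h3 := cs (cont_it p k ψ) (continuous_const (y := (1 : ℝ)))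
  have hone : (1 / (2 * π)) * ∫ _ in (0 : ℝ)..(2 * π), (1 : ℝ) ^ 2 = 1 := by
    rw [intervalIntegral.integral_const]
    have := Real.pi_pos
    simp
    field_simp
  rw [hone, mul_one] at h3
  simp only [mul_one] at h3
  refine h3.trans ?_
  have h4 : (1 / (2 * π)) * (∫ φ in (0 : ℝ)..(2 * π),
      iteratedDeriv k (fun s => ev p (pt s φ)) ψ ^ 2) = Nk k p ψ := rfl
  rw [h4]
  have h5 := Nk_pt' ht hp k hk hψ
  have h6 : √(8 * ((t : ℝ) + 1)) * √(en p) * (√(lam t)) ^ (k - 1) =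
      √(8 * ((t : ℝ) + 1) * (lam t) ^ (k - 1) * en p) := by
    have h7 : (√(8 * ((t : ℝ) + 1)) * √(en p) * (√(lam t)) ^ (k - 1)) ^ 2 =
        8 * ((t : ℝ) + 1) * (lam t) ^ (k - 1) * en p := by
      rw [mul_pow, mul_pow, Real.sq_sqrt (by positivity), Real.sq_sqrt h0, ← pow_mul,
        mul_comm (k - 1) 2, pow_mul, Real.sq_sqrt (lam_nonneg t)]
      ring
    rw [← h7, Real.sqrt_sq (by positivity)]
  rw [h6]
  exact Real.sqrt_le_sqrt h5

end Pool.Agent.Helper83.SD
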