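import Pool.Agent.Helper83.SD.Gam

/-!
Project SD, module PoleA: pole error, quadratic case (see the guide for the full proof).

Write `B(1+w) = Σ b_n w^n`, `|b_n| ≤ M Psc t T n`.  By `pole_series`
`|PoleF L B| ≤ M Σ_n G n Psc_n / L^n`, `G n = n! |gam n|`, and `Psc_n / L^n ≤ Pp t n` which depends
on `t` and `n` only; `Pp t n → Phc n 1.205^n` as `t → ∞` and the terms are dominated by a summable
sequence, so the sum tends to `Σ G n Phc n 1.205^n`, which is `< 0.025`.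
-/

set_option autoImplicit false

open MeasureTheory Real Filter Topology

namespace Pool.Agent.Helper83.SD

namespace PoleA

noncomputable def G (n : ℕ) : ℝ := (n.factorial : ℝ) * |gam n|

noncomputable def q (n : ℕ) : ℝ := (n.factorial : ℝ) * cc n

noncomputable def Pp (t n : ℕ) : ℝ :=
  ∑ k ∈ Finset.range (n + 1), ((t.choose k : ℝ) / (0.832 * (t : ℝ) ^ 2) ^ k) *
    (Phc (n - k) * 1.205 ^ (n - k))

lemma Phc_nonneg (n : ℕ) : 0 ≤ Phc n := by unfold Phc; positivity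

lemma Psc_nonneg (t : ℕ) {T : ℝ} (hT : 0 ≤ T) (n : ℕ) : 0 ≤ Psc t T n := by
  unfold Psc
  refine Finset.sum_nonneg fun k _ => ?_
  have := Phc_nonneg (n - k)
  positivity

lemma G_nonneg (n : ℕ) : 0 ≤ G n := by unfold G; positivity

lemma Pp_nonneg (t n : ℕ) : 0 ≤ Pp t n := by
  unfold Pp
  refine Finset.sum_nonneg fun k _ => ?_
  have := Phc_nonneg (n - k)
  positivity

lemma Psc_le {t : ℕ} {L T : ℝ} (ht : 1 ≤ t) (hL : 0.416 * (t : ℝ) ^ 2 ≤ L) (hT : 0 ≤ T)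
    (hTL : T ≤ 2.41 * L) (n : ℕ) : Psc t T n / L ^ n ≤ Pp t n := by
  have ht' : (1 : ℝ) ≤ t := by exact_mod_cast ht
  have hL0 : 0 < L := lt_of_lt_of_le (by positivity) hL
  unfold Psc Pp
  rw [Finset.sum_div]
  refine Finset.sum_le_sum fun k hk => ?_
  have hk' : k ≤ n := by simpa [Nat.lt_succ_iff] using hk
  have e : (t.choose k : ℝ) / 2 ^ k * (Phc (n - k) * (T / 2) ^ (n - k)) / L ^ n =
      (t.choose k : ℝ) / (2 * L) ^ k * (Phc (n - k) * (T / 2 / L) ^ (n - k)) := by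
    have : L ^ n = L ^ k * L ^ (n - k) := by rw [← pow_add, Nat.add_sub_cancel' hk']
    rw [this, mul_pow, div_pow (T / 2) L]
    field_simp
  rw [e]
  have h1 := Phc_nonneg (n - k)
  have h2 : T / 2 / L ≤ 1.205 := by
    rw [div_le_iff₀ hL0]; linarith
  have h3 : (0.832 * (t : ℝ) ^ 2) ^ k ≤ (2 * L) ^ k :=
    pow_le_pow_left₀ (by positivity) (by linarith) k
  have h4 : (T / 2 / L) ^ (n - k) ≤ 1.205 ^ (n - k) := pow_le_pow_left₀ (by positivity) h2 _
  have h5 : (t.choose k : ℝ) / (2 * L) ^ k ≤ (t.choose k : ℝ) / (0.832 * (t : ℝ) ^ 2) ^ k :=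
    div_le_div_of_nonneg_left (by positivity) (by positivity) h3
  refine mul_le_mul h5 (mul_le_mul_of_nonneg_left h4 h1) (by positivity) (by positivity)

lemma der_eq (B : Polynomial ℝ) (n : ℕ) :
    (Polynomial.derivative^[n] B).eval 1 =
      (n.factorial : ℝ) * (Polynomial.taylor 1 B).coeff n := by
  rw [Polynomial.taylor_coeff, ← Polynomial.factorial_smul_hasseDeriv]
  simp [Polynomial.eval_smul]

lemma pole_abs {t : ℕ} {L T M : ℝ} {B : Polynomial ℝ} (ht : 1 ≤ t)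
    (hL : 0.416 * (t : ℝ) ^ 2 ≤ L) (hT : 0 ≤ T) (hTL : T ≤ 2.41 * L) (hM : 0 ≤ M)
    (h : ∀ n : ℕ, |(Polynomial.taylor 1 B).coeff n| ≤ M * Psc t T n) :
    |PoleF L B| ≤ M * ∑ n ∈ Finset.range (B.natDegree + 1), G n * Pp t n := by
  have ht' : (1 : ℝ) ≤ t := by exact_mod_cast ht
  have hL0 : 0 < L := lt_of_lt_of_le (by positivity) hL
  rw [pole_series hL0.ne', Finset.mul_sum]
  refine (Finset.abs_sum_le_sum_abs _ _).trans (Finset.sum_le_sum fun n _ => ?_)
  rw [der_eq, abs_div, abs_mul, abs_mul, abs_of_nonneg (by positivity : (0 : ℝ) ≤ L ^ n),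
    Nat.abs_cast]
  have h1 := h n
  have h2 := Psc_le ht hL hT hTL n
  calc |gam n| * ((n.factorial : ℝ) * |(Polynomial.taylor 1 B).coeff n|) / L ^ n
      ≤ |gam n| * ((n.factorial : ℝ) * (M * Psc t T n)) / L ^ n := by gcongr
    _ = M * (G n * (Psc t T n / L ^ n)) := by unfold G; ring
    _ ≤ M * (G n * Pp t n) :=
        mul_le_mul_of_nonneg_left (mul_le_mul_of_nonneg_left h2 (G_nonneg n)) hM

/-! ### domination -/

lemma Phc_le (m : ℕ) : Phc m ≤ 16 ^ m / ((2 * m).factorial : ℝ) := by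
  unfold Phc
  have h1 : (((2 * m).choose m : ℕ) : ℝ) * (m.factorial : ℝ) ^ 2 = ((2 * m).factorial : ℝ) := by
    have := Nat.choose_mul_factorial_mul_factorial (show m ≤ 2 * m by omega)
    rw [show 2 * m - m = m by omega] at this
    rw [← this]
    push_cast
    ring
  have h2 : (((2 * m).choose m : ℕ) : ℝ) ≤ 4 ^ m := by
    have : (2 * m).choose m ≤ 2 ^ (2 * m) := Nat.choose_le_two_pow _ _
    have h3 : ((2 * m).choose m : ℝ) ≤ ((2 ^ (2 * m) : ℕ) : ℝ) := by exact_mod_cast this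
    refine h3.trans (le_of_eq ?_)
    push_cast
    rw [pow_mul]
    norm_num
  have h3 : 1 ≤ √(2 * (m : ℝ) + 1) := by
    rw [Real.one_le_sqrt]
    have : (0 : ℝ) ≤ m := Nat.cast_nonneg m
    linarith
  have hf : (0 : ℝ) < m.factorial := by positivity
  have hf2 : (0 : ℝ) < (2 * m).factorial := by positivity
  rw [div_le_div_iff₀ (by positivity) hf2]
  have hc : (0 : ℝ) ≤ ((2 * m).choose m : ℝ) := by positivity
  have h4 : ((2 * m).choose m : ℝ) ^ 2 ≤ 16 ^ m := by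
    calc ((2 * m).choose m : ℝ) ^ 2 ≤ (4 ^ m) ^ 2 := by gcongr
      _ = 16 ^ m := by rw [← pow_mul, mul_comm, pow_mul]; norm_num
  calc ((2 * m).choose m : ℝ) * ((2 * m).factorial : ℝ)
      = ((2 * m).choose m : ℝ) ^ 2 * (m.factorial : ℝ) ^ 2 := by rw [← h1]; ring
    _ ≤ 16 ^ m * (m.factorial : ℝ) ^ 2 := by gcongr
    _ ≤ 16 ^ m * ((m.factorial : ℝ) ^ 2 * √(2 * (m : ℝ) + 1)) := by
        have : (m.factorial : ℝ) ^ 2 * 1 ≤ (m.factorial : ℝ) ^ 2 * √(2 * (m : ℝ) + 1) := by gcongr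
        rw [mul_one] at this
        gcongr

lemma choose_le {t : ℕ} (ht : 1 ≤ t) (k : ℕ) :
    (t.choose k : ℝ) / (0.832 * (t : ℝ) ^ 2) ^ k ≤ 2.404 ^ k / ((2 * k).factorial : ℝ) := by
  have ht' : (1 : ℝ) ≤ t := by exact_mod_cast ht
  rcases lt_or_ge t k with h | h
  · rw [Nat.choose_eq_zero_of_lt h]
    simp only [Nat.cast_zero, zero_div]
    positivity
  · have h1 : (t.choose k : ℝ) ≤ (t : ℝ) ^ k / (k.factorial : ℝ) := Nat.choose_le_pow_div k t
    have h2 : ((2 * k).factorial : ℝ) ≤ (2 * (k : ℝ)) ^ k * (k.factorial : ℝ) := by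
      exact_mod_cast Nat.factorial_two_mul_le k
    have hkt : (k : ℝ) ≤ t := by exact_mod_cast h
    have h3 : (2 * (k : ℝ)) ^ k ≤ (2 * (t : ℝ)) ^ k := by gcongr
    have hf : (0 : ℝ) < k.factorial := by positivity
    have hf2 : (0 : ℝ) < (2 * k).factorial := by positivity
    rw [div_le_div_iff₀ (by positivity) hf2]
    have h4 : (2 : ℝ) ^ k ≤ (2.404 * 0.832) ^ k := by
      apply pow_le_pow_left₀ <;> norm_num
    calc (t.choose k : ℝ) * ((2 * k).factorial : ℝ)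
        ≤ ((t : ℝ) ^ k / (k.factorial : ℝ)) * ((2 * (t : ℝ)) ^ k * (k.factorial : ℝ)) := by
          gcongr
          exact h2.trans (by gcongr)
      _ = 2 ^ k * ((t : ℝ) ^ 2) ^ k := by
          rw [mul_pow, ← pow_mul, two_mul k, pow_add]
          field_simp
      _ ≤ (2.404 * 0.832) ^ k * ((t : ℝ) ^ 2) ^ k := by gcongr
      _ = 2.404 ^ k * (0.832 * (t : ℝ) ^ 2) ^ k := by rw [mul_pow, mul_pow]; ring

lemma even_sum_le {a b : ℝ} (ha : 0 ≤ a) (hb : 0 ≤ b) (n : ℕ) :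
    ∑ k ∈ Finset.range (n + 1), ((2 * n).choose (2 * k) : ℝ) * (a ^ (2 * k) * b ^ (2 * (n - k))) ≤
      (a + b) ^ (2 * n) := by
  rw [add_pow]
  have h1 : ∑ k ∈ Finset.range (n + 1),
      ((2 * n).choose (2 * k) : ℝ) * (a ^ (2 * k) * b ^ (2 * (n - k))) =
      ∑ j ∈ (Finset.range (n + 1)).image (fun k => 2 * k),
        a ^ j * b ^ (2 * n - j) * ((2 * n).choose j : ℝ) := by
    rw [Finset.sum_image (by intro x _ y _ h; simpa using h)]
    refine Finset.sum_congr rfl fun k hk => ?_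
    rw [Nat.mul_sub]
    ring
  rw [h1]
  refine Finset.sum_le_sum_of_subset_of_nonneg ?_ fun j _ _ => by positivity
  intro j hj
  simp only [Finset.mem_image, Finset.mem_range] at hj ⊢
  obtain ⟨k, hk, rfl⟩ := hj
  omega

lemma Pp_le {t : ℕ} (ht : 1 ≤ t) (n : ℕ) :
    Pp t n ≤ 5.942 ^ (2 * n) / ((2 * n).factorial : ℝ) := by
  unfold Pp
  have hf : (0 : ℝ) < (2 * n).factorial := by positivity
  rw [le_div_iff₀ hf]
  refine le_trans ?_ ((even_sum_le (a := 1.551) (b := 4.391) (by norm_num) (by norm_num) n).trans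
    (le_of_eq (by norm_num)))
  rw [Finset.sum_mul]
  refine Finset.sum_le_sum fun k hk => ?_
  have hk' : k ≤ n := by simpa [Nat.lt_succ_iff] using hk
  have h1 := choose_le ht k
  have h2 := Phc_le (n - k)
  have h0 := Phc_nonneg (n - k)
  have h3 : Phc (n - k) * 1.205 ^ (n - k) ≤ 19.28 ^ (n - k) / ((2 * (n - k)).factorial : ℝ) := by
    calc Phc (n - k) * 1.205 ^ (n - k)
        ≤ 16 ^ (n - k) / ((2 * (n - k)).factorial : ℝ) * 1.205 ^ (n - k) := by gcongr
      _ = (16 * 1.205) ^ (n - k) / ((2 * (n - k)).factorial : ℝ) := by rw [mul_pow]; ring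
      _ = 19.28 ^ (n - k) / ((2 * (n - k)).factorial : ℝ) := by norm_num
  have h4 : (2.404 : ℝ) ^ k ≤ 1.551 ^ (2 * k) := by
    rw [pow_mul]; apply pow_le_pow_left₀ <;> norm_num
  have h5 : (19.28 : ℝ) ^ (n - k) ≤ 4.391 ^ (2 * (n - k)) := by
    rw [pow_mul]; apply pow_le_pow_left₀ <;> norm_num
  have h6 : ((2 * n).choose (2 * k) : ℝ) =
      ((2 * n).factorial : ℝ) / (((2 * k).factorial : ℝ) * ((2 * (n - k)).factorial : ℝ)) := by
    rw [Nat.cast_choose ℝ (show 2 * k ≤ 2 * n by omega), Nat.mul_sub]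
  rw [h6]
  calc (t.choose k : ℝ) / (0.832 * (t : ℝ) ^ 2) ^ k * (Phc (n - k) * 1.205 ^ (n - k)) *
        ((2 * n).factorial : ℝ)
      ≤ (1.551 ^ (2 * k) / ((2 * k).factorial : ℝ)) *
          (4.391 ^ (2 * (n - k)) / ((2 * (n - k)).factorial : ℝ)) * ((2 * n).factorial : ℝ) := by
        refine mul_le_mul_of_nonneg_right (mul_le_mul (h1.trans ?_) (h3.trans ?_) (by positivity)
          (by positivity)) hf.le
        · gcongr
        · gcongr
    _ = _ := by ring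

lemma q_eq (n : ℕ) : q n = (1 / 6) ^ (n + 1) / (2 * ((n : ℝ) + 1)) +
    2 * ((1 / 6) ^ n / 24 + 1.01 * ((2 * n + 1).factorial : ℝ) / (2 * π) ^ (2 * n + 2)) := by
  unfold q cc
  rw [Nat.factorial_succ]
  push_cast
  have hf : (n.factorial : ℝ) ≠ 0 := by positivity
  have h1 : (n : ℝ) + 1 ≠ 0 := by positivity
  field_simp

lemma q_nonneg (n : ℕ) : 0 ≤ q n := by rw [q_eq]; positivity

lemma q_le (n : ℕ) : q n ≤ 1 + 2.02 * ((2 * n + 1).factorial : ℝ) / (2 * π) ^ (2 * n + 2) := by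
  rw [q_eq]
  have h1 : ((1 : ℝ) / 6) ^ (n + 1) ≤ 1 := pow_le_one₀ (by norm_num) (by norm_num)
  have h2 : ((1 : ℝ) / 6) ^ n ≤ 1 := pow_le_one₀ (by norm_num) (by norm_num)
  have h0 : (0 : ℝ) ≤ n := Nat.cast_nonneg n
  have h3 : ((1 : ℝ) / 6) ^ (n + 1) / (2 * ((n : ℝ) + 1)) ≤ 1 / 2 := by
    rw [div_le_div_iff₀ (by positivity) (by norm_num)]
    nlinarith
  have h4 : 2 * (((1 : ℝ) / 6) ^ n / 24 + 1.01 * ((2 * n + 1).factorial : ℝ) /
      (2 * π) ^ (2 * n + 2)) = ((1 : ℝ) / 6) ^ n / 12 + 2.02 * ((2 * n + 1).factorial : ℝ) /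
      (2 * π) ^ (2 * n + 2) := by ring
  rw [h4]
  linarith

lemma G_le_q {n : ℕ} (hn : 3 ≤ n) : G n ≤ q n := by
  unfold G q
  have := gam_le n hn
  gcongr

noncomputable def bd (n : ℕ) : ℝ := 5.942 ^ (2 * n) / ((2 * n).factorial : ℝ)

lemma summable_q : Summable fun n => q n * bd n := by
  have h1 : Summable fun n : ℕ => (5.942 : ℝ) ^ (2 * n) / ((2 * n).factorial : ℝ) :=
    (Real.summable_pow_div_factorial 5.942).comp_injective
      (fun a b h => by simpa using h : Function.Injective fun n : ℕ => 2 * n)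
  have hr : ‖((5.942 / (2 * π)) ^ 2 : ℝ)‖ < 1 := by
    rw [Real.norm_of_nonneg (by positivity)]
    have hpi := Real.pi_gt_d6
    apply pow_lt_one₀ (by positivity) _ (by norm_num)
    rw [div_lt_one (by positivity)]
    linarith
  have h2 := summable_pow_mul_geometric_of_norm_lt_one 1 hr
  have h3 := summable_geometric_of_norm_lt_one hr
  have h4 : Summable fun n : ℕ => (5.942 : ℝ) ^ (2 * n) / ((2 * n).factorial : ℝ) +
      2.02 / (2 * π) ^ 2 * (2 * ((n : ℝ) ^ 1 * ((5.942 / (2 * π)) ^ 2) ^ n) +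
        ((5.942 / (2 * π)) ^ 2) ^ n) :=
    h1.add ((((h2.mul_left 2).add h3)).mul_left _)
  refine Summable.of_nonneg_of_le (fun n => ?_) (fun n => ?_) h4
  · have := q_nonneg n
    unfold bd
    positivity
  · have h5 := q_le n
    have hb : 0 ≤ bd n := by unfold bd; positivity
    refine (mul_le_mul_of_nonneg_right h5 hb).trans (le_of_eq ?_)
    unfold bd
    rw [Nat.factorial_succ (2 * n)]
    push_cast
    have hf : ((2 * n).factorial : ℝ) ≠ 0 := by positivity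
    have hp : (2 * π) ≠ 0 := by positivity
    rw [← pow_mul, div_pow, pow_add (2 * π) (2 * n) 2, add_mul, one_mul, pow_one]
    congr 1
    field_simp

lemma summable_G : Summable fun n => G n * bd n := by
  rw [← summable_nat_add_iff 3]
  refine Summable.of_nonneg_of_le (fun n => ?_) (fun n => ?_)
    ((summable_nat_add_iff (f := fun n => q n * bd n) 3).2 summable_q)
  · have := G_nonneg (n + 3)
    unfold bd
    positivity
  · have hb : 0 ≤ bd (n + 3) := by unfold bd; positivity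
    exact mul_le_mul_of_nonneg_right (G_le_q (by omega)) hb

/-! ### the limit -/

lemma Pp_tendsto (n : ℕ) : Tendsto (fun t : ℕ => Pp t n) atTop (𝓝 (Phc n * 1.205 ^ n)) := by
  have h : ∀ k ∈ Finset.range (n + 1), Tendsto (fun t : ℕ =>
      ((t.choose k : ℝ) / (0.832 * (t : ℝ) ^ 2) ^ k) * (Phc (n - k) * 1.205 ^ (n - k))) atTop
      (𝓝 (if k = 0 then Phc n * 1.205 ^ n else 0)) := by
    intro k _
    rcases Nat.eq_zero_or_pos k with rfl | hk
    · simp
    · rw [if_neg hk.ne']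
      have h1 : Tendsto (fun t : ℕ => (t.choose k : ℝ) / (0.832 * (t : ℝ) ^ 2) ^ k) atTop
          (𝓝 0) := by
        have h2 : Tendsto (fun t : ℕ => (1 / 0.832 ^ k : ℝ) * (1 / (t : ℝ))) atTop (𝓝 0) := by
          have := (tendsto_one_div_atTop_nhds_zero_nat (𝕜 := ℝ)).const_mul (1 / 0.832 ^ k : ℝ)
          simpa using this
        refine squeeze_zero' (Eventually.of_forall fun t => by positivity) ?_ h2
        filter_upwards [eventually_ge_atTop 1] with t ht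
        have ht' : (1 : ℝ) ≤ t := by exact_mod_cast ht
        have h3 : (t.choose k : ℝ) ≤ (t : ℝ) ^ k := by
          exact_mod_cast Nat.choose_le_pow t k
        rw [div_mul_div_comm, one_mul, div_le_div_iff₀ (by positivity) (by positivity), mul_pow]
        have h4 : (t : ℝ) ^ k * t ≤ ((t : ℝ) ^ 2) ^ k := by
          rw [← pow_succ, ← pow_mul]
          exact pow_le_pow_right₀ ht' (by omega)
        have h5 : (0 : ℝ) < 0.832 ^ k := by positivity
        calc (t.choose k : ℝ) * (0.832 ^ k * (t : ℝ)) ≤ (t : ℝ) ^ k * (0.832 ^ k * (t : ℝ)) := by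
              gcongr
          _ = 0.832 ^ k * ((t : ℝ) ^ k * t) := by ring
          _ ≤ 0.832 ^ k * ((t : ℝ) ^ 2) ^ k := by gcongr
          _ = 1 * (0.832 ^ k * ((t : ℝ) ^ 2) ^ k) := by ring
      simpa using h1.mul_const (Phc (n - k) * 1.205 ^ (n - k))
  have h2 := tendsto_finsetSum _ h
  have h3 : ∑ k ∈ Finset.range (n + 1), (if k = 0 then Phc n * 1.205 ^ n else 0) =
      Phc n * 1.205 ^ n := by
    simp
  rw [h3] at h2
  exact h2

lemma tendsto_tsum' : Tendsto (fun t : ℕ => ∑' n, G n * Pp t n) atTop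
    (𝓝 (∑' n, G n * (Phc n * 1.205 ^ n))) := by
  refine tendsto_tsum_of_dominated_convergence summable_G
    (fun n => (Pp_tendsto n).const_mul (G n)) ?_
  filter_upwards [eventually_ge_atTop 1] with t ht n
  rw [Real.norm_of_nonneg (mul_nonneg (G_nonneg n) (Pp_nonneg t n))]
  exact mul_le_mul_of_nonneg_left (Pp_le ht n) (G_nonneg n)

lemma summable_GPp {t : ℕ} (ht : 1 ≤ t) : Summable fun n => G n * Pp t n :=
  Summable.of_nonneg_of_le (fun n => mul_nonneg (G_nonneg n) (Pp_nonneg t n))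
    (fun n => mul_le_mul_of_nonneg_left (Pp_le ht n) (G_nonneg n)) summable_G

/-! ### numerics -/

noncomputable def e (n : ℕ) : ℝ := q n * (Phc n * 1.205 ^ n)

lemma Phc_succ (n : ℕ) : Phc (n + 1) * (((n : ℝ) + 1) ^ 3 * √(2 * n + 3)) =
    Phc n * (2 * (2 * n + 1) * √(2 * n + 1)) := by
  unfold Phc
  have h1 : ((n : ℝ) + 1) * ((2 * (n + 1)).choose (n + 1) : ℝ) =
      2 * (2 * n + 1) * ((2 * n).choose n : ℝ) := by
    have := Nat.succ_mul_centralBinom_succ n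
    rw [Nat.centralBinom_eq_two_mul_choose, Nat.centralBinom_eq_two_mul_choose] at this
    exact_mod_cast this
  rw [Nat.factorial_succ]
  push_cast
  have e3 : (2 : ℝ) * ((n : ℝ) + 1) + 1 = 2 * n + 3 := by ring
  rw [e3]
  have hf : (n.factorial : ℝ) ≠ 0 := by positivity
  have hs : √(2 * (n : ℝ) + 3) ≠ 0 := (Real.sqrt_pos.2 (by positivity)).ne'
  have hs' : √(2 * (n : ℝ) + 1) ≠ 0 := (Real.sqrt_pos.2 (by positivity)).ne'
  have hn : (n : ℝ) + 1 ≠ 0 := by positivity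
  have e1 : ((2 * (n + 1)).choose (n + 1) : ℝ) / ((((n : ℝ) + 1) * (n.factorial : ℝ)) ^ 2 *
      √(2 * n + 3)) * (((n : ℝ) + 1) ^ 3 * √(2 * n + 3)) =
      (((n : ℝ) + 1) * ((2 * (n + 1)).choose (n + 1) : ℝ)) / (n.factorial : ℝ) ^ 2 := by
    field_simp
  rw [e1, h1]
  field_simp

lemma Phc_succ_le (n : ℕ) : Phc (n + 1) * ((n : ℝ) + 1) ^ 3 ≤ Phc n * (2 * (2 * n + 1)) := by
  have h := Phc_succ n
  have hs : 0 < √(2 * (n : ℝ) + 3) := Real.sqrt_pos.2 (by positivity)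
  have hs' : √(2 * (n : ℝ) + 1) ≤ √(2 * (n : ℝ) + 3) := Real.sqrt_le_sqrt (by linarith)
  have h0 := Phc_nonneg n
  refine le_of_mul_le_mul_right ?_ hs
  calc Phc (n + 1) * ((n : ℝ) + 1) ^ 3 * √(2 * n + 3)
      = Phc n * (2 * (2 * n + 1) * √(2 * n + 1)) := by rw [← h]; ring
    _ ≤ Phc n * (2 * (2 * n + 1) * √(2 * n + 3)) := by gcongr
    _ = _ := by ring

lemma q_succ_le {n : ℕ} (hn : 3 ≤ n) :
    q (n + 1) * (4 * π ^ 2) ≤ (2 * n + 2) * (2 * n + 3) * q n := by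
  have hn' : (3 : ℝ) ≤ n := by exact_mod_cast hn
  have hpi : π ^ 2 ≤ 10 := by
    have h1 := Real.pi_lt_d6
    have h2 := Real.pi_pos
    nlinarith
  have hk : (4 * π ^ 2) * (1 / 6) ≤ (2 * (n : ℝ) + 2) * (2 * n + 3) := by nlinarith
  set a : ℝ := (1 / 6) ^ (n + 1) / (2 * ((n : ℝ) + 1)) with ha
  set b : ℝ := (1 / 6) ^ n / 12 with hb
  set c : ℝ := 2.02 * ((2 * n + 1).factorial : ℝ) / (2 * π) ^ (2 * n + 2) with hc
  have ha0 : 0 ≤ a := by positivity
  have hb0 : 0 ≤ b := by positivity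
  have hq : q n = a + b + c := by rw [q_eq, ha, hb, hc]; ring
  have hq1 : q (n + 1) = (1 / 6) ^ (n + 2) / (2 * ((n : ℝ) + 2)) + (1 / 6) * b +
      2.02 * ((2 * n + 3).factorial : ℝ) / (2 * π) ^ (2 * n + 4) := by
    rw [q_eq, hb]
    push_cast
    rw [show 2 * (n + 1) + 1 = 2 * n + 3 by ring, show 2 * (n + 1) + 2 = 2 * n + 4 by ring]
    ring
  have h1 : (1 / 6 : ℝ) ^ (n + 2) / (2 * ((n : ℝ) + 2)) ≤ (1 / 6) * a := by
    rw [ha, pow_succ (1 / 6 : ℝ) (n + 1), mul_comm ((1 / 6 : ℝ) ^ (n + 1)) (1 / 6), mul_div_assoc]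
    refine mul_le_mul_of_nonneg_left ?_ (by norm_num)
    refine div_le_div_of_nonneg_left (by positivity) (by positivity) (by linarith)
  have h2 : 2.02 * ((2 * n + 3).factorial : ℝ) / (2 * π) ^ (2 * n + 4) * (4 * π ^ 2) =
      (2 * n + 2) * (2 * n + 3) * c := by
    rw [hc, show 2 * n + 3 = (2 * n + 2) + 1 by ring, Nat.factorial_succ,
      show 2 * n + 2 = (2 * n + 1) + 1 by ring, Nat.factorial_succ,
      show 2 * n + 4 = (2 * n + 1 + 1) + 2 by ring, pow_add (2 * π) (2 * n + 1 + 1) 2]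
    have hp : π ≠ 0 := Real.pi_ne_zero
    push_cast
    field_simp
    ring
  rw [hq, hq1, add_mul, h2]
  nlinarith

lemma e_succ_le {n : ℕ} (hn : 3 ≤ n) : e (n + 1) ≤ 0.4884 * e n := by
  have h1 := q_succ_le hn
  have h2 := Phc_succ_le n
  have hq := q_nonneg n
  have hq1 := q_nonneg (n + 1)
  have hp := Phc_nonneg n
  have hp1 := Phc_nonneg (n + 1)
  have hpi := Real.pi_gt_d6
  have hpi2 : 9.8695 ≤ π ^ 2 := by nlinarith
  have hn1 : (0 : ℝ) < (n : ℝ) + 1 := by positivity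
  have h3 : q (n + 1) * Phc (n + 1) * (4 * π ^ 2) ≤ 16 * (q n * Phc n) := by
    have h4 : (q (n + 1) * (4 * π ^ 2)) * (Phc (n + 1) * ((n : ℝ) + 1) ^ 3) ≤
        ((2 * n + 2) * (2 * n + 3) * q n) * (Phc n * (2 * (2 * n + 1))) :=
      mul_le_mul h1 h2 (by positivity) (by positivity)
    have h5 : (2 * (n : ℝ) + 2) * (2 * n + 3) * (2 * (2 * n + 1)) ≤ 16 * ((n : ℝ) + 1) ^ 3 := by
      nlinarith
    have h6 : (q (n + 1) * Phc (n + 1) * (4 * π ^ 2)) * ((n : ℝ) + 1) ^ 3 ≤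
        (16 * (q n * Phc n)) * ((n : ℝ) + 1) ^ 3 := by
      calc (q (n + 1) * Phc (n + 1) * (4 * π ^ 2)) * ((n : ℝ) + 1) ^ 3
          = (q (n + 1) * (4 * π ^ 2)) * (Phc (n + 1) * ((n : ℝ) + 1) ^ 3) := by ring
        _ ≤ ((2 * n + 2) * (2 * n + 3) * q n) * (Phc n * (2 * (2 * n + 1))) := h4
        _ = (q n * Phc n) * ((2 * (n : ℝ) + 2) * (2 * n + 3) * (2 * (2 * n + 1))) := by ring
        _ ≤ (q n * Phc n) * (16 * ((n : ℝ) + 1) ^ 3) := by gcongr
        _ = _ := by ring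
    exact le_of_mul_le_mul_right h6 (by positivity)
  have h7 : q (n + 1) * Phc (n + 1) * 9.8695 ≤ 4 * (q n * Phc n) := by
    have : q (n + 1) * Phc (n + 1) * 9.8695 ≤ q (n + 1) * Phc (n + 1) * π ^ 2 := by gcongr
    nlinarith
  have h8 : q (n + 1) * Phc (n + 1) * 1.205 ≤ 0.4884 * (q n * Phc n) := by
    have : 0 ≤ q n * Phc n := by positivity
    nlinarith
  unfold e
  calc q (n + 1) * (Phc (n + 1) * 1.205 ^ (n + 1))
      = (q (n + 1) * Phc (n + 1) * 1.205) * 1.205 ^ n := by ring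
    _ ≤ (0.4884 * (q n * Phc n)) * 1.205 ^ n := by gcongr
    _ = _ := by ring

lemma e_le (n : ℕ) : e (n + 3) ≤ e 3 * 0.4884 ^ n := by
  induction n with
  | zero => simp
  | succ n ih =>
    have h := e_succ_le (n := n + 3) (by omega)
    rw [show n + 1 + 3 = n + 3 + 1 by ring]
    calc e (n + 3 + 1) ≤ 0.4884 * e (n + 3) := h
      _ ≤ 0.4884 * (e 3 * 0.4884 ^ n) := by gcongr
      _ = _ := by ring

lemma e_nonneg (n : ℕ) : 0 ≤ e n := by
  unfold e
  have := q_nonneg n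
  have := Phc_nonneg n
  positivity

lemma Phc_one : Phc 1 ≤ 1.15471 := by
  unfold Phc
  have h : (1.73205 : ℝ) ≤ √3 := Real.le_sqrt_of_sq_le (by norm_num)
  norm_num [Nat.choose, Nat.factorial]
  rw [div_le_iff₀ (by positivity)]
  linarith

lemma Phc_two : Phc 2 ≤ 0.67083 := by
  unfold Phc
  have h : (2.23606 : ℝ) ≤ √5 := Real.le_sqrt_of_sq_le (by norm_num)
  norm_num [Nat.choose, Nat.factorial]
  rw [div_le_iff₀ (by positivity)]
  linarith

lemma Phc_three : Phc 3 ≤ 0.20999 := by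
  unfold Phc
  have h : (2.64575 : ℝ) ≤ √7 := Real.le_sqrt_of_sq_le (by norm_num)
  norm_num [Nat.choose, Nat.factorial]
  rw [div_le_iff₀ (by positivity)]
  linarith

lemma q_three : q 3 ≤ 0.0046736 := by
  rw [q_eq]
  have hpi := Real.pi_gt_d6
  have h1 : (2429050 : ℝ) ≤ (2 * π) ^ (2 * 3 + 2) := by
    have : (6.283184 : ℝ) ^ (2 * 3 + 2) ≤ (2 * π) ^ (2 * 3 + 2) := by
      apply pow_le_pow_left₀ (by norm_num); linarith
    refine le_trans ?_ this
    norm_num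
  have h2 : 1.01 * ((2 * 3 + 1).factorial : ℝ) / (2 * π) ^ (2 * 3 + 2) ≤ 5090.4 / 2429050 := by
    refine div_le_div₀ (by norm_num) ?_ (by norm_num) h1
    norm_num [Nat.factorial]
  have h3 : (1 / 6 : ℝ) ^ (3 + 1) / (2 * (((3 : ℕ) : ℝ) + 1)) +
      2 * ((1 / 6 : ℝ) ^ 3 / 24 + 5090.4 / 2429050) ≤ 0.0046736 := by norm_num
  linarith

lemma e_three : e 3 ≤ 0.0017172 := by
  unfold e
  have h1 := q_three
  have h2 := Phc_three
  have h3 := Phc_nonneg 3
  calc q 3 * (Phc 3 * 1.205 ^ 3) ≤ 0.0046736 * (0.20999 * 1.205 ^ 3) := by gcongr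
    _ ≤ 0.0017172 := by norm_num

lemma G_zero : G 0 = 0 := by unfold G; rw [gam_zero]; simp

lemma G_one : G 1 = 1 / 80 := by
  unfold G
  rw [gam_one, abs_of_nonneg (by norm_num)]
  norm_num

lemma G_two : G 2 = 97 / 22680 := by
  unfold G
  rw [gam_two, abs_neg, abs_of_nonneg (by norm_num)]
  norm_num [Nat.factorial]

lemma summable_lim : Summable fun n => G n * (Phc n * 1.205 ^ n) := by
  rw [← summable_nat_add_iff 3]
  refine Summable.of_nonneg_of_le (fun n => ?_) (fun n => ?_)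
    ((summable_geometric_of_lt_one (r := 0.4884) (by norm_num) (by norm_num)).mul_left (e 3))
  · have := G_nonneg (n + 3)
    have := Phc_nonneg (n + 3)
    positivity
  · refine le_trans ?_ (e_le n)
    unfold e
    have := Phc_nonneg (n + 3)
    exact mul_le_mul_of_nonneg_right (G_le_q (by omega)) (by positivity)

lemma lim_lt : ∑' n, G n * (Phc n * 1.205 ^ n) < 0.025 := by
  have hg : Summable fun n : ℕ => e 3 * (0.4884 : ℝ) ^ n :=
    (summable_geometric_of_lt_one (r := 0.4884) (by norm_num) (by norm_num)).mul_left (e 3)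
  rw [← summable_lim.sum_add_tsum_nat_add 3]
  have h1 : ∑' n, G (n + 3) * (Phc (n + 3) * 1.205 ^ (n + 3)) ≤ ∑' n : ℕ, e 3 * 0.4884 ^ n := by
    refine Summable.tsum_le_tsum (fun n => ?_) ((summable_nat_add_iff 3).2 summable_lim) hg
    refine le_trans ?_ (e_le n)
    unfold e
    have := Phc_nonneg (n + 3)
    exact mul_le_mul_of_nonneg_right (G_le_q (by omega)) (by positivity)
  rw [tsum_mul_left, tsum_geometric_of_lt_one (by norm_num) (by norm_num)] at h1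
  have h2 : e 3 * (1 - 0.4884 : ℝ)⁻¹ ≤ 0.0017172 * (1 - 0.4884 : ℝ)⁻¹ := by
    have := e_three
    gcongr
  have h3 : (0.0017172 : ℝ) * (1 - 0.4884 : ℝ)⁻¹ ≤ 0.003357 := by norm_num
  have h4 : ∑ n ∈ Finset.range 3, G n * (Phc n * 1.205 ^ n) ≤ 0.02156 := by
    rw [Finset.sum_range_succ, Finset.sum_range_succ, Finset.sum_range_succ,
      Finset.sum_range_zero, G_zero, G_one, G_two]
    have := Phc_one
    have := Phc_two
    norm_num
    linarith
  have h5 : (0.02156 : ℝ) + 0.003357 < 0.025 := by norm_num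
  linarith

end PoleA

theorem poleA : ∃ T0 : ℝ, ∀ (t : ℕ) (L T M : ℝ) (B : Polynomial ℝ), T0 ≤ (t : ℝ) →
    0.416 * (t : ℝ) ^ 2 ≤ L → 0 ≤ T → T ≤ 2.41 * L → 0 ≤ M →
    (∀ n : ℕ, |(Polynomial.taylor 1 B).coeff n| ≤ M * Psc t T n) →
    |PoleF L B| ≤ 0.025 * M := by
  obtain ⟨t0, ht0⟩ := eventually_atTop.1
    (PoleA.tendsto_tsum'.eventually (gt_mem_nhds PoleA.lim_lt))
  refine ⟨max t0 1, fun t L T M B ht hL hT hTL hM h => ?_⟩
  have h1 : t0 ≤ t := by
    have := (le_max_left (t0 : ℝ) 1).trans ht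
    exact_mod_cast this
  have h2 : 1 ≤ t := by
    have := (le_max_right (t0 : ℝ) 1).trans ht
    exact_mod_cast this
  have h3 := PoleA.pole_abs h2 hL hT hTL hM h
  have h4 : ∑ n ∈ Finset.range (B.natDegree + 1), PoleA.G n * PoleA.Pp t n ≤
      ∑' n, PoleA.G n * PoleA.Pp t n :=
    (PoleA.summable_GPp h2).sum_le_tsum _
      fun n _ => mul_nonneg (PoleA.G_nonneg n) (PoleA.Pp_nonneg t n)
  have h5 := ht0 t h1
  calc |PoleF L B| ≤ M * ∑ n ∈ Finset.range (B.natDegree + 1), PoleA.G n * PoleA.Pp t n := h3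
    _ ≤ M * 0.025 := mul_le_mul_of_nonneg_left (h4.trans h5.le) hM
    _ = 0.025 * M := mul_comm _ _

end Pool.Agent.Helper83.SD
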