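import Pool.Agent.Helper83.SD.Basic

/-!
Project SD, module Fourier: every polynomial has a mode decomposition.

By linearity treat a monomial `x^a y^b z^c`, `a+b+c ≤ t`:
`(√(1-z^2))^(a+b) cos^a φ sin^b φ z^c`, and `cos^a φ sin^b φ = Σ_k c_k e^{ikφ}` over `|k| ≤ a+b`,
`k ≡ a+b mod 2`; so `u_k + i v_k = c_k z^c (1-z^2)^((a+b-|k|)/2)`.
`v 0 = 0`: the circle average of a real function is real.
-/

set_option autoImplicit false

open MeasureTheory Real

namespace Pool.Agent.Helper83.SD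

namespace FourierAux

/-- pairs (height, longitude) -/
abbrev Dom := {z : ℝ // z ^ 2 ≤ 1} × ℝ

/-- `√(1-z^2)` -/
noncomputable def rt (x : Dom) : ℝ := √(1 - (x.1 : ℝ) ^ 2)

/-- the character `e^{ikφ}` -/
noncomputable def chi (k : ℤ) (x : Dom) : ℂ := Complex.exp (Complex.I * (k : ℂ) * (x.2 : ℂ))

/-- basic functions -/
noncomputable def bas (k : ℤ) (q : Polynomial ℝ) : Dom → ℂ := fun x =>
  ((rt x ^ k.natAbs : ℝ) : ℂ) * ((q.eval (x.1 : ℝ) : ℝ) : ℂ) * chi k x

/-- the span of the basic functions of degree at most `t` -/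
noncomputable def Sp (t : ℕ) : Submodule ℂ (Dom → ℂ) :=
  Submodule.span ℂ {f | ∃ (k : ℤ) (q : Polynomial ℝ), q.natDegree + k.natAbs ≤ t ∧ f = bas k q}

lemma bas_mem {t : ℕ} {k : ℤ} {q : Polynomial ℝ} (h : q.natDegree + k.natAbs ≤ t) :
    bas k q ∈ Sp t := Submodule.subset_span ⟨k, q, h, rfl⟩

lemma Sp_mono {s t : ℕ} (h : s ≤ t) : Sp s ≤ Sp t := by
  refine Submodule.span_mono ?_
  rintro f ⟨k, q, hkq, rfl⟩
  exact ⟨k, q, hkq.trans h, rfl⟩

lemma rt_sq (x : Dom) : rt x ^ 2 = 1 - (x.1 : ℝ) ^ 2 := by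
  unfold rt
  exact Real.sq_sqrt (by have := x.1.2; linarith)

lemma chi_add (k l : ℤ) (x : Dom) : chi (k + l) x = chi k x * chi l x := by
  unfold chi
  rw [← Complex.exp_add]
  congr 1
  push_cast
  ring

/-- multiplication by a function maps `Sp t` to `Sp (t+1)` as soon as this is true for the
generators -/
lemma mul_mem_of {g : Dom → ℂ} {t : ℕ}
    (h : ∀ (k : ℤ) (q : Polynomial ℝ), q.natDegree + k.natAbs ≤ t → g * bas k q ∈ Sp (t + 1))
    {f : Dom → ℂ} (hf : f ∈ Sp t) : g * f ∈ Sp (t + 1) := by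
  refine Submodule.span_induction (p := fun f _ => g * f ∈ Sp (t + 1)) ?_ ?_ ?_ ?_ hf
  · rintro _ ⟨k, q, hkq, rfl⟩
    exact h k q hkq
  · rw [mul_zero]; exact zero_mem _
  · intro a b _ _ ha hb
    rw [mul_add]; exact add_mem ha hb
  · intro c a _ ha
    rw [mul_smul_comm]; exact Submodule.smul_mem _ _ ha

lemma mul_z {t : ℕ} {f : Dom → ℂ} (hf : f ∈ Sp t) :
    (fun x : Dom => ((x.1 : ℝ) : ℂ)) * f ∈ Sp (t + 1) := by
  refine mul_mem_of (fun k q h => ?_) hf
  have h1 : (fun x : Dom => ((x.1 : ℝ) : ℂ)) * bas k q = bas k (Polynomial.X * q) := by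
    funext x
    simp only [bas, Pi.mul_apply, Polynomial.eval_mul, Polynomial.eval_X]
    push_cast
    ring
  rw [h1]
  refine bas_mem ?_
  have h2 : (Polynomial.X * q).natDegree ≤ 1 + q.natDegree :=
    Polynomial.natDegree_mul_le.trans (by simp)
  omega

lemma natDegree_one_sub_mul (q : Polynomial ℝ) :
    ((1 - Polynomial.X ^ 2) * q).natDegree ≤ 2 + q.natDegree := by
  refine Polynomial.natDegree_mul_le.trans ?_
  have : (1 - Polynomial.X ^ 2 : Polynomial ℝ).natDegree ≤ 2 := by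
    refine (Polynomial.natDegree_sub_le _ _).trans ?_
    simp
  omega

lemma mul_e {t : ℕ} {f : Dom → ℂ} (hf : f ∈ Sp t) :
    (fun x : Dom => ((rt x : ℝ) : ℂ) * chi 1 x) * f ∈ Sp (t + 1) := by
  refine mul_mem_of (fun k q h => ?_) hf
  rcases le_or_gt 0 k with hk | hk
  · have h1 : (fun x : Dom => ((rt x : ℝ) : ℂ) * chi 1 x) * bas k q = bas (k + 1) q := by
      funext x
      have h3 : (k + 1).natAbs = k.natAbs + 1 := by omega
      simp only [bas, Pi.mul_apply, chi_add, h3, pow_succ]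
      push_cast
      ring
    rw [h1]
    refine bas_mem ?_
    omega
  · have h1 : (fun x : Dom => ((rt x : ℝ) : ℂ) * chi 1 x) * bas k q =
        bas (k + 1) ((1 - Polynomial.X ^ 2) * q) := by
      funext x
      have h3 : k.natAbs = (k + 1).natAbs + 1 := by omega
      have h4 : (((rt x : ℝ) : ℂ)) ^ 2 = 1 - ((x.1 : ℝ) : ℂ) ^ 2 := by
        have := rt_sq x
        exact_mod_cast this
      simp only [bas, Pi.mul_apply, chi_add, h3, pow_succ, Polynomial.eval_mul,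
        Polynomial.eval_sub, Polynomial.eval_one, Polynomial.eval_X, Polynomial.eval_pow]
      push_cast
      linear_combination ((rt x : ℝ) : ℂ) ^ (k + 1).natAbs * ((q.eval (x.1 : ℝ) : ℝ) : ℂ) *
        (chi k x * chi 1 x) * h4
    rw [h1]
    refine bas_mem ?_
    have := natDegree_one_sub_mul q
    omega

lemma mul_e' {t : ℕ} {f : Dom → ℂ} (hf : f ∈ Sp t) :
    (fun x : Dom => ((rt x : ℝ) : ℂ) * chi (-1) x) * f ∈ Sp (t + 1) := by
  refine mul_mem_of (fun k q h => ?_) hf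
  rcases le_or_gt k 0 with hk | hk
  · have h1 : (fun x : Dom => ((rt x : ℝ) : ℂ) * chi (-1) x) * bas k q = bas (k + -1) q := by
      funext x
      have h3 : (k + -1).natAbs = k.natAbs + 1 := by omega
      simp only [bas, Pi.mul_apply, chi_add, h3, pow_succ]
      push_cast
      ring
    rw [h1]
    refine bas_mem ?_
    omega
  · have h1 : (fun x : Dom => ((rt x : ℝ) : ℂ) * chi (-1) x) * bas k q =
        bas (k + -1) ((1 - Polynomial.X ^ 2) * q) := by
      funext x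
      have h3 : k.natAbs = (k + -1).natAbs + 1 := by omega
      have h4 : (((rt x : ℝ) : ℂ)) ^ 2 = 1 - ((x.1 : ℝ) : ℂ) ^ 2 := by
        have := rt_sq x
        exact_mod_cast this
      simp only [bas, Pi.mul_apply, chi_add, h3, pow_succ, Polynomial.eval_mul,
        Polynomial.eval_sub, Polynomial.eval_one, Polynomial.eval_X, Polynomial.eval_pow]
      push_cast
      linear_combination ((rt x : ℝ) : ℂ) ^ (k + -1).natAbs * ((q.eval (x.1 : ℝ) : ℝ) : ℂ) *
        (chi k x * chi (-1) x) * h4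
    rw [h1]
    refine bas_mem ?_
    have := natDegree_one_sub_mul q
    omega

/-- the coordinates of the point -/
noncomputable def co (i : Fin 3) : Dom → ℂ := fun x => ((sp (x.1 : ℝ) x.2 i : ℝ) : ℂ)

lemma chi_one (x : Dom) : chi 1 x = Complex.cos x.2 + Complex.sin x.2 * Complex.I := by
  unfold chi
  rw [← Complex.exp_mul_I]
  congr 1
  push_cast
  ring

lemma chi_neg_one (x : Dom) : chi (-1) x = Complex.cos x.2 - Complex.sin x.2 * Complex.I := by
  unfold chi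
  have : Complex.I * ((-1 : ℤ) : ℂ) * (x.2 : ℂ) = (-(x.2 : ℂ)) * Complex.I := by
    push_cast
    ring
  rw [this, Complex.exp_mul_I, Complex.cos_neg, Complex.sin_neg]
  ring

lemma co_zero : co 0 = (1 / 2 : ℂ) • (fun x : Dom => ((rt x : ℝ) : ℂ) * chi 1 x) +
    (1 / 2 : ℂ) • (fun x : Dom => ((rt x : ℝ) : ℂ) * chi (-1) x) := by
  funext x
  have h : co 0 x = ((rt x * cos x.2 : ℝ) : ℂ) := rfl
  rw [h, Pi.add_apply, Pi.smul_apply, Pi.smul_apply, smul_eq_mul, smul_eq_mul, chi_one,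
    chi_neg_one]
  push_cast
  ring

lemma co_one : co 1 = (-Complex.I / 2 : ℂ) • (fun x : Dom => ((rt x : ℝ) : ℂ) * chi 1 x) +
    (Complex.I / 2 : ℂ) • (fun x : Dom => ((rt x : ℝ) : ℂ) * chi (-1) x) := by
  funext x
  have h : co 1 x = ((rt x * sin x.2 : ℝ) : ℂ) := rfl
  rw [h, Pi.add_apply, Pi.smul_apply, Pi.smul_apply, smul_eq_mul, smul_eq_mul, chi_one,
    chi_neg_one]
  push_cast
  linear_combination (((rt x : ℝ) : ℂ) * Complex.sin x.2) * Complex.I_sq

lemma co_two : co 2 = fun x : Dom => ((x.1 : ℝ) : ℂ) := rfl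

lemma mul_co (i : Fin 3) {t : ℕ} {f : Dom → ℂ} (hf : f ∈ Sp t) : co i * f ∈ Sp (t + 1) := by
  fin_cases i
  · change co 0 * f ∈ _
    rw [co_zero, add_mul, smul_mul_assoc, smul_mul_assoc]
    exact add_mem (Submodule.smul_mem _ _ (mul_e hf)) (Submodule.smul_mem _ _ (mul_e' hf))
  · change co 1 * f ∈ _
    rw [co_one, add_mul, smul_mul_assoc, smul_mul_assoc]
    exact add_mem (Submodule.smul_mem _ _ (mul_e hf)) (Submodule.smul_mem _ _ (mul_e' hf))
  · change co 2 * f ∈ _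
    rw [co_two]
    exact mul_z hf

lemma mul_co_pow (i : Fin 3) (n : ℕ) {t : ℕ} {f : Dom → ℂ} (hf : f ∈ Sp t) :
    co i ^ n * f ∈ Sp (t + n) := by
  induction n with
  | zero => simpa using hf
  | succ n ih =>
    rw [pow_succ', mul_assoc]
    exact mul_co i ih

lemma one_mem_Sp : (1 : Dom → ℂ) ∈ Sp 0 := by
  have h : (1 : Dom → ℂ) = bas 0 1 := by
    funext x
    simp [bas, chi]
  rw [h]
  exact bas_mem (by simp)

lemma ev_mem {t : ℕ} {p : Poly} (hp : p.totalDegree ≤ t) :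
    (fun x : Dom => ((ev p (sp (x.1 : ℝ) x.2) : ℝ) : ℂ)) ∈ Sp t := by
  have h1 : (fun x : Dom => ((ev p (sp (x.1 : ℝ) x.2) : ℝ) : ℂ)) =
      ∑ d ∈ p.support, ((p.coeff d : ℝ) : ℂ) •
        (co 0 ^ d 0 * (co 1 ^ d 1 * (co 2 ^ d 2 * 1))) := by
    funext x
    rw [Finset.sum_apply, ev, MvPolynomial.eval_eq']
    push_cast
    refine Finset.sum_congr rfl fun d _ => ?_
    rw [Fin.prod_univ_three]
    simp only [Pi.smul_apply, Pi.mul_apply, Pi.pow_apply, Pi.one_apply, mul_one, smul_eq_mul, co]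
    ring
  rw [h1]
  refine Submodule.sum_mem _ fun d hd => Submodule.smul_mem _ _ ?_
  have h2 : d 0 + d 1 + d 2 ≤ t := by
    have h3 := (MvPolynomial.le_totalDegree hd).trans hp
    rw [Finsupp.sum_fintype _ _ (fun _ => rfl), Fin.sum_univ_three] at h3
    exact h3
  have h4 := mul_co_pow 0 (d 0) (mul_co_pow 1 (d 1) (mul_co_pow 2 (d 2) one_mem_Sp))
  exact Sp_mono (by omega) h4

/-- the mode sum -/
noncomputable def ms (t : ℕ) (u v : ℤ → Polynomial ℝ) (x : Dom) : ℂ :=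
  ∑ m ∈ Finset.Icc (-(t : ℤ)) t, ((rt x ^ m.natAbs : ℝ) : ℂ) *
      ((((u m).eval (x.1 : ℝ) : ℝ) : ℂ) + (((v m).eval (x.1 : ℝ) : ℝ) : ℂ) * Complex.I) *
      chi m x

/-- degree conditions -/
def DC (t : ℕ) (u : ℤ → Polynomial ℝ) : Prop :=
  (∀ m : ℤ, m.natAbs ≤ t → (u m).natDegree ≤ t - m.natAbs) ∧
    ∀ m : ℤ, t < m.natAbs → u m = 0

lemma DC.comb {t : ℕ} {u v : ℤ → Polynomial ℝ} (hu : DC t u) (hv : DC t v) (a b : ℝ) :
    DC t fun m => Polynomial.C a * u m + Polynomial.C b * v m := by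
  refine ⟨fun m hm => ?_, fun m hm => ?_⟩
  · refine (Polynomial.natDegree_add_le _ _).trans (max_le ?_ ?_)
    · exact (Polynomial.natDegree_C_mul_le _ _).trans (hu.1 m hm)
    · exact (Polynomial.natDegree_C_mul_le _ _).trans (hv.1 m hm)
  · simp only [hu.2 m hm, hv.2 m hm, mul_zero, add_zero]

lemma DC.neg {t : ℕ} {u : ℤ → Polynomial ℝ} (hu : DC t u) : DC t fun m => u (-m) :=
  ⟨fun m hm => by have := hu.1 (-m) (by rwa [Int.natAbs_neg]); rwa [Int.natAbs_neg] at this,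
    fun m hm => hu.2 (-m) (by rwa [Int.natAbs_neg])⟩

lemma exists_ms {t : ℕ} {f : Dom → ℂ} (hf : f ∈ Sp t) :
    ∃ u v : ℤ → Polynomial ℝ, DC t u ∧ DC t v ∧ ∀ x, f x = ms t u v x := by
  refine Submodule.span_induction (p := fun f _ => ∃ u v : ℤ → Polynomial ℝ, DC t u ∧ DC t v ∧
    ∀ x, f x = ms t u v x) ?_ ?_ ?_ ?_ hf
  · rintro _ ⟨k, q, hkq, rfl⟩
    refine ⟨fun m => if m = k then q else 0, fun _ => 0, ⟨fun m hm => ?_, fun m hm => ?_⟩,
      ⟨fun m hm => by simp, fun m hm => rfl⟩, fun x => ?_⟩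
    · by_cases h : m = k
      · subst h
        simp only [if_true]
        omega
      · simp [h]
    · have h : m ≠ k := by rintro rfl; omega
      simp [h]
    · unfold ms
      rw [Finset.sum_eq_single k]
      · simp [bas]
      · intro m _ hm
        simp [hm]
      · intro hk
        exfalso
        apply hk
        rw [Finset.mem_Icc]
        omega
  · exact ⟨fun _ => 0, fun _ => 0, ⟨fun m hm => by simp, fun m hm => rfl⟩,
      ⟨fun m hm => by simp, fun m hm => rfl⟩, fun x => by simp [ms]⟩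
  · rintro f g _ _ ⟨u, v, hu, hv, h⟩ ⟨u', v', hu', hv', h'⟩
    refine ⟨_, _, hu.comb hu' 1 1, hv.comb hv' 1 1, fun x => ?_⟩
    rw [Pi.add_apply, h, h']
    unfold ms
    rw [← Finset.sum_add_distrib]
    refine Finset.sum_congr rfl fun m _ => ?_
    simp only [Polynomial.eval_add, Polynomial.eval_mul, Polynomial.eval_C]
    push_cast
    ring
  · rintro c f _ ⟨u, v, hu, hv, h⟩
    refine ⟨_, _, hu.comb hv c.re (-c.im), hu.comb hv c.im c.re, fun x => ?_⟩
    rw [Pi.smul_apply, h, smul_eq_mul]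
    unfold ms
    rw [Finset.mul_sum]
    refine Finset.sum_congr rfl fun m _ => ?_
    simp only [Polynomial.eval_add, Polynomial.eval_mul, Polynomial.eval_C]
    push_cast
    conv_lhs => rw [← Complex.re_add_im c]
    linear_combination (((rt x : ℝ) : ℂ) ^ m.natAbs * (((v m).eval (x.1 : ℝ) : ℝ) : ℂ) *
      (c.im : ℂ) * chi m x) * Complex.I_sq

lemma conj_chi (m : ℤ) (x : Dom) : (starRingEnd ℂ) (chi m x) = chi (-m) x := by
  unfold chi
  rw [← Complex.exp_conj]
  congr 1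
  simp

lemma conj_ms (t : ℕ) (u v : ℤ → Polynomial ℝ) (x : Dom) : (starRingEnd ℂ) (ms t u v x) =
    ∑ m ∈ Finset.Icc (-(t : ℤ)) t, ((rt x ^ m.natAbs : ℝ) : ℂ) *
      ((((u (-m)).eval (x.1 : ℝ) : ℝ) : ℂ) - (((v (-m)).eval (x.1 : ℝ) : ℝ) : ℂ) * Complex.I) *
      chi m x := by
  unfold ms
  rw [map_sum]
  refine Finset.sum_nbij' (fun m => -m) (fun m => -m) ?_ ?_ ?_ ?_ ?_
  · intro m hm
    rw [Finset.mem_Icc] at hm ⊢
    omega
  · intro m hm
    rw [Finset.mem_Icc] at hm ⊢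
    omega
  · intro m _; simp
  · intro m _; simp
  · intro m _
    rw [map_mul, map_mul, map_add, map_mul, Complex.conj_ofReal, Complex.conj_ofReal,
      Complex.conj_ofReal, Complex.conj_I, conj_chi, Int.natAbs_neg, neg_neg]
    ring

end FourierAux

open FourierAux

theorem exists_modes (t : ℕ) (p : Poly) (hp : p.totalDegree ≤ t) :
    ∃ u v : ℤ → Polynomial ℝ, Modes t p u v := by
  obtain ⟨u, v, hu, hv, h⟩ := exists_ms (ev_mem hp)
  have hu' := hu.comb hu.neg (1 / 2) (1 / 2)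
  have hv' := hv.comb hv.neg (1 / 2) (-(1 / 2))
  refine ⟨_, _, ⟨hu'.1, hv'.1, hu'.2, hv'.2, ?_, ?_⟩⟩
  · simp
  · intro z φ hz
    set x : Dom := (⟨z, hz⟩, φ) with hx
    have h1 : ((ev p (sp z φ) : ℝ) : ℂ) = ms t u v x := h x
    have h2 : ((ev p (sp z φ) : ℝ) : ℂ) = (starRingEnd ℂ) (ms t u v x) := by
      rw [← h1, Complex.conj_ofReal]
    rw [conj_ms] at h2
    have h3 : ((ev p (sp z φ) : ℝ) : ℂ) = (1 / 2) * ms t u v x + (1 / 2) *
        ∑ m ∈ Finset.Icc (-(t : ℤ)) t, ((rt x ^ m.natAbs : ℝ) : ℂ) *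
      ((((u (-m)).eval (x.1 : ℝ) : ℝ) : ℂ) - (((v (-m)).eval (x.1 : ℝ) : ℝ) : ℂ) * Complex.I) *
      chi m x := by
      rw [← h2, ← h1]; ring
    rw [h3]
    unfold ms
    rw [Finset.mul_sum, Finset.mul_sum, ← Finset.sum_add_distrib]
    refine Finset.sum_congr rfl fun m _ => ?_
    simp only [Polynomial.eval_add, Polynomial.eval_mul, Polynomial.eval_C, rt, chi, hx]
    push_cast
    ring

end Pool.Agent.Helper83.SD
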