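import Pool.Agent.Helper83.SD.Pars
import Pool.Agent.Helper83.SD.Fourier

/-!
Project SD, module Sup: `|p(x)| ≤ (t+1) ‖p‖_2` on the sphere.

Rotate `x` to the north pole (`mu_rot`, existence of an isometry as in
`Pool.Agent.Helper78.LE.exists_isometry`); at the pole `p = u_0(1)`, and `mode_bound` with
`m = i = 0` together with `mu_sq_sum` gives the bound.
-/

set_option autoImplicit false

open MeasureTheory Real

namespace Pool.Agent.Helper83.SD

theorem ev_north {t : ℕ} {p : Poly} {u v : ℤ → Polynomial ℝ} (h : Modes t p u v) :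
    ev p (sp 1 0) = (u 0).eval 1 := by
  have h1 := h.eq 1 0 (by norm_num)
  rw [Finset.sum_eq_single (0 : ℤ)] at h1
  · simp only [Int.natAbs_zero, pow_zero, h.v0, Polynomial.eval_zero, Int.cast_zero, mul_zero,
      zero_mul, Complex.exp_zero, Complex.ofReal_zero, add_zero, Complex.ofReal_one, one_mul,
      mul_one] at h1
    exact_mod_cast h1
  · intro m _ hm
    have : m.natAbs ≠ 0 := Int.natAbs_ne_zero.mpr hm
    have e : √(1 - (1 : ℝ) ^ 2) = 0 := by norm_num
    rw [e, zero_pow this]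
    simp
  · intro hm
    exact absurd (Finset.mem_Icc.mpr ⟨by omega, by omega⟩) hm

theorem sup_bound (t : ℕ) (p : Poly) (hp : p.totalDegree ≤ t) (x : E3) (hx : ‖x‖ = 1) :
    (ev p x) ^ 2 ≤ ((t : ℝ) + 1) ^ 2 * mu (p ^ 2) := by
  have hn : ‖sp 1 0‖ = 1 := sp_norm (by norm_num) 0
  obtain ⟨R, hR⟩ : ∃ R : E3 ≃ₗᵢ[ℝ] E3, R (sp 1 0) = x :=
    ⟨(Submodule.span ℝ {sp 1 0 - x})ᗮ.reflection, Submodule.reflection_sub (by rw [hx, hn])⟩
  obtain ⟨q, hq1, hq2, -, hq4⟩ := mu_rot R p
  obtain ⟨u, v, hm⟩ := exists_modes t q (hq1.trans hp)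
  have e1 : ev p x = (u 0).eval 1 := by
    rw [← hR, ← hq2, ev_north hm]
  have hb := mode_bound t 0 0 (Nat.zero_le t) (u 0)
    (by have := hm.degu 0 (by simp); simpa using this) 1 (by norm_num)
  simp only [Function.iterate_zero, id, mul_zero, Nat.cast_zero, add_zero, zero_add, pow_zero,
    Nat.factorial_zero, Nat.cast_one, pow_one, one_pow, mul_one, div_one] at hb
  rw [e1]
  refine hb.trans ?_
  rw [← hq4, mu_sq_sum hm]
  apply mul_le_mul_of_nonneg_left _ (by positivity)
  have h0 : nrm 0 (u 0) ≤ nmode u v 0 := by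
    unfold nmode
    have := nrm_nonneg (0 : ℤ).natAbs (v 0)
    simp only [Int.natAbs_zero] at this ⊢
    linarith
  refine h0.trans ?_
  apply Finset.single_le_sum (f := fun m => nmode u v m)
  · intro m _
    exact add_nonneg (nrm_nonneg _ _) (nrm_nonneg _ _)
  · exact Finset.mem_Icc.mpr ⟨by omega, by omega⟩

end Pool.Agent.Helper83.SD
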