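import Pool.Agent.Helper83.SD.Pars

/-!
Project SD, module TayA: majorant of the Taylor coefficients of `modeA` at 1.

For mode `m` (`m = |m|`), `g = u_m` or `v_m`, `g(1+w) = Σ g_a w^a`, `mode_bound`:
`|g_a| ≤ T^((m+2a+1)/2) / (2^(m+a) (m+a)! a! √(m+2a+1)) √(nrm m g)`, `T = (t+1)^2`.
`(1-z^2)^m = (-2w)^m (1+w/2)^m`, so the coefficients of the mode are dominated by those of
`(1+w/2)^m * w^m 2^m (Σ |g_a| w^a)^2`, and
`w^m 2^m (Σ|g_a| w^a)^2` has n-th coefficient at most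
`T (T/2)^n nrm * Σ_{a+b=n-m} 1/((m+a)! a! (m+b)! b! √((m+2a+1)(m+2b+1)))
 ≤ T (T/2)^n nrm * binom(2n,n-m)/(n!^2 √(2n+1)) ≤ T (T/2)^n nrm * Phc n`
(Vandermonde; `(m+2a+1)(m+2b+1) ≥ 2n+1` when `a+b = n-m`).
-/

set_option autoImplicit false

open MeasureTheory Real

namespace Pool.Agent.Helper83.SD

variable {t : ℕ} {p : Poly} {u v : ℤ → Polynomial ℝ}

namespace TayA

lemma tay_coeff (g : Polynomial ℝ) (a : ℕ) :
    (Polynomial.taylor 1 g).coeff a =
      (Polynomial.derivative^[a] g).eval 1 / (a.factorial : ℝ) := by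
  have h := congrFun (Polynomial.factorial_smul_hasseDeriv (R := ℝ) a) g
  rw [Polynomial.taylor_coeff, ← h]
  have h2 : ((a.factorial : ℕ) : ℝ) ≠ 0 := by exact_mod_cast (Nat.factorial_pos a).ne'
  rw [eq_div_iff h2]
  simp [mul_comm]

/-- the bound of the coefficients -/
noncomputable def G (t m a : ℕ) : ℝ :=
  ((t : ℝ) + 1) ^ (m + 2 * a + 1) /
    (√((m : ℝ) + 2 * a + 1) * 2 ^ (m + a) * ((m + a).factorial : ℝ) * (a.factorial : ℝ))

lemma G_nonneg (t m a : ℕ) : 0 ≤ G t m a := by unfold G; positivity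

lemma fpos (a : ℕ) : (0 : ℝ) < (a.factorial : ℝ) := by exact_mod_cast Nat.factorial_pos a

lemma coeff_le {t m : ℕ} (hm : m ≤ t) (g : Polynomial ℝ) (hg : g.natDegree ≤ t - m) (a : ℕ) :
    |(Polynomial.taylor 1 g).coeff a| ≤ √(nrm m g) * G t m a := by
  have h := mode_bound t m a hm g hg 1 (by norm_num)
  have hn := nrm_nonneg m g
  rw [tay_coeff]
  have hG := G_nonneg t m a
  apply abs_le_of_sq_le_sq _ (mul_nonneg (Real.sqrt_nonneg _) hG)
  rw [div_pow, mul_pow, Real.sq_sqrt hn]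
  have hf := fpos a
  have hf2 := fpos (m + a)
  rw [div_le_iff₀ (by positivity)]
  refine h.trans (le_of_eq ?_)
  unfold G
  have hs : (0 : ℝ) ≤ (m : ℝ) + 2 * a + 1 := by positivity
  have hs' : (m : ℝ) + 2 * a + 1 ≠ 0 := by positivity
  rw [div_pow, mul_pow, mul_pow, mul_pow, Real.sq_sqrt hs]
  have e1 : ((2 : ℝ) ^ (m + a)) ^ 2 = 4 ^ (m + a) := by
    rw [← pow_mul, mul_comm, pow_mul]; norm_num
  have e2 : ((((t : ℝ) + 1) ^ (m + 2 * a + 1)) ^ 2) = (((t : ℝ) + 1) ^ 2) ^ (m + 2 * a + 1) := by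
    rw [← pow_mul, ← pow_mul, mul_comm]
  rw [e1, e2]
  field_simp

lemma GG {t m a b k : ℕ} (hk : a + b = k) :
    G t m a * G t m b ≤ (((t : ℝ) + 1) ^ 2) ^ (m + k + 1) /
      (2 ^ (m + (m + k)) * (((m + k).factorial : ℝ) ^ 2 * √(2 * ((m + k : ℕ) : ℝ) + 1))) *
      (((m + k).choose a : ℝ) * ((m + k).choose b : ℝ)) := by
  have ha := fpos a
  have hb := fpos b
  have hma := fpos (m + a)
  have hmb := fpos (m + b)
  have hmk := fpos (m + k)
  have hc1 : ((m + k).choose b : ℝ) = ((m + k).factorial : ℝ) /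
      (((m + a).factorial : ℝ) * (b.factorial : ℝ)) := by
    rw [eq_div_iff (by positivity)]
    have := Nat.choose_mul_factorial_mul_factorial (n := m + k) (k := b) (by omega)
    have e : m + k - b = m + a := by omega
    rw [e] at this
    have : (((m + k).choose b : ℕ) : ℝ) * (b.factorial : ℝ) * ((m + a).factorial : ℝ) =
      ((m + k).factorial : ℝ) := by exact_mod_cast this
    linarith
  have hc2 : ((m + k).choose a : ℝ) = ((m + k).factorial : ℝ) /
      (((m + b).factorial : ℝ) * (a.factorial : ℝ)) := by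
    rw [eq_div_iff (by positivity)]
    have := Nat.choose_mul_factorial_mul_factorial (n := m + k) (k := a) (by omega)
    have e : m + k - a = m + b := by omega
    rw [e] at this
    have : (((m + k).choose a : ℕ) : ℝ) * (a.factorial : ℝ) * ((m + b).factorial : ℝ) =
      ((m + k).factorial : ℝ) := by exact_mod_cast this
    linarith
  have hsq : √(2 * ((m + k : ℕ) : ℝ) + 1) ≤ √((m : ℝ) + 2 * a + 1) * √((m : ℝ) + 2 * b + 1) := by
    rw [← Real.sqrt_mul (by positivity)]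
    apply Real.sqrt_le_sqrt
    have : (k : ℝ) = a + b := by rw [← hk]; push_cast; ring
    push_cast
    rw [this]
    have ha0 : (0 : ℝ) ≤ a := Nat.cast_nonneg a
    have hb0 : (0 : ℝ) ≤ b := Nat.cast_nonneg b
    have hm0 : (0 : ℝ) ≤ m := Nat.cast_nonneg m
    nlinarith [mul_nonneg ha0 hb0, mul_nonneg ha0 hm0, mul_nonneg hb0 hm0, mul_nonneg hm0 hm0]
  have hs1 : 0 < √((m : ℝ) + 2 * a + 1) := Real.sqrt_pos.2 (by positivity)
  have hs2 : 0 < √((m : ℝ) + 2 * b + 1) := Real.sqrt_pos.2 (by positivity)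
  have hs3 : 0 < √(2 * ((m + k : ℕ) : ℝ) + 1) := Real.sqrt_pos.2 (by positivity)
  have e1 : (((t : ℝ) + 1) ^ 2) ^ (m + k + 1) =
      ((t : ℝ) + 1) ^ (m + 2 * a + 1) * ((t : ℝ) + 1) ^ (m + 2 * b + 1) := by
    rw [← pow_mul, ← pow_add]
    congr 1
    omega
  have e2 : (2 : ℝ) ^ (m + (m + k)) = 2 ^ (m + a) * 2 ^ (m + b) := by
    rw [← pow_add]
    congr 1
    omega
  have e3 : (((t : ℝ) + 1) ^ 2) ^ (m + k + 1) /
      (2 ^ (m + (m + k)) * (((m + k).factorial : ℝ) ^ 2 * √(2 * ((m + k : ℕ) : ℝ) + 1))) *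
      (((m + k).choose a : ℝ) * ((m + k).choose b : ℝ)) =
      (((t : ℝ) + 1) ^ (m + 2 * a + 1) * ((t : ℝ) + 1) ^ (m + 2 * b + 1)) /
      (√(2 * ((m + k : ℕ) : ℝ) + 1) * (2 ^ (m + a) * ((m + a).factorial : ℝ) * (a.factorial : ℝ) *
        (2 ^ (m + b) * ((m + b).factorial : ℝ) * (b.factorial : ℝ)))) := by
    rw [hc1, hc2, e1, e2]
    field_simp
  rw [e3]
  unfold G
  rw [div_mul_div_comm]
  have e4 : √((m : ℝ) + 2 * a + 1) * 2 ^ (m + a) * ((m + a).factorial : ℝ) * (a.factorial : ℝ) *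
      (√((m : ℝ) + 2 * b + 1) * 2 ^ (m + b) * ((m + b).factorial : ℝ) * (b.factorial : ℝ)) =
      (√((m : ℝ) + 2 * a + 1) * √((m : ℝ) + 2 * b + 1)) *
      (2 ^ (m + a) * ((m + a).factorial : ℝ) * (a.factorial : ℝ) *
        (2 ^ (m + b) * ((m + b).factorial : ℝ) * (b.factorial : ℝ))) := by ring
  rw [e4]
  apply div_le_div_of_nonneg_left (by positivity) (by positivity)
  exact mul_le_mul_of_nonneg_right hsq (by positivity)

lemma sumGG (t m k : ℕ) :
    2 ^ m * ∑ x ∈ Finset.HasAntidiagonal.antidiagonal k, G t m x.1 * G t m x.2 ≤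
      ((t : ℝ) + 1) ^ 2 * (Phc (m + k) * ((((t : ℝ) + 1) ^ 2) / 2) ^ (m + k)) := by
  have hmk := fpos (m + k)
  have hs3 : 0 < √(2 * ((m + k : ℕ) : ℝ) + 1) := Real.sqrt_pos.2 (by positivity)
  have h1 : ∑ x ∈ Finset.HasAntidiagonal.antidiagonal k, G t m x.1 * G t m x.2 ≤
      (((t : ℝ) + 1) ^ 2) ^ (m + k + 1) /
      (2 ^ (m + (m + k)) * (((m + k).factorial : ℝ) ^ 2 * √(2 * ((m + k : ℕ) : ℝ) + 1))) *
      ((2 * (m + k)).choose (m + k) : ℝ) := by
    calc ∑ x ∈ Finset.HasAntidiagonal.antidiagonal k, G t m x.1 * G t m x.2 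
        ≤ ∑ x ∈ Finset.HasAntidiagonal.antidiagonal k, (((t : ℝ) + 1) ^ 2) ^ (m + k + 1) /
      (2 ^ (m + (m + k)) * (((m + k).factorial : ℝ) ^ 2 * √(2 * ((m + k : ℕ) : ℝ) + 1))) *
      (((m + k).choose x.1 : ℝ) * ((m + k).choose x.2 : ℝ)) :=
          Finset.sum_le_sum fun x hx => GG (Finset.HasAntidiagonal.mem_antidiagonal.1 hx)
      _ = (((t : ℝ) + 1) ^ 2) ^ (m + k + 1) /
      (2 ^ (m + (m + k)) * (((m + k).factorial : ℝ) ^ 2 * √(2 * ((m + k : ℕ) : ℝ) + 1))) *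
      (((m + k) + (m + k)).choose k : ℝ) := by
          rw [← Finset.mul_sum]
          congr 1
          have := Nat.add_choose_eq (m + k) (m + k) k
          exact_mod_cast this.symm
      _ ≤ _ := by
          apply mul_le_mul_of_nonneg_left _ (by positivity)
          have h := Nat.choose_le_centralBinom k (m + k)
          rw [Nat.centralBinom_eq_two_mul_choose] at h
          rw [← two_mul]
          exact_mod_cast h
  refine (mul_le_mul_of_nonneg_left h1 (by positivity)).trans (le_of_eq ?_)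
  unfold Phc
  have e1 : (2 : ℝ) ^ (m + (m + k)) = 2 ^ m * 2 ^ (m + k) := pow_add _ _ _
  rw [e1, pow_succ, div_pow]
  field_simp

lemma mode_coeff {t m : ℕ} (hm : m ≤ t) (g : Polynomial ℝ) (hg : g.natDegree ≤ t - m) (n : ℕ) :
    |(Polynomial.C ((-2 : ℝ) ^ m) * ((Polynomial.taylor 1 g) ^ 2 * Polynomial.X ^ m)).coeff n| ≤
      ((t : ℝ) + 1) ^ 2 * nrm m g * (Phc n * ((((t : ℝ) + 1) ^ 2) / 2) ^ n) := by
  have hn := nrm_nonneg m g
  have hP : 0 ≤ Phc n := by unfold Phc; positivity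
  rw [Polynomial.coeff_C_mul, Polynomial.coeff_mul_X_pow']
  split_ifs with h
  · obtain ⟨k, rfl⟩ := Nat.exists_eq_add_of_le h
    rw [Nat.add_sub_cancel_left, abs_mul, abs_pow, abs_neg, abs_two, sq, Polynomial.coeff_mul]
    have h1 : |∑ x ∈ Finset.HasAntidiagonal.antidiagonal k, (Polynomial.taylor 1 g).coeff x.1 *
        (Polynomial.taylor 1 g).coeff x.2| ≤ nrm m g *
        ∑ x ∈ Finset.HasAntidiagonal.antidiagonal k, G t m x.1 * G t m x.2 := by
      refine (Finset.abs_sum_le_sum_abs _ _).trans ?_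
      rw [Finset.mul_sum]
      refine Finset.sum_le_sum fun x _ => ?_
      rw [abs_mul]
      have a1 := coeff_le hm g hg x.1
      have a2 := coeff_le hm g hg x.2
      have := mul_le_mul a1 a2 (abs_nonneg _) (mul_nonneg (Real.sqrt_nonneg _) (G_nonneg _ _ _))
      refine this.trans (le_of_eq ?_)
      have := Real.mul_self_sqrt hn
      calc √(nrm m g) * G t m x.1 * (√(nrm m g) * G t m x.2) =
          (√(nrm m g) * √(nrm m g)) * (G t m x.1 * G t m x.2) := by ring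
        _ = _ := by rw [this]
    have h2 := sumGG t m k
    calc (2 : ℝ) ^ m * _ ≤ 2 ^ m * (nrm m g *
        ∑ x ∈ Finset.HasAntidiagonal.antidiagonal k, G t m x.1 * G t m x.2) :=
          mul_le_mul_of_nonneg_left h1 (by positivity)
      _ = nrm m g * (2 ^ m * ∑ x ∈ Finset.HasAntidiagonal.antidiagonal k, G t m x.1 * G t m x.2) := by ring
      _ ≤ nrm m g * (((t : ℝ) + 1) ^ 2 *
          (Phc (m + k) * ((((t : ℝ) + 1) ^ 2) / 2) ^ (m + k))) :=
          mul_le_mul_of_nonneg_left h2 hn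
      _ = _ := by ring
  · rw [mul_zero, abs_zero]
    positivity

lemma half_coeff (m k : ℕ) :
    ((1 + Polynomial.C (1 / 2 : ℝ) * Polynomial.X) ^ m).coeff k = (m.choose k : ℝ) / 2 ^ k := by
  have h : (1 + Polynomial.C (1 / 2 : ℝ) * Polynomial.X) ^ m =
      ((1 + Polynomial.X) ^ m : Polynomial ℝ).comp (Polynomial.C (1 / 2 : ℝ) * Polynomial.X) := by
    simp
  rw [h, Polynomial.comp_C_mul_X_coeff, Polynomial.coeff_one_add_X_pow]
  rw [div_pow, one_pow]
  ring

lemma taylor_fac (m : ℕ) (g : Polynomial ℝ) :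
    Polynomial.taylor 1 ((1 - Polynomial.X ^ 2) ^ m * g ^ 2) =
      (1 + Polynomial.C (1 / 2 : ℝ) * Polynomial.X) ^ m *
        (Polynomial.C ((-2 : ℝ) ^ m) * ((Polynomial.taylor 1 g) ^ 2 * Polynomial.X ^ m)) := by
  have h : (1 - (Polynomial.X + Polynomial.C (1 : ℝ)) ^ 2 : Polynomial ℝ) =
      (1 + Polynomial.C (1 / 2 : ℝ) * Polynomial.X) * (Polynomial.C (-2 : ℝ) * Polynomial.X) := by
    have e : (Polynomial.C (1 / 2 : ℝ) : Polynomial ℝ) * Polynomial.C (-2 : ℝ) = -1 := by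
      rw [← Polynomial.C_mul]; norm_num
    have e2 : (Polynomial.C (-2 : ℝ) : Polynomial ℝ) = -2 := by
      rw [Polynomial.C_neg]
      rfl
    have e3 : (Polynomial.C (1 : ℝ) : Polynomial ℝ) = 1 := Polynomial.C_1
    calc (1 - (Polynomial.X + Polynomial.C (1 : ℝ)) ^ 2 : Polynomial ℝ) =
        (-2) * Polynomial.X + (-1) * Polynomial.X ^ 2 := by rw [e3]; ring
      _ = Polynomial.C (-2 : ℝ) * Polynomial.X +
          (Polynomial.C (1 / 2 : ℝ) * Polynomial.C (-2 : ℝ)) * Polynomial.X ^ 2 := by rw [e, e2]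
      _ = _ := by ring
  rw [Polynomial.taylor_apply, Polynomial.taylor_apply, Polynomial.mul_comp, Polynomial.pow_comp,
    Polynomial.pow_comp, Polynomial.sub_comp, Polynomial.one_comp, Polynomial.X_pow_comp, h,
    Polynomial.C_pow, mul_pow, mul_pow]
  ring

lemma one_mode {t m : ℕ} (hm : m ≤ t) (g : Polynomial ℝ) (hg : g.natDegree ≤ t - m) (n : ℕ) :
    |(Polynomial.taylor 1 ((1 - Polynomial.X ^ 2) ^ m * g ^ 2)).coeff n| ≤
      (((t : ℝ) + 1) ^ 2 * nrm m g) * Psc t (((t : ℝ) + 1) ^ 2) n := by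
  have hn := nrm_nonneg m g
  rw [taylor_fac, Polynomial.coeff_mul, Finset.Nat.sum_antidiagonal_eq_sum_range_succ_mk]
  refine (Finset.abs_sum_le_sum_abs _ _).trans ?_
  unfold Psc
  rw [Finset.mul_sum]
  refine Finset.sum_le_sum fun k _ => ?_
  rw [abs_mul, half_coeff]
  have h1 : |(m.choose k : ℝ) / 2 ^ k| ≤ (t.choose k : ℝ) / 2 ^ k := by
    rw [abs_of_nonneg (by positivity)]
    have : (m.choose k : ℝ) ≤ (t.choose k : ℝ) := by
      exact_mod_cast Nat.choose_le_choose k hm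
    gcongr
  have h2 := mode_coeff hm g hg (n - k)
  refine (mul_le_mul h1 h2 (abs_nonneg _) (by positivity)).trans (le_of_eq ?_)
  ring

lemma sum_modes (a b : ℤ → Polynomial ℝ)
    (ha : ∀ m : ℤ, m.natAbs ≤ t → (a m).natDegree ≤ t - m.natAbs)
    (hb : ∀ m : ℤ, m.natAbs ≤ t → (b m).natDegree ≤ t - m.natAbs) (n : ℕ) :
    |(Polynomial.taylor 1 (modeA t a b)).coeff n| ≤
      (((t : ℝ) + 1) ^ 2 * ∑ m ∈ Finset.Icc (-(t : ℤ)) t, nmode a b m) *
        Psc t (((t : ℝ) + 1) ^ 2) n := by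
  unfold modeA
  rw [map_sum, Polynomial.finsetSum_coeff]
  refine (Finset.abs_sum_le_sum_abs _ _).trans ?_
  rw [Finset.mul_sum, Finset.sum_mul]
  refine Finset.sum_le_sum fun m hm => ?_
  have hm' : m.natAbs ≤ t := by
    rw [Finset.mem_Icc] at hm
    omega
  have h1 := one_mode hm' (a m) (ha m hm') n
  have h2 := one_mode hm' (b m) (hb m hm') n
  rw [mul_add, map_add, Polynomial.coeff_add]
  refine (abs_add_le _ _).trans ((add_le_add h1 h2).trans (le_of_eq ?_))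
  unfold nmode
  ring

lemma nrm_refl (m : ℕ) (g : Polynomial ℝ) : nrm m (refl g) = nrm m g := by
  unfold nrm
  have h := intervalIntegral.integral_comp_neg (a := (-1 : ℝ)) (b := 1)
    (fun z : ℝ => (1 - z ^ 2) ^ m * (g.eval z) ^ 2)
  rw [neg_neg] at h
  rw [← h]
  congr 1
  refine intervalIntegral.integral_congr fun z _ => ?_
  simp only [refl_eval, neg_sq]

lemma refl_modeA (a b : ℤ → Polynomial ℝ) :
    refl (modeA t a b) = modeA t (fun m => refl (a m)) (fun m => refl (b m)) := by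
  unfold refl modeA
  rw [show ∀ (s : Finset ℤ) (f : ℤ → Polynomial ℝ) (q : Polynomial ℝ),
    (∑ m ∈ s, f m).comp q = ∑ m ∈ s, (f m).comp q from fun s f q => by
      simp only [← Polynomial.coe_compRingHom_apply, map_sum]]
  refine Finset.sum_congr rfl fun m _ => ?_
  rw [Polynomial.mul_comp, Polynomial.pow_comp, Polynomial.sub_comp, Polynomial.one_comp,
    Polynomial.X_pow_comp, Polynomial.add_comp, Polynomial.pow_comp, Polynomial.pow_comp, neg_sq]

end TayA

theorem tayA (h : Modes t p u v) (n : ℕ) :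
    |(Polynomial.taylor 1 (modeA t u v)).coeff n| ≤
      (((t : ℝ) + 1) ^ 2 * mu (p ^ 2)) * Psc t (((t : ℝ) + 1) ^ 2) n := by
  rw [mu_sq_sum h]
  exact TayA.sum_modes u v h.degu h.degv n

theorem tayA_refl (h : Modes t p u v) (n : ℕ) :
    |(Polynomial.taylor 1 (refl (modeA t u v))).coeff n| ≤
      (((t : ℝ) + 1) ^ 2 * mu (p ^ 2)) * Psc t (((t : ℝ) + 1) ^ 2) n := by
  rw [mu_sq_sum h, TayA.refl_modeA]
  have h1 := TayA.sum_modes (t := t) (fun m => refl (u m)) (fun m => refl (v m))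
    (fun m hm => (refl_natDegree _).trans (h.degu m hm))
    (fun m hm => (refl_natDegree _).trans (h.degv m hm)) n
  have h2 : ∑ m ∈ Finset.Icc (-(t : ℤ)) t, nmode (fun m => refl (u m)) (fun m => refl (v m)) m =
      ∑ m ∈ Finset.Icc (-(t : ℤ)) t, nmode u v m := by
    refine Finset.sum_congr rfl fun m _ => ?_
    unfold nmode
    rw [TayA.nrm_refl, TayA.nrm_refl]
  rw [h2] at h1
  exact h1

end Pool.Agent.Helper83.SD
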