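import Pool.Agent.Helper83.SD.Basic

/-!
Project SD: symmetrisation of a polynomial, used by ZA and ZD.
-/

set_option autoImplicit false

open MeasureTheory Real

namespace Pool.Agent.Helper83.SD

theorem contDiff_sin_poly (B : Polynomial ℝ) (n : WithTop ℕ∞) :
    ContDiff ℝ n (fun s : ℝ => B.eval (sin s)) := by
  have h := (Polynomial.contDiff_aeval (𝕜 := ℝ) B (n := n)).comp (Real.contDiff_sin (n := n))
  simpa [Function.comp_def] using h

theorem nearHyp_sym {B : Polynomial ℝ} {M Λ : ℝ}
    (h : ∀ k : ℕ, 1 ≤ k → ∀ ψ : ℝ, |ψ| ≤ π / 4 →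
      |iteratedDeriv k (fun s => B.eval (sin s)) ψ| ≤ M * Λ ^ k) :
    NearHyp (B + refl B) (2 * M) Λ := by
  constructor
  · intro z
    simp only [Polynomial.eval_add, refl_eval, neg_neg]
    ring
  · intro k hk ψ hψ
    have e1 : (fun s => (B + refl B).eval (sin s)) =
        (fun s => B.eval (sin s)) + (fun s => (fun r => B.eval (sin r)) (-s)) := by
      funext s
      simp [refl_eval, Real.sin_neg]
    have hc := contDiff_sin_poly B k
    have hc2 : ContDiff ℝ k (fun s : ℝ => (fun r => B.eval (sin r)) (-s)) :=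
      hc.comp contDiff_neg
    rw [e1, iteratedDeriv_add hc.contDiffAt hc2.contDiffAt]
    have e3 : iteratedDeriv k (fun s => (fun r => B.eval (sin r)) (-s)) ψ =
        (-1 : ℝ) ^ k • iteratedDeriv k (fun r => B.eval (sin r)) (-ψ) :=
      iteratedDeriv_comp_neg k (fun r : ℝ => B.eval (sin r)) ψ
    rw [e3]
    have h1 := h k hk ψ hψ
    have h2 := h k hk (-ψ) (by rw [abs_neg]; exact hψ)
    calc |iteratedDeriv k (fun s => B.eval (sin s)) ψ +
          (-1 : ℝ) ^ k • iteratedDeriv k (fun r => B.eval (sin r)) (-ψ)|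
        ≤ |iteratedDeriv k (fun s => B.eval (sin s)) ψ| +
          |(-1 : ℝ) ^ k • iteratedDeriv k (fun r => B.eval (sin r)) (-ψ)| := abs_add_le _ _
      _ ≤ M * Λ ^ k + M * Λ ^ k := by
          refine add_le_add h1 ?_
          rw [smul_eq_mul, abs_mul, abs_pow, abs_neg, abs_one, one_pow, one_mul]
          exact h2
      _ = 2 * M * Λ ^ k := by ring

theorem derivative_refl (B : Polynomial ℝ) :
    Polynomial.derivative (refl B) = -refl (Polynomial.derivative B) := by
  unfold refl
  rw [Polynomial.derivative_comp]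
  simp

theorem iterate_derivative_refl (B : Polynomial ℝ) (n : ℕ) :
    Polynomial.derivative^[n] (refl B) = (-1) ^ n * refl (Polynomial.derivative^[n] B) := by
  induction n with
  | zero => simp
  | succ n ih =>
    rw [Function.iterate_succ_apply', ih, Function.iterate_succ_apply']
    have : ((-1 : Polynomial ℝ)) ^ n = Polynomial.C ((-1) ^ n) := by simp
    rw [this, Polynomial.derivative_C_mul, derivative_refl]
    rw [pow_succ, ← this]
    ring

theorem abs_iterate_refl (B : Polynomial ℝ) (n : ℕ) (z : ℝ) :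
    |(Polynomial.derivative^[n] (refl B)).eval z| = |(Polynomial.derivative^[n] B).eval (-z)| := by
  rw [iterate_derivative_refl, Polynomial.eval_mul, refl_eval, abs_mul]
  simp

end Pool.Agent.Helper83.SD
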