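import Pool.Agent.Helper83.SD.Zonal
import Pool.Agent.Helper83.SD.PoleA
import Pool.Agent.Helper83.SD.EqB
import Pool.Agent.Helper83.SD.Loc2
import Pool.Agent.Helper83.SD.TayA
import Pool.Agent.Helper83.SD.Sup
import Pool.Agent.Helper83.SD.ZSym

/-!
Project SD, module ZA: zonal quadrature error for the mean square.

`zonal` with `B = modeA`; pole terms: `poleA` with `M = T mu(p^2)`, `tayA`, `tayA_refl`, `T_le`:
`2 * 0.025 * 2.41 = 0.1205`.  Equator: `eq_bound` for `B + refl B`, `Λ = 2 √(lam t)`,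
`M = 16 (t+1) mu(p^2)` (`loc_A`; the derivatives of `(refl B)(sin s) = B(sin(-s))`), crude bound
from `sup_bound` and `avg_sq`: `0 ≤ modeA ≤ (t+1)^2 mu(p^2)`.
-/

set_option autoImplicit false

open MeasureTheory Real

namespace Pool.Agent.Helper83.SD

theorem modeA_bounds {t : ℕ} {p : Poly} {u v : ℤ → Polynomial ℝ} (hp : p.totalDegree ≤ t)
    (h : Modes t p u v) {z : ℝ} (hz : z ^ 2 ≤ 1) :
    0 ≤ (modeA t u v).eval z ∧ (modeA t u v).eval z ≤ ((t : ℝ) + 1) ^ 2 * mu (p ^ 2) := by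
  constructor
  · rw [modeA_Fm hz]
    exact Finset.sum_nonneg (fun m _ => sq_nonneg _)
  · rw [← avg_sq h hz]
    have hpi : (0 : ℝ) < 2 * π := by positivity
    have hcont : Continuous fun φ : ℝ => (ev p (sp z φ)) ^ 2 := by
      have h1 : Continuous fun φ : ℝ => sp z φ := by
        unfold sp
        fun_prop
      exact ((ev_continuous p).comp h1).pow 2
    have hle : ∫ φ in (0 : ℝ)..(2 * π), (ev p (sp z φ)) ^ 2 ≤
        ∫ _φ in (0 : ℝ)..(2 * π), ((t : ℝ) + 1) ^ 2 * mu (p ^ 2) := by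
      apply intervalIntegral.integral_mono_on hpi.le (hcont.intervalIntegrable _ _)
        (intervalIntegrable_const)
      intro φ _
      exact sup_bound t p hp _ (sp_norm hz φ)
    rw [intervalIntegral.integral_const, smul_eq_mul, sub_zero] at hle
    calc (1 / (2 * π)) * ∫ φ in (0 : ℝ)..(2 * π), (ev p (sp z φ)) ^ 2
        ≤ (1 / (2 * π)) * (2 * π * (((t : ℝ) + 1) ^ 2 * mu (p ^ 2))) := by gcongr
      _ = ((t : ℝ) + 1) ^ 2 * mu (p ^ 2) := by field_simp

theorem zonal_A : ∃ C T0 : ℝ, 0 < C ∧ ∀ (t J : ℕ) (p : Poly) (u v : ℤ → Polynomial ℝ),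
    T0 ≤ (t : ℝ) → Reg t J → p.totalDegree ≤ t → Modes t p u v →
    |SZ J (fun z => (modeA t u v).eval z) - mu (p ^ 2)| ≤
      (0.1205 + C / (t : ℝ)) * mu (p ^ 2) := by
  obtain ⟨C1, T1, hC1, hE⟩ := eq_bound
  obtain ⟨T2, hPA⟩ := poleA
  refine ⟨80 * C1, max (max T1 T2) 1000, by positivity, fun t J p u v ht hR hp hm => ?_⟩
  have h1 : T1 ≤ (t : ℝ) := ((le_max_left _ _).trans (le_max_left _ _)).trans ht
  have h2 : T2 ≤ (t : ℝ) := ((le_max_right _ _).trans (le_max_left _ _)).trans ht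
  have h3 : (1000 : ℝ) ≤ (t : ℝ) := (le_max_right _ _).trans ht
  have h1000 : 1000 ≤ t := by exact_mod_cast h3
  have ht1 : 1 ≤ t := by omega
  have htp : (0 : ℝ) < t := by linarith
  have hJ : 1 ≤ J := by have := J_pos h1000 hR; omega
  have hL := L2_pos J
  have hLt := L2_ge hR
  have hmu : 0 ≤ mu (p ^ 2) := mu_nonneg (fun x _ => by rw [ev_pow]; positivity)
  set B := modeA t u v with hB
  set m := mu (p ^ 2) with hmdef
  have hlamp : 0 < lam t := by unfold lam; positivity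
  have hslt : (t : ℝ) ≤ √(lam t) := by
    apply Real.le_sqrt_of_sq_le
    unfold lam; nlinarith
  have hslu := two_sqrt_lam_le t
  have hT := T_le h1000 hR
  have hTn : (0 : ℝ) ≤ ((t : ℝ) + 1) ^ 2 := by positivity
  -- pole terms
  have hP1 : |PoleF (L2 J) B| ≤ 0.025 * (((t : ℝ) + 1) ^ 2 * m) :=
    hPA t (L2 J) (((t : ℝ) + 1) ^ 2) _ B h2 hLt hTn hT (by positivity) (fun n => tayA hm n)
  have hP2 : |PoleF (L2 J) (refl B)| ≤ 0.025 * (((t : ℝ) + 1) ^ 2 * m) :=
    hPA t (L2 J) (((t : ℝ) + 1) ^ 2) _ (refl B) h2 hLt hTn hT (by positivity)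
      (fun n => tayA_refl hm n)
  -- equator
  set M := 8 * ((t : ℝ) + 1) * m with hM
  have hMn : 0 ≤ M := by positivity
  have hNear : NearHyp (B + refl B) (2 * M) (2 * √(lam t)) := by
    apply nearHyp_sym
    intro k _ ψ hψ
    exact loc_A ht1 hp hm k hψ
  have hcrude : ∀ z : ℝ, z ^ 2 ≤ 1 →
      |(B + refl B).eval z - (B + refl B).eval 0| ≤ (2 * M) * (t : ℝ) ^ 3 := by
    intro z hz
    have e1 : (B + refl B).eval z - (B + refl B).eval 0 =
        (B.eval z + B.eval (-z)) - 2 * B.eval 0 := by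
      simp only [Polynomial.eval_add, refl_eval, neg_zero]
      ring
    have b1 := modeA_bounds hp hm hz
    have b2 := modeA_bounds hp hm (z := -z) (by simpa using hz)
    have b3 := modeA_bounds hp hm (z := 0) (by norm_num)
    rw [← hB] at b1 b2 b3
    rw [← hmdef] at b1 b2 b3
    have e2 : |(B + refl B).eval z - (B + refl B).eval 0| ≤ 2 * (((t : ℝ) + 1) ^ 2 * m) := by
      rw [e1, abs_le]
      constructor <;> linarith [b1.1, b1.2, b2.1, b2.2, b3.1, b3.2]
    refine e2.trans ?_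
    rw [hM]
    have e3 : ((t : ℝ) + 1) ^ 2 ≤ 8 * ((t : ℝ) + 1) * (t : ℝ) ^ 3 := by
      have : (t : ℝ) + 1 ≤ 8 * (t : ℝ) ^ 3 := by
        nlinarith [mul_pos htp htp, pow_pos htp 3, mul_nonneg htp.le (sub_nonneg.mpr h3),
          mul_nonneg (mul_nonneg htp.le htp.le) (sub_nonneg.mpr h3)]
      nlinarith
    nlinarith [mul_le_mul_of_nonneg_right e3 hmu]
  have hdeg : (B + refl B).natDegree ≤ 2 * t := by
    refine (Polynomial.natDegree_add_le _ _).trans ?_
    have hB0 : B.natDegree ≤ 2 * t := modeA_natDegree hm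
    have := refl_natDegree B
    simp only [max_le_iff]
    constructor <;> omega
  have hQ : |EqF J (B + refl B)| ≤ C1 * (2 * M) :=
    hE t J (B + refl B) (2 * M) (2 * √(lam t)) h1 hR hdeg (by positivity) (by linarith)
      hslu hNear hcrude
  have hmain := zonal J hJ B
  have hmusq : m = (1 / 2) * ∫ z in (-1 : ℝ)..1, B.eval z := mu_sq hm
  rw [hmusq, hmain, ← hmusq, abs_div, abs_of_pos hL, div_le_iff₀ hL]
  have hsum : |PoleF (L2 J) B + PoleF (L2 J) (refl B) + EqF J (B + refl B)| ≤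
      0.05 * (((t : ℝ) + 1) ^ 2 * m) + C1 * (2 * M) := by
    calc |PoleF (L2 J) B + PoleF (L2 J) (refl B) + EqF J (B + refl B)|
        ≤ |PoleF (L2 J) B| + |PoleF (L2 J) (refl B)| + |EqF J (B + refl B)| := abs_add_three _ _ _
      _ ≤ 0.025 * (((t : ℝ) + 1) ^ 2 * m) + 0.025 * (((t : ℝ) + 1) ^ 2 * m) + C1 * (2 * M) :=
          add_le_add (add_le_add hP1 hP2) hQ
      _ = 0.05 * (((t : ℝ) + 1) ^ 2 * m) + C1 * (2 * M) := by ring
  refine hsum.trans ?_
  have f1 : 0.05 * (((t : ℝ) + 1) ^ 2 * m) ≤ 0.1205 * m * L2 J := by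
    have := mul_le_mul_of_nonneg_right hT hmu
    nlinarith
  have f2 : C1 * (2 * M) ≤ 80 * C1 / (t : ℝ) * m * L2 J := by
    have g1 : 16 * ((t : ℝ) + 1) ≤ 80 / (t : ℝ) * L2 J := by
      rw [div_mul_eq_mul_div, le_div_iff₀ htp]
      nlinarith
    have g2 : C1 * (2 * M) = C1 * m * (16 * ((t : ℝ) + 1)) := by rw [hM]; ring
    have g3 : 80 * C1 / (t : ℝ) * m * L2 J = C1 * m * (80 / (t : ℝ) * L2 J) := by ring
    rw [g2, g3]
    exact mul_le_mul_of_nonneg_left g1 (by positivity)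
  calc 0.05 * (((t : ℝ) + 1) ^ 2 * m) + C1 * (2 * M)
      ≤ 0.1205 * m * L2 J + 80 * C1 / (t : ℝ) * m * L2 J := add_le_add f1 f2
    _ = (0.1205 + 80 * C1 / (t : ℝ)) * m * L2 J := by ring

end Pool.Agent.Helper83.SD
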