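import Pool.Agent.Helper83.SD.Ring
import Pool.Agent.Helper83.SD.ZA
import Pool.Agent.Helper83.SD.Alias

/-!
Project SD, module C0: the sampling inequality.

`SJ(p^2) ≥ SZ - AL ≥ (1 - 0.1082) SZ - 0.2153 mu ≥ (0.8918 (0.8795 - C/t) - 0.2153) mu
≥ (0.569 - C/t) mu`.
-/

set_option autoImplicit false

open MeasureTheory Real

namespace Pool.Agent.Helper83.SD

theorem sampling : ∃ T0 : ℝ, ∀ t J : ℕ, T0 ≤ (t : ℝ) → Reg t J →
    ∀ p : Poly, p.totalDegree ≤ t → (1 / 2) * mu (p ^ 2) ≤ SJ J (fun x => (ev p x) ^ 2) := by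
  obtain ⟨C, T1, hC, hZ⟩ := zonal_A
  refine ⟨max (max T1 1000) (100 * C), fun t J ht hR p hp => ?_⟩
  have h1 : T1 ≤ (t : ℝ) := ((le_max_left _ _).trans (le_max_left _ _)).trans ht
  have h2 : (1000 : ℝ) ≤ (t : ℝ) := ((le_max_right _ _).trans (le_max_left _ _)).trans ht
  have h3 : 100 * C ≤ (t : ℝ) := (le_max_right _ _).trans ht
  have h1000 : 1000 ≤ t := by exact_mod_cast h2
  have htp : (0 : ℝ) < t := by linarith
  have hCt : C / (t : ℝ) ≤ 0.01 := by
    rw [div_le_iff₀ htp]; linarith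
  obtain ⟨u, v, hm⟩ := exists_modes t p hp
  have hz := hZ t J p u v h1 hR hp hm
  have ha := alias_bound h1000 hR hm
  have hs := SJ_sq hm (J := J) (by have := J_pos h1000 hR; omega) (no_alias h1000 hR)
  have hmu : 0 ≤ mu (p ^ 2) := mu_nonneg (fun x _ => by rw [ev_pow]; positivity)
  set A := SZ J (fun z => (modeA t u v).eval z) with hA
  rw [abs_le] at hz hs
  have h4 : (0.1205 + C / (t : ℝ)) * mu (p ^ 2) ≤ 0.1305 * mu (p ^ 2) := by
    apply mul_le_mul_of_nonneg_right _ hmu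
    linarith
  have h5 : 0.8695 * mu (p ^ 2) ≤ A := by linarith [hz.1]
  linarith [hs.1]

end Pool.Agent.Helper83.SD
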