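import Pool.Agent.Helper83.SD.Meas

/-!
Project SD, module Coord: spherical coordinates.

Both sides are linear functionals `F` on polynomials which depend only on the values on the
sphere, with `F(1) = 1` and `F(L_a p) = 0`; for homogeneous `p` of degree `k ≥ 1`,
`sum_Lr_Lr` gives `F(p) = F(Δ p)/(k(k+1))`, so they agree by induction on the degree.
For the coordinate integral `I(p) = (1/4π) ∫∫ p(pt ψ φ) cos ψ dψ dφ`, `F(L_a p) = 0` is an
integration by parts of smooth functions: with `P(ψ,φ) = p(pt ψ φ)`,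
`L_2 p = ∂_φ P`, `cos ψ L_0 p = sin φ cos ψ ∂_ψ P - cos φ sin ψ ∂_φ P`,
`cos ψ L_1 p = -cos φ cos ψ ∂_ψ P - sin φ sin ψ ∂_φ P`.
-/

set_option autoImplicit false

open MeasureTheory Real

namespace Pool.Agent.Helper83.SD

namespace CoordAux

/-- exchange of two interval integrals -/
theorem swap {f : ℝ → ℝ → ℝ} (hf : Continuous fun q : ℝ × ℝ => f q.1 q.2) {a b c d : ℝ}
    (hab : a ≤ b) (hcd : c ≤ d) :
    ∫ x in a..b, ∫ y in c..d, f x y = ∫ y in c..d, ∫ x in a..b, f x y := by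
  simp only [intervalIntegral.integral_of_le hab, intervalIntegral.integral_of_le hcd]
  apply integral_integral_swap
  rw [Measure.prod_restrict]
  have h1 : IntegrableOn (fun q : ℝ × ℝ => f q.1 q.2) (Set.Icc a b ×ˢ Set.Icc c d)
      ((volume : Measure ℝ).prod volume) :=
    hf.continuousOn.integrableOn_compact (isCompact_Icc.prod isCompact_Icc)
  exact h1.mono_set (Set.prod_mono Set.Ioc_subset_Icc_self Set.Ioc_subset_Icc_self)

theorem pt_cont : Continuous fun q : ℝ × ℝ => pt q.1 q.2 := by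
  unfold pt
  fun_prop

theorem sp_cont : Continuous fun q : ℝ × ℝ => sp q.1 q.2 := by
  unfold sp
  fun_prop

theorem ev_pt_cont (p : Poly) : Continuous fun q : ℝ × ℝ => ev p (pt q.1 q.2) :=
  (ev_continuous p).comp pt_cont

theorem ev_sp_cont (p : Poly) : Continuous fun q : ℝ × ℝ => ev p (sp q.1 q.2) :=
  (ev_continuous p).comp sp_cont

theorem ev_pt_swap (p : Poly) : Continuous fun q : ℝ × ℝ => ev p (pt q.2 q.1) := by
  have h := (ev_pt_cont p).comp continuous_swap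
  exact h

theorem ev_sp_swap (p : Poly) : Continuous fun q : ℝ × ℝ => ev p (sp q.2 q.1) := by
  have h := (ev_sp_cont p).comp continuous_swap
  exact h

theorem left_cont {f : ℝ → ℝ → ℝ} (hf : Continuous fun q : ℝ × ℝ => f q.1 q.2) (φ : ℝ) :
    Continuous fun ψ : ℝ => f ψ φ := by
  have h1 : Continuous fun ψ : ℝ => (ψ, φ) := by fun_prop
  have h := hf.comp h1
  exact h

theorem right_cont {f : ℝ → ℝ → ℝ} (hf : Continuous fun q : ℝ × ℝ => f q.1 q.2) (ψ : ℝ) :
    Continuous fun φ : ℝ => f ψ φ := by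
  have h1 : Continuous fun φ : ℝ => (ψ, φ) := by fun_prop
  have h := hf.comp h1
  exact h

/-- the coordinate functional -/
noncomputable def cI (p : Poly) : ℝ := (1 / (4 * π)) *
      ∫ φ in (0 : ℝ)..(2 * π), ∫ ψ in (-(π / 2))..(π / 2), ev p (pt ψ φ) * cos ψ

theorem outer_integ {f : ℝ → ℝ → ℝ} (hf : Continuous fun q : ℝ × ℝ => f q.1 q.2) (a b c d : ℝ) :
    IntervalIntegrable (fun φ => ∫ ψ in a..b, f ψ φ) volume c d := by
  have h2 : Continuous (Function.uncurry fun φ ψ : ℝ => f ψ φ) := by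
    have h := hf.comp continuous_swap
    exact h
  exact (intervalIntegral.continuous_parametric_intervalIntegral_of_continuous'
    h2 a b).intervalIntegrable _ _

theorem fc (p : Poly) : Continuous fun q : ℝ × ℝ => ev p (pt q.1 q.2) * cos q.1 :=
  (ev_pt_cont p).mul (Real.continuous_cos.comp continuous_fst)

theorem int_add2 {f g : ℝ → ℝ → ℝ} (hf : Continuous fun q : ℝ × ℝ => f q.1 q.2)
    (hg : Continuous fun q : ℝ × ℝ => g q.1 q.2) (a b c d : ℝ) :
    ∫ φ in c..d, ∫ ψ in a..b, (f ψ φ + g ψ φ) =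
      (∫ φ in c..d, ∫ ψ in a..b, f ψ φ) + ∫ φ in c..d, ∫ ψ in a..b, g ψ φ := by
  rw [← intervalIntegral.integral_add (outer_integ hf a b c d) (outer_integ hg a b c d)]
  apply intervalIntegral.integral_congr
  intro φ _
  exact intervalIntegral.integral_add ((left_cont hf φ).intervalIntegrable _ _)
    ((left_cont hg φ).intervalIntegrable _ _)

theorem int_sub2 {f g : ℝ → ℝ → ℝ} (hf : Continuous fun q : ℝ × ℝ => f q.1 q.2)
    (hg : Continuous fun q : ℝ × ℝ => g q.1 q.2) (a b c d : ℝ) :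
    ∫ φ in c..d, ∫ ψ in a..b, (f ψ φ - g ψ φ) =
      (∫ φ in c..d, ∫ ψ in a..b, f ψ φ) - ∫ φ in c..d, ∫ ψ in a..b, g ψ φ := by
  rw [← intervalIntegral.integral_sub (outer_integ hf a b c d) (outer_integ hg a b c d)]
  apply intervalIntegral.integral_congr
  intro φ _
  exact intervalIntegral.integral_sub ((left_cont hf φ).intervalIntegrable _ _)
    ((left_cont hg φ).intervalIntegrable _ _)

theorem cI_add (p q : Poly) : cI (p + q) = cI p + cI q := by
  unfold cI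
  simp only [ev_add, add_mul]
  rw [int_add2 (f := fun ψ φ => ev p (pt ψ φ) * cos ψ) (g := fun ψ φ => ev q (pt ψ φ) * cos ψ)
    (fc p) (fc q), mul_add]

theorem cI_mulC (c : ℝ) (p : Poly) : cI (MvPolynomial.C c * p) = c * cI p := by
  unfold cI
  simp only [ev_mul, ev_C, mul_assoc, intervalIntegral.integral_const_mul]
  ring

theorem cI_congr {p q : Poly} (h : ∀ x : E3, ‖x‖ = 1 → ev p x = ev q x) : cI p = cI q := by
  unfold cI
  simp only [h _ (pt_norm _ _)]

theorem cI_one : cI 1 = 1 := by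
  have h1 : ∀ x : E3, ev 1 x = 1 := by
    intro x
    have := ev_C 1 x
    rwa [MvPolynomial.C_1] at this
  unfold cI
  simp only [h1, one_mul, integral_cos, intervalIntegral.integral_const, smul_eq_mul,
    Real.sin_neg, Real.sin_pi_div_two]
  have := Real.pi_pos
  field_simp
  ring

theorem Z1 {G g : ℝ → ℝ → ℝ} (hG : ∀ ψ φ, HasDerivAt (fun r => G r φ) (g ψ φ) ψ)
    (hc : Continuous fun q : ℝ × ℝ => g q.1 q.2) (hb : ∀ φ, G (π / 2) φ = G (-(π / 2)) φ) :
    ∫ φ in (0 : ℝ)..(2 * π), ∫ ψ in (-(π / 2))..(π / 2), g ψ φ = 0 := by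
  have h : ∀ φ : ℝ, ∫ ψ in (-(π / 2))..(π / 2), g ψ φ = 0 := by
    intro φ
    have h1 : ∫ ψ in (-(π / 2))..(π / 2), g ψ φ = G (π / 2) φ - G (-(π / 2)) φ :=
      intervalIntegral.integral_eq_sub_of_hasDerivAt (f := fun r => G r φ)
        (fun ψ _ => hG ψ φ) ((left_cont hc φ).intervalIntegrable _ _)
    rw [h1, hb, sub_self]
  simp only [h, intervalIntegral.integral_zero]

theorem Z2 {G g : ℝ → ℝ → ℝ} (hG : ∀ ψ φ, HasDerivAt (fun r => G ψ r) (g ψ φ) φ)
    (hc : Continuous fun q : ℝ × ℝ => g q.1 q.2) (hb : ∀ ψ, G ψ (2 * π) = G ψ 0) :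
    ∫ φ in (0 : ℝ)..(2 * π), ∫ ψ in (-(π / 2))..(π / 2), g ψ φ = 0 := by
  have h0 : Continuous fun q : ℝ × ℝ => g q.2 q.1 := hc.comp continuous_swap
  have hs : ∫ φ in (0 : ℝ)..(2 * π), ∫ ψ in (-(π / 2))..(π / 2), g ψ φ =
      ∫ ψ in (-(π / 2))..(π / 2), ∫ φ in (0 : ℝ)..(2 * π), g ψ φ :=
    swap (f := fun φ ψ => g ψ φ) h0 (by positivity) (by linarith [Real.pi_pos])
  rw [hs]
  have h : ∀ ψ : ℝ, ∫ φ in (0 : ℝ)..(2 * π), g ψ φ = 0 := by
    intro ψ
    have h1 : ∫ φ in (0 : ℝ)..(2 * π), g ψ φ = G ψ (2 * π) - G ψ 0 :=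
      intervalIntegral.integral_eq_sub_of_hasDerivAt (f := fun r => G ψ r)
        (fun φ _ => hG ψ φ) ((right_cont hc ψ).intervalIntegrable _ _)
    rw [h1, hb, sub_self]
  simp only [h, intervalIntegral.integral_zero]

/-- latitude derivative -/
noncomputable def dps (p : Poly) (ψ φ : ℝ) : ℝ :=
  ev (MvPolynomial.pderiv 0 p) (pt ψ φ) * (-(sin ψ * cos φ)) +
  ev (MvPolynomial.pderiv 1 p) (pt ψ φ) * (-(sin ψ * sin φ)) +
  ev (MvPolynomial.pderiv 2 p) (pt ψ φ) * cos ψ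

/-- longitude derivative -/
noncomputable def dph (p : Poly) (ψ φ : ℝ) : ℝ :=
  ev (MvPolynomial.pderiv 0 p) (pt ψ φ) * (-(cos ψ * sin φ)) +
  ev (MvPolynomial.pderiv 1 p) (pt ψ φ) * (cos ψ * cos φ)

theorem dps_cont (p : Poly) : Continuous fun q : ℝ × ℝ => dps p q.1 q.2 := by
  unfold dps
  have h0 := ev_pt_cont (MvPolynomial.pderiv 0 p)
  have h1 := ev_pt_cont (MvPolynomial.pderiv 1 p)
  have h2 := ev_pt_cont (MvPolynomial.pderiv 2 p)
  fun_prop

theorem dph_cont (p : Poly) : Continuous fun q : ℝ × ℝ => dph p q.1 q.2 := by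
  unfold dph
  have h0 := ev_pt_cont (MvPolynomial.pderiv 0 p)
  have h1 := ev_pt_cont (MvPolynomial.pderiv 1 p)
  fun_prop

theorem hd_ps (p : Poly) (ψ φ : ℝ) :
    HasDerivAt (fun r => ev p (pt r φ)) (dps p ψ φ) ψ := by
  have h := ((Real.hasDerivAt_cos ψ).smul_const (!₂[cos φ, sin φ, 0] : E3)).add
    ((Real.hasDerivAt_sin ψ).smul_const (!₂[0, 0, 1] : E3))
  have e1 : (fun r => pt r φ) = fun r => cos r • (!₂[cos φ, sin φ, 0] : E3) +
      sin r • (!₂[0, 0, 1] : E3) := by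
    funext r
    ext i
    fin_cases i <;> simp [pt]
  have h2 : HasDerivAt (fun r => pt r φ) (-sin ψ • (!₂[cos φ, sin φ, 0] : E3) +
      cos ψ • (!₂[0, 0, 1] : E3)) ψ := by
    rw [e1]
    exact h
  have h3 := hasDerivAt_ev p h2
  convert h3 using 1
  unfold dps
  simp [Fin.sum_univ_three]

theorem hd_ph (p : Poly) (ψ φ : ℝ) :
    HasDerivAt (fun r => ev p (pt ψ r)) (dph p ψ φ) φ := by
  have h := (((Real.hasDerivAt_cos φ).smul_const (!₂[cos ψ, 0, 0] : E3)).add
    ((Real.hasDerivAt_sin φ).smul_const (!₂[0, cos ψ, 0] : E3))).add_const (!₂[0, 0, sin ψ] : E3)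
  have e1 : (fun r => pt ψ r) = fun r => (cos r • (!₂[cos ψ, 0, 0] : E3) +
      sin r • (!₂[0, cos ψ, 0] : E3)) + (!₂[0, 0, sin ψ] : E3) := by
    funext r
    ext i
    fin_cases i <;> simp [pt, mul_comm]
  have h2 : HasDerivAt (fun r => pt ψ r) (-sin φ • (!₂[cos ψ, 0, 0] : E3) +
      cos φ • (!₂[0, cos ψ, 0] : E3)) φ := by
    rw [e1]
    exact h
  have h3 := hasDerivAt_ev p h2
  convert h3 using 1
  unfold dph
  simp [Fin.sum_univ_three]
  ring

theorem L0_pt (p : Poly) (ψ φ : ℝ) : ev (Lr 0 p) (pt ψ φ) =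
    cos ψ * sin φ * ev (MvPolynomial.pderiv 2 p) (pt ψ φ)
      - sin ψ * ev (MvPolynomial.pderiv 1 p) (pt ψ φ) := by
  simp [Lr, ev, pt]

theorem L1_pt (p : Poly) (ψ φ : ℝ) : ev (Lr 1 p) (pt ψ φ) =
    sin ψ * ev (MvPolynomial.pderiv 0 p) (pt ψ φ)
      - cos ψ * cos φ * ev (MvPolynomial.pderiv 2 p) (pt ψ φ) := by
  simp [Lr, ev, pt]

theorem L2_pt (p : Poly) (ψ φ : ℝ) : ev (Lr 2 p) (pt ψ φ) =
    cos ψ * cos φ * ev (MvPolynomial.pderiv 1 p) (pt ψ φ)
      - cos ψ * sin φ * ev (MvPolynomial.pderiv 0 p) (pt ψ φ) := by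
  simp [Lr, ev, pt]

theorem pt_per (ψ : ℝ) : pt ψ (2 * π) = pt ψ 0 := by
  unfold pt
  simp

theorem hd1 (p : Poly) (ψ φ : ℝ) : HasDerivAt (fun r => cos r * ev p (pt r φ))
    (cos ψ * dps p ψ φ + (-sin ψ) * ev p (pt ψ φ)) ψ := by
  have h := (Real.hasDerivAt_cos ψ).mul (hd_ps p ψ φ)
  have e : cos ψ * dps p ψ φ + (-sin ψ) * ev p (pt ψ φ) =
      (-sin ψ) * ev p (pt ψ φ) + cos ψ * dps p ψ φ := by ring
  rw [e]
  exact h

theorem hd2 (p : Poly) (ψ φ : ℝ) : HasDerivAt (fun r => cos r * ev p (pt ψ r))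
    (cos φ * dph p ψ φ + (-sin φ) * ev p (pt ψ φ)) φ := by
  have h := (Real.hasDerivAt_cos φ).mul (hd_ph p ψ φ)
  have e : cos φ * dph p ψ φ + (-sin φ) * ev p (pt ψ φ) =
      (-sin φ) * ev p (pt ψ φ) + cos φ * dph p ψ φ := by ring
  rw [e]
  exact h

theorem hd3 (p : Poly) (ψ φ : ℝ) : HasDerivAt (fun r => sin r * ev p (pt ψ r))
    (sin φ * dph p ψ φ + cos φ * ev p (pt ψ φ)) φ := by
  have h := (Real.hasDerivAt_sin φ).mul (hd_ph p ψ φ)
  have e : sin φ * dph p ψ φ + cos φ * ev p (pt ψ φ) =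
      cos φ * ev p (pt ψ φ) + sin φ * dph p ψ φ := by ring
  rw [e]
  exact h

theorem cI_L0 (p : Poly) : cI (Lr 0 p) = 0 := by
  have hP := ev_pt_cont p
  have hps := dps_cont p
  have hph := dph_cont p
  have c1 : Continuous fun q : ℝ × ℝ => sin q.2 * (cos q.1 * dps p q.1 q.2 +
      (-sin q.1) * ev p (pt q.1 q.2)) := by fun_prop
  have c2 : Continuous fun q : ℝ × ℝ => sin q.1 * (cos q.2 * dph p q.1 q.2 +
      (-sin q.2) * ev p (pt q.1 q.2)) := by fun_prop
  have z1 := Z1 (G := fun ψ φ => sin φ * (cos ψ * ev p (pt ψ φ)))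
    (g := fun ψ φ => sin φ * (cos ψ * dps p ψ φ + (-sin ψ) * ev p (pt ψ φ)))
    (fun ψ φ => (hd1 p ψ φ).const_mul (sin φ)) c1 (fun φ => by simp)
  have z2 := Z2 (G := fun ψ φ => sin ψ * (cos φ * ev p (pt ψ φ)))
    (g := fun ψ φ => sin ψ * (cos φ * dph p ψ φ + (-sin φ) * ev p (pt ψ φ)))
    (fun ψ φ => (hd2 p ψ φ).const_mul (sin ψ)) c2 (fun ψ => by rw [pt_per]; simp)
  have e : ∫ φ in (0 : ℝ)..(2 * π), ∫ ψ in (-(π / 2))..(π / 2),
      ev (Lr 0 p) (pt ψ φ) * cos ψ = ∫ φ in (0 : ℝ)..(2 * π), ∫ ψ in (-(π / 2))..(π / 2),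
      (sin φ * (cos ψ * dps p ψ φ + (-sin ψ) * ev p (pt ψ φ)) -
        sin ψ * (cos φ * dph p ψ φ + (-sin φ) * ev p (pt ψ φ))) := by
    apply intervalIntegral.integral_congr
    intro φ _
    apply intervalIntegral.integral_congr
    intro ψ _
    have h2 := Real.sin_sq_add_cos_sq φ
    simp only [L0_pt, dps, dph]
    linear_combination (sin ψ * cos ψ * ev (MvPolynomial.pderiv 1 p) (pt ψ φ)) * h2
  unfold cI
  rw [e, int_sub2 c1 c2, z1, z2]
  ring

theorem cI_L1 (p : Poly) : cI (Lr 1 p) = 0 := by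
  have hP := ev_pt_cont p
  have hps := dps_cont p
  have hph := dph_cont p
  have c1 : Continuous fun q : ℝ × ℝ => (-cos q.2) * (cos q.1 * dps p q.1 q.2 +
      (-sin q.1) * ev p (pt q.1 q.2)) := by fun_prop
  have c2 : Continuous fun q : ℝ × ℝ => sin q.1 * (sin q.2 * dph p q.1 q.2 +
      cos q.2 * ev p (pt q.1 q.2)) := by fun_prop
  have z1 := Z1 (G := fun ψ φ => (-cos φ) * (cos ψ * ev p (pt ψ φ)))
    (g := fun ψ φ => (-cos φ) * (cos ψ * dps p ψ φ + (-sin ψ) * ev p (pt ψ φ)))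
    (fun ψ φ => (hd1 p ψ φ).const_mul (-cos φ)) c1 (fun φ => by simp)
  have z2 := Z2 (G := fun ψ φ => sin ψ * (sin φ * ev p (pt ψ φ)))
    (g := fun ψ φ => sin ψ * (sin φ * dph p ψ φ + cos φ * ev p (pt ψ φ)))
    (fun ψ φ => (hd3 p ψ φ).const_mul (sin ψ)) c2 (fun ψ => by rw [pt_per]; simp)
  have e : ∫ φ in (0 : ℝ)..(2 * π), ∫ ψ in (-(π / 2))..(π / 2),
      ev (Lr 1 p) (pt ψ φ) * cos ψ = ∫ φ in (0 : ℝ)..(2 * π), ∫ ψ in (-(π / 2))..(π / 2),
      ((-cos φ) * (cos ψ * dps p ψ φ + (-sin ψ) * ev p (pt ψ φ)) -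
        sin ψ * (sin φ * dph p ψ φ + cos φ * ev p (pt ψ φ))) := by
    apply intervalIntegral.integral_congr
    intro φ _
    apply intervalIntegral.integral_congr
    intro ψ _
    have h2 := Real.sin_sq_add_cos_sq φ
    simp only [L1_pt, dps, dph]
    linear_combination (-(sin ψ * cos ψ * ev (MvPolynomial.pderiv 0 p) (pt ψ φ))) * h2
  unfold cI
  rw [e, int_sub2 c1 c2, z1, z2]
  ring

theorem cI_L2 (p : Poly) : cI (Lr 2 p) = 0 := by
  have hph := dph_cont p
  have c2 : Continuous fun q : ℝ × ℝ => cos q.1 * dph p q.1 q.2 := by fun_prop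
  have z2 := Z2 (G := fun ψ φ => cos ψ * ev p (pt ψ φ))
    (g := fun ψ φ => cos ψ * dph p ψ φ)
    (fun ψ φ => (hd_ph p ψ φ).const_mul (cos ψ)) c2 (fun ψ => by rw [pt_per])
  have e : ∫ φ in (0 : ℝ)..(2 * π), ∫ ψ in (-(π / 2))..(π / 2),
      ev (Lr 2 p) (pt ψ φ) * cos ψ = ∫ φ in (0 : ℝ)..(2 * π), ∫ ψ in (-(π / 2))..(π / 2),
      cos ψ * dph p ψ φ := by
    apply intervalIntegral.integral_congr
    intro φ _
    apply intervalIntegral.integral_congr
    intro ψ _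
    simp only [L2_pt, dph]
    ring
  unfold cI
  rw [e, z2]
  ring

theorem cI_L (a : Fin 3) (p : Poly) : cI (Lr a p) = 0 := by
  fin_cases a
  · exact cI_L0 p
  · exact cI_L1 p
  · exact cI_L2 p

/-- uniqueness of the invariant functional -/
theorem uniq (F : Poly → ℝ) (hadd : ∀ p q, F (p + q) = F p + F q)
    (hC : ∀ c p, F (MvPolynomial.C c * p) = c * F p) (hone : F 1 = 1)
    (hcongr : ∀ p q : Poly, (∀ x : E3, ‖x‖ = 1 → ev p x = ev q x) → F p = F q)
    (hL : ∀ a p, F (Lr a p) = 0) (p : Poly) : F p = mu p := by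
  have h0 : F 0 = 0 := by
    have := hadd 0 0
    rw [add_zero] at this
    linarith
  have hsum : ∀ {ι : Type} (s : Finset ι) (f : ι → Poly), F (∑ i ∈ s, f i) = ∑ i ∈ s, F (f i) := by
    intro ι s f
    classical
    induction s using Finset.induction_on with
    | empty => simpa using h0
    | insert a s ha ih => rw [Finset.sum_insert ha, Finset.sum_insert ha, hadd, ih]
  have hmuC : ∀ (c : ℝ) (p : Poly), mu (MvPolynomial.C c * p) = c * mu p := by
    intro c p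
    rw [← MvPolynomial.smul_eq_C_mul, mu_smul]
  have key : ∀ k : ℕ, ∀ p : Poly, p.IsHomogeneous k → F p = mu p := by
    intro k
    induction k using Nat.strong_induction_on with
    | _ k ih =>
      intro p hp
      rcases Nat.eq_zero_or_pos k with hk | hk
      · subst hk
        have h1 : p = MvPolynomial.C (MvPolynomial.coeff 0 p) := by
          apply MvPolynomial.totalDegree_eq_zero_iff_eq_C.mp
          exact Nat.le_zero.mp hp.totalDegree_le
        rw [h1, mu_C]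
        have := hC (MvPolynomial.coeff 0 p) 1
        rw [mul_one, hone, mul_one] at this
        exact this
      · set D : Poly := ∑ i, MvPolynomial.pderiv i (MvPolynomial.pderiv i p) with hD
        have hDh : D.IsHomogeneous (k - 1 - 1) := by
          rw [hD]
          apply MvPolynomial.IsHomogeneous.sum
          intro i _
          exact hp.pderiv.pderiv
        have hDF := ih (k - 1 - 1) (by omega) D hDh
        have hs := sum_Lr_Lr hp
        rw [← hD] at hs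
        have e1 : (∑ i, (MvPolynomial.X i : Poly) ^ 2) * D =
            ∑ a, Lr a (Lr a p) + MvPolynomial.C ((k : ℝ) * ((k : ℝ) + 1)) * p := by
          rw [hs]
          ring
        have e2 : ∀ x : E3, ‖x‖ = 1 → ev ((∑ i, (MvPolynomial.X i : Poly) ^ 2) * D) x = ev D x := by
          intro x hx
          have : ev (∑ i, (MvPolynomial.X i : Poly) ^ 2) x = 1 := by
            rw [ev_sum]
            simp only [ev_pow, ev_X]
            rw [EuclideanSpace.norm_eq, Real.sqrt_eq_one] at hx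
            simpa using hx
          rw [ev_mul, this, one_mul]
        have f1 := hcongr _ _ e2
        have f2 := mu_congr e2
        rw [e1, hadd, hsum, hC] at f1
        rw [e1, mu_add, mu_sum, hmuC] at f2
        simp only [hL, mu_Lr, Finset.sum_const_zero, zero_add] at f1 f2
        have hk' : (0 : ℝ) < (k : ℝ) * ((k : ℝ) + 1) := by
          have : (0 : ℝ) < k := by exact_mod_cast hk
          positivity
        have : (k : ℝ) * ((k : ℝ) + 1) * F p = (k : ℝ) * ((k : ℝ) + 1) * mu p := by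
          rw [f1, f2, hDF]
        exact mul_left_cancel₀ hk'.ne' this
  rw [← MvPolynomial.sum_homogeneousComponent p, hsum, mu_sum]
  apply Finset.sum_congr rfl
  intro i _
  exact key i _ (MvPolynomial.homogeneousComponent_isHomogeneous i p)

end CoordAux

open CoordAux

theorem mu_pt (p : Poly) :
    mu p = (1 / (4 * π)) *
      ∫ φ in (0 : ℝ)..(2 * π), ∫ ψ in (-(π / 2))..(π / 2), ev p (pt ψ φ) * cos ψ :=
  (uniq cI cI_add cI_mulC cI_one (fun _ _ h => cI_congr h) cI_L p).symm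

theorem mu_sp (p : Poly) :
    mu p = (1 / (4 * π)) * ∫ φ in (0 : ℝ)..(2 * π), ∫ z in (-1 : ℝ)..1, ev p (sp z φ) := by
  rw [mu_pt]
  refine congrArg (fun t => (1 / (4 * π)) * t) ?_
  apply intervalIntegral.integral_congr
  intro φ _
  have hg : Continuous (fun z : ℝ => ev p (sp z φ)) := left_cont (f := fun z φ => ev p (sp z φ))
    (ev_sp_cont p) φ
  have h : ∫ x in (-(π / 2))..(π / 2), ((fun z : ℝ => ev p (sp z φ)) ∘ sin) x * cos x =
      ∫ x in (sin (-(π / 2)))..(sin (π / 2)), ev p (sp x φ) :=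
    intervalIntegral.integral_comp_mul_deriv (fun x _ => Real.hasDerivAt_sin x)
      Real.continuous_cos.continuousOn hg
  rw [Real.sin_neg, Real.sin_pi_div_two] at h
  show ∫ ψ in (-(π / 2))..(π / 2), ev p (pt ψ φ) * cos ψ = ∫ z in (-1 : ℝ)..1, ev p (sp z φ)
  rw [← h]
  apply intervalIntegral.integral_congr
  intro ψ hψ
  rw [Set.uIcc_of_le (by linarith [Real.pi_pos])] at hψ
  show ev p (pt ψ φ) * cos ψ = ev p (sp (sin ψ) φ) * cos ψ
  rw [sp_sin (abs_le.mpr ⟨by linarith [hψ.1], hψ.2⟩)]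

theorem mu_sp' (p : Poly) :
    mu p = (1 / 2) * ∫ z in (-1 : ℝ)..1,
      ((1 / (2 * π)) * ∫ φ in (0 : ℝ)..(2 * π), ev p (sp z φ)) := by
  have h1 := ev_sp_swap p
  have h2 : ∫ φ in (0 : ℝ)..(2 * π), ∫ z in (-1 : ℝ)..1, ev p (sp z φ) =
      ∫ z in (-1 : ℝ)..1, ∫ φ in (0 : ℝ)..(2 * π), ev p (sp z φ) :=
    swap (f := fun φ z => ev p (sp z φ)) h1 (by positivity) (by norm_num)
  rw [mu_sp, h2, intervalIntegral.integral_const_mul]
  field_simp
  norm_num

theorem mu_pt' (p : Poly) :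
    mu p = (1 / 2) * ∫ ψ in (-(π / 2))..(π / 2),
      ((1 / (2 * π)) * ∫ φ in (0 : ℝ)..(2 * π), ev p (pt ψ φ)) * cos ψ := by
  have h1 : Continuous fun q : ℝ × ℝ => ev p (pt q.2 q.1) * cos q.2 :=
    (ev_pt_swap p).mul (Real.continuous_cos.comp continuous_snd)
  have h2 : ∫ φ in (0 : ℝ)..(2 * π), ∫ ψ in (-(π / 2))..(π / 2), ev p (pt ψ φ) * cos ψ =
      ∫ ψ in (-(π / 2))..(π / 2), ∫ φ in (0 : ℝ)..(2 * π), ev p (pt ψ φ) * cos ψ :=
    swap (f := fun φ ψ => ev p (pt ψ φ) * cos ψ) h1 (by positivity) (by linarith [Real.pi_pos])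
  rw [mu_pt, h2]
  simp only [intervalIntegral.integral_mul_const, mul_assoc, intervalIntegral.integral_const_mul]
  field_simp
  norm_num

end Pool.Agent.Helper83.SD
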