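import Mathlib

/-!
Project SD (MP_a1e37a_co): spherical t-designs on the 2-sphere with at most (5/2) t^2 points.
Definitions.
-/

set_option autoImplicit false

open MeasureTheory Real

namespace Pool.Agent.Helper83.SD

abbrev E3 := EuclideanSpace ℝ (Fin 3)
abbrev Poly := MvPolynomial (Fin 3) ℝ

/-! ### polynomials on the sphere -/

/-- value of a polynomial at a point -/
noncomputable def ev (p : Poly) (x : E3) : ℝ := MvPolynomial.eval (fun i => x i) p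

/-- mean over the unit sphere -/
noncomputable def mu (p : Poly) : ℝ :=
  ⨍ y : Metric.sphere (0 : E3) 1, ev p (y : E3) ∂((volume : Measure E3).toSphere)

/-- rotational derivatives: `Lr 0 = y ∂z - z ∂y`, `Lr 1 = z ∂x - x ∂z`, `Lr 2 = x ∂y - y ∂x` -/
noncomputable def Lr (a : Fin 3) : Derivation ℝ Poly Poly :=
  (MvPolynomial.X (a + 1) : Poly) • MvPolynomial.pderiv (a + 2)
    - (MvPolynomial.X (a + 2) : Poly) • MvPolynomial.pderiv (a + 1)

/-- gradient form -/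
noncomputable def gr (p q : Poly) : ℝ := ∑ a, mu (Lr a p * Lr a q)

/-- gradient energy -/
noncomputable def en (p : Poly) : ℝ := gr p p

/-- the top eigenvalue -/
noncomputable def lam (t : ℕ) : ℝ := (t : ℝ) * ((t : ℝ) + 1)

/-- point of the sphere with height `z` and longitude `φ` -/
noncomputable def sp (z φ : ℝ) : E3 := !₂[√(1 - z ^ 2) * cos φ, √(1 - z ^ 2) * sin φ, z]

/-- point of the sphere with latitude `ψ` and longitude `φ` -/
noncomputable def pt (ψ φ : ℝ) : E3 := !₂[cos ψ * cos φ, cos ψ * sin φ, sin ψ]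

/-! ### the base configuration: `6 J^2 + 2` points on rings -/

noncomputable def L2 (J : ℕ) : ℝ := (J : ℝ) ^ 2 + 1 / 3

/-- height of ring `j` (`1 ≤ j < J`), which has `6 j` points -/
noncomputable def zr (J j : ℕ) : ℝ := 1 - ((j : ℝ) ^ 2 + 1 / 6) / L2 J

/-- mean of `F` over `n` equally spaced points of height `z` -/
noncomputable def rmean (n : ℕ) (z : ℝ) (F : E3 → ℝ) : ℝ :=
  (1 / (n : ℝ)) * ∑ i ∈ Finset.range n, F (sp z (2 * π * (i : ℝ) / (n : ℝ)))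

/-- the mean over the base configuration -/
noncomputable def SJ (J : ℕ) (F : E3 → ℝ) : ℝ :=
  (F (sp 1 0) + F (sp (-1) 0)
    + ∑ j ∈ Finset.Ico 1 J, 6 * (j : ℝ) * (rmean (6 * j) (zr J j) F + rmean (6 * j) (-(zr J j)) F)
    + 6 * (J : ℝ) * rmean (6 * J) 0 F) / (6 * (J : ℝ) ^ 2 + 2)

/-- the zonal version -/
noncomputable def SZ (J : ℕ) (B : ℝ → ℝ) : ℝ :=
  (B 1 + B (-1) + ∑ j ∈ Finset.Ico 1 J, 6 * (j : ℝ) * (B (zr J j) + B (-(zr J j)))
    + 6 * (J : ℝ) * B 0) / (6 * (J : ℝ) ^ 2 + 2)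

/-- the regime used: `0.645 t ≤ J ≤ 0.65 t` -/
structure Reg (t J : ℕ) : Prop where
  lo : 0.645 * (t : ℝ) ≤ J
  hi : (J : ℝ) ≤ 0.65 * t

/-! ### decomposition into modes -/

/-- `u m + i v m` is the polynomial part of the Fourier mode `m` of `p` -/
structure Modes (t : ℕ) (p : Poly) (u v : ℤ → Polynomial ℝ) : Prop where
  degu : ∀ m : ℤ, m.natAbs ≤ t → (u m).natDegree ≤ t - m.natAbs
  degv : ∀ m : ℤ, m.natAbs ≤ t → (v m).natDegree ≤ t - m.natAbs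
  outu : ∀ m : ℤ, t < m.natAbs → u m = 0
  outv : ∀ m : ℤ, t < m.natAbs → v m = 0
  v0 : v 0 = 0
  eq : ∀ z φ : ℝ, z ^ 2 ≤ 1 → ((ev p (sp z φ) : ℝ) : ℂ) =
    ∑ m ∈ Finset.Icc (-(t : ℤ)) t, ((√(1 - z ^ 2) ^ m.natAbs : ℝ) : ℂ) *
      ((((u m).eval z : ℝ) : ℂ) + (((v m).eval z : ℝ) : ℂ) * Complex.I) *
      Complex.exp (Complex.I * (m : ℂ) * (φ : ℂ))

/-- weighted square norm of a polynomial in the height -/
noncomputable def nrm (k : ℕ) (g : Polynomial ℝ) : ℝ :=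
  (1 / 2) * ∫ z in (-1 : ℝ)..1, (1 - z ^ 2) ^ k * (g.eval z) ^ 2

/-- square norm of mode `m` -/
noncomputable def nmode (u v : ℤ → Polynomial ℝ) (m : ℤ) : ℝ :=
  nrm m.natAbs (u m) + nrm m.natAbs (v m)

/-- gradient energy part of mode `m ≠ 0` -/
noncomputable def gmode (u v : ℤ → Polynomial ℝ) (m : ℤ) : ℝ :=
  (m : ℝ) ^ 2 * (nrm (m.natAbs - 1) (u m) + nrm (m.natAbs - 1) (v m))

/-- amplitude of mode `m` at height `z` -/
noncomputable def Fm (u v : ℤ → Polynomial ℝ) (m : ℤ) (z : ℝ) : ℝ :=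
  √((1 - z ^ 2) ^ m.natAbs * (((u m).eval z) ^ 2 + ((v m).eval z) ^ 2))

/-- the mean of `p^2` over the circle of height `z`, as a polynomial in `z` -/
noncomputable def modeA (t : ℕ) (u v : ℤ → Polynomial ℝ) : Polynomial ℝ :=
  ∑ m ∈ Finset.Icc (-(t : ℤ)) t, (1 - Polynomial.X ^ 2) ^ m.natAbs * ((u m) ^ 2 + (v m) ^ 2)

/-! ### Euler-Maclaurin functionals -/

noncomputable def wt (y : ℝ) : ℝ := 1 / (Real.exp (2 * π * y) - 1)

/-- the Abel-Plana functional at `a` -/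
noncomputable def Lam (a : ℝ) (f : Polynomial ℝ) : ℝ :=
  2 * ∫ y in Set.Ioi (0 : ℝ),
    (Polynomial.aeval ((a : ℂ) + Complex.I * (y : ℂ)) f).im * wt y

/-- the error functional of the pole -/
noncomputable def PoleF (L : ℝ) (B : Polynomial ℝ) : ℝ :=
  B.eval 1 / 6 - (1 / 2) * (∫ s in (0 : ℝ)..(1 / 6), B.eval (1 - s / L))
    - 2 * ∫ y in Set.Ioi (0 : ℝ), y * B.eval (1 + (y ^ 2 - 1 / 6) / L) * wt y

/-- the complex height reached by the Abel-Plana contour at the equator -/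
noncomputable def zeta (J : ℕ) (y : ℝ) : ℂ :=
  (((1 / 6 + y ^ 2) / L2 J : ℝ) : ℂ) - (((2 * (J : ℝ) * y) / L2 J : ℝ) : ℂ) * Complex.I

/-- the error functional of the equator (for even polynomials) -/
noncomputable def EqF (J : ℕ) (B : Polynomial ℝ) : ℝ :=
  ((J : ℝ) / 2) * (B.eval 0 - B.eval (1 / 6 / L2 J))
    - (1 / 2) * (∫ s in (0 : ℝ)..(1 / 6), B.eval (s / L2 J))
    + 2 * ∫ y in Set.Ioi (0 : ℝ),
        (((J : ℂ) + Complex.I * (y : ℂ)) * Polynomial.aeval (zeta J y) B).im * wt y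

/-- reflected polynomial -/
noncomputable def refl (B : Polynomial ℝ) : Polynomial ℝ := B.comp (-Polynomial.X)

/-- coefficients of the pole functional -/
noncomputable def gam (n : ℕ) : ℝ :=
  (if n = 0 then 1 / 6 else 0) - (1 / 2) * (-1) ^ n * (1 / 6) ^ (n + 1) / ((n + 1).factorial : ℝ)
    - (2 / (n.factorial : ℝ)) * ∫ y in Set.Ioi (0 : ℝ), y * (y ^ 2 - 1 / 6) ^ n * wt y

/-- bound for `|gam n|`, `n ≥ 3` -/
noncomputable def cc (n : ℕ) : ℝ :=
  (1 / 6) ^ (n + 1) / (2 * ((n + 1).factorial : ℝ)) + (2 / (n.factorial : ℝ)) *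
    ((1 / 6) ^ n / 24 + 1.01 * ((2 * n + 1).factorial : ℝ) / (2 * π) ^ (2 * n + 2))

/-- majorant coefficients of the mean square -/
noncomputable def Phc (n : ℕ) : ℝ :=
  ((2 * n).choose n : ℝ) / ((n.factorial : ℝ) ^ 2 * √(2 * n + 1))

/-- coefficient of `w^n` in `(1 + w/2)^t * Φ(T w / 2)` -/
noncomputable def Psc (t : ℕ) (T : ℝ) (n : ℕ) : ℝ :=
  ∑ k ∈ Finset.range (n + 1), ((t.choose k : ℝ) / 2 ^ k) * (Phc (n - k) * (T / 2) ^ (n - k))

/-- even polynomial whose pullback by the sine has derivatives of order `k ≥ 1` bounded by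
`M Λ^k` near the equator -/
structure NearHyp (B : Polynomial ℝ) (M Λ : ℝ) : Prop where
  even : ∀ z : ℝ, B.eval (-z) = B.eval z
  der : ∀ k : ℕ, 1 ≤ k → ∀ ψ : ℝ, |ψ| ≤ π / 4 →
    |iteratedDeriv k (fun s => B.eval (sin s)) ψ| ≤ M * Λ ^ k

/-- mean square over circles of the `k`-th latitude derivative -/
noncomputable def Nk (k : ℕ) (p : Poly) (ψ : ℝ) : ℝ :=
  (1 / (2 * π)) * ∫ φ in (0 : ℝ)..(2 * π), (iteratedDeriv k (fun s => ev p (pt s φ)) ψ) ^ 2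

/-! ### aliasing weights -/

/-- mass of mode `m` on ring `j` -/
noncomputable def Wt (j m : ℕ) : ℝ :=
  2.41 * (j : ℝ) * (1.205 * ((j : ℝ) ^ 2 + 1 / 6)) ^ m / (((m : ℝ) + 1) * (m.factorial : ℝ) ^ 2)

/-- aliasing sum of a ring of `n` points at height `z` -/
noncomputable def cross (t n : ℕ) (u v : ℤ → Polynomial ℝ) (z : ℝ) : ℝ :=
  ∑ m ∈ Finset.Icc (-(t : ℤ)) t,
    ∑ m' ∈ (Finset.Icc (-(t : ℤ)) t).filter (fun m' => m' ≠ m ∧ (n : ℤ) ∣ m - m'),
      Fm u v m z * Fm u v m' z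

/-- total aliasing sum -/
noncomputable def AL (t J : ℕ) (u v : ℤ → Polynomial ℝ) : ℝ :=
  ∑ j ∈ Finset.Ico 1 J, 6 * (j : ℝ) / (6 * (J : ℝ) ^ 2 + 2) *
    (cross t (6 * j) u v (zr J j) + cross t (6 * j) u v (-(zr J j)))

/-- harmonic sum of a ring of `n` points at height `z` -/
noncomputable def hsum (t n : ℕ) (u : ℤ → Polynomial ℝ) (z : ℝ) : ℝ :=
  ∑ m ∈ (Finset.Icc (-(t : ℤ)) t).filter (fun m => m ≠ 0 ∧ (n : ℤ) ∣ m),
    √(1 - z ^ 2) ^ m.natAbs * |(u m).eval z|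

/-- coefficients of the harmonic error -/
noncomputable def hh (k : ℕ) : ℝ :=
  ∑ j ∈ (Finset.Icc 1 k).filter (fun j => j ∣ k),
    2 * (j : ℝ) * (2 / √(6 * (k : ℝ))) * (1.205 * ((j : ℝ) ^ 2 + 1 / 6)) ^ (3 * k) /
      ((6 * k).factorial : ℝ)

end Pool.Agent.Helper83.SD
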