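import Pool.Agent.Helper83.SD.Basic

/-!
Project SD, module NumH: numerical bound for the harmonic sum.

`hh 1 = 0.0063017`, `hh 2 = 0.0000773`, `hh 3 < 2e-6`; total `Σ 2 hh^2 = 7.944e-5 < 8.1e-5`.
For `k ≥ 3`: `hh k ≤ 2 k^2 (1.205 (k^2+1/6))^(3k)/(6k)!` and `(6k)! ≥ (6k/e)^(6k)`:
`(1.205 (k^2 + 1/6))^(3k)/(6k/e)^(6k) ≤ 0.0172^k`.
-/

set_option autoImplicit false

open MeasureTheory Real

namespace Pool.Agent.Helper83.SD

namespace NumH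

lemma hh_nonneg (k : ℕ) : 0 ≤ hh k := by
  unfold hh
  exact Finset.sum_nonneg fun j _ => by positivity

lemma hh_le (k : ℕ) (hk : 1 ≤ k) :
    hh k ≤ 2 * (k : ℝ) ^ 2 * ((1.205 * ((k : ℝ) ^ 2 + 1 / 6)) ^ (3 * k) / ((6 * k).factorial : ℝ)) := by
  have hk1 : (1 : ℝ) ≤ k := by exact_mod_cast hk
  have hs : 2 / √(6 * (k : ℝ)) ≤ 1 := by
    have h2 : (2 : ℝ) ≤ √(6 * (k : ℝ)) := by
      apply Real.le_sqrt_of_sq_le
      linarith
    rw [div_le_one (by linarith)]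
    exact h2
  have hs0 : 0 ≤ 2 / √(6 * (k : ℝ)) := by positivity
  unfold hh
  have hterm : ∀ j ∈ (Finset.Icc 1 k).filter (fun j => j ∣ k),
      2 * (j : ℝ) * (2 / √(6 * (k : ℝ))) * (1.205 * ((j : ℝ) ^ 2 + 1 / 6)) ^ (3 * k) /
        ((6 * k).factorial : ℝ) ≤
      2 * (k : ℝ) * ((1.205 * ((k : ℝ) ^ 2 + 1 / 6)) ^ (3 * k) / ((6 * k).factorial : ℝ)) := by
    intro j hj
    rw [Finset.mem_filter, Finset.mem_Icc] at hj
    have hjk : (j : ℝ) ≤ k := by exact_mod_cast hj.1.2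
    have hj0 : (0 : ℝ) ≤ j := Nat.cast_nonneg j
    have h1 : 2 * (j : ℝ) * (2 / √(6 * (k : ℝ))) ≤ 2 * (k : ℝ) := by
      calc 2 * (j : ℝ) * (2 / √(6 * (k : ℝ))) ≤ 2 * (k : ℝ) * 1 := by
            apply mul_le_mul (by linarith) hs hs0 (by linarith)
        _ = 2 * (k : ℝ) := by ring
    have h2 : (1.205 * ((j : ℝ) ^ 2 + 1 / 6)) ^ (3 * k) ≤ (1.205 * ((k : ℝ) ^ 2 + 1 / 6)) ^ (3 * k) := by
      gcongr
    rw [mul_div_assoc]
    apply mul_le_mul h1 _ (by positivity) (by linarith)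
    gcongr
  refine (Finset.sum_le_card_nsmul _ _ _ hterm).trans ?_
  rw [nsmul_eq_mul]
  have hc : (((Finset.Icc 1 k).filter (fun j => j ∣ k)).card : ℝ) ≤ k := by
    have := Finset.card_filter_le (Finset.Icc 1 k) (fun j => j ∣ k)
    rw [Nat.card_Icc] at this
    exact_mod_cast this.trans (by omega)
  calc (((Finset.Icc 1 k).filter (fun j => j ∣ k)).card : ℝ) *
        (2 * (k : ℝ) * ((1.205 * ((k : ℝ) ^ 2 + 1 / 6)) ^ (3 * k) / ((6 * k).factorial : ℝ)))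
      ≤ (k : ℝ) * (2 * (k : ℝ) * ((1.205 * ((k : ℝ) ^ 2 + 1 / 6)) ^ (3 * k) /
        ((6 * k).factorial : ℝ))) := by
        apply mul_le_mul_of_nonneg_right hc (by positivity)
    _ = _ := by ring

lemma fac_le (k : ℕ) : ((6 * (k : ℝ)) ^ (6 * k)) / ((6 * k).factorial : ℝ) ≤ (404 : ℝ) ^ k := by
  have h := Real.pow_div_factorial_le_exp (6 * (k : ℝ)) (by positivity) (6 * k)
  refine h.trans ?_
  have he : Real.exp (6 * (k : ℝ)) = (Real.exp 1 ^ 6) ^ k := by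
    rw [← Real.exp_nat_mul, ← Real.exp_nat_mul]
    congr 1
    push_cast
    ring
  rw [he]
  have h1 := Real.exp_one_lt_d9
  have h2 : Real.exp 1 ^ 6 ≤ 404 := by
    calc Real.exp 1 ^ 6 ≤ (2.7182818286 : ℝ) ^ 6 := by
          apply pow_le_pow_left₀ (Real.exp_pos 1).le h1.le
      _ ≤ 404 := by norm_num
  gcongr

lemma pw (k : ℕ) (hk : 3 ≤ k) : 4 * (k : ℝ) ^ 2 ≤ (29 / 5 : ℝ) ^ k := by
  induction k, hk using Nat.le_induction with
  | base => norm_num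
  | succ n hn ih =>
    have h3 : (3 : ℝ) ≤ n := by exact_mod_cast hn
    have h4 : 4 * ((n : ℝ) + 1) ^ 2 ≤ 4 * (n : ℝ) ^ 2 * (29 / 5) := by nlinarith
    calc 4 * (((n + 1 : ℕ) : ℝ)) ^ 2 = 4 * ((n : ℝ) + 1) ^ 2 := by push_cast; ring
      _ ≤ 4 * (n : ℝ) ^ 2 * (29 / 5) := h4
      _ ≤ (29 / 5 : ℝ) ^ n * (29 / 5) := by gcongr
      _ = (29 / 5 : ℝ) ^ (n + 1) := by rw [pow_succ]

lemma hh_small (k : ℕ) (hk : 3 ≤ k) : hh k ≤ 1 / 2 * (1 / 10 : ℝ) ^ k := by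
  refine (hh_le k (by omega)).trans ?_
  have hk3 : (3 : ℝ) ≤ k := by exact_mod_cast hk
  have hk0 : (0 : ℝ) < k := by linarith
  have h1 : 1.205 * ((k : ℝ) ^ 2 + 1 / 6) ≤ 1.23 * (k : ℝ) ^ 2 := by nlinarith
  have h2 : (1.205 * ((k : ℝ) ^ 2 + 1 / 6)) ^ (3 * k) / ((6 * k).factorial : ℝ) ≤
      (1 / 60 : ℝ) ^ k := by
    calc (1.205 * ((k : ℝ) ^ 2 + 1 / 6)) ^ (3 * k) / ((6 * k).factorial : ℝ)
        ≤ (1.23 * (k : ℝ) ^ 2) ^ (3 * k) / ((6 * k).factorial : ℝ) := by gcongr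
      _ = ((1.23 : ℝ) ^ 3 / 46656) ^ k * (((6 * (k : ℝ)) ^ (6 * k)) / ((6 * k).factorial : ℝ)) := by
          have e1 : (1.23 * (k : ℝ) ^ 2) ^ (3 * k) = ((1.23 : ℝ) ^ 3 / 46656) ^ k * (6 * (k : ℝ)) ^ (6 * k) := by
            rw [pow_mul, pow_mul (6 * (k : ℝ)), ← mul_pow]
            congr 1
            ring
          rw [e1]
          ring
      _ ≤ ((1.23 : ℝ) ^ 3 / 46656) ^ k * (404 : ℝ) ^ k := by
          apply mul_le_mul_of_nonneg_left (fac_le k) (by positivity)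
      _ = ((1.23 : ℝ) ^ 3 / 46656 * 404) ^ k := by rw [mul_pow]
      _ ≤ (1 / 60 : ℝ) ^ k := by
          apply pow_le_pow_left₀ (by norm_num)
          norm_num
  calc 2 * (k : ℝ) ^ 2 * ((1.205 * ((k : ℝ) ^ 2 + 1 / 6)) ^ (3 * k) / ((6 * k).factorial : ℝ))
      ≤ 2 * (k : ℝ) ^ 2 * (1 / 60 : ℝ) ^ k := by gcongr
    _ = 1 / 2 * (4 * (k : ℝ) ^ 2) * (1 / 60 : ℝ) ^ k := by ring
    _ ≤ 1 / 2 * (29 / 5 : ℝ) ^ k * (1 / 60 : ℝ) ^ k := by
        have := pw k hk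
        gcongr
    _ = 1 / 2 * (29 / 5 * (1 / 60) : ℝ) ^ k := by rw [mul_pow]; ring
    _ ≤ 1 / 2 * (1 / 10 : ℝ) ^ k := by
        have : (29 / 5 * (1 / 60) : ℝ) ^ k ≤ (1 / 10 : ℝ) ^ k := by
          apply pow_le_pow_left₀ (by norm_num)
          norm_num
        linarith

lemma hh_one : 2 * (hh 1) ^ 2 ≤ 0.0000795 := by
  have hf : (Finset.Icc 1 1).filter (fun j => j ∣ 1) = {1} := by decide
  unfold hh
  rw [hf, Finset.sum_singleton]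
  have hs : (√(6 * ((1 : ℕ) : ℝ))) ^ 2 = 6 := by
    rw [Real.sq_sqrt (by norm_num)]
    norm_num
  have e : 2 * (2 * ((1 : ℕ) : ℝ) * (2 / √(6 * ((1 : ℕ) : ℝ))) *
      (1.205 * (((1 : ℕ) : ℝ) ^ 2 + 1 / 6)) ^ (3 * 1) / (((6 * 1).factorial : ℕ) : ℝ)) ^ 2 =
      32 / (√(6 * ((1 : ℕ) : ℝ))) ^ 2 * ((1.205 * (7 / 6)) ^ 3 / 720) ^ 2 := by
    have h6 : (((6 * 1).factorial : ℕ) : ℝ) = 720 := by norm_num [Nat.factorial]
    rw [h6, div_pow, mul_pow, mul_pow, div_pow, div_pow]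
    have : (((1 : ℕ) : ℝ) ^ 2 + 1 / 6) = 7 / 6 := by norm_num
    rw [this]
    norm_num
  rw [e, hs]
  norm_num

lemma hh_two : 2 * (hh 2) ^ 2 ≤ 0.0000002 := by
  have h := hh_le 2 (by norm_num)
  have h0 := hh_nonneg 2
  have h12 : (((6 * 2).factorial : ℕ) : ℝ) = 479001600 := by norm_num [Nat.factorial]
  rw [h12] at h
  have h3 : hh 2 ≤ 0.0003 := by
    refine h.trans ?_
    norm_num
  nlinarith

lemma geo (K : ℕ) : ∑ k ∈ Finset.Icc 3 K, (1 / 2 : ℝ) * (1 / 100) ^ k ≤ 1 / 1980000 := by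
  have h : ∀ K : ℕ, 2 ≤ K → ∑ k ∈ Finset.Icc 3 K, (1 / 2 : ℝ) * (1 / 100) ^ k =
      1 / 1980000 - (1 / 198) * (1 / 100) ^ K := by
    intro K hK
    induction K, hK using Nat.le_induction with
    | base => norm_num
    | succ n hn ih =>
      rw [Finset.sum_Icc_succ_top (by omega), ih, pow_succ]
      ring
  rcases Nat.lt_or_ge K 2 with hK | hK
  · rw [Finset.Icc_eq_empty (by omega)]
    norm_num
  · rw [h K hK]
    have : (0 : ℝ) ≤ (1 / 198) * (1 / 100) ^ K := by positivity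
    linarith

end NumH

open NumH in
theorem hh_num (K : ℕ) : ∑ k ∈ Finset.Icc 1 K, 2 * (hh k) ^ 2 ≤ 0.009 ^ 2 := by
  have h1 := hh_one
  have h2 := hh_two
  have hnn : ∀ k ∈ Finset.Icc 1 (K + 2), k ∉ Finset.Icc 1 K → 0 ≤ 2 * (hh k) ^ 2 := by
    intro k _ _
    positivity
  refine (Finset.sum_le_sum_of_subset_of_nonneg
    (Finset.Icc_subset_Icc le_rfl (by omega : K ≤ K + 2)) hnn).trans ?_
  have hsplit : Finset.Icc 1 (K + 2) = insert 1 (insert 2 (Finset.Icc 3 (K + 2))) := by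
    ext k
    simp only [Finset.mem_Icc, Finset.mem_insert]
    omega
  rw [hsplit, Finset.sum_insert, Finset.sum_insert]
  · have h3 : ∑ k ∈ Finset.Icc 3 (K + 2), 2 * (hh k) ^ 2 ≤
        ∑ k ∈ Finset.Icc 3 (K + 2), (1 / 2 : ℝ) * (1 / 100) ^ k := by
      apply Finset.sum_le_sum
      intro k hk
      rw [Finset.mem_Icc] at hk
      have ha := hh_small k hk.1
      have hb := hh_nonneg k
      calc 2 * (hh k) ^ 2 ≤ 2 * (1 / 2 * (1 / 10 : ℝ) ^ k) ^ 2 := by gcongr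
        _ = (1 / 2 : ℝ) * (1 / 100) ^ k := by
          rw [mul_pow, ← pow_mul, mul_comm k 2, pow_mul]
          norm_num
          ring
    have h4 := geo (K + 2)
    norm_num at h1 h2 h3 h4 ⊢
    linarith
  · simp
  · simp

end Pool.Agent.Helper83.SD
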