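import Pool.Agent.Helper83.SD.EnLow
import Pool.Agent.Helper83.SD.NumH

/-!
Project SD, module Harm: the harmonic error.

`mode_bound` with `t-1`, `|m|-1`, `i = 0` and `T_le`:
`√(1-z^2)^|m| |u_m(z)| ≤ (2/√|m|) (1.205 (j^2+1/6))^(|m|/2) / |m|! * √(gmode m)` at `z = ± zr J j`
(`one_sub_zr_sq`); `6j/(6J^2+2) = j/L2`.  Sum over `j` with `6j ∣ m`, then Cauchy-Schwarz
over `m = ±6k` and `hh_num`.
-/

set_option autoImplicit false

open MeasureTheory Real

namespace Pool.Agent.Helper83.SD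

namespace Harm

/-- bound for the value of mode `n` on ring `j` -/
noncomputable def bb (j n : ℕ) : ℝ :=
  (2 / √(n : ℝ)) * (1.205 * ((j : ℝ) ^ 2 + 1 / 6)) ^ (n / 2) / (n.factorial : ℝ)

lemma bb_nonneg (j n : ℕ) : 0 ≤ bb j n := by unfold bb; positivity

lemma term_bound {t J : ℕ} {p : Poly} {u v : ℤ → Polynomial ℝ} (ht : 1000 ≤ t) (hR : Reg t J)
    (h : Modes t p u v) {j : ℕ} (hjJ : j ≤ J) {m : ℤ} (hm0 : m ≠ 0)
    (hmt : m.natAbs ≤ t) (h2 : 2 ∣ m.natAbs) {z : ℝ} (hz : z ^ 2 = (zr J j) ^ 2) :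
    √(1 - z ^ 2) ^ m.natAbs * |(u m).eval z| ≤ bb j m.natAbs * √(gmode u v m) := by
  have hz1 : z ^ 2 ≤ 1 := by rw [hz]; exact zr_sq_le hjJ
  obtain ⟨n', hn'⟩ : ∃ n', m.natAbs = n' + 1 :=
    ⟨m.natAbs - 1, by have := Int.natAbs_pos.mpr hm0; omega⟩
  obtain ⟨t', ht'⟩ : ∃ t', t = t' + 1 := ⟨t - 1, by omega⟩
  have hg := gmode_nonneg u v m
  have hmb := mode_bound t' n' 0 (by omega) (u m) (by
    have := h.degu m hmt
    omega) z hz1
  simp only [Function.iterate_zero, id_eq, Nat.cast_zero, mul_zero, add_zero] at hmb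
  have htc : ((t' : ℝ) + 1) = t := by rw [ht']; push_cast; ring
  have hnc : ((n' : ℝ) + 1) = (m.natAbs : ℝ) := by rw [hn']; push_cast; ring
  rw [htc, hnc, ← hn'] at hmb
  set n := m.natAbs with hn
  have hnpos : (0 : ℝ) < n := by rw [hn']; positivity
  -- nrm bound
  have hnrm : nrm n' (u m) ≤ gmode u v m / (n : ℝ) ^ 2 := by
    rw [le_div_iff₀ (by positivity)]
    unfold gmode
    rw [← hn, hn']
    have e1 : (m : ℝ) ^ 2 = ((n' + 1 : ℕ) : ℝ) ^ 2 := by
      rw [← hn', hn, Nat.cast_natAbs]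
      push_cast
      rw [sq_abs]
    rw [e1]
    simp only [Nat.add_sub_cancel]
    have h4 := nrm_nonneg n' (v m)
    have h5 : 0 ≤ ((n' + 1 : ℕ) : ℝ) ^ 2 := by positivity
    nlinarith
  have hfac : ((n.factorial : ℕ) : ℝ) = n * (n'.factorial : ℝ) := by
    rw [hn', Nat.factorial_succ]
    push_cast
    ring
  have hA : ((u m).eval z) ^ 2 ≤ 4 / n * ((t : ℝ) ^ 2 / 4) ^ n / (n.factorial : ℝ) ^ 2 * gmode u v m := by
    calc ((u m).eval z) ^ 2 ≤ ((t : ℝ) ^ 2) ^ n / ((n : ℝ) * 4 ^ n' * (n'.factorial : ℝ) ^ 2) *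
          nrm n' (u m) := hmb
      _ ≤ ((t : ℝ) ^ 2) ^ n / ((n : ℝ) * 4 ^ n' * (n'.factorial : ℝ) ^ 2) *
          (gmode u v m / (n : ℝ) ^ 2) := by gcongr
      _ = 4 / n * ((t : ℝ) ^ 2 / 4) ^ n / (n.factorial : ℝ) ^ 2 * gmode u v m := by
          rw [hfac, div_pow]
          have h4 : (4 : ℝ) ^ n = 4 * 4 ^ n' := by rw [hn', pow_succ]; ring
          rw [h4]
          have : (n'.factorial : ℝ) ≠ 0 := by positivity
          field_simp
  have hT := T_le ht hR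
  have hL := L2_pos J
  have hone := one_sub_zr_sq hjJ
  rw [← hz] at hone
  have hz0 : 0 ≤ 1 - z ^ 2 := by linarith
  have hB : (1 - z ^ 2) * ((t : ℝ) ^ 2 / 4) ≤ 1.205 * ((j : ℝ) ^ 2 + 1 / 6) := by
    have h6 : (t : ℝ) ^ 2 ≤ 2.41 * L2 J := by
      have : (0 : ℝ) ≤ t := Nat.cast_nonneg t
      nlinarith
    calc (1 - z ^ 2) * ((t : ℝ) ^ 2 / 4) ≤ (2 * ((j : ℝ) ^ 2 + 1 / 6) / L2 J) * (2.41 * L2 J / 4) := by
          apply mul_le_mul hone (by linarith) (by positivity) (by positivity)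
      _ = 1.205 * ((j : ℝ) ^ 2 + 1 / 6) := by
          field_simp
          ring
  have hC : ((1 - z ^ 2) * ((t : ℝ) ^ 2 / 4)) ^ n ≤ (1.205 * ((j : ℝ) ^ 2 + 1 / 6)) ^ n := by
    apply pow_le_pow_left₀ (by positivity) hB
  have hbb := bb_nonneg j n
  refine (pow_le_pow_iff_left₀ (by positivity) (by positivity) two_ne_zero).mp ?_
  rw [mul_pow, mul_pow, Real.sq_sqrt hg, sq_abs, ← pow_mul, mul_comm n 2, pow_mul,
    Real.sq_sqrt hz0]
  have hbsq : bb j n ^ 2 = 4 / n * (1.205 * ((j : ℝ) ^ 2 + 1 / 6)) ^ n / (n.factorial : ℝ) ^ 2 := by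
    unfold bb
    rw [div_pow, mul_pow, div_pow, Real.sq_sqrt hnpos.le, ← pow_mul, Nat.div_mul_cancel h2]
    norm_num
  rw [hbsq]
  calc (1 - z ^ 2) ^ n * ((u m).eval z) ^ 2
      ≤ (1 - z ^ 2) ^ n * (4 / n * ((t : ℝ) ^ 2 / 4) ^ n / (n.factorial : ℝ) ^ 2 * gmode u v m) := by
        apply mul_le_mul_of_nonneg_left hA (by positivity)
    _ = 4 / n * ((1 - z ^ 2) * ((t : ℝ) ^ 2 / 4)) ^ n / (n.factorial : ℝ) ^ 2 * gmode u v m := by
        rw [mul_pow]
        ring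
    _ ≤ 4 / n * (1.205 * ((j : ℝ) ^ 2 + 1 / 6)) ^ n / (n.factorial : ℝ) ^ 2 * gmode u v m := by
        gcongr

/-- sum over a symmetric interval of integers -/
lemma sum_symm (t : ℕ) (f : ℕ → ℝ) :
    ∑ m ∈ (Finset.Icc (-(t : ℤ)) t).erase 0, f m.natAbs = ∑ n ∈ Finset.Icc 1 t, 2 * f n := by
  induction t with
  | zero => simp
  | succ t ih =>
    rw [Finset.sum_Icc_succ_top (by omega), ← ih]
    have e : (Finset.Icc (-((t + 1 : ℕ) : ℤ)) ((t + 1 : ℕ) : ℤ)).erase 0 =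
        insert ((t : ℤ) + 1) (insert (-((t : ℤ) + 1)) ((Finset.Icc (-(t : ℤ)) t).erase 0)) := by
      ext m
      simp only [Finset.mem_erase, Finset.mem_Icc, Finset.mem_insert]
      push_cast
      omega
    rw [e, Finset.sum_insert, Finset.sum_insert]
    · have e1 : ((t : ℤ) + 1).natAbs = t + 1 := by omega
      have e2 : (-((t : ℤ) + 1)).natAbs = t + 1 := by omega
      rw [e1, e2]
      ring
    · simp only [Finset.mem_erase, Finset.mem_Icc]
      omega
    · simp only [Finset.mem_erase, Finset.mem_Icc, Finset.mem_insert]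
      omega

lemma sum_six (t : ℕ) (g : ℕ → ℝ) :
    ∑ n ∈ Finset.Icc 1 t, (if 6 ∣ n then g (n / 6) else 0) = ∑ k ∈ Finset.Icc 1 (t / 6), g k := by
  rw [← Finset.sum_filter]
  refine Finset.sum_nbij' (fun n => n / 6) (fun k => 6 * k) ?_ ?_ ?_ ?_ ?_
  · intro n hn
    simp only [Finset.mem_filter, Finset.mem_Icc] at hn ⊢
    omega
  · intro k hk
    simp only [Finset.mem_filter, Finset.mem_Icc] at hk ⊢
    omega
  · intro n hn
    simp only [Finset.mem_filter, Finset.mem_Icc] at hn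
    omega
  · intro k hk
    omega
  · intro n hn
    rfl

/-- weight of mode `m` -/
noncomputable def HH (J n : ℕ) : ℝ :=
  ∑ j ∈ (Finset.Ico 1 J).filter (fun j => 6 * j ∣ n), 2 * (j : ℝ) * bb j n

lemma HH_nonneg (J n : ℕ) : 0 ≤ HH J n := by
  unfold HH
  refine Finset.sum_nonneg fun j _ => ?_
  have := bb_nonneg j n
  positivity

lemma HH_le (J n : ℕ) (hn : 1 ≤ n) : HH J n ≤ if 6 ∣ n then hh (n / 6) else 0 := by
  split_ifs with h6
  · obtain ⟨k, rfl⟩ := h6
    have hk : 6 * k / 6 = k := by omega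
    rw [hk]
    unfold HH hh
    have hsub : (Finset.Ico 1 J).filter (fun j => 6 * j ∣ 6 * k) ⊆
        (Finset.Icc 1 k).filter (fun j => j ∣ k) := by
      intro j hj
      simp only [Finset.mem_filter, Finset.mem_Ico, Finset.mem_Icc] at hj ⊢
      have hjk : j ∣ k := Nat.dvd_of_mul_dvd_mul_left (by norm_num) hj.2
      exact ⟨⟨hj.1.1, Nat.le_of_dvd (by omega) hjk⟩, hjk⟩
    refine (Finset.sum_le_sum_of_subset_of_nonneg hsub ?_).trans (le_of_eq ?_)
    · intro j _ _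
      have := bb_nonneg j (6 * k)
      positivity
    · refine Finset.sum_congr rfl fun j _ => ?_
      unfold bb
      have e : 6 * k / 2 = 3 * k := by omega
      rw [e]
      push_cast
      ring
  · unfold HH
    rw [Finset.sum_eq_zero]
    intro j hj
    rw [Finset.mem_filter] at hj
    exact absurd (dvd_trans (dvd_mul_right 6 j) hj.2) h6

lemma HH_sq (t J : ℕ) :
    ∑ m ∈ (Finset.Icc (-(t : ℤ)) t).erase 0, (HH J m.natAbs) ^ 2 ≤ 0.009 ^ 2 := by
  rw [sum_symm t (fun n => (HH J n) ^ 2)]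
  refine le_trans ?_ (hh_num (t / 6))
  rw [← sum_six t (fun k => 2 * (hh k) ^ 2)]
  refine Finset.sum_le_sum fun n hn => ?_
  rw [Finset.mem_Icc] at hn
  have h1 := HH_le J n hn.1
  have h0 := HH_nonneg J n
  split_ifs at h1 ⊢ with h6
  · gcongr
  · have : HH J n = 0 := le_antisymm h1 h0
    rw [this]
    norm_num

end Harm

open Harm in
theorem harm {t J : ℕ} {p : Poly} {u v : ℤ → Polynomial ℝ} (ht : 1000 ≤ t) (hR : Reg t J)
    (h : Modes t p u v) :
    ∑ j ∈ Finset.Ico 1 J, 6 * (j : ℝ) / (6 * (J : ℝ) ^ 2 + 2) *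
        (hsum t (6 * j) u (zr J j) + hsum t (6 * j) u (-(zr J j))) ≤
      0.009 / L2 J * √(∑ m ∈ (Finset.Icc (-(t : ℤ)) t).erase 0, gmode u v m) := by
  have hL := L2_pos J
  set S := (Finset.Icc (-(t : ℤ)) t).erase 0 with hS
  -- one ring
  have hring : ∀ j ∈ Finset.Ico 1 J, ∀ z : ℝ, z ^ 2 = (zr J j) ^ 2 →
      hsum t (6 * j) u z ≤ ∑ m ∈ S, (if 6 * j ∣ m.natAbs then bb j m.natAbs else 0) *
        √(gmode u v m) := by
    intro j hj z hz
    rw [Finset.mem_Ico] at hj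
    unfold hsum
    have hsub : (Finset.Icc (-(t : ℤ)) t).filter (fun m => m ≠ 0 ∧ ((6 * j : ℕ) : ℤ) ∣ m) =
        S.filter (fun m => 6 * j ∣ m.natAbs) := by
      ext m
      rw [hS]
      simp only [Finset.mem_filter, Finset.mem_erase, Finset.mem_Icc, Int.natCast_dvd]
      tauto
    rw [hsub, Finset.sum_filter]
    refine Finset.sum_le_sum fun m hm => ?_
    rw [hS, Finset.mem_erase, Finset.mem_Icc] at hm
    split_ifs with hd
    · exact term_bound ht hR h hj.2.le hm.1 (by omega)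
        (dvd_trans ⟨3 * j, by ring⟩ hd) hz
    · simp
  have hstep : ∑ j ∈ Finset.Ico 1 J, 6 * (j : ℝ) / (6 * (J : ℝ) ^ 2 + 2) *
        (hsum t (6 * j) u (zr J j) + hsum t (6 * j) u (-(zr J j))) ≤
      1 / L2 J * ∑ m ∈ S, HH J m.natAbs * √(gmode u v m) := by
    calc ∑ j ∈ Finset.Ico 1 J, 6 * (j : ℝ) / (6 * (J : ℝ) ^ 2 + 2) *
          (hsum t (6 * j) u (zr J j) + hsum t (6 * j) u (-(zr J j)))
        ≤ ∑ j ∈ Finset.Ico 1 J, 1 / L2 J * (2 * (j : ℝ) *
          ∑ m ∈ S, (if 6 * j ∣ m.natAbs then bb j m.natAbs else 0) * √(gmode u v m)) := by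
          refine Finset.sum_le_sum fun j hj => ?_
          have h1 := hring j hj (zr J j) rfl
          have h2 := hring j hj (-(zr J j)) (by ring)
          rw [N_eq]
          have e : 6 * (j : ℝ) / (6 * L2 J) = 1 / L2 J * j := by field_simp
          rw [e]
          have hj0 : (0 : ℝ) ≤ 1 / L2 J * j := by positivity
          calc 1 / L2 J * (j : ℝ) * (hsum t (6 * j) u (zr J j) + hsum t (6 * j) u (-(zr J j)))
              ≤ 1 / L2 J * (j : ℝ) * (2 * ∑ m ∈ S, (if 6 * j ∣ m.natAbs then bb j m.natAbs else 0) *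
                √(gmode u v m)) := by
                apply mul_le_mul_of_nonneg_left _ hj0
                linarith
            _ = _ := by ring
      _ = 1 / L2 J * ∑ m ∈ S, HH J m.natAbs * √(gmode u v m) := by
          rw [← Finset.mul_sum]
          congr 1
          unfold HH
          simp_rw [Finset.mul_sum, Finset.sum_mul]
          rw [Finset.sum_comm]
          refine Finset.sum_congr rfl fun m _ => ?_
          rw [Finset.sum_filter]
          refine Finset.sum_congr rfl fun j _ => ?_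
          split_ifs
          · ring
          · ring
  refine hstep.trans ?_
  have hcs : ∑ m ∈ S, HH J m.natAbs * √(gmode u v m) ≤ 0.009 * √(∑ m ∈ S, gmode u v m) := by
    have h1 := Finset.sum_mul_sq_le_sq_mul_sq S (fun m => HH J m.natAbs) (fun m => √(gmode u v m))
    have h2 : ∑ m ∈ S, √(gmode u v m) ^ 2 = ∑ m ∈ S, gmode u v m :=
      Finset.sum_congr rfl fun m _ => Real.sq_sqrt (gmode_nonneg u v m)
    have h3 := HH_sq t J
    have h4 : 0 ≤ ∑ m ∈ S, gmode u v m := Finset.sum_nonneg fun m _ => gmode_nonneg u v m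
    rw [h2] at h1
    apply abs_le_of_sq_le_sq' _ (by positivity) |>.2
    calc (∑ m ∈ S, HH J m.natAbs * √(gmode u v m)) ^ 2
        ≤ (∑ m ∈ S, HH J m.natAbs ^ 2) * ∑ m ∈ S, gmode u v m := h1
      _ ≤ 0.009 ^ 2 * ∑ m ∈ S, gmode u v m := by gcongr
      _ = (0.009 * √(∑ m ∈ S, gmode u v m)) ^ 2 := by rw [mul_pow, Real.sq_sqrt h4]
  calc 1 / L2 J * ∑ m ∈ S, HH J m.natAbs * √(gmode u v m)
      ≤ 1 / L2 J * (0.009 * √(∑ m ∈ S, gmode u v m)) := by gcongr
    _ = 0.009 / L2 J * √(∑ m ∈ S, gmode u v m) := by ring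

end Pool.Agent.Helper83.SD
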