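import Pool.Agent.Helper83.SD.Pars

/-!
Project SD, module EnLow: lower bound for the gradient energy in modes.

With `P(ψ,φ) = ev p (pt ψ φ)`, on the sphere
`Σ_a (L_a p)^2 = (∂_ψ P)^2 + (∂_φ P)^2 / cos^2 ψ` (the vector `(L_a p)` is orthogonal to `x`,
`L_2 p = ∂_φ P`, `sin φ L_0 p - cos φ L_1 p = ∂_ψ P`,
`cos φ L_0 p + sin φ L_1 p = -tan ψ ∂_φ P`).
Average over `φ`: `avg (∂_ψ P)^2 ≥ (∂_ψ avg P)^2 = (1-z^2) (u_0'(z))^2`, and
`avg (∂_φ P)^2 = Σ m^2 (1-z^2)^|m| (u_m^2 + v_m^2)`.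
-/

set_option autoImplicit false

open MeasureTheory Real

namespace Pool.Agent.Helper83.SD

namespace EnLow

lemma sp_apply0 (z φ : ℝ) : (sp z φ) 0 = √(1 - z ^ 2) * cos φ := by simp [sp]
lemma sp_apply1 (z φ : ℝ) : (sp z φ) 1 = √(1 - z ^ 2) * sin φ := by simp [sp]
lemma sp_apply2 (z φ : ℝ) : (sp z φ) 2 = z := by simp [sp]

/-- derivative of a curve given by coordinates -/
lemma hasDerivAt_mk {a b c : ℝ → ℝ} {a' b' c' s : ℝ} (ha : HasDerivAt a a' s)
    (hb : HasDerivAt b b' s) (hc : HasDerivAt c c' s) :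
    HasDerivAt (fun r => (!₂[a r, b r, c r] : E3)) (!₂[a', b', c'] : E3) s := by
  rw [← hasDerivWithinAt_univ, hasDerivWithinAt_iff_hasFDerivWithinAt,
    hasFDerivWithinAt_euclidean]
  intro i
  rw [hasFDerivWithinAt_univ]
  fin_cases i
  · refine ha.hasFDerivAt.congr_fderiv ?_
    ext
    simp
  · refine hb.hasFDerivAt.congr_fderiv ?_
    ext
    simp
  · refine hc.hasFDerivAt.congr_fderiv ?_
    ext
    simp

lemma hasDerivAt_sp_phi (z φ : ℝ) : HasDerivAt (fun x => sp z x)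
    (!₂[-(√(1 - z ^ 2) * sin φ), √(1 - z ^ 2) * cos φ, 0] : E3) φ := by
  refine hasDerivAt_mk ?_ ?_ ?_
  · have := (Real.hasDerivAt_cos φ).const_mul (√(1 - z ^ 2))
    refine this.congr_deriv ?_
    ring
  · exact (Real.hasDerivAt_sin φ).const_mul (√(1 - z ^ 2))
  · exact hasDerivAt_const _ _

lemma hasDerivAt_r {z : ℝ} (hz : z ^ 2 < 1) :
    HasDerivAt (fun x : ℝ => √(1 - x ^ 2)) (-(z / √(1 - z ^ 2))) z := by
  have h1 : HasDerivAt (fun x : ℝ => 1 - x ^ 2) (-(2 * z)) z := by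
    have := (hasDerivAt_pow 2 z).const_sub 1
    refine this.congr_deriv ?_
    simp
  have h2 := h1.sqrt (by linarith)
  refine h2.congr_deriv ?_
  have : √(1 - z ^ 2) ≠ 0 := by
    rw [Real.sqrt_ne_zero']
    linarith
  field_simp

lemma hasDerivAt_rpow (k : ℕ) {z : ℝ} (hz : z ^ 2 < 1) :
    HasDerivAt (fun x : ℝ => √(1 - x ^ 2) ^ k)
      (-((k : ℝ) * z * √(1 - z ^ 2) ^ k / (1 - z ^ 2))) z := by
  have h1 := (hasDerivAt_r hz).pow k
  refine h1.congr_deriv ?_
  have h0 : √(1 - z ^ 2) ≠ 0 := by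
    rw [Real.sqrt_ne_zero']
    linarith
  have h2 : (1 - z ^ 2) = √(1 - z ^ 2) ^ 2 := (Real.sq_sqrt (by linarith)).symm
  rcases k with _ | k
  · simp
  · rw [Nat.add_sub_cancel]
    have h3 : (1 - z ^ 2) ≠ 0 := by linarith
    rw [eq_comm, neg_eq_iff_eq_neg]
    rw [div_eq_iff h3]
    generalize √(1 - z ^ 2) = r at *
    rw [h2, pow_succ]
    field_simp

lemma hasDerivAt_sp_z (φ : ℝ) {z : ℝ} (hz : z ^ 2 < 1) : HasDerivAt (fun x => sp x φ)
    (!₂[-(z / √(1 - z ^ 2)) * cos φ, -(z / √(1 - z ^ 2)) * sin φ, 1] : E3) z := by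
  refine hasDerivAt_mk ?_ ?_ ?_
  · exact (hasDerivAt_r hz).mul_const _
  · exact (hasDerivAt_r hz).mul_const _
  · exact hasDerivAt_id _

/-- derivative in the longitude -/
lemma deriv_phi (p : Poly) (z φ : ℝ) :
    HasDerivAt (fun x => ev p (sp z x)) (ev (Lr 2 p) (sp z φ)) φ := by
  refine (hasDerivAt_ev p (hasDerivAt_sp_phi z φ)).congr_deriv ?_
  rw [Lr_apply]
  have f1 : (2 + 1 : Fin 3) = 0 := rfl
  have f2 : (2 + 2 : Fin 3) = 1 := rfl
  rw [f1, f2, ev_sub, ev_mul, ev_mul, ev_X, ev_X, sp_apply0, sp_apply1, Fin.sum_univ_three]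
  simp
  ring

/-- the polynomial representing `(1 - z^2) ∂_z` -/
noncomputable def qq (p : Poly) : Poly :=
  MvPolynomial.X 1 * Lr 0 p - MvPolynomial.X 0 * Lr 1 p

/-- derivative in the height -/
lemma deriv_z (p : Poly) (φ : ℝ) {z : ℝ} (hz : z ^ 2 < 1) :
    HasDerivAt (fun x => ev p (sp x φ)) (ev (qq p) (sp z φ) / (1 - z ^ 2)) z := by
  refine (hasDerivAt_ev p (hasDerivAt_sp_z φ hz)).congr_deriv ?_
  have h0 : √(1 - z ^ 2) ≠ 0 := by
    rw [Real.sqrt_ne_zero']
    linarith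
  have h1 : (1 - z ^ 2) ≠ 0 := by linarith
  have h2 : √(1 - z ^ 2) ^ 2 = (1 - z ^ 2) := (Real.sq_sqrt (by linarith))
  have h3 := Real.sin_sq_add_cos_sq φ
  rw [eq_div_iff h1]
  unfold qq
  rw [Lr_apply, Lr_apply]
  have f1 : (0 + 1 : Fin 3) = 1 := rfl
  have f2 : (0 + 2 : Fin 3) = 2 := rfl
  have f3 : (1 + 1 : Fin 3) = 2 := rfl
  have f4 : (1 + 2 : Fin 3) = 0 := rfl
  rw [f1, f2, f3, f4]
  simp only [ev_sub, ev_mul, ev_X, sp_apply0, sp_apply1, sp_apply2, Fin.sum_univ_three]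
  simp only [Matrix.cons_val_zero, Matrix.cons_val_one, Matrix.cons_val]
  generalize ev ((MvPolynomial.pderiv 0) p) (sp z φ) = A
  generalize ev ((MvPolynomial.pderiv 1) p) (sp z φ) = B
  generalize ev ((MvPolynomial.pderiv 2) p) (sp z φ) = C
  have h4 : -(z / √(1 - z ^ 2)) * (1 - z ^ 2) = -(z * √(1 - z ^ 2)) := by
    conv_lhs => rw [← h2]
    rw [Real.sqrt_sq (Real.sqrt_nonneg _)]
    field_simp
  linear_combination (A * cos φ + B * sin φ) * h4 - C * (cos φ ^ 2 + sin φ ^ 2) * h2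
    - C * (1 - z ^ 2) * h3

/-- modes of `L_2 p` -/
lemma modes_phi {t : ℕ} {p : Poly} {u v : ℤ → Polynomial ℝ} (h : Modes t p u v) :
    Modes t (Lr 2 p) (fun m => Polynomial.C (-(m : ℝ)) * v m)
      (fun m => Polynomial.C (m : ℝ) * u m) := by
  refine ⟨?_, ?_, ?_, ?_, ?_, ?_⟩
  · intro m hm
    exact (Polynomial.natDegree_C_mul_le _ _).trans (h.degv m hm)
  · intro m hm
    exact (Polynomial.natDegree_C_mul_le _ _).trans (h.degu m hm)
  · intro m hm
    simp only [h.outv m hm, mul_zero]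
  · intro m hm
    simp only [h.outu m hm, mul_zero]
  · simp
  · intro z φ hz
    have h1 : HasDerivAt (fun x : ℝ => ((ev p (sp z x) : ℝ) : ℂ))
        ((ev (Lr 2 p) (sp z φ) : ℝ) : ℂ) φ := (deriv_phi p z φ).ofReal_comp
    have h2 : HasDerivAt (fun x : ℝ => ∑ m ∈ Finset.Icc (-(t : ℤ)) t,
        ((√(1 - z ^ 2) ^ m.natAbs : ℝ) : ℂ) *
        ((((u m).eval z : ℝ) : ℂ) + (((v m).eval z : ℝ) : ℂ) * Complex.I) *
        Complex.exp (Complex.I * (m : ℂ) * (x : ℂ)))
        (∑ m ∈ Finset.Icc (-(t : ℤ)) t,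
        ((√(1 - z ^ 2) ^ m.natAbs : ℝ) : ℂ) *
        ((((u m).eval z : ℝ) : ℂ) + (((v m).eval z : ℝ) : ℂ) * Complex.I) *
        (Complex.exp (Complex.I * (m : ℂ) * (φ : ℂ)) * (Complex.I * (m : ℂ)))) φ := by
      refine HasDerivAt.fun_sum fun m _ => ?_
      refine HasDerivAt.const_mul _ ?_
      have h3 : HasDerivAt (fun x : ℝ => Complex.I * (m : ℂ) * (x : ℂ)) (Complex.I * (m : ℂ)) φ := by
        have := (HasDerivAt.ofReal_comp (hasDerivAt_id φ)).const_mul (Complex.I * (m : ℂ))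
        simpa using this
      exact h3.cexp
    have h3 : (fun x : ℝ => ((ev p (sp z x) : ℝ) : ℂ)) = fun x : ℝ =>
        ∑ m ∈ Finset.Icc (-(t : ℤ)) t, ((√(1 - z ^ 2) ^ m.natAbs : ℝ) : ℂ) *
        ((((u m).eval z : ℝ) : ℂ) + (((v m).eval z : ℝ) : ℂ) * Complex.I) *
        Complex.exp (Complex.I * (m : ℂ) * (x : ℂ)) := by
      funext x
      exact h.eq z x hz
    rw [h3] at h1
    rw [h1.unique h2]
    refine Finset.sum_congr rfl fun m _ => ?_
    simp only [Polynomial.eval_mul, Polynomial.eval_C]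
    push_cast
    linear_combination (-((√(1 - z ^ 2) : ℝ) : ℂ) ^ m.natAbs * (m : ℂ) *
      (((v m).eval z : ℝ) : ℂ) * Complex.exp (Complex.I * (m : ℂ) * (φ : ℂ))) * (-Complex.I_sq)

/-- modes of `qq p` -/
lemma modes_z {t : ℕ} {p : Poly} {u v : ℤ → Polynomial ℝ} (h : Modes t p u v) :
    Modes (t + 1) (qq p)
      (fun m => (1 - Polynomial.X ^ 2) * Polynomial.derivative (u m)
        - Polynomial.C (m.natAbs : ℝ) * Polynomial.X * u m)
      (fun m => (1 - Polynomial.X ^ 2) * Polynomial.derivative (v m)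
        - Polynomial.C (m.natAbs : ℝ) * Polynomial.X * v m) := by
  have key : ∀ (w : ℤ → Polynomial ℝ),
      (∀ m : ℤ, m.natAbs ≤ t → (w m).natDegree ≤ t - m.natAbs) →
      (∀ m : ℤ, t < m.natAbs → w m = 0) → ∀ m : ℤ, m.natAbs ≤ t + 1 →
      ((1 - Polynomial.X ^ 2) * Polynomial.derivative (w m)
        - Polynomial.C (m.natAbs : ℝ) * Polynomial.X * w m).natDegree ≤ t + 1 - m.natAbs := by
    intro w hw1 hw2 m hm
    rcases Nat.lt_or_ge t m.natAbs with h1 | h1
    · rw [hw2 m h1]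
      simp
    · have h2 := hw1 m h1
      refine (Polynomial.natDegree_sub_le _ _).trans (max_le ?_ ?_)
      · rcases Nat.eq_zero_or_pos (w m).natDegree with h3 | h3
        · rw [Polynomial.derivative_of_natDegree_zero h3, mul_zero]
          simp
        · have h4 : (1 - Polynomial.X ^ 2 : Polynomial ℝ).natDegree ≤ 2 := by
            compute_degree
          have h5 := Polynomial.natDegree_derivative_le (w m)
          refine (Polynomial.natDegree_mul_le).trans ?_
          omega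
      · have h4 : (Polynomial.C (m.natAbs : ℝ) * Polynomial.X : Polynomial ℝ).natDegree ≤ 1 := by
          compute_degree
        refine (Polynomial.natDegree_mul_le).trans ?_
        omega
  refine ⟨key u h.degu h.outu, key v h.degv h.outv, ?_, ?_, ?_, ?_⟩
  · intro m hm
    simp only [h.outu m (by omega), map_zero, mul_zero, sub_zero]
  · intro m hm
    simp only [h.outv m (by omega), map_zero, mul_zero, sub_zero]
  · simp [h.v0]
  · intro z φ hz
    have hsub : Finset.Icc (-(t : ℤ)) t ⊆ Finset.Icc (-((t + 1 : ℕ) : ℤ)) ((t + 1 : ℕ) : ℤ) := by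
      intro m hm
      rw [Finset.mem_Icc] at hm ⊢
      push_cast
      omega
    rw [← Finset.sum_subset hsub (by
      intro m _ hm
      have h1 : t < m.natAbs := by
        rw [Finset.mem_Icc] at hm
        omega
      rw [h.outu m h1, h.outv m h1]
      simp)]
    rcases hz.lt_or_eq with hz | hz
    · have h1 : HasDerivAt (fun x : ℝ => ((ev p (sp x φ) : ℝ) : ℂ))
          ((ev (qq p) (sp z φ) / (1 - z ^ 2) : ℝ) : ℂ) z := (deriv_z p φ hz).ofReal_comp
      have h2 : HasDerivAt (fun x : ℝ => ∑ m ∈ Finset.Icc (-(t : ℤ)) t,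
          ((√(1 - x ^ 2) ^ m.natAbs : ℝ) : ℂ) *
          ((((u m).eval x : ℝ) : ℂ) + (((v m).eval x : ℝ) : ℂ) * Complex.I) *
          Complex.exp (Complex.I * (m : ℂ) * (φ : ℂ)))
          (∑ m ∈ Finset.Icc (-(t : ℤ)) t,
          (((-((m.natAbs : ℝ) * z * √(1 - z ^ 2) ^ m.natAbs / (1 - z ^ 2)) : ℝ) : ℂ) *
          ((((u m).eval z : ℝ) : ℂ) + (((v m).eval z : ℝ) : ℂ) * Complex.I) +
          ((√(1 - z ^ 2) ^ m.natAbs : ℝ) : ℂ) *
          ((((Polynomial.derivative (u m)).eval z : ℝ) : ℂ) +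
            (((Polynomial.derivative (v m)).eval z : ℝ) : ℂ) * Complex.I)) *
          Complex.exp (Complex.I * (m : ℂ) * (φ : ℂ))) z := by
        refine HasDerivAt.fun_sum fun m _ => ?_
        refine HasDerivAt.mul_const ?_ _
        refine HasDerivAt.fun_mul ?_ ?_
        · exact (hasDerivAt_rpow m.natAbs hz).ofReal_comp
        · refine HasDerivAt.fun_add ?_ ?_
          · exact ((u m).hasDerivAt z).ofReal_comp
          · exact (((v m).hasDerivAt z).ofReal_comp).mul_const _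
      have h3 : (fun x : ℝ => ((ev p (sp x φ) : ℝ) : ℂ)) =ᶠ[nhds z] fun x : ℝ =>
          ∑ m ∈ Finset.Icc (-(t : ℤ)) t, ((√(1 - x ^ 2) ^ m.natAbs : ℝ) : ℂ) *
          ((((u m).eval x : ℝ) : ℂ) + (((v m).eval x : ℝ) : ℂ) * Complex.I) *
          Complex.exp (Complex.I * (m : ℂ) * (φ : ℂ)) := by
        have h4 : ∀ᶠ x : ℝ in nhds z, x ^ 2 < 1 :=
          (continuous_pow 2).continuousAt.eventually_lt continuousAt_const hz
        filter_upwards [h4] with x hx
        exact h.eq x φ hx.le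
      have h4 := h1.unique (h2.congr_of_eventuallyEq h3)
      have h5 : ((1 - z ^ 2 : ℝ) : ℂ) ≠ 0 := by
        have : (1 - z ^ 2 : ℝ) ≠ 0 := by linarith
        exact_mod_cast this
      have h6 : ((ev (qq p) (sp z φ) : ℝ) : ℂ) =
          ((1 - z ^ 2 : ℝ) : ℂ) * ((ev (qq p) (sp z φ) / (1 - z ^ 2) : ℝ) : ℂ) := by
        push_cast at h5 ⊢
        field_simp
      rw [h6, h4, Finset.mul_sum]
      refine Finset.sum_congr rfl fun m _ => ?_
      simp only [Polynomial.eval_sub, Polynomial.eval_mul, Polynomial.eval_C, Polynomial.eval_one,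
        Polynomial.eval_pow, Polynomial.eval_X]
      push_cast at h5 ⊢
      field_simp
      ring
    · have h1 : √(1 - z ^ 2) = 0 := by rw [hz]; simp
      have h2 : ev (qq p) (sp z φ) = 0 := by
        unfold qq
        rw [ev_sub, ev_mul, ev_mul, ev_X, ev_X, sp_apply0, sp_apply1, h1]
        ring
      rw [h2, Complex.ofReal_zero]
      symm
      refine Finset.sum_eq_zero fun m _ => ?_
      rcases Nat.eq_zero_or_pos m.natAbs with h3 | h3
      · simp only [h3, Polynomial.eval_sub, Polynomial.eval_mul, Polynomial.eval_C,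
          Polynomial.eval_one, Polynomial.eval_pow, Polynomial.eval_X, hz]
        simp
      · rw [h1, zero_pow h3.ne']
        simp

lemma nrm_nonneg (k : ℕ) (g : Polynomial ℝ) : 0 ≤ nrm k g := by
  unfold nrm
  refine mul_nonneg (by norm_num) ?_
  refine intervalIntegral.integral_nonneg (by norm_num) fun z hz => ?_
  refine mul_nonneg (pow_nonneg ?_ _) (sq_nonneg _)
  nlinarith [hz.1, hz.2]

/-- the pointwise identity on the sphere -/
lemma point_id (p : Poly) (φ : ℝ) {z : ℝ} (hz : z ^ 2 ≤ 1) :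
    (1 - z ^ 2) * ev (∑ a, Lr a p * Lr a p) (sp z φ) =
      (ev (qq p) (sp z φ)) ^ 2 + (ev (Lr 2 p) (sp z φ)) ^ 2 := by
  have h1 := x_dot_L p (sp z φ)
  rw [Fin.sum_univ_three, sp_apply0, sp_apply1, sp_apply2] at h1
  rw [Fin.sum_univ_three, ev_add, ev_add, ev_mul, ev_mul, ev_mul]
  unfold qq
  rw [ev_sub, ev_mul, ev_mul, ev_X, ev_X, sp_apply0, sp_apply1]
  have h2 : √(1 - z ^ 2) ^ 2 = (1 - z ^ 2) := (Real.sq_sqrt (by linarith))
  have h3 := Real.sin_sq_add_cos_sq φ
  generalize ev (Lr 0 p) (sp z φ) = A at *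
  generalize ev (Lr 1 p) (sp z φ) = B at *
  generalize ev (Lr 2 p) (sp z φ) = C at *
  generalize √(1 - z ^ 2) = r at *
  have h4 : (r * cos φ * A + r * sin φ * B) ^ 2 = (z * C) ^ 2 := by
    have : r * cos φ * A + r * sin φ * B = -(z * C) := by linarith
    rw [this]; ring
  have h5 : cos φ ^ 2 = 1 - sin φ ^ 2 := by linarith
  have h6 : (r * sin φ * A - r * cos φ * B) ^ 2 + (r * cos φ * A + r * sin φ * B) ^ 2 =
      r ^ 2 * (A ^ 2 + B ^ 2) * (sin φ ^ 2 + cos φ ^ 2) := by ring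
  rw [h3, h2, h4] at h6
  linear_combination -h6

end EnLow

open EnLow in
theorem gmode_nonneg (u v : ℤ → Polynomial ℝ) (m : ℤ) : 0 ≤ gmode u v m := by
  unfold gmode
  exact mul_nonneg (sq_nonneg _) (add_nonneg (nrm_nonneg _ _) (nrm_nonneg _ _))

open EnLow in
theorem en_low {t : ℕ} {p : Poly} {u v : ℤ → Polynomial ℝ} (h : Modes t p u v) :
    nrm 1 (Polynomial.derivative (u 0)) +
      ∑ m ∈ (Finset.Icc (-(t : ℤ)) t).erase 0, gmode u v m ≤ en p := by
  set G : Poly := ∑ a, Lr a p * Lr a p with hG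
  have hen : en p = mu G := by
    unfold en gr
    rw [hG, mu_sum]
  -- the lower bound as a function of the height
  set R : ℝ → ℝ := fun z => (1 - z ^ 2) ^ 1 * ((Polynomial.derivative (u 0)).eval z) ^ 2 +
    ∑ m ∈ (Finset.Icc (-(t : ℤ)) t).erase 0, (m : ℝ) ^ 2 *
      ((1 - z ^ 2) ^ (m.natAbs - 1) * ((u m).eval z) ^ 2 +
        (1 - z ^ 2) ^ (m.natAbs - 1) * ((v m).eval z) ^ 2) with hR
  have hcts : ∀ (k : ℕ) (g : Polynomial ℝ), Continuous fun z : ℝ => (1 - z ^ 2) ^ k * (g.eval z) ^ 2 := by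
    intro k g
    have := g.continuous
    fun_prop
  have hRi : (1 / 2) * ∫ z in (-1 : ℝ)..1, R z = nrm 1 (Polynomial.derivative (u 0)) +
      ∑ m ∈ (Finset.Icc (-(t : ℤ)) t).erase 0, gmode u v m := by
    rw [hR]
    rw [intervalIntegral.integral_add, intervalIntegral.integral_finsetSum]
    · unfold nrm gmode nrm
      rw [mul_add, Finset.mul_sum]
      congr 1
      refine Finset.sum_congr rfl fun m _ => ?_
      rw [intervalIntegral.integral_const_mul, intervalIntegral.integral_add]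
      · ring
      · exact (hcts _ _).intervalIntegrable _ _
      · exact (hcts _ _).intervalIntegrable _ _
    · intro m _
      exact (((hcts _ _).add (hcts _ _)).const_mul _).intervalIntegrable _ _
    · exact (hcts _ _).intervalIntegrable _ _
    · refine Continuous.intervalIntegrable ?_ _ _
      exact continuous_finsetSum _ fun m _ => ((hcts _ _).add (hcts _ _)).const_mul _
  rw [← hRi, hen, mu_sp']
  refine mul_le_mul_of_nonneg_left ?_ (by norm_num)
  refine intervalIntegral.integral_mono_on_of_le_Ioo (by norm_num) ?_ ?_ ?_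
  · refine Continuous.intervalIntegrable ?_ _ _
    rw [hR]
    refine (hcts _ _).add ?_
    exact continuous_finsetSum _ fun m _ => ((hcts _ _).add (hcts _ _)).const_mul _
  · refine Continuous.intervalIntegrable ?_ _ _
    refine Continuous.mul continuous_const ?_
    refine intervalIntegral.continuous_parametric_intervalIntegral_of_continuous' ?_ _ _
    refine (ev_continuous G).comp ?_
    unfold sp
    fun_prop
  · intro z hz
    have hz2 : z ^ 2 < 1 := by nlinarith [hz.1, hz.2]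
    have hz1 : 0 < 1 - z ^ 2 := by linarith
    have h1 := avg_sq (modes_phi h) hz2.le
    have h2 := avg_sq (modes_z h) hz2.le
    have hc : ∀ q : Poly, Continuous fun φ : ℝ => (ev q (sp z φ)) ^ 2 := by
      intro q
      refine ((ev_continuous q).comp ?_).pow 2
      unfold sp
      fun_prop
    have h3 : (1 - z ^ 2) * ((1 / (2 * π)) * ∫ φ in (0 : ℝ)..(2 * π), ev G (sp z φ)) =
        (1 / (2 * π)) * (∫ φ in (0 : ℝ)..(2 * π), (ev (qq p) (sp z φ)) ^ 2) +
        (1 / (2 * π)) * ∫ φ in (0 : ℝ)..(2 * π), (ev (Lr 2 p) (sp z φ)) ^ 2 := by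
      rw [← mul_add, ← intervalIntegral.integral_add ((hc _).intervalIntegrable _ _)
        ((hc _).intervalIntegrable _ _), mul_left_comm, ← intervalIntegral.integral_const_mul]
      congr 1
      refine intervalIntegral.integral_congr fun φ _ => ?_
      exact point_id p φ hz2.le
    rw [h1, h2, modeA_eval, modeA_eval] at h3
    have h4 : ((1 - z ^ 2) * (Polynomial.derivative (u 0)).eval z) ^ 2 ≤
        ∑ m ∈ Finset.Icc (-((t + 1 : ℕ) : ℤ)) ((t + 1 : ℕ) : ℤ), (1 - z ^ 2) ^ m.natAbs *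
          ((((1 - Polynomial.X ^ 2) * Polynomial.derivative (u m)
            - Polynomial.C (m.natAbs : ℝ) * Polynomial.X * u m).eval z) ^ 2 +
          (((1 - Polynomial.X ^ 2) * Polynomial.derivative (v m)
            - Polynomial.C (m.natAbs : ℝ) * Polynomial.X * v m).eval z) ^ 2) := by
      refine le_trans (le_of_eq ?_) (Finset.single_le_sum (f := fun m : ℤ => (1 - z ^ 2) ^ m.natAbs *
          ((((1 - Polynomial.X ^ 2) * Polynomial.derivative (u m)
            - Polynomial.C (m.natAbs : ℝ) * Polynomial.X * u m).eval z) ^ 2 +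
          (((1 - Polynomial.X ^ 2) * Polynomial.derivative (v m)
            - Polynomial.C (m.natAbs : ℝ) * Polynomial.X * v m).eval z) ^ 2)) (fun m _ =>
          mul_nonneg (pow_nonneg hz1.le _) (add_nonneg (sq_nonneg _) (sq_nonneg _)))
          (Finset.mem_Icc.2 ⟨?_, ?_⟩ : (0 : ℤ) ∈ _))
      · simp [h.v0]
      · push_cast; omega
      · push_cast; omega
    have h5 : ∑ m ∈ Finset.Icc (-(t : ℤ)) t, (1 - z ^ 2) ^ m.natAbs *
          (((Polynomial.C (-(m : ℝ)) * v m).eval z) ^ 2 +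
            ((Polynomial.C (m : ℝ) * u m).eval z) ^ 2) =
        (1 - z ^ 2) * ∑ m ∈ (Finset.Icc (-(t : ℤ)) t).erase 0, (m : ℝ) ^ 2 *
          ((1 - z ^ 2) ^ (m.natAbs - 1) * ((u m).eval z) ^ 2 +
            (1 - z ^ 2) ^ (m.natAbs - 1) * ((v m).eval z) ^ 2) := by
      have h0 : (0 : ℤ) ∈ Finset.Icc (-(t : ℤ)) t := by
        rw [Finset.mem_Icc]
        omega
      rw [← Finset.add_sum_erase _ _ h0, Finset.mul_sum]
      simp only [Int.cast_zero, neg_zero, map_zero, zero_mul, Polynomial.eval_zero, ne_eq,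
        OfNat.ofNat_ne_zero, not_false_eq_true, zero_pow, add_zero, mul_zero, zero_add]
      refine Finset.sum_congr rfl fun m hm => ?_
      have hm0 : m ≠ 0 := (Finset.mem_erase.1 hm).1
      obtain ⟨k, hk⟩ : ∃ k, m.natAbs = k + 1 := Nat.exists_eq_succ_of_ne_zero (by omega)
      rw [hk, Nat.add_sub_cancel, pow_succ]
      simp only [Polynomial.eval_mul, Polynomial.eval_C]
      ring
    rw [h5] at h3
    have h6 : (1 - z ^ 2) * R z ≤
        (1 - z ^ 2) * ((1 / (2 * π)) * ∫ φ in (0 : ℝ)..(2 * π), ev G (sp z φ)) := by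
      rw [h3, hR]
      simp only
      nlinarith [h4]
    exact le_of_mul_le_mul_left h6 hz1

end Pool.Agent.Helper83.SD
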