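import Pool.Agent.Helper83.SD.Gam

/-!
Project SD, module PoleD: pole error, linear case.

`|PoleF L B| ≤ G Σ_{n≥1} |gam n| (T/L)^n / (2^n n! √(2n))`, `T/L ≤ 2.41`.  Numerically
n = 1: 0.010651, n = 2: 0.000776, n = 3: 0.0000923, n ≥ 4: 0.000012; total 0.011532.
For `n ≥ 3` use `cc`; with `(2n+1)! ≤ (2n+1) 4^n (n!)^2` the n-th term is at most
`(2n+1) 4^n 1.205^n 2.02 / ((2π)^(2n+2) √(2n))` plus a tiny term: ratio 0.123.
-/

set_option autoImplicit false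

open MeasureTheory Real

namespace Pool.Agent.Helper83.SD

/-- the n-th term of the bound -/
noncomputable def pdt (n : ℕ) : ℝ := |gam n| * 1.205 ^ n / ((n.factorial : ℝ) * √(2 * (n : ℝ)))

theorem fact_two_le (n : ℕ) : ((2 * n).factorial : ℝ) ≤ 4 ^ n * (n.factorial : ℝ) ^ 2 := by
  induction n with
  | zero => simp
  | succ n ih =>
    have h1 : (2 * (n + 1)).factorial = (2 * n + 2) * ((2 * n + 1) * (2 * n).factorial) := by
      rw [show 2 * (n + 1) = (2 * n + 1) + 1 by ring, Nat.factorial_succ, Nat.factorial_succ]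
    have h2 : ((n + 1).factorial : ℝ) = ((n : ℝ) + 1) * (n.factorial : ℝ) := by
      rw [Nat.factorial_succ]; push_cast; ring
    rw [h1, h2]
    push_cast
    have h3 : (0 : ℝ) ≤ n := Nat.cast_nonneg n
    have h4 : (2 * (n : ℝ) + 2) * ((2 * (n : ℝ) + 1) * ((2 * n).factorial : ℝ)) ≤
        (2 * (n : ℝ) + 2) * ((2 * (n : ℝ) + 2) * (4 ^ n * (n.factorial : ℝ) ^ 2)) := by
      have : (0 : ℝ) ≤ ((2 * n).factorial : ℝ) := by positivity
      gcongr
      linarith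
    refine h4.trans (le_of_eq ?_)
    ring

theorem four_pi_sq : (39.47 : ℝ) ≤ (2 * π) ^ 2 := by
  have := Real.pi_gt_d4
  nlinarith

theorem pdt_one : pdt 1 ≤ 0.010652 := by
  unfold pdt
  rw [gam_one]
  have h : (1.4142 : ℝ) ≤ √(2 * ((1 : ℕ) : ℝ)) := by
    apply Real.le_sqrt_of_sq_le; norm_num
  have h1 : |(1 / 80 : ℝ)| * 1.205 ^ 1 / (((1 : ℕ).factorial : ℝ) * √(2 * ((1 : ℕ) : ℝ))) ≤
      |(1 / 80 : ℝ)| * 1.205 ^ 1 / (((1 : ℕ).factorial : ℝ) * 1.4142) := by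
    gcongr
  refine h1.trans ?_
  rw [abs_of_pos (by norm_num)]
  norm_num [Nat.factorial]

theorem pdt_two : pdt 2 ≤ 0.0007764 := by
  unfold pdt
  rw [gam_two]
  have h : √(2 * ((2 : ℕ) : ℝ)) = 2 := by
    rw [show (2 * ((2 : ℕ) : ℝ)) = 2 ^ 2 by norm_num]
    exact Real.sqrt_sq (by norm_num)
  rw [h, abs_neg, abs_of_pos (by norm_num)]
  norm_num [Nat.factorial]

theorem pdt_three : pdt 3 ≤ 0.0000935 := by
  unfold pdt
  have h : (2.449 : ℝ) ≤ √(2 * ((3 : ℕ) : ℝ)) := by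
    apply Real.le_sqrt_of_sq_le; norm_num
  have h1 : |gam 3| * 1.205 ^ 3 / (((3 : ℕ).factorial : ℝ) * √(2 * ((3 : ℕ) : ℝ))) ≤
      cc 3 * 1.205 ^ 3 / (((3 : ℕ).factorial : ℝ) * 2.449) := by
    have h2 := gam_le 3 le_rfl
    have h3 : 0 ≤ cc 3 := (abs_nonneg _).trans h2
    gcongr
  refine h1.trans ?_
  have h4 : cc 3 ≤ 0.00078 := by
    unfold cc
    have h5 : (39.47 : ℝ) ^ 4 ≤ (2 * π) ^ (2 * 3 + 2) := by
      rw [show 2 * 3 + 2 = 2 * 4 by norm_num, pow_mul]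
      exact pow_le_pow_left₀ (by norm_num) four_pi_sq 4
    have h6 : 1.01 * ((2 * 3 + 1).factorial : ℝ) / (2 * π) ^ (2 * 3 + 2) ≤
        1.01 * ((2 * 3 + 1).factorial : ℝ) / 39.47 ^ 4 := by
      gcongr
    have h7 : (2 / (((3 : ℕ).factorial : ℝ))) *
        ((1 / 6) ^ 3 / 24 + 1.01 * ((2 * 3 + 1).factorial : ℝ) / (2 * π) ^ (2 * 3 + 2)) ≤
        (2 / (((3 : ℕ).factorial : ℝ))) *
        ((1 / 6) ^ 3 / 24 + 1.01 * ((2 * 3 + 1).factorial : ℝ) / 39.47 ^ 4) := by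
      gcongr
    have h8 : (1 / 6 : ℝ) ^ (3 + 1) / (2 * ((3 + 1).factorial : ℝ)) +
        (2 / (((3 : ℕ).factorial : ℝ))) *
        ((1 / 6) ^ 3 / 24 + 1.01 * ((2 * 3 + 1).factorial : ℝ) / 39.47 ^ 4) ≤ 0.00078 := by
      norm_num [Nat.factorial]
    linarith
  have h5 : cc 3 * 1.205 ^ 3 / (((3 : ℕ).factorial : ℝ) * 2.449) ≤
      0.00078 * 1.205 ^ 3 / (((3 : ℕ).factorial : ℝ) * 2.449) := by
    gcongr
  refine h5.trans ?_
  norm_num [Nat.factorial]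

theorem pdt_four (k : ℕ) : pdt (k + 4) ≤ 0.00004 * (1 / 4) ^ k := by
  set n := k + 4 with hn
  have hf : (0 : ℝ) < (n.factorial : ℝ) := by positivity
  have hf24 : (24 : ℝ) ≤ (n.factorial : ℝ) := by
    have : Nat.factorial 4 ≤ Nat.factorial n := Nat.factorial_le (by omega)
    exact_mod_cast this
  have h : (2.828 : ℝ) ≤ √(2 * (n : ℝ)) := by
    apply Real.le_sqrt_of_sq_le
    have : (4 : ℝ) ≤ n := by exact_mod_cast (by omega : 4 ≤ n)
    norm_num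
    linarith
  have h2 := gam_le n (by omega)
  have h3 : 0 ≤ cc n := (abs_nonneg _).trans h2
  have h1 : pdt n ≤ cc n * 1.205 ^ n / ((n.factorial : ℝ) * 2.828) := by
    unfold pdt
    gcongr
  refine h1.trans ?_
  -- first part
  have hfac : ((2 * n + 1).factorial : ℝ) ≤ (2 * n + 1) * (4 ^ n * (n.factorial : ℝ) ^ 2) := by
    rw [Nat.factorial_succ]
    push_cast
    have := fact_two_le n
    gcongr
  have hlin : (2 * (n : ℝ) + 1) ≤ 9 * (11 / 9) ^ k := by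
    have hb := one_add_mul_le_pow (R := ℝ) (a := 2 / 9) (by norm_num) k
    rw [hn]
    push_cast
    have h11 : (1 + 2 / 9 : ℝ) = 11 / 9 := by norm_num
    rw [h11] at hb
    linarith
  have hpi : (39.47 : ℝ) ^ (n + 1) ≤ (2 * π) ^ (2 * n + 2) := by
    rw [show 2 * n + 2 = 2 * (n + 1) by ring, pow_mul]
    exact pow_le_pow_left₀ (by norm_num) four_pi_sq _
  have hA : 1.01 * ((2 * n + 1).factorial : ℝ) / (2 * π) ^ (2 * n + 2) ≤
      1.01 * ((9 * (11 / 9) ^ k) * (4 ^ n * (n.factorial : ℝ) ^ 2)) / 39.47 ^ (n + 1) := by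
    have h5 : ((2 * n + 1).factorial : ℝ) ≤ (9 * (11 / 9) ^ k) * (4 ^ n * (n.factorial : ℝ) ^ 2) := by
      refine hfac.trans ?_
      gcongr
    gcongr
  have hB : (1 / 6 : ℝ) ^ (n + 1) / (2 * ((n + 1).factorial : ℝ)) ≤ (1 / 6) ^ n * (1 / 288) := by
    have h6 : (24 : ℝ) ≤ ((n + 1).factorial : ℝ) := by
      have : Nat.factorial 4 ≤ Nat.factorial (n + 1) := Nat.factorial_le (by omega)
      exact_mod_cast this
    have h7 : (1 / 6 : ℝ) ^ (n + 1) / (2 * ((n + 1).factorial : ℝ)) ≤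
        (1 / 6 : ℝ) ^ (n + 1) / (2 * 24) := by
      gcongr
    refine h7.trans (le_of_eq ?_)
    rw [pow_succ]; ring
  have hC : (2 / (n.factorial : ℝ)) * ((1 / 6) ^ n / 24) ≤ (1 / 6) ^ n * (1 / 288) := by
    have h7 : (2 / (n.factorial : ℝ)) * ((1 / 6) ^ n / 24) ≤ (2 / 24) * ((1 / 6) ^ n / 24) := by
      gcongr
    refine h7.trans (le_of_eq ?_)
    ring
  have hcc : cc n ≤ (1 / 6) ^ n * (1 / 144) +
      (2 / (n.factorial : ℝ)) *
      (1.01 * ((9 * (11 / 9) ^ k) * (4 ^ n * (n.factorial : ℝ) ^ 2)) / 39.47 ^ (n + 1)) := by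
    unfold cc
    have h8 : (2 / (n.factorial : ℝ)) *
        (1.01 * ((2 * n + 1).factorial : ℝ) / (2 * π) ^ (2 * n + 2)) ≤
        (2 / (n.factorial : ℝ)) *
      (1.01 * ((9 * (11 / 9) ^ k) * (4 ^ n * (n.factorial : ℝ) ^ 2)) / 39.47 ^ (n + 1)) := by
      gcongr
    rw [mul_add]
    linarith
  have h9 : cc n * 1.205 ^ n / ((n.factorial : ℝ) * 2.828) ≤
      ((1 / 6) ^ n * (1 / 144) + (2 / (n.factorial : ℝ)) *
      (1.01 * ((9 * (11 / 9) ^ k) * (4 ^ n * (n.factorial : ℝ) ^ 2)) / 39.47 ^ (n + 1))) *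
      1.205 ^ n / ((n.factorial : ℝ) * 2.828) := by
    gcongr
  refine h9.trans ?_
  have h10 : ((1 / 6 : ℝ) ^ n * (1 / 144) + (2 / (n.factorial : ℝ)) *
      (1.01 * ((9 * (11 / 9) ^ k) * (4 ^ n * (n.factorial : ℝ) ^ 2)) / 39.47 ^ (n + 1))) *
      1.205 ^ n / ((n.factorial : ℝ) * 2.828) =
      (1.205 / 6) ^ n * (1 / 144) / ((n.factorial : ℝ) * 2.828) +
      2 * 1.01 * 9 / (39.47 * 2.828) * ((11 / 9) ^ k * (4 * 1.205 / 39.47) ^ n) := by
    have e1 : (1.205 / 6 : ℝ) ^ n = (1 / 6) ^ n * 1.205 ^ n := by rw [← mul_pow]; norm_num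
    have e2 : (4 * 1.205 / 39.47 : ℝ) ^ n = 4 ^ n * 1.205 ^ n / 39.47 ^ n := by
      rw [div_pow, mul_pow]
    rw [e1, e2, pow_succ (39.47 : ℝ) n]
    generalize (1.205 : ℝ) ^ n = a
    generalize (1 / 6 : ℝ) ^ n = b
    generalize (11 / 9 : ℝ) ^ k = c
    have h39 : (39.47 : ℝ) ^ n ≠ 0 := by positivity
    generalize (39.47 : ℝ) ^ n = d at h39
    generalize (4 : ℝ) ^ n = e
    field_simp
  rw [h10]
  have h11 : (1.205 / 6 : ℝ) ^ n * (1 / 144) / ((n.factorial : ℝ) * 2.828) ≤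
      0.000001 * (1 / 4) ^ k := by
    have h12 : (1.205 / 6 : ℝ) ^ n * (1 / 144) / ((n.factorial : ℝ) * 2.828) ≤
        (1.205 / 6 : ℝ) ^ n * (1 / 144) / (24 * 2.828) := by
      gcongr
    refine h12.trans ?_
    have h13 : (1.205 / 6 : ℝ) ^ n = (1.205 / 6) ^ k * (1.205 / 6) ^ 4 := by rw [hn, pow_add]
    have h14 : (1.205 / 6 : ℝ) ^ k ≤ (1 / 4) ^ k := pow_le_pow_left₀ (by norm_num) (by norm_num) k
    rw [h13]
    have h15 : (1.205 / 6 : ℝ) ^ k * (1.205 / 6) ^ 4 * (1 / 144) / (24 * 2.828) =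
        ((1.205 / 6) ^ 4 * (1 / 144) / (24 * 2.828)) * (1.205 / 6) ^ k := by ring
    rw [h15]
    have h16 : ((1.205 / 6 : ℝ) ^ 4 * (1 / 144) / (24 * 2.828)) ≤ 0.000001 := by norm_num
    gcongr
  have h12 : 2 * 1.01 * 9 / (39.47 * 2.828) * ((11 / 9 : ℝ) ^ k * (4 * 1.205 / 39.47) ^ n) ≤
      0.000039 * (1 / 4) ^ k := by
    have h13 : (11 / 9 : ℝ) ^ k * (4 * 1.205 / 39.47) ^ n =
        (11 / 9 * (4 * 1.205 / 39.47)) ^ k * (4 * 1.205 / 39.47) ^ 4 := by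
      rw [hn, pow_add, mul_pow]; ring
    rw [h13]
    have h14 : (11 / 9 * (4 * 1.205 / 39.47) : ℝ) ^ k ≤ (1 / 4) ^ k :=
      pow_le_pow_left₀ (by norm_num) (by norm_num) k
    have h15 : 2 * 1.01 * 9 / (39.47 * 2.828) * ((11 / 9 * (4 * 1.205 / 39.47) : ℝ) ^ k *
        (4 * 1.205 / 39.47) ^ 4) = (2 * 1.01 * 9 / (39.47 * 2.828) * (4 * 1.205 / 39.47) ^ 4) *
        (11 / 9 * (4 * 1.205 / 39.47) : ℝ) ^ k := by ring
    rw [h15]
    have h16 : (2 * 1.01 * 9 / (39.47 * 2.828) * (4 * 1.205 / 39.47) ^ 4 : ℝ) ≤ 0.000039 := by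
      norm_num
    gcongr
  linarith

theorem pdt_nonneg (n : ℕ) : 0 ≤ pdt n := by unfold pdt; positivity

theorem pdt_sum (N : ℕ) : ∑ n ∈ Finset.range N, pdt n ≤ 0.0116 := by
  have h1 : ∑ n ∈ Finset.range N, pdt n ≤ ∑ n ∈ Finset.range (N + 4), pdt n :=
    Finset.sum_le_sum_of_subset_of_nonneg (Finset.range_mono (by omega))
      fun n _ _ => pdt_nonneg n
  have h2 : ∑ n ∈ Finset.range (N + 4), pdt n =
      ∑ n ∈ Finset.range N, pdt (n + 4) + pdt 3 + pdt 2 + pdt 1 + pdt 0 := by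
    rw [Finset.sum_range_succ', Finset.sum_range_succ', Finset.sum_range_succ',
      Finset.sum_range_succ']
  have h0 : pdt 0 = 0 := by unfold pdt; rw [gam_zero]; simp
  have h3 : ∑ n ∈ Finset.range N, pdt (n + 4) ≤ 0.00004 * (4 / 3) := by
    have h4 : ∑ n ∈ Finset.range N, pdt (n + 4) ≤ ∑ n ∈ Finset.range N, 0.00004 * (1 / 4) ^ n :=
      Finset.sum_le_sum fun n _ => pdt_four n
    refine h4.trans ?_
    rw [← Finset.mul_sum, geom_sum_eq (by norm_num)]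
    have h5 : (0 : ℝ) ≤ (1 / 4) ^ N := by positivity
    have h6 : ((1 / 4 : ℝ) ^ N - 1) / (1 / 4 - 1) ≤ 4 / 3 := by
      rw [div_le_iff_of_neg (by norm_num)]
      linarith
    gcongr
  have := pdt_one
  have := pdt_two
  have := pdt_three
  rw [h2, h0] at h1
  refine h1.trans ?_
  norm_num at *
  linarith

theorem poleD {L T G : ℝ} (B : Polynomial ℝ) (hL : 0 < L) (hT : 0 ≤ T) (hTL : T ≤ 2.41 * L)
    (hG : 0 ≤ G)
    (h : ∀ n : ℕ, 1 ≤ n → |((Polynomial.derivative^[n] B).eval 1)| ≤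
      G * T ^ n / (2 ^ n * (n.factorial : ℝ) * √(2 * (n : ℝ)))) :
    |PoleF L B| ≤ 0.0116 * G := by
  rw [pole_series hL.ne' B]
  refine (Finset.abs_sum_le_sum_abs _ _).trans ?_
  have h1 : ∀ n ∈ Finset.range (B.natDegree + 1),
      |gam n * ((Polynomial.derivative^[n] B).eval 1) / L ^ n| ≤ G * pdt n := by
    intro n _
    rcases Nat.eq_zero_or_pos n with h0 | h0
    · subst h0
      rw [gam_zero]
      simp only [zero_mul, zero_div, abs_zero]
      exact mul_nonneg hG (pdt_nonneg 0)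
    · have h2 := h n h0
      rw [abs_div, abs_mul, abs_of_pos (pow_pos hL n)]
      have hs : 0 < √(2 * (n : ℝ)) := by
        apply Real.sqrt_pos.mpr
        have : (0 : ℝ) < n := by exact_mod_cast h0
        positivity
      have h3 : |gam n| * |((Polynomial.derivative^[n] B).eval 1)| / L ^ n ≤
          |gam n| * (G * T ^ n / (2 ^ n * (n.factorial : ℝ) * √(2 * (n : ℝ)))) / L ^ n := by
        gcongr
      refine h3.trans ?_
      have h4 : |gam n| * (G * T ^ n / (2 ^ n * (n.factorial : ℝ) * √(2 * (n : ℝ)))) / L ^ n ≤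
          |gam n| * (G * (2.41 * L) ^ n / (2 ^ n * (n.factorial : ℝ) * √(2 * (n : ℝ)))) / L ^ n := by
        gcongr
      refine h4.trans (le_of_eq ?_)
      unfold pdt
      have h5 : (2.41 : ℝ) ^ n = 2 ^ n * 1.205 ^ n := by rw [← mul_pow]; norm_num
      rw [mul_pow, h5]
      have h6 : L ^ n ≠ 0 := (pow_pos hL n).ne'
      field_simp
  refine (Finset.sum_le_sum h1).trans ?_
  rw [← Finset.mul_sum]
  have h2 := pdt_sum (B.natDegree + 1)
  calc G * ∑ n ∈ Finset.range (B.natDegree + 1), pdt n ≤ G * 0.0116 := by gcongr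
    _ = 0.0116 * G := by ring

end Pool.Agent.Helper83.SD
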