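import Pool.Agent.Helper83.SD.Zonal
import Pool.Agent.Helper83.SD.PoleD
import Pool.Agent.Helper83.SD.EqB
import Pool.Agent.Helper83.SD.Loc2
import Pool.Agent.Helper83.SD.EnLow
import Pool.Agent.Helper83.SD.ZSym

/-!
Project SD, module ZD: zonal quadrature error, linear case.

`zonal` with `B = u 0`; pole terms: `poleD` with `T = (t+1)^2`, `G = √(en p)`: for `n ≥ 1`,
`(u 0)^(n)(±1) = ((u 0)')^(n-1)(±1)`, `mode_bound` with `m = 1`, `i = n-1` gives
`T^(2n)/((2n) 4^n n!^2) * nrm 1 ((u 0)')`, and `en_low`.  Equator: `eq_bound` for `B + refl B`,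
`Λ = √(lam t)`, `M = 2 √(8(t+1)) √(en p)/√(lam t)` (`loc_D`), crude bound:
`|(u 0)'|^2 ≤ T^2/8 en p` on `[-1,1]`.
-/

set_option autoImplicit false

open MeasureTheory Real

namespace Pool.Agent.Helper83.SD

/-- derivative bounds for the zonal mode -/
theorem zd_der {t : ℕ} {p : Poly} {u v : ℤ → Polynomial ℝ} (ht : 1 ≤ t) (h : Modes t p u v)
    (n : ℕ) (hn : 1 ≤ n) (z : ℝ) (hz : z ^ 2 ≤ 1) :
    |(Polynomial.derivative^[n] (u 0)).eval z| ≤
      √(en p) * (((t : ℝ) + 1) ^ 2) ^ n / (2 ^ n * (n.factorial : ℝ) * √(2 * (n : ℝ))) := by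
  obtain ⟨k, rfl⟩ : ∃ k, n = k + 1 := ⟨n - 1, by omega⟩
  have hd : (Polynomial.derivative (u 0)).natDegree ≤ t - 1 := by
    refine (Polynomial.natDegree_derivative_le _).trans ?_
    have := h.degu 0 (by simp)
    simp at this
    omega
  have hb := mode_bound t 1 k ht (Polynomial.derivative (u 0)) hd z hz
  have hen := en_low h
  have hg : 0 ≤ ∑ m ∈ (Finset.Icc (-(t : ℤ)) t).erase 0, gmode u v m :=
    Finset.sum_nonneg (fun m _ => gmode_nonneg u v m)
  have hN : nrm 1 (Polynomial.derivative (u 0)) ≤ en p := by linarith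
  have hE : 0 ≤ en p := (nrm_nonneg _ _).trans hN
  rw [Function.iterate_succ_apply]
  have hf : (0 : ℝ) < ((k + 1).factorial : ℝ) := by exact_mod_cast (k + 1).factorial_pos
  have hT : (0 : ℝ) ≤ ((t : ℝ) + 1) ^ 2 := by positivity
  have key : ((Polynomial.derivative^[k] (Polynomial.derivative (u 0))).eval z) ^ 2 ≤
      (√(en p) * (((t : ℝ) + 1) ^ 2) ^ (k + 1) /
        (2 ^ (k + 1) * ((k + 1).factorial : ℝ) * √(2 * ((k + 1 : ℕ) : ℝ)))) ^ 2 := by
    refine hb.trans ?_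
    have e1 : (√(en p) * (((t : ℝ) + 1) ^ 2) ^ (k + 1) /
        (2 ^ (k + 1) * ((k + 1).factorial : ℝ) * √(2 * ((k + 1 : ℕ) : ℝ)))) ^ 2 =
        (((t : ℝ) + 1) ^ 2) ^ (1 + 2 * k + 1) /
        ((((1 : ℕ) : ℝ) + 2 * (k : ℝ) + 1) * 4 ^ (1 + k) * ((1 + k).factorial : ℝ) ^ 2) * en p := by
      rw [div_pow, mul_pow, mul_pow, mul_pow, Real.sq_sqrt hE, Real.sq_sqrt (by positivity)]
      have e2 : ((4 : ℝ)) ^ (1 + k) = (2 ^ (k + 1)) ^ 2 := by
        rw [← pow_mul, mul_comm, pow_mul, add_comm 1 k]; norm_num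
      have e3 : (1 + k) = k + 1 := by ring
      rw [e2, e3]
      push_cast
      rw [← pow_mul (((t : ℝ) + 1) ^ 2) (k + 1) 2]
      have e4 : (k + 1) * 2 = 1 + 2 * k + 1 := by ring
      rw [e4]
      have e5 : (2 * ((k : ℝ) + 1)) = (1 + 2 * (k : ℝ) + 1) := by ring
      rw [e5]
      have : (0 : ℝ) < 1 + 2 * (k : ℝ) + 1 := by positivity
      field_simp
    rw [e1]
    exact mul_le_mul_of_nonneg_left hN (by positivity)
  have hnn : 0 ≤ √(en p) * (((t : ℝ) + 1) ^ 2) ^ (k + 1) /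
        (2 ^ (k + 1) * ((k + 1).factorial : ℝ) * √(2 * ((k + 1 : ℕ) : ℝ))) := by positivity
  exact abs_le_of_sq_le_sq key hnn

theorem zonal_D : ∃ C T0 : ℝ, 0 < C ∧ ∀ (t J : ℕ) (p : Poly) (u v : ℤ → Polynomial ℝ),
    T0 ≤ (t : ℝ) → Reg t J → p.totalDegree ≤ t → Modes t p u v →
    |SZ J (fun z => (u 0).eval z) - mu p| ≤ (0.0232 + C / √(t : ℝ)) / L2 J * √(en p) := by
  obtain ⟨C1, T1, hC1, hE⟩ := eq_bound
  refine ⟨8 * C1, max T1 1000, by positivity, fun t J p u v ht hR hp hm => ?_⟩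
  have h1 : T1 ≤ (t : ℝ) := (le_max_left _ _).trans ht
  have h2 : (1000 : ℝ) ≤ (t : ℝ) := (le_max_right _ _).trans ht
  have h1000 : 1000 ≤ t := by exact_mod_cast h2
  have ht1 : 1 ≤ t := by omega
  have htp : (0 : ℝ) < t := by linarith
  have hJ : 1 ≤ J := by have := J_pos h1000 hR; omega
  have hL := L2_pos J
  set B := u 0 with hB
  set E := √(en p) with hEdef
  have hEn : 0 ≤ E := Real.sqrt_nonneg _
  have hlamp : 0 < lam t := by unfold lam; positivity
  have hsl : 0 < √(lam t) := Real.sqrt_pos.mpr hlamp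
  have hslt : (t : ℝ) ≤ √(lam t) := by
    apply Real.le_sqrt_of_sq_le
    unfold lam; nlinarith
  have hslu : √(lam t) ≤ (t : ℝ) + 1 / 2 := by
    have := two_sqrt_lam_le t
    linarith
  -- pole terms
  have hP1 : |PoleF (L2 J) B| ≤ 0.0116 * E :=
    poleD B hL (by positivity) (T_le h1000 hR) hEn
      (fun n hn => zd_der ht1 hm n hn 1 (by norm_num))
  have hP2 : |PoleF (L2 J) (refl B)| ≤ 0.0116 * E :=
    poleD (refl B) hL (by positivity) (T_le h1000 hR) hEn
      (fun n hn => by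
        rw [abs_iterate_refl]
        exact zd_der ht1 hm n hn (-1) (by norm_num))
  -- equator term
  set M := √(8 * ((t : ℝ) + 1)) * E / √(lam t) with hM
  have hMn : 0 ≤ M := by positivity
  have hNear : NearHyp (B + refl B) (2 * M) (√(lam t)) := by
    apply nearHyp_sym
    intro k hk ψ hψ
    refine (loc_D ht1 hp hm k hk hψ).trans (le_of_eq ?_)
    obtain ⟨l, rfl⟩ : ∃ l, k = l + 1 := ⟨k - 1, by omega⟩
    rw [Nat.add_sub_cancel, hM, pow_succ, ← hEdef]
    field_simp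
  have hder1 : ∀ z : ℝ, z ^ 2 ≤ 1 → |(Polynomial.derivative B).eval z| ≤
      E * ((t : ℝ) + 1) ^ 2 / 2 := by
    intro z hz
    have := zd_der ht1 hm 1 le_rfl z hz
    simp only [Function.iterate_one, pow_one, Nat.factorial_one, Nat.cast_one, mul_one] at this
    refine this.trans ?_
    apply div_le_div_of_nonneg_left (by positivity) (by norm_num)
    have : (1 : ℝ) ≤ √2 := by
      rw [Real.one_le_sqrt]; norm_num
    linarith
  have hcr1 : ∀ z : ℝ, z ^ 2 ≤ 1 → |B.eval z - B.eval 0| ≤ E * ((t : ℝ) + 1) ^ 2 / 2 := by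
    intro z hz
    have hz1 : |z| ≤ 1 := abs_le_one_iff_mul_self_le_one.mpr (by nlinarith)
    have hmv := Convex.norm_image_sub_le_of_norm_hasDerivWithin_le
      (f := fun x => B.eval x) (f' := fun x => (Polynomial.derivative B).eval x)
      (s := Set.Icc (-1 : ℝ) 1) (x := 0) (y := z) (C := E * ((t : ℝ) + 1) ^ 2 / 2)
      (fun x _ => (B.hasDerivAt x).hasDerivWithinAt)
      (fun x hx => by
        rw [Real.norm_eq_abs]
        exact hder1 x (by nlinarith [hx.1, hx.2]))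
      (convex_Icc _ _) ⟨by norm_num, by norm_num⟩ ⟨by linarith [(abs_le.mp hz1).1], (abs_le.mp hz1).2⟩
    simp only [Real.norm_eq_abs, sub_zero] at hmv
    refine hmv.trans ?_
    have : 0 ≤ E * ((t : ℝ) + 1) ^ 2 / 2 := by positivity
    nlinarith
  have hcrude : ∀ z : ℝ, z ^ 2 ≤ 1 →
      |(B + refl B).eval z - (B + refl B).eval 0| ≤ (2 * M) * (t : ℝ) ^ 3 := by
    intro z hz
    have e1 : (B + refl B).eval z - (B + refl B).eval 0 =
        (B.eval z - B.eval 0) + (B.eval (-z) - B.eval 0) := by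
      simp only [Polynomial.eval_add, refl_eval, neg_zero]
      ring
    have e2 := hcr1 z hz
    have e3 := hcr1 (-z) (by simpa using hz)
    have e4 : |(B + refl B).eval z - (B + refl B).eval 0| ≤ E * ((t : ℝ) + 1) ^ 2 := by
      rw [e1]
      calc |(B.eval z - B.eval 0) + (B.eval (-z) - B.eval 0)|
          ≤ |B.eval z - B.eval 0| + |B.eval (-z) - B.eval 0| := abs_add_le _ _
        _ ≤ E * ((t : ℝ) + 1) ^ 2 / 2 + E * ((t : ℝ) + 1) ^ 2 / 2 := add_le_add e2 e3
        _ = E * ((t : ℝ) + 1) ^ 2 := by ring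
    refine e4.trans ?_
    have e5 : (1 : ℝ) ≤ √(8 * ((t : ℝ) + 1)) := by
      rw [Real.one_le_sqrt]; nlinarith
    have e6 : E / ((t : ℝ) + 1 / 2) ≤ M := by
      rw [hM, mul_div_assoc]
      calc E / ((t : ℝ) + 1 / 2) ≤ E / √(lam t) :=
            div_le_div_of_nonneg_left hEn hsl hslu
        _ ≤ √(8 * ((t : ℝ) + 1)) * (E / √(lam t)) := by
            have : 0 ≤ E / √(lam t) := by positivity
            nlinarith
    have e7 : E * ((t : ℝ) + 1) ^ 2 ≤ 2 * (E / ((t : ℝ) + 1 / 2)) * (t : ℝ) ^ 3 := by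
      have : 2 * (E / ((t : ℝ) + 1 / 2)) * (t : ℝ) ^ 3 =
          E * (2 * (t : ℝ) ^ 3 / ((t : ℝ) + 1 / 2)) := by ring
      rw [this]
      apply mul_le_mul_of_nonneg_left _ hEn
      rw [le_div_iff₀ (by positivity)]
      nlinarith [mul_pos htp htp, pow_pos htp 3, mul_nonneg htp.le (sub_nonneg.mpr h2),
        mul_nonneg (mul_nonneg htp.le htp.le) (sub_nonneg.mpr h2)]
    refine e7.trans ?_
    gcongr
  have hdeg : (B + refl B).natDegree ≤ 2 * t := by
    refine (Polynomial.natDegree_add_le _ _).trans ?_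
    have hB0 : B.natDegree ≤ t := by
      have := hm.degu 0 (by simp)
      simpa using this
    have := refl_natDegree B
    simp only [max_le_iff]
    constructor <;> omega
  have hQ : |EqF J (B + refl B)| ≤ C1 * (2 * M) := by
    refine hE t J (B + refl B) (2 * M) (√(lam t)) h1 hR hdeg (by positivity) (by linarith)
      (by linarith) hNear hcrude
  have hMb : M ≤ 4 / √(t : ℝ) * E := by
    have e1 : √(8 * ((t : ℝ) + 1)) ≤ 4 * √(t : ℝ) := by
      apply Real.sqrt_le_iff.mpr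
      refine ⟨by positivity, ?_⟩
      rw [mul_pow, Real.sq_sqrt htp.le]
      linarith
    have e2 : √(8 * ((t : ℝ) + 1)) / √(lam t) ≤ 4 / √(t : ℝ) := by
      rw [div_le_div_iff₀ hsl (Real.sqrt_pos.mpr htp)]
      calc √(8 * ((t : ℝ) + 1)) * √(t : ℝ) ≤ 4 * √(t : ℝ) * √(t : ℝ) := by gcongr
        _ = 4 * t := by rw [mul_assoc, Real.mul_self_sqrt htp.le]
        _ ≤ 4 * √(lam t) := by linarith
    calc M = √(8 * ((t : ℝ) + 1)) / √(lam t) * E := by rw [hM]; ring
      _ ≤ 4 / √(t : ℝ) * E := by gcongr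
  have hmain := zonal J hJ B
  rw [mu_lin hm, hmain, abs_div, abs_of_pos hL]
  have hsum : |PoleF (L2 J) B + PoleF (L2 J) (refl B) + EqF J (B + refl B)| ≤
      (0.0232 + 8 * C1 / √(t : ℝ)) * E := by
    calc |PoleF (L2 J) B + PoleF (L2 J) (refl B) + EqF J (B + refl B)|
        ≤ |PoleF (L2 J) B| + |PoleF (L2 J) (refl B)| + |EqF J (B + refl B)| := abs_add_three _ _ _
      _ ≤ 0.0116 * E + 0.0116 * E + C1 * (2 * (4 / √(t : ℝ) * E)) := by
          refine add_le_add (add_le_add hP1 hP2) (hQ.trans ?_)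
          gcongr
      _ = (0.0232 + 8 * C1 / √(t : ℝ)) * E := by ring
  calc |PoleF (L2 J) B + PoleF (L2 J) (refl B) + EqF J (B + refl B)| / L2 J
      ≤ ((0.0232 + 8 * C1 / √(t : ℝ)) * E) / L2 J := by gcongr
    _ = (0.0232 + 8 * C1 / √(t : ℝ)) / L2 J * E := by ring

end Pool.Agent.Helper83.SD
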