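import Pool.Agent.Helper83.SD.Ring
import Pool.Agent.Helper83.SD.ZD
import Pool.Agent.Helper83.SD.Harm
import Pool.Agent.Helper83.SD.Fourier

/-!
Project SD, module Dl: the configuration is nearly a design.

`|SJ p - mu p| ≤ (0.0232 + C/√t + 0.009)/L2 √(en p)` and `1/L2 ≤ 1/(0.416 t^2)`:
`0.0322 / 0.416 = 0.0775 < 0.1`.
-/

set_option autoImplicit false

open MeasureTheory Real

namespace Pool.Agent.Helper83.SD

theorem near_design : ∃ T0 : ℝ, ∀ t J : ℕ, T0 ≤ (t : ℝ) → Reg t J →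
    ∀ p : Poly, p.totalDegree ≤ t → |SJ J (ev p) - mu p| ≤ 0.1 / (t : ℝ) ^ 2 * √(en p) := by
  obtain ⟨C, T1, hC, hZ⟩ := zonal_D
  refine ⟨max (max T1 1000) ((200 * C) ^ 2), fun t J ht hR p hp => ?_⟩
  have h1 : T1 ≤ (t : ℝ) := ((le_max_left _ _).trans (le_max_left _ _)).trans ht
  have h2 : (1000 : ℝ) ≤ (t : ℝ) := ((le_max_right _ _).trans (le_max_left _ _)).trans ht
  have h3 : (200 * C) ^ 2 ≤ (t : ℝ) := (le_max_right _ _).trans ht
  have h1000 : 1000 ≤ t := by exact_mod_cast h2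
  have htp : (0 : ℝ) < t := by linarith
  have hst : 200 * C ≤ √(t : ℝ) := Real.le_sqrt_of_sq_le h3
  have hCt : C / √(t : ℝ) ≤ 0.005 := by
    rw [div_le_iff₀ (Real.sqrt_pos.mpr htp)]; linarith
  obtain ⟨u, v, hm⟩ := exists_modes t p hp
  have hz := hZ t J p u v h1 hR hp hm
  have hh := harm h1000 hR hm
  have hs := SJ_lin hm (J := J) (by have := J_pos h1000 hR; omega) (no_alias h1000 hR)
  have hL := L2_pos J
  have hLt := L2_ge hR
  have hen := en_low hm
  have hS : √(∑ m ∈ (Finset.Icc (-(t : ℤ)) t).erase 0, gmode u v m) ≤ √(en p) := by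
    apply Real.sqrt_le_sqrt
    have := nrm_nonneg 1 (Polynomial.derivative (u 0))
    linarith
  have hE : 0 ≤ √(en p) := Real.sqrt_nonneg _
  have h4 : 0.009 / L2 J * √(∑ m ∈ (Finset.Icc (-(t : ℤ)) t).erase 0, gmode u v m) ≤
      0.009 / L2 J * √(en p) := mul_le_mul_of_nonneg_left hS (by positivity)
  have h5 : (0.0232 + C / √(t : ℝ)) / L2 J * √(en p) ≤ 0.0282 / L2 J * √(en p) := by
    apply mul_le_mul_of_nonneg_right _ hE
    gcongr
    linarith
  have h6 : 0.0372 / L2 J ≤ 0.1 / (t : ℝ) ^ 2 := by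
    rw [div_le_div_iff₀ hL (by positivity)]
    nlinarith
  have h7 : |SJ J (ev p) - mu p| ≤ 0.0372 / L2 J * √(en p) := by
    calc |SJ J (ev p) - mu p| ≤ |SJ J (ev p) - SZ J (fun z => (u 0).eval z)| +
        |SZ J (fun z => (u 0).eval z) - mu p| := abs_sub_le _ _ _
      _ ≤ 0.009 / L2 J * √(en p) + 0.0282 / L2 J * √(en p) := by
          apply add_le_add
          · exact hs.trans (hh.trans h4)
          · exact hz.trans h5
      _ = 0.0372 / L2 J * √(en p) := by ring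
  exact h7.trans (mul_le_mul_of_nonneg_right h6 hE)

end Pool.Agent.Helper83.SD
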