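import Pool.Agent.Helper83.SD.Wt

/-!
Project SD, module EM: the Euler-Maclaurin (Abel-Plana) formula for polynomials.

Write `f(a + w) = Σ c_n w^n`.  Then `Lam a f = 2 ∫ Im f(a + i y) wt y dy
= Σ_{n odd} c_n B_{n+1}/(n+1)` (Im i^(2r-1) = (-1)^(r+1) and `moment_bern`).
By linearity it is enough to treat `f = X^p`; `Σ_{j<J} j^p` is Faulhaber's formula
(`sum_range_pow`), or prove the one step formula
`(f(a) + f(a+1))/2 - ∫_a^{a+1} f = Lam (a+1) f - Lam a f` with Bernoulli polynomials and sum.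
-/

set_option autoImplicit false

open MeasureTheory Real

namespace Pool.Agent.Helper83.SD

namespace EM

/-- the coefficients `B_{n+1}/(n+1)`, without `n = 0` -/
noncomputable def bb (n : ℕ) : ℝ := if n = 0 then 0 else ((bernoulli (n + 1) : ℚ) : ℝ) / ((n : ℝ) + 1)

/-- the functional `Σ c_n bb n` -/
noncomputable def beta : Polynomial ℝ →ₗ[ℝ] ℝ :=
  Polynomial.lsum fun n => (bb n) • (LinearMap.id : ℝ →ₗ[ℝ] ℝ)

lemma beta_monomial (n : ℕ) (c : ℝ) : beta (Polynomial.monomial n c) = c * bb n := by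
  show (Polynomial.monomial n c).sum _ = _
  rw [Polynomial.sum_monomial_index]
  · simp [mul_comm]
  · simp

lemma beta_X_pow (n : ℕ) : beta (Polynomial.X ^ n) = bb n := by
  rw [← Polynomial.monomial_one_right_eq_X_pow, beta_monomial, one_mul]

lemma im_I_pow_even (m : ℕ) : (Complex.I ^ (2 * m)).im = 0 := by
  rw [pow_mul, Complex.I_sq]
  have : ((-1 : ℂ) ^ m) = (((-1 : ℝ) ^ m : ℝ) : ℂ) := by push_cast; rfl
  rw [this, Complex.ofReal_im]

lemma im_I_pow_odd (m : ℕ) : (Complex.I ^ (2 * m + 1)).im = (-1) ^ m := by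
  rw [pow_succ, pow_mul, Complex.I_sq]
  have : ((-1 : ℂ) ^ m) = (((-1 : ℝ) ^ m : ℝ) : ℂ) := by push_cast; rfl
  rw [this, Complex.im_ofReal_mul, Complex.I_im, mul_one]

lemma aeval_im_monomial (n : ℕ) (c y : ℝ) :
    (Polynomial.aeval (Complex.I * (y : ℂ)) (Polynomial.monomial n c)).im =
      c * (Complex.I ^ n).im * y ^ n := by
  rw [Polynomial.aeval_monomial, mul_pow]
  have h : (algebraMap ℝ ℂ) c * (Complex.I ^ n * (y : ℂ) ^ n) =
      ((c * y ^ n : ℝ) : ℂ) * Complex.I ^ n := by
    push_cast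
    simp only [Complex.coe_algebraMap]
    ring
  rw [h, Complex.im_ofReal_mul]
  ring

lemma core (g : Polynomial ℝ) :
    IntegrableOn (fun y : ℝ => (Polynomial.aeval (Complex.I * (y : ℂ)) g).im * wt y)
      (Set.Ioi 0) ∧
    2 * ∫ y in Set.Ioi (0 : ℝ), (Polynomial.aeval (Complex.I * (y : ℂ)) g).im * wt y
      = beta g := by
  induction g using Polynomial.induction_on' with
  | add p q hp hq =>
    have hsum : (fun y : ℝ => (Polynomial.aeval (Complex.I * (y : ℂ)) (p + q)).im * wt y) =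
        fun y : ℝ => (Polynomial.aeval (Complex.I * (y : ℂ)) p).im * wt y +
          (Polynomial.aeval (Complex.I * (y : ℂ)) q).im * wt y := by
      funext y
      rw [map_add, Complex.add_im, add_mul]
    refine ⟨?_, ?_⟩
    · rw [hsum]
      exact hp.1.add hq.1
    · rw [hsum, integral_add hp.1 hq.1, mul_add, hp.2, hq.2, map_add]
  | monomial n c =>
    have hfun : (fun y : ℝ =>
        (Polynomial.aeval (Complex.I * (y : ℂ)) (Polynomial.monomial n c)).im * wt y) =
        fun y : ℝ => c * (Complex.I ^ n).im * (y ^ n * wt y) := by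
      funext y
      rw [aeval_im_monomial]
      ring
    rw [hfun, beta_monomial]
    rcases Nat.eq_zero_or_pos n with hn | hn
    · subst hn
      simp [bb]
    · refine ⟨(int_wt0 n hn).const_mul _, ?_⟩
      rw [integral_const_mul]
      rcases Nat.even_or_odd' n with ⟨m, hm | hm⟩
      · subst hm
        have hb : bernoulli (2 * m + 1) = 0 :=
          bernoulli_eq_zero_of_odd ⟨m, rfl⟩ (by omega)
        rw [im_I_pow_even, bb, hb]
        simp
      · subst hm
        have hmom := moment_bern (m + 1) (by omega)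
        have h1 : 2 * (m + 1) - 1 = 2 * m + 1 := by omega
        rw [h1] at hmom
        rw [hmom, im_I_pow_odd, bb]
        have h2 : (2 * m + 1 : ℕ) ≠ 0 := by omega
        rw [if_neg h2]
        have h3 : 2 * m + 1 + 1 = 2 * (m + 1) := by ring
        rw [h3]
        have h4 : ((-1 : ℝ) ^ m) * (-1) ^ (m + 1 + 1) = 1 := by
          rw [← pow_add]
          exact Even.neg_one_pow ⟨m + 1, by ring⟩
        have h5 : (m : ℝ) + 1 ≠ 0 := by positivity
        push_cast
        field_simp
        have h6 : (-1 : ℝ) ^ m * (-1) ^ (m + 1 + 1) * ((bernoulli (2 * (m + 1)) : ℚ) : ℝ) =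
          ((bernoulli (2 * (m + 1)) : ℚ) : ℝ) := by rw [h4, one_mul]
        linear_combination (4 * c * ((m : ℝ) + 1)) * h6

lemma shift (a : ℝ) (f : Polynomial ℝ) (y : ℝ) :
    Polynomial.aeval ((a : ℂ) + Complex.I * (y : ℂ)) f =
      Polynomial.aeval (Complex.I * (y : ℂ)) (Polynomial.taylor a f) := by
  rw [Polynomial.taylor_apply, Polynomial.aeval_comp]
  simp [add_comm]

lemma lam_eq (a : ℝ) (f : Polynomial ℝ) : Lam a f = beta (Polynomial.taylor a f) := by
  unfold Lam
  simp_rw [shift]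
  exact (core _).2

/-- the sum identity for Bernoulli numbers in the form needed -/
lemma bern_sum (n : ℕ) (hn : 1 ≤ n) :
    ∑ k ∈ Finset.range n, (n.choose k : ℝ) * bb k = 1 / 2 - 1 / ((n : ℝ) + 1) := by
  have h := sum_bernoulli (n + 1)
  rw [if_neg (by omega)] at h
  -- split off the first two terms
  obtain ⟨m, rfl⟩ : ∃ m, n = m + 1 := ⟨n - 1, by omega⟩
  rw [Finset.sum_range_succ', Finset.sum_range_succ'] at h
  rw [Finset.sum_range_succ']
  have hq : (∑ k ∈ Finset.range m, (((m + 1 + 1).choose (k + 1 + 1) : ℕ) : ℝ) *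
      ((bernoulli (k + 1 + 1) : ℚ) : ℝ)) + (((m + 1 + 1).choose (0 + 1) : ℕ) : ℝ) *
      ((bernoulli (0 + 1) : ℚ) : ℝ) + (((m + 1 + 1).choose 0 : ℕ) : ℝ) *
      ((bernoulli 0 : ℚ) : ℝ) = 0 := by
    have := congrArg (fun q : ℚ => (q : ℝ)) h
    push_cast at this
    push_cast
    linarith
  have hterm : ∀ k ∈ Finset.range m, (((m + 1).choose (k + 1) : ℕ) : ℝ) * bb (k + 1) =
      (1 / ((m : ℝ) + 2)) * ((((m + 1 + 1).choose (k + 1 + 1) : ℕ) : ℝ) *
      ((bernoulli (k + 1 + 1) : ℚ) : ℝ)) := by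
    intro k _
    rw [bb, if_neg (by omega)]
    have hc : (m + 1 + 1) * (m + 1).choose (k + 1) = (m + 1 + 1).choose (k + 1 + 1) * (k + 1 + 1) :=
      Nat.add_one_mul_choose_eq (m + 1) (k + 1)
    have hc' : ((m : ℝ) + 2) * (((m + 1).choose (k + 1) : ℕ) : ℝ) =
        (((m + 1 + 1).choose (k + 1 + 1) : ℕ) : ℝ) * ((k : ℝ) + 2) := by
      have := congrArg (fun q : ℕ => (q : ℝ)) hc
      push_cast at this
      linarith
    have h1 : (m : ℝ) + 2 ≠ 0 := by positivity
    have h2 : (k : ℝ) + 2 ≠ 0 := by positivity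
    have h3 : ((k + 1 : ℕ) : ℝ) + 1 = (k : ℝ) + 2 := by push_cast; ring
    rw [h3]
    field_simp
    linear_combination ((bernoulli (k + 1 + 1) : ℚ) : ℝ) * hc'
  rw [Finset.sum_congr rfl hterm, ← Finset.mul_sum]
  have hb0 : ((bernoulli 0 : ℚ) : ℝ) = 1 := by norm_num
  have hb1 : ((bernoulli (0 + 1) : ℚ) : ℝ) = -1 / 2 := by norm_num
  rw [hb0, hb1] at hq
  have hS : (∑ k ∈ Finset.range m, (((m + 1 + 1).choose (k + 1 + 1) : ℕ) : ℝ) *
      ((bernoulli (k + 1 + 1) : ℚ) : ℝ)) = ((m : ℝ) + 2) / 2 - 1 := by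
    simp only [zero_add, Nat.choose_one_right, Nat.choose_zero_right] at hq
    push_cast at hq ⊢
    linarith
  rw [hS]
  have h1 : (m : ℝ) + 2 ≠ 0 := by positivity
  have h2 : ((m + 1 : ℕ) : ℝ) + 1 = (m : ℝ) + 2 := by push_cast; ring
  rw [h2]
  simp only [bb, if_true, mul_zero, add_zero]
  field_simp

/-- the one step formula at `0` -/
lemma one_step (g : Polynomial ℝ) :
    (g.eval 0 + g.eval 1) / 2 - ∫ x in (0 : ℝ)..1, g.eval x =
      beta (Polynomial.taylor 1 g) - beta g := by
  induction g using Polynomial.induction_on' with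
  | add p q hp hq =>
    have hi : ∀ r : Polynomial ℝ, IntervalIntegrable (fun x => r.eval x) volume 0 1 := fun r =>
      (Polynomial.continuous r).intervalIntegrable _ _
    simp only [Polynomial.eval_add, map_add]
    rw [intervalIntegral.integral_add (hi p) (hi q)]
    linarith
  | monomial n c =>
    have hi : (∫ x in (0 : ℝ)..1, (Polynomial.monomial n c).eval x) = c * (1 / ((n : ℝ) + 1)) := by
      simp only [Polynomial.eval_monomial]
      rw [intervalIntegral.integral_const_mul, integral_pow]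
      simp
    rw [hi, Polynomial.taylor_monomial, beta_monomial]
    have hX : (Polynomial.X + Polynomial.C (1 : ℝ)) ^ n =
        ∑ k ∈ Finset.range (n + 1), ((n.choose k : ℕ) : ℝ) • (Polynomial.X ^ k : Polynomial ℝ) := by
      rw [add_pow]
      refine Finset.sum_congr rfl fun k _ => ?_
      rw [Polynomial.C_1, one_pow, mul_one, Polynomial.smul_eq_C_mul, mul_comm]
      congr 1
    have hbeta : beta (Polynomial.C c * (Polynomial.X + Polynomial.C (1 : ℝ)) ^ n) =
        c * ∑ k ∈ Finset.range (n + 1), ((n.choose k : ℕ) : ℝ) * bb k := by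
      rw [← Polynomial.smul_eq_C_mul, map_smul, hX, map_sum, smul_eq_mul]
      congr 1
      refine Finset.sum_congr rfl fun k _ => ?_
      rw [map_smul, beta_X_pow, smul_eq_mul]
    rw [hbeta, Finset.sum_range_succ, Nat.choose_self]
    rcases Nat.eq_zero_or_pos n with hn | hn
    · subst hn
      simp [bb]
    · rw [bern_sum n hn]
      simp only [Polynomial.eval_monomial]
      rw [zero_pow (by omega), one_pow]
      push_cast
      ring

end EM

/-- integrability of the integrand of `Lam` -/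
theorem lam_integrable (a : ℝ) (f : Polynomial ℝ) :
    IntegrableOn (fun y : ℝ => (Polynomial.aeval ((a : ℂ) + Complex.I * (y : ℂ)) f).im * wt y)
      (Set.Ioi 0) := by
  simp_rw [EM.shift]
  exact (EM.core _).1

theorem em (f : Polynomial ℝ) (J : ℕ) :
    (∑ j ∈ Finset.range J, f.eval (j : ℝ)) + f.eval (J : ℝ) / 2 - f.eval 0 / 2
      - ∫ x in (0 : ℝ)..(J : ℝ), f.eval x = Lam (J : ℝ) f - Lam 0 f := by
  induction J with
  | zero => simp
  | succ J ih =>
    have h := EM.one_step (Polynomial.taylor (J : ℝ) f)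
    rw [Polynomial.taylor_taylor] at h
    simp only [Polynomial.taylor_eval] at h
    rw [intervalIntegral.integral_comp_add_right (fun x => f.eval x) (J : ℝ)] at h
    rw [EM.lam_eq, EM.lam_eq] at ih ⊢
    have hi : ∀ a b : ℝ, IntervalIntegrable (fun x => f.eval x) volume a b := fun a b =>
      (Polynomial.continuous f).intervalIntegrable _ _
    have hadd := intervalIntegral.integral_add_adjacent_intervals (hi 0 (J : ℝ))
      (hi (J : ℝ) ((J + 1 : ℕ) : ℝ))
    rw [Finset.sum_range_succ, ← hadd]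
    have e1 : (1 : ℝ) + (J : ℝ) = ((J + 1 : ℕ) : ℝ) := by push_cast; ring
    rw [zero_add, e1] at h
    linarith

end Pool.Agent.Helper83.SD
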