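import Pool.Agent.Helper83.SD.Sup
import Pool.Agent.Helper83.SD.Bern

/-!
Project SD, module Lip: Lipschitz bound for the gradient vector.

For unit `c`, `Q = Σ_a c_a L_a p` has degree `≤ t` and `mu (Q^2) ≤ en p`.  Let `α` be the angle
between `x` and `y`, `b` the unit vector orthogonal to both, `γ` the rotation about `b` from `x`
to `y`: `Q(y) - Q(x) = ∫_0^α (b·L)Q(γ(s)) ds` (`sum_Lr`), `(b·L)Q` has degree `≤ t`, and
`|(b·L)Q| ≤ (t+1) √(mu(((b·L)Q)^2)) ≤ (t+1) √(en Q) ≤ (t+1) √(lam t) √(mu (Q^2))`.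
`‖x-y‖ ≤ 1` gives `α ≤ 1.05 ‖x - y‖` (`‖x-y‖ = 2 sin(α/2)`, `α ≤ π/3`).  Take the best `c`.
-/

set_option autoImplicit false

open MeasureTheory Real

namespace Pool.Agent.Helper83.SD

/-- a combination of the rotational derivatives -/
noncomputable def Lc (c : E3) (p : Poly) : Poly := ∑ a, c a • Lr a p

theorem ev_Lc (c : E3) (p : Poly) (x : E3) : ev (Lc c p) x = ∑ a, c a * ev (Lr a p) x := by
  unfold Lc
  rw [ev_sum]
  simp only [ev_smul]

theorem Lc_deg {t : ℕ} (c : E3) {p : Poly} (hp : p.totalDegree ≤ t) :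
    (Lc c p).totalDegree ≤ t := by
  unfold Lc
  refine MvPolynomial.totalDegree_finsetSum_le (fun a _ => ?_)
  exact (MvPolynomial.totalDegree_smul_le _ _).trans ((Lr_deg a p).trans hp)

theorem mu_Lc (c : E3) (hc : ‖c‖ = 1) (p : Poly) : mu ((Lc c p) ^ 2) ≤ en p := by
  have h1 : en p = mu (∑ a, Lr a p * Lr a p) := by
    unfold en gr
    rw [mu_sum]
  rw [h1]
  apply mu_mono
  intro x _
  rw [ev_pow, ev_Lc, ev_sum]
  simp only [ev_mul]
  have hc2 : ∑ a, (c a) ^ 2 = 1 := by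
    have := EuclideanSpace.norm_sq_eq c
    rw [hc] at this
    simpa using this.symm
  calc (∑ a, c a * ev (Lr a p) x) ^ 2 ≤ (∑ a, (c a) ^ 2) * ∑ a, (ev (Lr a p) x) ^ 2 :=
        Finset.sum_mul_sq_le_sq_mul_sq _ _ _
    _ = ∑ a, ev (Lr a p) x * ev (Lr a p) x := by
        rw [hc2, one_mul]
        simp only [sq]

theorem ev_Lc_bound (t : ℕ) (b : E3) (hb : ‖b‖ = 1) (q : Poly) (hq : q.totalDegree ≤ t)
    (x : E3) (hx : ‖x‖ = 1) :
    |ev (Lc b q) x| ≤ ((t : ℝ) + 1) * √(lam t) * √(mu (q ^ 2)) := by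
  have h1 := sup_bound t (Lc b q) (Lc_deg b hq) x hx
  have h2 := mu_Lc b hb q
  have h3 := bern t q hq
  have h4 : (ev (Lc b q) x) ^ 2 ≤ (((t : ℝ) + 1) * √(lam t) * √(mu (q ^ 2))) ^ 2 := by
    have hm : 0 ≤ mu (q ^ 2) := mu_nonneg (fun x _ => by rw [ev_pow]; positivity)
    rw [mul_pow, mul_pow, Real.sq_sqrt (lam_nonneg t), Real.sq_sqrt hm, mul_assoc]
    refine h1.trans ?_
    exact mul_le_mul_of_nonneg_left (h2.trans h3) (by positivity)
  exact abs_le_of_sq_le_sq h4 (by positivity)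

theorem chord (α : ℝ) (h0 : 0 ≤ α) (h1 : α ≤ π / 3) : α ≤ 1.05 * (2 * sin (α / 2)) := by
  have hc := strictConcaveOn_sin_Icc.concaveOn
  have hpi : (0 : ℝ) < π := Real.pi_pos
  have h2 : (α / 2) = (1 - (3 * α / π)) • (0 : ℝ) + (3 * α / π) • (π / 6) := by
    simp only [smul_eq_mul]
    field_simp
    ring
  have h3 : 0 ≤ 3 * α / π := by positivity
  have h4 : 3 * α / π ≤ 1 := by
    rw [div_le_one hpi]; linarith
  have m0 : (0 : ℝ) ∈ Set.Icc 0 π := ⟨le_rfl, hpi.le⟩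
  have m1 : π / 6 ∈ Set.Icc 0 π := ⟨by positivity, by linarith⟩
  have m2 : 0 ≤ 1 - 3 * α / π := by linarith
  have h5 := hc.2 m0 m1 m2 h3 (by ring)
  rw [← h2] at h5
  simp only [sin_zero, smul_eq_mul, mul_zero, zero_add, Real.sin_pi_div_six] at h5
  have h6 : π ≤ 3.15 := by linarith [Real.pi_lt_d2]
  have h7 : α ≤ 1.05 * (3 * α / π) := by
    rw [← mul_div_assoc, le_div_iff₀ hpi]
    nlinarith
  linarith

theorem lip_scalar (t : ℕ) (q : Poly) (hq : q.totalDegree ≤ t) (x y : E3) (hx : ‖x‖ = 1)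
    (hy : ‖y‖ = 1) (hxy : ‖x - y‖ ≤ 1) :
    |ev q x - ev q y| ≤ 1.05 * ((t : ℝ) + 1) * √(lam t) * ‖x - y‖ * √(mu (q ^ 2)) := by
  rcases eq_or_ne x y with rfl | hne
  · simp
  have hd : 0 < ‖x - y‖ := norm_pos_iff.mpr (sub_ne_zero.mpr hne)
  set c : ℝ := inner ℝ x y with hcdef
  have hnsq : ‖x - y‖ ^ 2 = 2 - 2 * c := by
    rw [norm_sub_sq_real, hx, hy]
    ring
  have hc1 : 1 / 2 ≤ c := by nlinarith
  have hc2 : c < 1 := by nlinarith
  set α := arccos c with hα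
  have hcos : cos α = c := Real.cos_arccos (by linarith) hc2.le
  have hα0 : 0 < α := Real.arccos_pos.mpr hc2
  have hα3 : α ≤ π / 3 := by
    have : arccos c ≤ arccos (1 / 2) := Real.arccos_le_arccos hc1
    have h2 : arccos (1 / 2) = π / 3 := by
      rw [← Real.cos_pi_div_three, Real.arccos_cos (by positivity) (by linarith [Real.pi_pos])]
    rw [h2] at this
    exact this
  have hsin : 0 < sin α := Real.sin_pos_of_pos_of_lt_pi hα0 (by linarith [Real.pi_pos])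
  set e : E3 := (sin α)⁻¹ • (y - cos α • x) with he
  have hxx : x 0 ^ 2 + x 1 ^ 2 + x 2 ^ 2 = 1 := by
    have := EuclideanSpace.norm_sq_eq x
    rw [hx] at this
    simpa [Fin.sum_univ_three] using this.symm
  have hyy : y 0 ^ 2 + y 1 ^ 2 + y 2 ^ 2 = 1 := by
    have := EuclideanSpace.norm_sq_eq y
    rw [hy] at this
    simpa [Fin.sum_univ_three] using this.symm
  have hxyc : x 0 * y 0 + x 1 * y 1 + x 2 * y 2 = c := by
    rw [hcdef, PiLp.inner_apply, Fin.sum_univ_three]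
    simp only [RCLike.inner_apply, conj_trivial]
    ring
  have hec : ∀ i, e i = (sin α)⁻¹ * (y i - cos α * x i) := fun i => by simp [he]
  have hsc := Real.sin_sq_add_cos_sq α
  have hxe : x 0 * e 0 + x 1 * e 1 + x 2 * e 2 = 0 := by
    simp only [hec]
    have : x 0 * y 0 + x 1 * y 1 + x 2 * y 2 - cos α * (x 0 ^ 2 + x 1 ^ 2 + x 2 ^ 2) = 0 := by
      rw [hxyc, hxx, hcos]; ring
    linear_combination (sin α)⁻¹ * this
  have hee : e 0 ^ 2 + e 1 ^ 2 + e 2 ^ 2 = 1 := by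
    simp only [hec]
    have h1 : (y 0 - cos α * x 0) ^ 2 + (y 1 - cos α * x 1) ^ 2 + (y 2 - cos α * x 2) ^ 2 =
        sin α ^ 2 := by
      have : (y 0 - cos α * x 0) ^ 2 + (y 1 - cos α * x 1) ^ 2 + (y 2 - cos α * x 2) ^ 2 =
          (y 0 ^ 2 + y 1 ^ 2 + y 2 ^ 2) - 2 * cos α * (x 0 * y 0 + x 1 * y 1 + x 2 * y 2) +
          cos α ^ 2 * (x 0 ^ 2 + x 1 ^ 2 + x 2 ^ 2) := by ring
      rw [this, hyy, hxyc, hxx, ← hcos]
      linear_combination -hsc
    have h2 : ((sin α)⁻¹ * (y 0 - cos α * x 0)) ^ 2 + ((sin α)⁻¹ * (y 1 - cos α * x 1)) ^ 2 +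
        ((sin α)⁻¹ * (y 2 - cos α * x 2)) ^ 2 = ((sin α)⁻¹) ^ 2 *
        ((y 0 - cos α * x 0) ^ 2 + (y 1 - cos α * x 1) ^ 2 + (y 2 - cos α * x 2) ^ 2) := by ring
    rw [h2, h1]
    field_simp
  -- the curve
  set γ : ℝ → E3 := fun s => cos s • x + sin s • e with hγ
  have hγ' : ∀ s, HasDerivAt γ (-(sin s) • x + cos s • e) s := by
    intro s
    have h1 := (Real.hasDerivAt_cos s).smul_const x
    have h2 := (Real.hasDerivAt_sin s).smul_const e
    exact h1.add h2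
  have hγn : ∀ s, ‖γ s‖ = 1 := by
    intro s
    rw [EuclideanSpace.norm_eq, Real.sqrt_eq_one]
    simp only [Fin.sum_univ_three, Real.norm_eq_abs, sq_abs, hγ, PiLp.add_apply, PiLp.smul_apply,
      smul_eq_mul]
    have h3 := Real.sin_sq_add_cos_sq s
    linear_combination (cos s) ^ 2 * hxx + (sin s) ^ 2 * hee + 2 * cos s * sin s * hxe + h3
  have hγ0 : γ 0 = x := by simp [hγ]
  have hγα : γ α = y := by
    ext i
    simp only [hγ, PiLp.add_apply, PiLp.smul_apply, smul_eq_mul, hec]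
    field_simp
    ring
  -- the axis
  set b : E3 := !₂[x 1 * e 2 - x 2 * e 1, x 2 * e 0 - x 0 * e 2, x 0 * e 1 - x 1 * e 0] with hb
  have hb0 : b 0 = x 1 * e 2 - x 2 * e 1 := by simp [hb]
  have hb1 : b 1 = x 2 * e 0 - x 0 * e 2 := by simp [hb]
  have hb2 : b 2 = x 0 * e 1 - x 1 * e 0 := by simp [hb]
  have hbn : ‖b‖ = 1 := by
    rw [EuclideanSpace.norm_eq, Real.sqrt_eq_one]
    simp only [Fin.sum_univ_three, Real.norm_eq_abs, sq_abs, hb0, hb1, hb2]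
    have : (x 1 * e 2 - x 2 * e 1) ^ 2 + (x 2 * e 0 - x 0 * e 2) ^ 2 +
        (x 0 * e 1 - x 1 * e 0) ^ 2 = (x 0 ^ 2 + x 1 ^ 2 + x 2 ^ 2) *
        (e 0 ^ 2 + e 1 ^ 2 + e 2 ^ 2) - (x 0 * e 0 + x 1 * e 1 + x 2 * e 2) ^ 2 := by ring
    rw [this, hxx, hee, hxe]
    ring
  have hderiv : ∀ s, HasDerivAt (fun r => ev q (γ r)) (ev (Lc b q) (γ s)) s := by
    intro s
    have h1 := hasDerivAt_ev q (hγ' s)
    have h2 : (∑ i, ev (MvPolynomial.pderiv i q) (γ s) * (-(sin s) • x + cos s • e) i) =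
        ev (Lc b q) (γ s) := by
      rw [ev_Lc, ← sum_Lr q b (γ s)]
      apply Finset.sum_congr rfl
      intro i _
      congr 1
      -- b × γ(s) = γ'(s)
      have g : ∀ i, (γ s) i = cos s * x i + sin s * e i := fun i => by simp [hγ]
      rw [g, g]
      fin_cases i
      · simp only [Fin.zero_eta, zero_add, PiLp.add_apply, PiLp.smul_apply, smul_eq_mul]
        have i1 : (0 : Fin 3) + 1 = 1 := rfl
        have i2 : (0 : Fin 3) + 2 = 2 := rfl
        rw [hb1, hb2]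
        linear_combination (sin s * x 0) * hee - (cos s * e 0) * hxx
          + (cos s * x 0 - sin s * e 0) * hxe
      · simp only [Fin.mk_one, PiLp.add_apply, PiLp.smul_apply, smul_eq_mul]
        have i1 : (1 : Fin 3) + 1 = 2 := rfl
        have i2 : (1 : Fin 3) + 2 = 0 := rfl
        rw [i1, i2, hb2, hb0]
        linear_combination (sin s * x 1) * hee - (cos s * e 1) * hxx
          + (cos s * x 1 - sin s * e 1) * hxe
      · simp only [Fin.reduceFinMk, PiLp.add_apply, PiLp.smul_apply, smul_eq_mul]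
        have i1 : (2 : Fin 3) + 1 = 0 := rfl
        have i2 : (2 : Fin 3) + 2 = 1 := rfl
        rw [i1, i2, hb0, hb1]
        linear_combination (sin s * x 2) * hee - (cos s * e 2) * hxx
          + (cos s * x 2 - sin s * e 2) * hxe
    rw [h2] at h1
    exact h1
  set K := ((t : ℝ) + 1) * √(lam t) * √(mu (q ^ 2)) with hK
  have hKn : 0 ≤ K := by positivity
  have hmv := Convex.norm_image_sub_le_of_norm_hasDerivWithin_le
      (f := fun r => ev q (γ r)) (f' := fun s => ev (Lc b q) (γ s))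
      (s := Set.Icc (0 : ℝ) α) (x := α) (y := 0) (C := K)
      (fun s _ => (hderiv s).hasDerivWithinAt)
      (fun s _ => by
        rw [Real.norm_eq_abs]
        exact ev_Lc_bound t b hbn q hq _ (hγn s))
      (convex_Icc _ _) ⟨hα0.le, le_rfl⟩ ⟨le_rfl, hα0.le⟩
  simp only [Real.norm_eq_abs, zero_sub, abs_neg, hγ0, hγα, abs_of_pos hα0] at hmv
  have hch := chord α hα0.le hα3
  have hnorm : ‖x - y‖ = 2 * sin (α / 2) := by
    have hs2 : 0 ≤ sin (α / 2) :=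
      Real.sin_nonneg_of_nonneg_of_le_pi (by linarith) (by linarith [Real.pi_pos])
    have h1 : ‖x - y‖ ^ 2 = (2 * sin (α / 2)) ^ 2 := by
      rw [hnsq, ← hcos]
      have h2 : cos α = 1 - 2 * sin (α / 2) ^ 2 := by
        have h3 := Real.cos_sq' (α / 2)
        have h4 : cos α = 2 * cos (α / 2) ^ 2 - 1 := by
          rw [← Real.cos_two_mul]; congr 1; ring
        rw [h4, h3]; ring
      rw [h2]; ring
    exact (sq_eq_sq₀ hd.le (by positivity)).mp h1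
  rw [← hnorm] at hch
  calc |ev q x - ev q y| ≤ K * α := hmv
    _ ≤ K * (1.05 * ‖x - y‖) := mul_le_mul_of_nonneg_left hch hKn
    _ = 1.05 * ((t : ℝ) + 1) * √(lam t) * ‖x - y‖ * √(mu (q ^ 2)) := by rw [hK]; ring

theorem lip (t : ℕ) (p : Poly) (hp : p.totalDegree ≤ t) (x y : E3) (hx : ‖x‖ = 1)
    (hy : ‖y‖ = 1) (hxy : ‖x - y‖ ≤ 1) :
    ∑ a, (ev (Lr a p) x - ev (Lr a p) y) ^ 2 ≤
      (1.05 * ((t : ℝ) + 1) * √(lam t) * ‖x - y‖) ^ 2 * en p := by
  have hE : 0 ≤ en p := en_nonneg p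
  obtain ⟨K, hK⟩ : ∃ K : ℝ, K = 1.05 * ((t : ℝ) + 1) * √(lam t) * ‖x - y‖ := ⟨_, rfl⟩
  have hKn : 0 ≤ K := by rw [hK]; positivity
  rw [← hK]
  obtain ⟨D, hD⟩ : ∃ D : Fin 3 → ℝ, ∀ a, D a = ev (Lr a p) x - ev (Lr a p) y := ⟨_, fun _ => rfl⟩
  simp only [← hD]
  obtain ⟨S2, hS2⟩ : ∃ S2 : ℝ, S2 = ∑ a, (D a) ^ 2 := ⟨_, rfl⟩
  rw [← hS2]
  have hS2n : 0 ≤ S2 := by rw [hS2]; exact Finset.sum_nonneg (fun a _ => sq_nonneg _)
  rcases hS2n.eq_or_lt with h0 | hpos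
  · rw [← h0]; positivity
  have hSp : 0 < √S2 := Real.sqrt_pos.mpr hpos
  have hSS : √S2 ^ 2 = S2 := Real.sq_sqrt hS2n
  have hcn : ‖(!₂[D 0 / √S2, D 1 / √S2, D 2 / √S2] : E3)‖ = 1 := by
    rw [EuclideanSpace.norm_eq, Real.sqrt_eq_one]
    simp only [Fin.sum_univ_three, Real.norm_eq_abs, sq_abs]
    simp only [Matrix.cons_val_zero, Matrix.cons_val_one, Matrix.cons_val]
    rw [div_pow, div_pow, div_pow, ← add_div, ← add_div, hSS]
    rw [Fin.sum_univ_three] at hS2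
    rw [← hS2, div_self hpos.ne']
  obtain ⟨c, hc⟩ : ∃ c : E3, c = !₂[D 0 / √S2, D 1 / √S2, D 2 / √S2] := ⟨_, rfl⟩
  rw [← hc] at hcn
  have hci : ∀ i, c i = D i / √S2 := by
    intro i
    fin_cases i <;> simp [hc]
  have hq := lip_scalar t (Lc c p) (Lc_deg c hp) x y hx hy hxy
  rw [← hK] at hq
  have h1 : ev (Lc c p) x - ev (Lc c p) y = √S2 := by
    rw [ev_Lc, ev_Lc, ← Finset.sum_sub_distrib]
    have : ∀ a, c a * ev (Lr a p) x - c a * ev (Lr a p) y = (D a) ^ 2 / √S2 := by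
      intro a
      rw [hci, ← mul_sub, ← hD]
      ring
    simp only [this]
    rw [← Finset.sum_div, ← hS2, div_eq_iff hSp.ne', ← sq, hSS]
  rw [h1, abs_of_pos hSp] at hq
  have h2 : √(mu ((Lc c p) ^ 2)) ≤ √(en p) := Real.sqrt_le_sqrt (mu_Lc c hcn p)
  have h3 : √S2 ≤ K * √(en p) := hq.trans (mul_le_mul_of_nonneg_left h2 hKn)
  have h4 : √S2 ^ 2 ≤ (K * √(en p)) ^ 2 := pow_le_pow_left₀ hSp.le h3 2
  rw [mul_pow, Real.sq_sqrt hE, hSS] at h4
  exact h4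

end Pool.Agent.Helper83.SD
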