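import Pool.Agent.Helper83.SD.Basic

/-!
Project SD, module Sep: the base points, enumerated and separated (see the guide).
-/

set_option autoImplicit false

open MeasureTheory Real

namespace Pool.Agent.Helper83.SD

theorem sp_dist_sq {z z' : ℝ} (hz : z ^ 2 ≤ 1) (hz' : z' ^ 2 ≤ 1) (φ φ' : ℝ) :
    ‖sp z φ - sp z' φ'‖ ^ 2 =
      2 - 2 * z * z' - 2 * √(1 - z ^ 2) * √(1 - z' ^ 2) * cos (φ - φ') := by
  rw [EuclideanSpace.norm_sq_eq]
  simp only [sp, Fin.sum_univ_three, Real.norm_eq_abs, sq_abs, PiLp.sub_apply]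
  simp only [Matrix.cons_val_zero, Matrix.cons_val_one, Matrix.cons_val]
  have h1 : √(1 - z ^ 2) ^ 2 = 1 - z ^ 2 := Real.sq_sqrt (by linarith)
  have h1' : √(1 - z' ^ 2) ^ 2 = 1 - z' ^ 2 := Real.sq_sqrt (by linarith)
  have h2 := Real.sin_sq_add_cos_sq φ
  have h2' := Real.sin_sq_add_cos_sq φ'
  rw [Real.cos_sub]
  generalize √(1 - z ^ 2) = r at *
  generalize √(1 - z' ^ 2) = r' at *
  linear_combination r ^ 2 * h2 + r' ^ 2 * h2' + h1 + h1'

theorem sep_of_sq {J : ℕ} (hJ : 1 ≤ J) {d : ℝ} (hd : 0 ≤ d) (h : (1 / 2) / (J : ℝ) ^ 2 ≤ d ^ 2) :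
    0.65 / (J : ℝ) ≤ d := by
  have hJ' : (0 : ℝ) < J := by exact_mod_cast (by omega : 0 < J)
  apply le_of_sq_le_sq _ hd
  rw [div_pow]
  refine le_trans ?_ h
  gcongr
  norm_num

theorem sep_height {z z' : ℝ} (hz : z ^ 2 ≤ 1) (hz' : z' ^ 2 ≤ 1) (φ φ' : ℝ) :
    (z - z') ^ 2 ≤ ‖sp z φ - sp z' φ'‖ ^ 2 := by
  rw [sp_dist_sq hz hz']
  have h1 : √(1 - z ^ 2) ^ 2 = 1 - z ^ 2 := Real.sq_sqrt (by linarith)
  have h1' : √(1 - z' ^ 2) ^ 2 = 1 - z' ^ 2 := Real.sq_sqrt (by linarith)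
  have h3 := Real.sqrt_nonneg (1 - z ^ 2)
  have h3' := Real.sqrt_nonneg (1 - z' ^ 2)
  have h4 := Real.cos_le_one (φ - φ')
  generalize √(1 - z ^ 2) = r at *
  generalize √(1 - z' ^ 2) = r' at *
  generalize cos (φ - φ') = c at *
  have h5 : 0 ≤ r * r' := mul_nonneg h3 h3'
  nlinarith [sq_nonneg (r - r'), mul_le_mul_of_nonneg_left h4 h5]

theorem sep_rings {A A' : ℝ} (hA : 0 ≤ A) (hA1 : A ≤ 1) (hA' : 0 ≤ A') (hA1' : A' ≤ 1)
    {s : ℝ} (hs : s ^ 2 = 1) (φ φ' : ℝ) :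
    2 * (√A - √A') ^ 2 ≤ ‖sp (s * (1 - A)) φ - sp (s * (1 - A')) φ'‖ ^ 2 := by
  have e1 : (s * (1 - A)) ^ 2 = (1 - A) ^ 2 := by rw [mul_pow, hs, one_mul]
  have e2 : (s * (1 - A')) ^ 2 = (1 - A') ^ 2 := by rw [mul_pow, hs, one_mul]
  rw [sp_dist_sq (by rw [e1]; nlinarith) (by rw [e2]; nlinarith), e1, e2]
  have e3 : 1 - (1 - A) ^ 2 = A * (2 - A) := by ring
  have e4 : 1 - (1 - A') ^ 2 = A' * (2 - A') := by ring
  have e5 : 2 - 2 * (s * (1 - A)) * (s * (1 - A')) = 2 - 2 * (1 - A) * (1 - A') := by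
    linear_combination (-(2 * (1 - A) * (1 - A'))) * hs
  rw [e5, e3, e4, Real.sqrt_mul hA, Real.sqrt_mul hA']
  have h1 : √A ^ 2 = A := Real.sq_sqrt hA
  have h1' : √A' ^ 2 = A' := Real.sq_sqrt hA'
  have h2 : √(2 - A) ^ 2 = 2 - A := Real.sq_sqrt (by linarith)
  have h2' : √(2 - A') ^ 2 = 2 - A' := Real.sq_sqrt (by linarith)
  have p1 := Real.sqrt_nonneg A
  have p2 := Real.sqrt_nonneg A'
  have p3 := Real.sqrt_nonneg (2 - A)
  have p4 := Real.sqrt_nonneg (2 - A')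
  have h4 := Real.cos_le_one (φ - φ')
  generalize √A = a at *
  generalize √A' = b at *
  generalize √(2 - A) = c at *
  generalize √(2 - A') = d at *
  generalize cos (φ - φ') = e at *
  have q1 : 0 ≤ a * b := mul_nonneg p1 p2
  have q2 : 0 ≤ c * d := mul_nonneg p3 p4
  have q3 : 2 * (c * d) ≤ 4 - A - A' := by nlinarith [sq_nonneg (c - d)]
  have q4 : a * c * (b * d) * e ≤ a * c * (b * d) := by
    have : 0 ≤ a * c * (b * d) := by positivity
    nlinarith
  have q5 : 2 * (a * c * (b * d)) ≤ a * b * (4 - A - A') := by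
    have := mul_le_mul_of_nonneg_left q3 q1
    linarith [this]
  have q6 : 0 ≤ a * b * (a - b) ^ 2 := by positivity
  subst h1
  subst h1'
  nlinarith [q4, q5, q6]

theorem sep_same {z : ℝ} (hz : z ^ 2 ≤ 1) {n : ℕ} {i i' : ℕ} (hi : i < n) (hi' : i' < i) :
    4 * (1 - z ^ 2) * sin (π / n) ^ 2 ≤
      ‖sp z (2 * π * (i : ℝ) / (n : ℝ)) - sp z (2 * π * (i' : ℝ) / (n : ℝ))‖ ^ 2 := by
  rw [sp_dist_sq hz hz]
  have hn : (0 : ℝ) < n := by exact_mod_cast (by omega : 0 < n)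
  have h1 : √(1 - z ^ 2) ^ 2 = 1 - z ^ 2 := Real.sq_sqrt (by linarith)
  obtain ⟨m, rfl⟩ : ∃ m, i = i' + m := ⟨i - i', by omega⟩
  have hm : 1 ≤ m := by omega
  have hm' : m + 1 ≤ n := by omega
  have e1 : 2 * π * ((i' + m : ℕ) : ℝ) / (n : ℝ) - 2 * π * (i' : ℝ) / (n : ℝ) =
      2 * (π * m / n) := by
    push_cast
    field_simp
    ring
  rw [e1, Real.cos_two_mul, Real.cos_sq']
  have e2 : 2 - 2 * z * z - 2 * √(1 - z ^ 2) * √(1 - z ^ 2) * (2 * (1 - sin (π * m / n) ^ 2) - 1) =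
      4 * (1 - z ^ 2) * sin (π * m / n) ^ 2 := by
    linear_combination (-(2 * (2 * (1 - sin (π * m / n) ^ 2) - 1))) * h1
  rw [e2]
  have hz0 : 0 ≤ 1 - z ^ 2 := by linarith
  have hpn : 0 < π / n := div_pos Real.pi_pos hn
  have hs0 : 0 ≤ sin (π / n) := by
    apply Real.sin_nonneg_of_nonneg_of_le_pi hpn.le
    rw [div_le_iff₀ hn]
    have : (1 : ℝ) ≤ n := by exact_mod_cast (by omega : 1 ≤ n)
    nlinarith [Real.pi_pos]
  have hs : sin (π / n) ≤ sin (π * m / n) := by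
    have a1 : π / n ≤ π * m / n := by
      have : (1 : ℝ) ≤ m := by exact_mod_cast hm
      gcongr
      nlinarith [Real.pi_pos]
    have a2 : π / n ≤ π - π * m / n := by
      have : (m : ℝ) + 1 ≤ n := by exact_mod_cast hm'
      rw [le_sub_iff_add_le, ← add_div, div_le_iff₀ hn]
      nlinarith [Real.pi_pos]
    rcases le_total (π * m / n) (π / 2) with h | h
    · exact Real.sin_le_sin_of_le_of_le_pi_div_two (by linarith [Real.pi_pos]) h a1
    · rw [← Real.sin_pi_sub (π * m / n)]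
      exact Real.sin_le_sin_of_le_of_le_pi_div_two (by linarith [Real.pi_pos]) (by linarith) a2
  gcongr

theorem sin_pi_six (j : ℕ) (hj : 1 ≤ j) : 1 / (j : ℝ) ^ 2 ≤ 4 * sin (π / ((6 * j : ℕ) : ℝ)) ^ 2 := by
  have hj' : (1 : ℝ) ≤ j := by exact_mod_cast hj
  have m1 : π / 6 ∈ Set.Icc 0 π := ⟨by positivity, by linarith [Real.pi_pos]⟩
  have m2 : (0 : ℝ) ∈ Set.Icc 0 π := ⟨le_rfl, Real.pi_pos.le⟩
  have q1 : (0 : ℝ) ≤ 1 / (j : ℝ) := by positivity
  have q2 : (0 : ℝ) ≤ 1 - 1 / (j : ℝ) := by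
    rw [sub_nonneg, div_le_one (by linarith)]
    exact hj'
  have hc := strictConcaveOn_sin_Icc.concaveOn.2 m1 m2 q1 q2 (by ring)
  simp only [smul_eq_mul, Real.sin_pi_div_six, Real.sin_zero, mul_zero, add_zero] at hc
  have e : π / ((6 * j : ℕ) : ℝ) = 1 / j * (π / 6) := by
    push_cast
    field_simp
  rw [e]
  have : (1 : ℝ) / j ^ 2 = 4 * (1 / j * (1 / 2)) ^ 2 := by
    field_simp
    norm_num
  rw [this]
  gcongr

/-- ring index: poles (`j = 0`), rings (`1 ≤ j < J`), and the equator (`none`) -/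
abbrev KI (J : ℕ) := Option (Bool × Fin J)

def nnI (J : ℕ) : KI J → ℕ
  | none => 6 * J
  | some (_, j) => if j.val = 0 then 1 else 6 * j.val

noncomputable def sgI (b : Bool) : ℝ := if b then 1 else -1

noncomputable def AA (J j : ℕ) : ℝ := if j = 0 then 0 else ((j : ℝ) ^ 2 + 1 / 6) / L2 J

noncomputable def htI (J : ℕ) : KI J → ℝ
  | none => 0
  | some (b, j) => sgI b * (1 - AA J j.val)

noncomputable def yI (J : ℕ) (x : Σ k : KI J, Fin (nnI J k)) : E3 :=
  sp (htI J x.1) (2 * π * ((x.2 : ℕ) : ℝ) / ((nnI J x.1 : ℕ) : ℝ))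

theorem sgI_sq (b : Bool) : sgI b ^ 2 = 1 := by
  cases b <;> simp [sgI]

theorem AA_nonneg (J j : ℕ) : 0 ≤ AA J j := by
  unfold AA
  split_ifs
  · exact le_rfl
  · exact div_nonneg (by positivity) (L2_pos J).le

/-- the heights of the poles and rings are bounded below -/
theorem AA_low {J j : ℕ} (hj : j < J) : 0.7072 / (J : ℝ) ≤ 1 - AA J j := by
  have hJ : (1 : ℝ) ≤ J := by exact_mod_cast (by omega : 1 ≤ J)
  unfold AA
  split_ifs with h
  · rw [sub_zero, div_le_one (by linarith)]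
    linarith
  · have hL := L2_pos J
    have hJ0 : (0 : ℝ) < J := by linarith
    rw [le_sub_iff_add_le, div_add_div _ _ hJ0.ne' hL.ne', div_le_one (by positivity)]
    have hj' : (j : ℝ) ≤ J - 1 := by
      have : (j : ℝ) + 1 ≤ J := by exact_mod_cast hj
      linarith
    have hj0 : (0 : ℝ) ≤ j := Nat.cast_nonneg j
    have : (j : ℝ) ^ 2 ≤ (J - 1) ^ 2 := by gcongr
    unfold L2
    nlinarith

theorem AA_le_one {J j : ℕ} (hj : j < J) : AA J j ≤ 1 := by
  have h := AA_low hj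
  have h2 : 0 ≤ 0.7072 / (J : ℝ) := by positivity
  linarith

theorem L2_sqrt_le {J : ℕ} (hJ : 1 ≤ J) : √(L2 J) ≤ 1.2 * J := by
  have hJ' : (1 : ℝ) ≤ J := by exact_mod_cast hJ
  apply Real.sqrt_le_iff.mpr
  constructor
  · positivity
  · unfold L2
    nlinarith

theorem AA_sqrt_sep {J j k : ℕ} (hj : j < k) (hk : k < J) :
    1 / (2 * (J : ℝ)) ≤ √(AA J k) - √(AA J j) := by
  have hJ : (1 : ℝ) ≤ J := by exact_mod_cast (by omega : 1 ≤ J)
  have hL := L2_pos J
  have hl := Real.sqrt_pos.mpr hL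
  have hl2 := L2_sqrt_le (by omega : 1 ≤ J)
  have h1 : (k : ℝ) / √(L2 J) ≤ √(AA J k) := by
    unfold AA
    rw [if_neg (by omega), Real.sqrt_div (by positivity)]
    gcongr
    apply Real.le_sqrt_of_sq_le
    linarith
  have h2 : √(AA J j) ≤ ((j : ℝ) + 1 / 12) / √(L2 J) := by
    unfold AA
    split_ifs with h
    · rw [Real.sqrt_zero]
      positivity
    · rw [Real.sqrt_div (by positivity)]
      gcongr
      apply Real.sqrt_le_iff.mpr
      have : (1 : ℝ) ≤ j := by exact_mod_cast (by omega : 1 ≤ j)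
      constructor
      · positivity
      · nlinarith
  have h3 : (j : ℝ) + 1 ≤ k := by exact_mod_cast hj
  have h4 : (11 / 12) / √(L2 J) ≤ (k : ℝ) / √(L2 J) - ((j : ℝ) + 1 / 12) / √(L2 J) := by
    rw [← sub_div]
    gcongr
    linarith
  have h5 : 1 / (2 * (J : ℝ)) ≤ (11 / 12) / √(L2 J) := by
    rw [div_le_div_iff₀ (by positivity) hl]
    linarith
  linarith

theorem htI_sq {J : ℕ} (k : KI J) : htI J k ^ 2 ≤ 1 := by
  rcases k with _ | ⟨b, j⟩
  · simp [htI]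
  · simp only [htI]
    rw [mul_pow, sgI_sq, one_mul]
    have h1 := AA_nonneg J j.val
    have h2 := AA_le_one j.isLt
    nlinarith

/-- points on the same ring -/
theorem sepI_same {J : ℕ} (hJ : 1 ≤ J) (k : KI J) {i i' : ℕ} (hi : i < nnI J k) (hi' : i' < i) :
    (1 / 2) / (J : ℝ) ^ 2 ≤
      ‖sp (htI J k) (2 * π * (i : ℝ) / ((nnI J k : ℕ) : ℝ)) -
        sp (htI J k) (2 * π * (i' : ℝ) / ((nnI J k : ℕ) : ℝ))‖ ^ 2 := by
  refine le_trans ?_ (sep_same (htI_sq k) hi hi')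
  have hJ' : (1 : ℝ) ≤ J := by exact_mod_cast hJ
  rcases k with _ | ⟨b, j⟩
  · simp only [htI, nnI]
    have := sin_pi_six J hJ
    have e : (1 / 2) / (J : ℝ) ^ 2 ≤ 1 / (J : ℝ) ^ 2 := by gcongr; norm_num
    nlinarith
  · simp only [htI, nnI] at hi ⊢
    split_ifs at hi ⊢ with h
    · omega
    · have hj1 : 1 ≤ j.val := by omega
      have := sin_pi_six j.val hj1
      rw [mul_pow, sgI_sq, one_mul]
      have h1 := AA_nonneg J j.val
      have h2 := AA_le_one j.isLt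
      have h3 : 1 - (1 - AA J j.val) ^ 2 ≥ AA J j.val := by nlinarith
      have h4 : ((j.val : ℝ)) ^ 2 / L2 J ≤ AA J j.val := by
        unfold AA
        rw [if_neg h]
        have := L2_pos J
        gcongr
        linarith
      have hj1' : (1 : ℝ) ≤ (j.val : ℝ) := by exact_mod_cast hj1
      have h5 : (1 / 2) / (J : ℝ) ^ 2 ≤ 1 / L2 J := by
        have := L2_pos J
        rw [div_le_div_iff₀ (by positivity) this]
        unfold L2
        nlinarith
      have h6 : 1 / L2 J = ((j.val : ℝ)) ^ 2 / L2 J * (1 / (j.val : ℝ) ^ 2) := by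
        have := L2_pos J
        field_simp
      calc (1 / 2) / (J : ℝ) ^ 2 ≤ 1 / L2 J := h5
        _ = ((j.val : ℝ)) ^ 2 / L2 J * (1 / (j.val : ℝ) ^ 2) := h6
        _ ≤ (1 - (1 - AA J j.val) ^ 2) * (4 * sin (π / ((6 * j.val : ℕ) : ℝ)) ^ 2) := by
            apply mul_le_mul (by linarith) this (by positivity) (by linarith)
        _ = 4 * (1 - (1 - AA J j.val) ^ 2) * sin (π / ((6 * j.val : ℕ) : ℝ)) ^ 2 := by ring

/-- points on different rings -/
theorem sepI_diff {J : ℕ} (hJ : 1 ≤ J) (k k' : KI J) (hk : k ≠ k') (φ φ' : ℝ) :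
    (1 / 2) / (J : ℝ) ^ 2 ≤ ‖sp (htI J k) φ - sp (htI J k') φ'‖ ^ 2 := by
  have hJ' : (1 : ℝ) ≤ J := by exact_mod_cast hJ
  have hlow : ∀ x : ℝ, 0.7072 / (J : ℝ) ≤ x → (1 / 2) / (J : ℝ) ^ 2 ≤ x ^ 2 := by
    intro x hx
    calc (1 / 2) / (J : ℝ) ^ 2 ≤ (0.7072 / (J : ℝ)) ^ 2 := by
          rw [div_pow]
          gcongr
          norm_num
      _ ≤ x ^ 2 := by gcongr
  rcases k with _ | ⟨b, j⟩
  · rcases k' with _ | ⟨b', j'⟩
    · exact absurd rfl hk
    · refine le_trans ?_ (sep_height (htI_sq _) (htI_sq _) φ φ')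
      simp only [htI]
      rw [zero_sub, neg_sq, mul_pow, sgI_sq, one_mul]
      exact hlow _ (AA_low j'.isLt)
  · rcases k' with _ | ⟨b', j'⟩
    · refine le_trans ?_ (sep_height (htI_sq _) (htI_sq _) φ φ')
      simp only [htI]
      rw [sub_zero, mul_pow, sgI_sq, one_mul]
      exact hlow _ (AA_low j.isLt)
    · by_cases hb : b = b'
      · subst hb
        have hjj : j.val ≠ j'.val := by
          intro h
          exact hk (by rw [Fin.ext h])
        simp only [htI]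
        refine le_trans ?_ (sep_rings (AA_nonneg J j.val) (AA_le_one j.isLt) (AA_nonneg J j'.val)
          (AA_le_one j'.isLt) (sgI_sq b) φ φ')
        have key : 1 / (2 * (J : ℝ)) ≤ |√(AA J j.val) - √(AA J j'.val)| := by
          rcases lt_or_gt_of_ne hjj with h | h
          · have := AA_sqrt_sep h j'.isLt
            rw [abs_sub_comm]
            exact this.trans (le_abs_self _)
          · have := AA_sqrt_sep h j.isLt
            exact this.trans (le_abs_self _)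
        have e : (1 / 2) / (J : ℝ) ^ 2 = 2 * (1 / (2 * (J : ℝ))) ^ 2 := by
          field_simp
        rw [e, ← sq_abs (√(AA J j.val) - √(AA J j'.val))]
        gcongr
      · refine le_trans ?_ (sep_height (htI_sq _) (htI_sq _) φ φ')
        simp only [htI]
        have a1 := AA_low j.isLt
        have a2 := AA_low j'.isLt
        have a3 := AA_le_one j.isLt
        have a4 := AA_le_one j'.isLt
        have a5 : sgI b * (1 - AA J j.val) - sgI b' * (1 - AA J j'.val) =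
            sgI b * ((1 - AA J j.val) + (1 - AA J j'.val)) := by
          cases b <;> cases b' <;> simp_all [sgI] <;> ring
        rw [a5, mul_pow, sgI_sq, one_mul]
        exact hlow _ (by linarith)

theorem sepI {J : ℕ} (hJ : 1 ≤ J) (x x' : Σ k : KI J, Fin (nnI J k)) (hx : x ≠ x') :
    0.65 / (J : ℝ) ≤ ‖yI J x - yI J x'‖ := by
  apply sep_of_sq hJ (norm_nonneg _)
  obtain ⟨k, i⟩ := x
  obtain ⟨k', i'⟩ := x'
  by_cases hk : k = k'
  · subst hk
    have hne : i.val ≠ i'.val := by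
      intro h
      exact hx (by rw [Fin.ext h])
    rcases lt_or_gt_of_ne hne with h | h
    · rw [norm_sub_rev]
      exact sepI_same hJ k i'.isLt h
    · exact sepI_same hJ k i.isLt h
  · exact sepI_diff hJ k k' hk _ _

theorem cardI (J : ℕ) : Fintype.card (Σ k : KI J, Fin (nnI J k)) = 6 * J ^ 2 + 2 ∨ J = 0 := by
  rcases Nat.eq_zero_or_pos J with h | h
  · exact Or.inr h
  · left
    obtain ⟨n, rfl⟩ : ∃ n, J = n + 1 := ⟨J - 1, by omega⟩
    rw [Fintype.card_sigma]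
    simp only [Fintype.card_fin]
    rw [Fintype.sum_option, Fintype.sum_prod_type]
    simp only [nnI, Fintype.sum_bool, Fin.sum_univ_succ, Fin.val_zero, if_true,
      Fin.val_succ, Nat.succ_ne_zero, if_false]
    have : ∀ n : ℕ, ∑ i : Fin n, 6 * (i.val + 1) = 3 * n * (n + 1) := by
      intro n
      induction n with
      | zero => simp
      | succ n ih =>
        rw [Fin.sum_univ_castSucc]
        simp only [Fin.val_castSucc, Fin.val_last]
        rw [ih]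
        ring
    rw [this]
    ring

theorem sumI {J : ℕ} (hJ : 1 ≤ J) (F : E3 → ℝ) :
    (1 / ((6 * J ^ 2 + 2 : ℕ) : ℝ)) * ∑ x, F (yI J x) = SJ J F := by
  have hJ0 : J ≠ 0 := by omega
  unfold SJ rmean
  have e0 : ((6 * J ^ 2 + 2 : ℕ) : ℝ) = 6 * (J : ℝ) ^ 2 + 2 := by push_cast; ring
  rw [e0, one_div_mul_eq_div]
  congr 1
  rw [Fintype.sum_sigma, Fintype.sum_option, Fintype.sum_prod_type]
  obtain ⟨n, rfl⟩ : ∃ n, J = n + 1 := ⟨J - 1, by omega⟩
  have key : ∀ b : Bool, ∑ x : Fin (n + 1), ∑ y : Fin (nnI (n + 1) (some (b, x))),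
      F (yI (n + 1) ⟨some (b, x), y⟩) =
      F (sp (sgI b) 0) + ∑ j ∈ Finset.Ico 1 (n + 1), ∑ i ∈ Finset.range (6 * j),
        F (sp (sgI b * zr (n + 1) j) (2 * π * (i : ℝ) / ((6 * j : ℕ) : ℝ))) := by
    intro b
    rw [Fin.sum_univ_succ]
    congr 1
    · have e1 : nnI (n + 1) (some (b, (0 : Fin (n + 1)))) = 1 := by
        simp [nnI]
      have e2 : htI (n + 1) (some (b, (0 : Fin (n + 1)))) = sgI b := by
        simp [htI, AA]
      simp only [yI]
      rw [e2]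
      rw [Fin.sum_univ_eq_sum_range (fun i => F (sp (sgI b)
        (2 * π * (i : ℝ) / ((nnI (n + 1) (some (b, (0 : Fin (n + 1)))) : ℕ) : ℝ)))), e1]
      simp
    · rw [Finset.sum_Ico_eq_sum_range]
      simp only [Nat.add_sub_cancel]
      rw [← Fin.sum_univ_eq_sum_range (fun j => ∑ i ∈ Finset.range (6 * (1 + j)),
        F (sp (sgI b * zr (n + 1) (1 + j)) (2 * π * (i : ℝ) / ((6 * (1 + j) : ℕ) : ℝ))))]
      apply Finset.sum_congr rfl
      intro j _
      have e1 : nnI (n + 1) (some (b, j.succ)) = 6 * (1 + j.val) := by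
        simp [nnI, add_comm]
      have e2 : htI (n + 1) (some (b, j.succ)) = sgI b * zr (n + 1) (1 + j.val) := by
        simp [htI, AA, zr, add_comm]
      simp only [yI]
      rw [e2]
      rw [Fin.sum_univ_eq_sum_range (fun i => F (sp (sgI b * zr (n + 1) (1 + j.val))
        (2 * π * (i : ℝ) / ((nnI (n + 1) (some (b, j.succ)) : ℕ) : ℝ)))), e1]
  rw [Fintype.sum_bool, key, key]
  have e3 : ∑ y : Fin (nnI (n + 1) none), F (yI (n + 1) ⟨none, y⟩) =
      ∑ i ∈ Finset.range (6 * (n + 1)),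
        F (sp 0 (2 * π * (i : ℝ) / ((6 * (n + 1) : ℕ) : ℝ))) := by
    simp only [yI, htI]
    rw [Fin.sum_univ_eq_sum_range (fun i => F (sp 0
      (2 * π * (i : ℝ) / ((nnI (n + 1) none : ℕ) : ℝ))))]
    rfl
  rw [e3]
  have e4 : ∑ j ∈ Finset.Ico 1 (n + 1), 6 * (j : ℝ) *
      ((1 / ((6 * j : ℕ) : ℝ)) * ∑ i ∈ Finset.range (6 * j),
          F (sp (zr (n + 1) j) (2 * π * (i : ℝ) / ((6 * j : ℕ) : ℝ))) +
        (1 / ((6 * j : ℕ) : ℝ)) * ∑ i ∈ Finset.range (6 * j),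
          F (sp (-(zr (n + 1) j)) (2 * π * (i : ℝ) / ((6 * j : ℕ) : ℝ)))) =
      (∑ j ∈ Finset.Ico 1 (n + 1), ∑ i ∈ Finset.range (6 * j),
        F (sp (sgI true * zr (n + 1) j) (2 * π * (i : ℝ) / ((6 * j : ℕ) : ℝ)))) +
      (∑ j ∈ Finset.Ico 1 (n + 1), ∑ i ∈ Finset.range (6 * j),
        F (sp (sgI false * zr (n + 1) j) (2 * π * (i : ℝ) / ((6 * j : ℕ) : ℝ)))) := by
    rw [← Finset.sum_add_distrib]
    apply Finset.sum_congr rfl
    intro j hj
    have hj1 : (j : ℝ) ≠ 0 := by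
      have := (Finset.mem_Ico.mp hj).1
      positivity
    have s1 : sgI true = 1 := by simp [sgI]
    have s2 : sgI false = -1 := by simp [sgI]
    rw [s1, s2, one_mul, neg_one_mul]
    push_cast
    field_simp
  have s1 : sgI true = 1 := by simp [sgI]
  have s2 : sgI false = -1 := by simp [sgI]
  rw [e4, s1, s2]
  have hn : ((n : ℝ) + 1) ≠ 0 := by positivity
  push_cast
  field_simp
  ring

theorem base_points (J : ℕ) (hJ : 1 ≤ J) : ∃ y : Fin (6 * J ^ 2 + 2) → E3,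
    (∀ k, ‖y k‖ = 1) ∧
    (∀ F : E3 → ℝ, (1 / ((6 * J ^ 2 + 2 : ℕ) : ℝ)) * ∑ k, F (y k) = SJ J F) ∧
    ∀ k l, k ≠ l → 0.65 / (J : ℝ) ≤ ‖y k - y l‖ := by
  have hc : Fintype.card (Σ k : KI J, Fin (nnI J k)) = 6 * J ^ 2 + 2 := by
    rcases cardI J with h | h
    · exact h
    · omega
  let e := Fintype.equivFinOfCardEq hc
  refine ⟨fun k => yI J (e.symm k), fun k => ?_, fun F => ?_, fun k l hkl => ?_⟩
  · exact sp_norm (htI_sq _) _
  · rw [← sumI hJ F]
    congr 1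
    exact Equiv.sum_comp e.symm (fun x => F (yI J x))
  · exact sepI hJ _ _ (fun h => hkl (e.symm.injective h))

end Pool.Agent.Helper83.SD
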