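import Pool.Agent.Helper83.SD.C0
import Pool.Agent.Helper83.SD.Dl
import Pool.Agent.Helper83.SD.Sep
import Pool.Agent.Helper83.SD.Exist

/-!
Project SD, module Final: the theorem.
-/

set_option autoImplicit false

open MeasureTheory Real

namespace Pool.Agent.Helper83.SD

/-- the regime case -/
theorem final_reg : ∃ T0 : ℝ, ∀ t J : ℕ, T0 ≤ (t : ℝ) → Reg t J →
    ∃ X : Finset E3, X.card = 6 * J ^ 2 + 2 ∧ (∀ x ∈ X, ‖x‖ = 1) ∧
      ∀ p : Poly, p.totalDegree ≤ t → (X.card : ℝ)⁻¹ * ∑ x ∈ X, ev p x = mu p := by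
  obtain ⟨T1, hS⟩ := sampling
  obtain ⟨T2, hD⟩ := near_design
  refine ⟨max (max T1 T2) 1000, fun t J ht hR => ?_⟩
  have h1 : T1 ≤ (t : ℝ) := ((le_max_left _ _).trans (le_max_left _ _)).trans ht
  have h2 : T2 ≤ (t : ℝ) := ((le_max_right _ _).trans (le_max_left _ _)).trans ht
  have h3 : (1000 : ℝ) ≤ (t : ℝ) := (le_max_right _ _).trans ht
  have h1000 : 1000 ≤ t := by exact_mod_cast h3
  have htp : (0 : ℝ) < t := by linarith
  have hJ : 645 ≤ J := J_pos h1000 hR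
  have hJp : (0 : ℝ) < J := by
    have : (645 : ℝ) ≤ J := by exact_mod_cast hJ
    linarith
  obtain ⟨N, hN, y, hy1, hyF, hysep⟩ : ∃ N : ℕ, N = 6 * J ^ 2 + 2 ∧ ∃ y : Fin N → E3,
      (∀ k, ‖y k‖ = 1) ∧ (∀ F : E3 → ℝ, (1 / (N : ℝ)) * ∑ k, F (y k) = SJ J F) ∧
      ∀ k l, k ≠ l → 0.65 / (J : ℝ) ≤ ‖y k - y l‖ :=
    ⟨6 * J ^ 2 + 2, rfl, base_points J (by omega)⟩
  have hNp : 0 < N := by omega
  have hNR : (N : ℝ) = 6 * (J : ℝ) ^ 2 + 2 := by rw [hN]; push_cast; ring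
  -- square root bounds
  have hsN : √(N : ℝ) ≤ 1.6 * t := by
    rw [hNR]
    apply Real.sqrt_le_iff.mpr
    refine ⟨by positivity, ?_⟩
    have hh := hR.hi
    have : (J : ℝ) ^ 2 ≤ (0.65 * (t : ℝ)) ^ 2 := by gcongr
    nlinarith
  have hc : √(1 / 2 : ℝ) ≥ 0.707 := by
    apply Real.le_sqrt_of_sq_le
    norm_num
  have hcp : 0 < √(1 / 2 : ℝ) := by linarith
  have hδ : 0 ≤ 0.1 / (t : ℝ) ^ 2 := by positivity
  have hdisp : 2 * (0.1 / (t : ℝ) ^ 2) / √(1 / 2 : ℝ) * √(N : ℝ) ≤ (0.46 : ℝ) / (t : ℝ) := by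
    have e1 : 2 * (0.1 / (t : ℝ) ^ 2) / √(1 / 2 : ℝ) ≤ 2 * (0.1 / (t : ℝ) ^ 2) / 0.707 := by
      apply div_le_div_of_nonneg_left (by positivity) (by norm_num) hc
    calc 2 * (0.1 / (t : ℝ) ^ 2) / √(1 / 2 : ℝ) * √(N : ℝ)
        ≤ (2 * (0.1 / (t : ℝ) ^ 2) / 0.707) * (1.6 * (t : ℝ)) := by
          apply mul_le_mul e1 hsN (Real.sqrt_nonneg _) (by positivity)
      _ = (2 * 0.1 / 0.707 * 1.6 : ℝ) / (t : ℝ) := by field_simp
      _ ≤ (0.46 : ℝ) / (t : ℝ) := by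
          apply div_le_div_of_nonneg_right _ htp.le
          norm_num
  have hdisp1 : (0.46 : ℝ) / t ≤ 1 := by
    rw [div_le_one htp]; linarith
  have hsl : √(lam t) ≤ (t : ℝ) + 1 / 2 := by
    have := two_sqrt_lam_le t
    linarith
  have hK : 4 * (1.05 * ((t : ℝ) + 1) * √(lam t)) * (0.1 / (t : ℝ) ^ 2) < 1 / 2 := by
    have e1 : 4 * (1.05 * ((t : ℝ) + 1) * √(lam t)) ≤
        4 * (1.05 * ((t : ℝ) + 1) * ((t : ℝ) + 1 / 2)) := by gcongr
    have e2 : 4 * (1.05 * ((t : ℝ) + 1) * ((t : ℝ) + 1 / 2)) * (0.1 / (t : ℝ) ^ 2) < 1 / 2 := by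
      rw [← mul_div_assoc, div_lt_iff₀ (by positivity)]
      nlinarith
    exact lt_of_le_of_lt (mul_le_mul_of_nonneg_right e1 hδ) e2
  obtain ⟨x, hx1, hxy, hxd⟩ := exist_design t N (1 / 2) (0.1 / (t : ℝ) ^ 2) y hNp hy1
    (by norm_num) hδ
    (fun p hp => by
      have := hS t J h1 hR p hp
      rw [← hyF (fun x => (ev p x) ^ 2)] at this
      exact this)
    (fun p hp => by
      have := hD t J h2 hR p hp
      rw [← hyF (ev p)] at this
      exact this)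
    hK (hdisp.trans hdisp1)
  have hinj : Function.Injective x := by
    intro k l hkl
    by_contra hne
    have hsep := hysep k l hne
    have e1 : 1 / (t : ℝ) ≤ 0.65 / (J : ℝ) := by
      rw [div_le_div_iff₀ htp hJp]
      have := hR.hi
      linarith
    have e2 : ‖y k - y l‖ ≤ 0.46 / t + 0.46 / t := by
      have e3 : y k - y l = (x l - y l) - (x k - y k) := by rw [hkl]; abel
      rw [e3]
      refine (norm_sub_le _ _).trans ?_
      exact add_le_add ((hxy l).trans hdisp) ((hxy k).trans hdisp)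
    have e4 : 0.46 / (t : ℝ) + 0.46 / t < 1 / t := by
      rw [← add_div]
      apply div_lt_div_of_pos_right _ htp
      norm_num
    linarith
  refine ⟨Finset.univ.image x, ?_, ?_, ?_⟩
  · rw [Finset.card_image_of_injective _ hinj, Finset.card_univ, Fintype.card_fin, hN]
  · intro z hz
    obtain ⟨k, -, rfl⟩ := Finset.mem_image.mp hz
    exact hx1 k
  · intro p hp
    rw [Finset.card_image_of_injective _ hinj, Finset.card_univ, Fintype.card_fin,
      Finset.sum_image (fun a _ b _ h => hinj h), ← hxd p hp, one_div]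

theorem final : ∃ T0 : ℕ, ∀ t : ℕ, T0 ≤ t → ∀ J : ℕ, 0.645 * (t : ℝ) ≤ J →
    ∃ X : Finset E3, X.card = 6 * J ^ 2 + 2 ∧ (∀ x ∈ X, ‖x‖ = 1) ∧
      ∀ p : MvPolynomial (Fin 3) ℝ, p.totalDegree ≤ t →
        (X.card : ℝ)⁻¹ * ∑ x ∈ X, MvPolynomial.eval (fun i => x i) p =
          ⨍ y : Metric.sphere (0 : E3) 1, MvPolynomial.eval (fun i => (y : E3) i) p
            ∂((volume : Measure E3).toSphere) := by
  obtain ⟨T1, hF⟩ := final_reg
  refine ⟨max ⌈T1⌉₊ 1000, fun t ht J hJ => ?_⟩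
  have h1 : T1 ≤ (t : ℝ) := (Nat.le_ceil T1).trans (by exact_mod_cast (le_max_left _ _).trans ht)
  have h1000 : 1000 ≤ t := (le_max_right _ _).trans ht
  have hJ0 : (0 : ℝ) ≤ (J : ℝ) / 0.645 := by positivity
  set s : ℕ := ⌊(J : ℝ) / 0.645⌋₊ with hs
  have hts : t ≤ s := by
    apply Nat.le_floor
    rw [le_div_iff₀ (by norm_num)]
    linarith
  have hs1 : (s : ℝ) ≤ (J : ℝ) / 0.645 := Nat.floor_le hJ0
  have hs2 : (J : ℝ) / 0.645 < s + 1 := Nat.lt_floor_add_one _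
  have hsR : (1000 : ℝ) ≤ s := by exact_mod_cast h1000.trans hts
  have hR : Reg s J := by
    constructor
    · rw [le_div_iff₀ (by norm_num)] at hs1
      linarith
    · rw [div_lt_iff₀ (by norm_num)] at hs2
      linarith
  obtain ⟨X, hc, hn, hd⟩ := hF s J (h1.trans (by exact_mod_cast hts)) hR
  exact ⟨X, hc, hn, fun p hp => hd p (hp.trans hts)⟩

end Pool.Agent.Helper83.SD
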