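import Pool.Agent.Helper83.SD.Wt

/-!
Project SD, module Gam: the pole functional as a series in the derivatives at 1.

Taylor expansion of `B` at 1 (a finite sum), `moment_one`, `moment_three`, `moment_five`,
`moment_le` (`|y^2 - 1/6|^n ≤ y^(2n) + (1/6)^n`).  Values: `gam 0 = 0`, `gam 1 = 1/80`,
`gam 2 = -97/45360`.
-/

set_option autoImplicit false

open MeasureTheory Real

namespace Pool.Agent.Helper83.SD

theorem taylor_one (B : Polynomial ℝ) (h : ℝ) :
    B.eval (1 + h) = ∑ n ∈ Finset.range (B.natDegree + 1),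
      ((Polynomial.derivative^[n] B).eval 1) / (n.factorial : ℝ) * h ^ n := by
  have h1 : B.eval (1 + h) = (Polynomial.taylor 1 B).eval h := by
    rw [Polynomial.taylor_eval, add_comm]
  rw [h1, Polynomial.eval_eq_sum_range, Polynomial.natDegree_taylor]
  refine Finset.sum_congr rfl fun n _ => ?_
  congr 1
  rw [Polynomial.taylor_coeff]
  have h2 := congrArg (fun f => (f B).eval (1 : ℝ)) (Polynomial.factorial_smul_hasseDeriv (R := ℝ) n)
  have h3 : (n.factorial : ℝ) ≠ 0 := by positivity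
  rw [eq_div_iff h3, ← Polynomial.factorial_smul_hasseDeriv]
  simp [mul_comm]

theorem wt_measurable : Measurable wt := by
  unfold wt
  fun_prop

theorem wt_nonneg {y : ℝ} (hy : 0 < y) : 0 ≤ wt y := (wt_pos hy).le

theorem abs_pow_le (n : ℕ) (y : ℝ) : |(y ^ 2 - 1 / 6) ^ n| ≤ y ^ (2 * n) + (1 / 6) ^ n := by
  rw [abs_pow]
  have h0 : 0 ≤ y ^ 2 := sq_nonneg y
  rcases le_total (y ^ 2) (1 / 6) with h | h
  · have h1 : |y ^ 2 - 1 / 6| ≤ 1 / 6 := by
      rw [abs_le]; constructor <;> linarith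
    have h2 : |y ^ 2 - 1 / 6| ^ n ≤ (1 / 6) ^ n := pow_le_pow_left₀ (abs_nonneg _) h1 n
    have h3 : 0 ≤ y ^ (2 * n) := by rw [pow_mul]; positivity
    linarith
  · have h1 : |y ^ 2 - 1 / 6| ≤ y ^ 2 := by
      rw [abs_le]; constructor <;> linarith
    have h2 : |y ^ 2 - 1 / 6| ^ n ≤ (y ^ 2) ^ n := pow_le_pow_left₀ (abs_nonneg _) h1 n
    have h3 : (0 : ℝ) ≤ (1 / 6) ^ n := by positivity
    rw [pow_mul]
    linarith

theorem int_bd (n : ℕ) :
    IntegrableOn (fun y : ℝ => y ^ (2 * n + 1) * wt y + (1 / 6) ^ n * (y ^ 1 * wt y))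
      (Set.Ioi 0) :=
  (int_wt0 (2 * n + 1) (by omega)).add ((int_wt0 1 le_rfl).const_mul _)

theorem int_gam (n : ℕ) :
    IntegrableOn (fun y : ℝ => y * (y ^ 2 - 1 / 6) ^ n * wt y) (Set.Ioi 0) := by
  refine Integrable.mono' (int_bd n) ?_ ?_
  · have := wt_measurable
    have h2 : Measurable fun y : ℝ => y * (y ^ 2 - 1 / 6) ^ n * wt y := by fun_prop
    exact h2.aestronglyMeasurable
  · refine (ae_restrict_iff' measurableSet_Ioi).mpr (Filter.Eventually.of_forall fun y hy => ?_)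
    have hy' : 0 < y := hy
    have h1 := wt_nonneg hy'
    have h2 := abs_pow_le n y
    rw [Real.norm_eq_abs, abs_mul, abs_mul, abs_of_pos hy', abs_of_nonneg h1]
    have h3 : y * |(y ^ 2 - 1 / 6) ^ n| * wt y ≤ y * (y ^ (2 * n) + (1 / 6) ^ n) * wt y := by
      gcongr
    refine h3.trans (le_of_eq ?_)
    ring

theorem int_gam_le (n : ℕ) (hn : 3 ≤ n) :
    |∫ y in Set.Ioi (0 : ℝ), y * (y ^ 2 - 1 / 6) ^ n * wt y| ≤
      (1 / 6) ^ n / 24 + 1.01 * ((2 * n + 1).factorial : ℝ) / (2 * π) ^ (2 * n + 2) := by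
  have h1 : ‖∫ y in Set.Ioi (0 : ℝ), y * (y ^ 2 - 1 / 6) ^ n * wt y‖ ≤
      ∫ y in Set.Ioi (0 : ℝ), (y ^ (2 * n + 1) * wt y + (1 / 6) ^ n * (y ^ 1 * wt y)) := by
    refine norm_integral_le_of_norm_le (int_bd n) ?_
    refine (ae_restrict_iff' measurableSet_Ioi).mpr (Filter.Eventually.of_forall fun y hy => ?_)
    have hy' : 0 < y := hy
    have h1 := wt_nonneg hy'
    have h2 := abs_pow_le n y
    rw [Real.norm_eq_abs, abs_mul, abs_mul, abs_of_pos hy', abs_of_nonneg h1]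
    have h3 : y * |(y ^ 2 - 1 / 6) ^ n| * wt y ≤ y * (y ^ (2 * n) + (1 / 6) ^ n) * wt y := by
      gcongr
    refine h3.trans (le_of_eq ?_)
    ring
  rw [Real.norm_eq_abs] at h1
  refine h1.trans ?_
  rw [integral_add (int_wt0 (2 * n + 1) (by omega)) ((int_wt0 1 le_rfl).const_mul _),
    integral_const_mul]
  have h2 := moment_le (2 * n + 1) (by omega)
  have h3 : ∫ y in Set.Ioi (0 : ℝ), y ^ 1 * wt y = 1 / 24 := by
    simpa using moment_one
  rw [h3]
  have h4 : 2 * n + 1 + 1 = 2 * n + 2 := by ring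
  rw [h4] at h2
  linarith

theorem pole_series {L : ℝ} (hL : L ≠ 0) (B : Polynomial ℝ) :
    PoleF L B = ∑ n ∈ Finset.range (B.natDegree + 1),
      gam n * ((Polynomial.derivative^[n] B).eval 1) / L ^ n := by
  set D : ℕ → ℝ := fun n => (Polynomial.derivative^[n] B).eval 1 with hD
  have h0 : B.eval 1 = D 0 := by simp [hD]
  have h1 : ∫ s in (0 : ℝ)..(1 / 6), B.eval (1 - s / L) =
      ∑ n ∈ Finset.range (B.natDegree + 1),
        D n / (n.factorial : ℝ) * ((-1) ^ n / L ^ n * ((1 / 6) ^ (n + 1) / ((n : ℝ) + 1))) := by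
    have h2 : ∀ s : ℝ, B.eval (1 - s / L) = ∑ n ∈ Finset.range (B.natDegree + 1),
        D n / (n.factorial : ℝ) * ((-1) ^ n / L ^ n * s ^ n) := by
      intro s
      rw [sub_eq_add_neg, taylor_one]
      refine Finset.sum_congr rfl fun n _ => ?_
      have : (-(s / L)) ^ n = (-1) ^ n / L ^ n * s ^ n := by
        rw [neg_pow, div_pow]; ring
      rw [this]
    simp_rw [h2]
    rw [intervalIntegral.integral_finsetSum]
    · refine Finset.sum_congr rfl fun n _ => ?_
      rw [intervalIntegral.integral_const_mul, intervalIntegral.integral_const_mul, integral_pow]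
      simp
    · intro n _
      exact Continuous.intervalIntegrable (by fun_prop) _ _
  have h3 : ∫ y in Set.Ioi (0 : ℝ), y * B.eval (1 + (y ^ 2 - 1 / 6) / L) * wt y =
      ∑ n ∈ Finset.range (B.natDegree + 1),
        D n / (n.factorial : ℝ) * (1 / L ^ n *
          ∫ y in Set.Ioi (0 : ℝ), y * (y ^ 2 - 1 / 6) ^ n * wt y) := by
    have h2 : ∀ y : ℝ, y * B.eval (1 + (y ^ 2 - 1 / 6) / L) * wt y =
        ∑ n ∈ Finset.range (B.natDegree + 1),
        D n / (n.factorial : ℝ) * (1 / L ^ n * (y * (y ^ 2 - 1 / 6) ^ n * wt y)) := by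
      intro y
      rw [taylor_one, Finset.mul_sum, Finset.sum_mul]
      refine Finset.sum_congr rfl fun n _ => ?_
      rw [div_pow]
      ring
    simp_rw [h2]
    rw [integral_finsetSum]
    · refine Finset.sum_congr rfl fun n _ => ?_
      rw [integral_const_mul, integral_const_mul]
    · intro n _
      exact ((int_gam n).const_mul _).const_mul _
  unfold PoleF
  rw [h0, h1, h3]
  have h4 : D 0 / 6 = ∑ n ∈ Finset.range (B.natDegree + 1),
      (if n = 0 then 1 / 6 else 0) * D n / L ^ n := by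
    rw [Finset.sum_eq_single 0]
    · simp; ring
    · intro n _ hn
      simp [hn]
    · intro h
      simp at h
  rw [h4, Finset.mul_sum, Finset.mul_sum, ← Finset.sum_sub_distrib, ← Finset.sum_sub_distrib]
  refine Finset.sum_congr rfl fun n _ => ?_
  unfold gam
  have h5 : (n.factorial : ℝ) ≠ 0 := by positivity
  have h6 : ((n + 1).factorial : ℝ) = ((n : ℝ) + 1) * (n.factorial : ℝ) := by
    rw [Nat.factorial_succ]; push_cast; ring
  rw [h6]
  have h7 : ((n : ℝ) + 1) ≠ 0 := by positivity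
  have h8 : L ^ n ≠ 0 := pow_ne_zero n hL
  change _ = _ * D n / L ^ n
  field_simp

theorem gam_zero : gam 0 = 0 := by
  have h1 : ∫ y in Set.Ioi (0 : ℝ), y * (y ^ 2 - 1 / 6) ^ 0 * wt y = 1 / 24 := by
    simpa using moment_one
  unfold gam
  rw [h1]
  norm_num [Nat.factorial]

theorem gam_one : gam 1 = 1 / 80 := by
  have h1 : ∫ y in Set.Ioi (0 : ℝ), y * (y ^ 2 - 1 / 6) ^ 1 * wt y =
      1 / 240 - 1 / 6 * (1 / 24) := by
    have h2 : ∀ y : ℝ, y * (y ^ 2 - 1 / 6) ^ 1 * wt y =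
        y ^ 3 * wt y - 1 / 6 * (y ^ 1 * wt y) := by intro y; ring
    simp_rw [h2]
    rw [integral_sub (int_wt0 3 (by norm_num)) ((int_wt0 1 le_rfl).const_mul _),
      integral_const_mul, moment_three]
    have h3 : ∫ y in Set.Ioi (0 : ℝ), y ^ 1 * wt y = 1 / 24 := by
      simpa using moment_one
    rw [h3]
  unfold gam
  rw [h1]
  norm_num [Nat.factorial]

theorem gam_two : gam 2 = -(97 / 45360) := by
  have h1 : ∫ y in Set.Ioi (0 : ℝ), y * (y ^ 2 - 1 / 6) ^ 2 * wt y =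
      (1 / 504 - 1 / 3 * (1 / 240)) + 1 / 36 * (1 / 24) := by
    have h2 : ∀ y : ℝ, y * (y ^ 2 - 1 / 6) ^ 2 * wt y =
        (y ^ 5 * wt y - 1 / 3 * (y ^ 3 * wt y)) + 1 / 36 * (y ^ 1 * wt y) := by intro y; ring
    simp_rw [h2]
    have h4 : IntegrableOn (fun y : ℝ => y ^ 5 * wt y - 1 / 3 * (y ^ 3 * wt y)) (Set.Ioi 0) :=
      (int_wt0 5 (by norm_num)).sub ((int_wt0 3 (by norm_num)).const_mul _)
    rw [integral_add h4 ((int_wt0 1 le_rfl).const_mul _),
      integral_sub (int_wt0 5 (by norm_num)) ((int_wt0 3 (by norm_num)).const_mul _),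
      integral_const_mul, integral_const_mul, moment_three, moment_five]
    have h3 : ∫ y in Set.Ioi (0 : ℝ), y ^ 1 * wt y = 1 / 24 := by
      simpa using moment_one
    rw [h3]
  unfold gam
  rw [h1]
  norm_num [Nat.factorial]

theorem gam_le (n : ℕ) (hn : 3 ≤ n) : |gam n| ≤ cc n := by
  have h1 := int_gam_le n hn
  have hn0 : n ≠ 0 := by omega
  unfold gam cc
  rw [if_neg hn0, zero_sub]
  set I := ∫ y in Set.Ioi (0 : ℝ), y * (y ^ 2 - 1 / 6) ^ n * wt y with hI
  have h2 : |(1 / 2 : ℝ) * (-1) ^ n * (1 / 6) ^ (n + 1) / ((n + 1).factorial : ℝ)| =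
      (1 / 6) ^ (n + 1) / (2 * ((n + 1).factorial : ℝ)) := by
    rw [abs_div, abs_mul, abs_mul, abs_pow, abs_neg, abs_one, one_pow, mul_one,
      abs_of_pos (by positivity : (0 : ℝ) < 1 / 2),
      abs_of_pos (by positivity : (0 : ℝ) < (1 / 6) ^ (n + 1)),
      abs_of_pos (by positivity : (0 : ℝ) < ((n + 1).factorial : ℝ))]
    ring
  have h3 : |(2 / (n.factorial : ℝ)) * I| ≤ (2 / (n.factorial : ℝ)) *
      ((1 / 6) ^ n / 24 + 1.01 * ((2 * n + 1).factorial : ℝ) / (2 * π) ^ (2 * n + 2)) := by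
    rw [abs_mul, abs_of_pos (by positivity : (0 : ℝ) < 2 / (n.factorial : ℝ))]
    gcongr
  have h4 : |-((1 / 2 : ℝ) * (-1) ^ n * (1 / 6) ^ (n + 1) / ((n + 1).factorial : ℝ))
      - (2 / (n.factorial : ℝ)) * I| ≤
      |(1 / 2 : ℝ) * (-1) ^ n * (1 / 6) ^ (n + 1) / ((n + 1).factorial : ℝ)|
        + |(2 / (n.factorial : ℝ)) * I| := by
    refine (abs_sub _ _).trans ?_
    rw [abs_neg]
  refine h4.trans ?_
  rw [h2]
  linarith

end Pool.Agent.Helper83.SD
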