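import Pool.Agent.Helper83.SD.Basic

/-!
Project SD, module LOps: algebra and geometry of the rotational derivatives.

`Σ_a L_a^2 = r^2 Δ - E^2 - E` with `E = Σ x_i ∂_i` (Euler).  In coordinates
`Σ_a ω_a L_a p (x) = Σ_i (ω × x)_i ∂_i p(x)`,
`(ω × x)_i = ω_(i+1) x_(i+2) - ω_(i+2) x_(i+1)` (indices mod 3).
-/

set_option autoImplicit false

open MeasureTheory Real

namespace Pool.Agent.Helper83.SD

theorem Lr_apply (a : Fin 3) (p : Poly) : Lr a p =
    MvPolynomial.X (a + 1) * MvPolynomial.pderiv (a + 2) p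
      - MvPolynomial.X (a + 2) * MvPolynomial.pderiv (a + 1) p := by
  simp [Lr]

theorem pd_comm (i j : Fin 3) (p : Poly) :
    MvPolynomial.pderiv i (MvPolynomial.pderiv j p) =
      MvPolynomial.pderiv j (MvPolynomial.pderiv i p) := by
  have h : ⁅(MvPolynomial.pderiv i : Derivation ℝ Poly Poly),
      (MvPolynomial.pderiv j : Derivation ℝ Poly Poly)⁆ = 0 := by
    apply MvPolynomial.derivation_ext
    intro k
    rw [Derivation.commutator_apply]
    simp only [MvPolynomial.pderiv_X, Pi.single_apply, Derivation.coe_zero, Pi.zero_apply]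
    split_ifs <;> simp
  have h2 := congrArg (fun D : Derivation ℝ Poly Poly => D p) h
  simpa [Derivation.commutator_apply, sub_eq_zero] using h2

theorem Lr_hom (a : Fin 3) {p : Poly} {n : ℕ} (h : p.IsHomogeneous n) :
    (Lr a p).IsHomogeneous n := by
  have key : ∀ i j : Fin 3, (MvPolynomial.X i * MvPolynomial.pderiv j p : Poly).IsHomogeneous n := by
    intro i j
    rcases Nat.eq_zero_or_pos n with hn | hn
    · subst hn
      rw [← MvPolynomial.totalDegree_zero_iff_isHomogeneous,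
        MvPolynomial.totalDegree_eq_zero_iff_eq_C] at h
      rw [h, MvPolynomial.pderiv_C, mul_zero]
      exact MvPolynomial.isHomogeneous_zero _ _ _
    · have h1 := (MvPolynomial.isHomogeneous_X ℝ i).mul (h.pderiv (i := j))
      have h2 : 1 + (n - 1) = n := by omega
      rwa [h2] at h1
  rw [Lr_apply]
  exact (key _ _).sub (key _ _)

theorem Lr_deg (a : Fin 3) (p : Poly) : (Lr a p).totalDegree ≤ p.totalDegree := by
  conv_lhs => rw [← MvPolynomial.support_sum_monomial_coeff p]
  rw [map_sum]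
  refine MvPolynomial.totalDegree_finsetSum_le fun s hs => ?_
  have h1 : (MvPolynomial.monomial s (MvPolynomial.coeff s p) : Poly).IsHomogeneous s.degree :=
    MvPolynomial.isHomogeneous_monomial _ rfl
  refine (Lr_hom a h1).totalDegree_le.trans ?_
  exact MvPolynomial.le_totalDegree hs

theorem Lr_rsq (a : Fin 3) : Lr a (∑ i, (MvPolynomial.X i : Poly) ^ 2) = 0 := by
  rw [Lr_apply]
  simp only [Fin.sum_univ_three, map_add, MvPolynomial.pderiv_pow, MvPolynomial.pderiv_X,
    Pi.single_apply]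
  fin_cases a <;> simp <;> ring

theorem sum_Lr_Lr {k : ℕ} {p : Poly} (hp : p.IsHomogeneous k) :
    ∑ a, Lr a (Lr a p) =
      (∑ i, (MvPolynomial.X i : Poly) ^ 2) *
        (∑ i, MvPolynomial.pderiv i (MvPolynomial.pderiv i p))
      - MvPolynomial.C ((k : ℝ) * ((k : ℝ) + 1)) * p := by
  have e1 : ∑ i, MvPolynomial.X i * MvPolynomial.pderiv i p = MvPolynomial.C (k : ℝ) * p := by
    rw [hp.sum_X_mul_pderiv, nsmul_eq_mul]
    simp
  have e2 : ∀ j : Fin 3, MvPolynomial.pderiv j (∑ i, MvPolynomial.X i * MvPolynomial.pderiv i p) =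
      MvPolynomial.C (k : ℝ) * MvPolynomial.pderiv j p := by
    intro j
    rw [e1, MvPolynomial.pderiv_C_mul]
  have h0 := e2 0
  have h1 := e2 1
  have h2 := e2 2
  simp only [Fin.sum_univ_three] at e1 h0 h1 h2 ⊢
  simp only [map_add, Derivation.leibniz, smul_eq_mul, MvPolynomial.pderiv_X, Pi.single_apply]
    at h0 h1 h2
  simp only [Lr_apply, map_sub, Derivation.leibniz, smul_eq_mul, MvPolynomial.pderiv_X,
    Pi.single_apply]
  have c01 := pd_comm 0 1 p
  have c02 := pd_comm 0 2 p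
  have c12 := pd_comm 1 2 p
  simp only [Fin.isValue, Fin.reduceAdd, ↓reduceIte, Fin.reduceEq] at h0 h1 h2 ⊢
  rw [c01, c02] at h0
  rw [c12] at h1
  have hC : (MvPolynomial.C ((k : ℝ) * ((k : ℝ) + 1)) : Poly) =
      MvPolynomial.C (k : ℝ) * (MvPolynomial.C (k : ℝ) + 1) := by
    rw [map_mul, map_add, map_one]
  rw [hC, c01, c02, c12]
  linear_combination (- (MvPolynomial.C (k:ℝ) + 1)) * e1 - MvPolynomial.X 0 * h0
    - MvPolynomial.X 1 * h1 - MvPolynomial.X 2 * h2

theorem hasDerivAt_ev (p : Poly) {γ : ℝ → E3} {γ' : E3} {s : ℝ} (h : HasDerivAt γ γ' s) :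
    HasDerivAt (fun r => ev p (γ r)) (∑ i, ev (MvPolynomial.pderiv i p) (γ s) * γ' i) s := by
  have hc : ∀ i : Fin 3, HasDerivAt (fun r => γ r i) (γ' i) s := by
    intro i
    exact (EuclideanSpace.proj i : E3 →L[ℝ] ℝ).hasFDerivAt.comp_hasDerivAt s h
  induction p using MvPolynomial.induction_on with
  | C c =>
    simp only [ev_C, MvPolynomial.pderiv_C]
    have : ∑ i : Fin 3, ev (0 : Poly) (γ s) * γ' i = 0 := by simp [ev]
    rw [this]
    exact hasDerivAt_const _ _
  | add p q hp hq =>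
    have := hp.add hq
    refine (this.congr_deriv ?_).congr_of_eventuallyEq ?_
    · rw [← Finset.sum_add_distrib]
      refine Finset.sum_congr rfl fun i _ => ?_
      rw [map_add, ev_add]
      ring
    · exact Filter.Eventually.of_forall fun r => ev_add _ _ _
  | mul_X p j hp =>
    have h1 := hp.mul (hc j)
    refine (h1.congr_deriv ?_).congr_of_eventuallyEq ?_
    · rw [Finset.sum_mul]
      have h3 : ev p (γ s) * γ' j = ∑ i : Fin 3, (if i = j then ev p (γ s) * γ' i else 0) := by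
        simp
      rw [h3, ← Finset.sum_add_distrib]
      refine Finset.sum_congr rfl fun i _ => ?_
      rw [MvPolynomial.pderiv_mul, ev_add, ev_mul, ev_mul, ev_X, MvPolynomial.pderiv_X,
        Pi.single_apply]
      by_cases hij : i = j
      · subst hij
        simp [ev]
        ring
      · rw [if_neg hij, if_neg (fun h => hij h.symm)]
        simp [ev]
        ring
    · exact Filter.Eventually.of_forall fun r => by
        simp [ev_mul, ev_X]

/-- derivative in the direction `ω × x` -/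
theorem sum_Lr (p : Poly) (ω x : E3) :
    ∑ i : Fin 3, ev (MvPolynomial.pderiv i p) x * (ω (i + 1) * x (i + 2) - ω (i + 2) * x (i + 1))
      = ∑ a : Fin 3, ω a * ev (Lr a p) x := by
  simp only [Lr_apply, ev_sub, ev_mul, ev_X, Fin.sum_univ_three]
  have f1 : (0 + 1 : Fin 3) = 1 := rfl
  have f2 : (0 + 2 : Fin 3) = 2 := rfl
  have f3 : (1 + 1 : Fin 3) = 2 := rfl
  have f4 : (1 + 2 : Fin 3) = 0 := rfl
  have f5 : (2 + 1 : Fin 3) = 0 := rfl
  have f6 : (2 + 2 : Fin 3) = 1 := rfl
  simp only [f1, f2, f3, f4, f5, f6]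
  ring

theorem x_dot_L (p : Poly) (x : E3) : ∑ a : Fin 3, x a * ev (Lr a p) x = 0 := by
  simp only [Lr_apply, ev_sub, ev_mul, ev_X, Fin.sum_univ_three]
  have f1 : (0 + 1 : Fin 3) = 1 := rfl
  have f2 : (0 + 2 : Fin 3) = 2 := rfl
  have f3 : (1 + 1 : Fin 3) = 2 := rfl
  have f4 : (1 + 2 : Fin 3) = 0 := rfl
  have f5 : (2 + 1 : Fin 3) = 0 := rfl
  have f6 : (2 + 2 : Fin 3) = 1 := rfl
  simp only [f1, f2, f3, f4, f5, f6]
  ring

end Pool.Agent.Helper83.SD
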