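import Pool.Agent.Helper83.SD.Basic

/-!
Project SD, module Leg: Legendre polynomials and their derivatives.

Define `P l` by Rodrigues' formula `(1/(2^l l!)) (d/dz)^l (z^2-1)^l` (or any way you like).
ODE of the m-th derivative `y = P_l^(m)`: `(1-z^2) y'' - 2(m+1) z y' + (l(l+1) - m(m+1)) y = 0`.
Values at 1: `P_l^(m)(1) = (l+m)!/(2^m m! (l-m)!)` (ODE at z = 1).
Sup bound: `V = y^2 + (1-z^2) y'^2 / c`, `c = l(l+1) - m(m+1) > 0` for `m < l`, has
`V' = (4m+2) z y'^2 / c`, so `y^2 ≤ V(z) ≤ V(±1)`.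
Orthogonality and norms: integrate by parts,
`∫ (1-z^2)^m P_l^(m) P_k^(m) = (l+m)(l-m+1) ∫ (1-z^2)^(m-1) P_l^(m-1) P_k^(m-1)`.
-/

set_option autoImplicit false

open MeasureTheory Real

namespace Pool.Agent.Helper83.SD

namespace LegAux

open Polynomial

/-- the `n`-th derivative of `(z^2-1)^l` -/
noncomputable def Qd (l n : ℕ) : ℝ[X] := derivative^[n] ((X ^ 2 - 1) ^ l)

lemma Qd_succ (l n : ℕ) : derivative (Qd l n) = Qd l (n + 1) := by
  rw [Qd, Qd, Function.iterate_succ_apply']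

/-- the differential equation -/
lemma Qd_ode (l n : ℕ) : (X ^ 2 - 1) * Qd l (n + 2) + C (2 * ((n : ℝ) + 1) - 2 * l) * X * Qd l (n + 1)
    + C ((n : ℝ) * (n + 1) - 2 * l * (n + 1)) * Qd l n = 0 := by
  induction n with
  | zero =>
    have h0 : (X ^ 2 - 1 : ℝ[X]) * Qd l 1 = C (2 * (l : ℝ)) * X * Qd l 0 := by
      rcases l with _ | l
      · simp [Qd]
      · simp only [Qd, Function.iterate_one, Function.iterate_zero, id]
        rw [derivative_pow]
        simp only [derivative_sub, derivative_X_pow, derivative_one, Nat.add_sub_cancel, map_mul,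
          Nat.cast_add, Nat.cast_one]
        simp only [C_ofNat, map_natCast, map_add, map_one]
        push_cast
        ring
    have h1 := congrArg derivative h0
    simp only [derivative_mul, Qd_succ, derivative_sub, derivative_X_pow, derivative_one,
      derivative_C, derivative_X] at h1
    simp only [map_mul, map_sub, map_add, C_ofNat, map_natCast, map_one,
      CharP.cast_eq_zero, map_zero] at h1 ⊢
    push_cast at h1 ⊢
    linear_combination h1
  | succ n ih =>
    have h1 := congrArg derivative ih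
    simp only [derivative_mul, derivative_add, Qd_succ, derivative_sub, derivative_X_pow,
      derivative_one, derivative_C, derivative_X, derivative_zero] at h1
    simp only [map_mul, map_sub, map_add, C_ofNat, map_natCast, map_one, Nat.cast_add,
      Nat.cast_one] at h1 ⊢
    push_cast at h1 ⊢
    linear_combination h1

/-- the constant of Rodrigues' formula -/
noncomputable def rc (l : ℕ) : ℝ := 1 / (2 ^ l * (l.factorial : ℝ))

lemma rc_pos (l : ℕ) : 0 < rc l := by
  unfold rc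
  positivity

/-- the Legendre polynomials -/
noncomputable def Pl (l : ℕ) : ℝ[X] := C (rc l) * Qd l l

/-- their derivatives -/
noncomputable def Y (l m : ℕ) : ℝ[X] := derivative^[m] (Pl l)

lemma Y_eq (l m : ℕ) : Y l m = C (rc l) * Qd l (l + m) := by
  rw [Y, Pl, iterate_derivative_C_mul, Qd, Qd, add_comm l m, Function.iterate_add_apply]

lemma Y_zero (l : ℕ) : Y l 0 = Pl l := rfl

lemma Y_succ (l m : ℕ) : derivative (Y l m) = Y l (m + 1) := by
  rw [Y, Y, Function.iterate_succ_apply']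

lemma Y_ode (l m : ℕ) : (1 - X ^ 2) * Y l (m + 2) - C (2 * ((m : ℝ) + 1)) * X * Y l (m + 1)
    + C ((l : ℝ) * (l + 1) - m * (m + 1)) * Y l m = 0 := by
  have h := Qd_ode l (l + m)
  rw [Y_eq, Y_eq, Y_eq]
  rw [← add_assoc, ← add_assoc]
  simp only [map_mul, map_sub, map_add, C_ofNat, map_natCast, map_one, Nat.cast_add] at h ⊢
  linear_combination (-C (rc l)) * h

lemma Y_ode_eval (l m : ℕ) (z : ℝ) : (1 - z ^ 2) * (Y l (m + 2)).eval z
    - (2 * ((m : ℝ) + 1)) * z * (Y l (m + 1)).eval z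
    + ((l : ℝ) * (l + 1) - m * (m + 1)) * (Y l m).eval z = 0 := by
  have h := congrArg (eval z) (Y_ode l m)
  simpa only [eval_add, eval_sub, eval_mul, eval_one, eval_pow, eval_X, eval_C, eval_zero] using h

/-- a Taylor coefficient at a root of `z^2-1` -/
lemma Pl_eval {r : ℝ} (hr : r ^ 2 = 1) (l : ℕ) : (Pl l).eval r = r ^ l := by
  have h1 : (taylor r ((X ^ 2 - 1 : ℝ[X]) ^ l)).coeff l = (2 * r) ^ l := by
    have e1 : taylor r ((X ^ 2 - 1 : ℝ[X]) ^ l) = X ^ l * (X + C (2 * r)) ^ l := by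
      rw [taylor_pow, ← mul_pow]
      congr 1
      rw [map_sub, taylor_pow, taylor_X, taylor_one]
      have e2 : (C r : ℝ[X]) ^ 2 = 1 := by rw [← C_pow, hr, C_1]
      rw [C_mul, C_ofNat, C_1]
      linear_combination e2
    rw [e1, coeff_X_pow_mul', if_pos le_rfl, Nat.sub_self, coeff_zero_eq_eval_zero]
    simp
  rw [taylor_coeff] at h1
  have h2 : (Qd l l).eval r = (l.factorial : ℝ) * (2 * r) ^ l := by
    have e1 := congrArg (fun f : ℝ[X] → ℝ[X] => f ((X ^ 2 - 1) ^ l))
      (factorial_smul_hasseDeriv (R := ℝ) (k := l))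
    simp only [LinearMap.smul_apply] at e1
    rw [Qd, ← e1, eval_smul, h1, nsmul_eq_mul]
  rw [Pl, eval_mul, eval_C, h2, rc, mul_pow]
  have h3 : (l.factorial : ℝ) ≠ 0 := by positivity
  field_simp

/-- the value of the derivatives at `1` -/
noncomputable def v1 (l m : ℕ) : ℝ :=
  ((l + m).factorial : ℝ) / (2 ^ m * (m.factorial : ℝ) * ((l - m).factorial : ℝ))

lemma v1_succ {l m : ℕ} (h : m + 1 ≤ l) : 2 * ((m : ℝ) + 1) * v1 l (m + 1) =
    ((l : ℝ) * (l + 1) - m * (m + 1)) * v1 l m := by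
  obtain ⟨k, rfl⟩ := Nat.exists_eq_add_of_le h
  have e1 : m + 1 + k - (m + 1) = k := by omega
  have e2 : m + 1 + k - m = k + 1 := by omega
  rw [v1, v1, e1, e2]
  have e3 : m + 1 + k + (m + 1) = (m + 1 + k + m) + 1 := by ring
  rw [e3, Nat.factorial_succ, Nat.factorial_succ m, Nat.factorial_succ k]
  have h3 : (k.factorial : ℝ) ≠ 0 := by positivity
  have h4 : (m.factorial : ℝ) ≠ 0 := by positivity
  push_cast
  field_simp
  ring

lemma Y_eval {r : ℝ} (hr : r ^ 2 = 1) {l m : ℕ} (h : m ≤ l) :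
    ((Y l m).eval r) ^ 2 = (v1 l m) ^ 2 := by
  induction m with
  | zero =>
    rw [Y_zero, Pl_eval hr, v1]
    have h3 : (l.factorial : ℝ) ≠ 0 := by positivity
    simp only [add_zero, pow_zero, Nat.factorial_zero, Nat.cast_one, mul_one, Nat.sub_zero,
      one_mul]
    rw [div_self h3, ← pow_mul, mul_comm, pow_mul, hr]
    simp
  | succ m ih =>
    have h1 := Y_ode_eval l m r
    rw [hr, sub_self, zero_mul, zero_sub] at h1
    have h2 : 2 * ((m : ℝ) + 1) * r * (Y l (m + 1)).eval r =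
        ((l : ℝ) * (l + 1) - m * (m + 1)) * (Y l m).eval r := by linarith
    have h3 := congrArg (fun x => x ^ 2) h2
    simp only [mul_pow] at h3
    rw [ih (by omega), hr] at h3
    have h4 := congrArg (fun x => x ^ 2) (v1_succ h)
    simp only [mul_pow] at h4
    have h5 : (2 : ℝ) ^ 2 * ((m : ℝ) + 1) ^ 2 ≠ 0 := by positivity
    apply mul_left_cancel₀ h5
    linarith

/-- the integral over `[-1,1]` -/
noncomputable def J (f : ℝ[X]) : ℝ := ∫ z in (-1 : ℝ)..1, f.eval z

lemma int_eval (f : ℝ[X]) (a b : ℝ) : IntervalIntegrable (fun z => f.eval z) volume a b :=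
  f.continuous.intervalIntegrable a b

lemma J_deriv (f : ℝ[X]) : J (derivative f) = f.eval 1 - f.eval (-1) :=
  intervalIntegral.integral_eq_sub_of_hasDerivAt (fun x _ => f.hasDerivAt x) (int_eval _ _ _)

lemma J_add (f g : ℝ[X]) : J (f + g) = J f + J g := by
  unfold J
  simp only [eval_add]
  exact intervalIntegral.integral_add (int_eval _ _ _) (int_eval _ _ _)

lemma J_C_mul (c : ℝ) (f : ℝ[X]) : J (C c * f) = c * J f := by
  unfold J
  simp only [eval_mul, eval_C]
  exact intervalIntegral.integral_const_mul _ _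

/-- the weighted inner products -/
noncomputable def I (m l k : ℕ) : ℝ := J ((1 - X ^ 2) ^ m * (Y l m * Y k m))

lemma I_eq (m l k : ℕ) : I m l k = ∫ z in (-1 : ℝ)..1, (1 - z ^ 2) ^ m *
    ((Y l m).eval z * (Y k m).eval z) := by
  unfold I J
  refine intervalIntegral.integral_congr fun z _ => ?_
  simp only [eval_mul, eval_pow, eval_sub, eval_one, eval_X]

lemma I_symm (m l k : ℕ) : I m l k = I m k l := by
  unfold I
  rw [mul_comm (Y l m)]

/-- integration by parts -/
lemma I_succ (m l k : ℕ) : I (m + 1) l k = ((l : ℝ) * (l + 1) - m * (m + 1)) * I m l k := by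
  have h := J_deriv ((1 - X ^ 2) ^ (m + 1) * (Y l (m + 1) * Y k m))
  have e1 : (((1 - X ^ 2) ^ (m + 1) * (Y l (m + 1) * Y k m) : ℝ[X])).eval 1 = 0 := by
    simp
  have e2 : (((1 - X ^ 2) ^ (m + 1) * (Y l (m + 1) * Y k m) : ℝ[X])).eval (-1) = 0 := by
    simp
  rw [e1, e2, sub_zero] at h
  have e3 : derivative ((1 - X ^ 2) ^ (m + 1) * (Y l (m + 1) * Y k m) : ℝ[X]) =
      (1 - X ^ 2) ^ (m + 1) * (Y l (m + 1) * Y k (m + 1)) +
      C (-((l : ℝ) * (l + 1) - m * (m + 1))) * ((1 - X ^ 2) ^ m * (Y l m * Y k m)) := by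
    have e4 := Y_ode l m
    rw [derivative_mul, derivative_mul, derivative_pow, Y_succ, Y_succ, derivative_sub,
      derivative_X_pow, derivative_one, Nat.add_sub_cancel, C_neg]
    simp only [map_mul, map_sub, map_add, C_ofNat, map_natCast, map_one, Nat.cast_add,
      Nat.cast_one] at e4 ⊢
    push_cast at e4 ⊢
    linear_combination (1 - X ^ 2) ^ m * Y k m * e4
  rw [e3, J_add, J_C_mul] at h
  unfold I
  linarith

lemma I_zero {l k : ℕ} (h : l ≠ k) : I 0 l k = 0 := by
  have h1 := I_succ 0 l k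
  have h2 := I_succ 0 k l
  rw [I_symm (0 + 1) k l, I_symm 0 k l, h1] at h2
  have h3 : ((l : ℝ) * (l + 1) - k * (k + 1)) * I 0 l k = 0 := by
    push_cast at h2
    linarith
  rcases mul_eq_zero.1 h3 with h4 | h4
  · exfalso
    have h5 : ((l : ℝ) - k) * (l + k + 1) = 0 := by linarith
    rcases mul_eq_zero.1 h5 with h6 | h6
    · exact h (by exact_mod_cast sub_eq_zero.1 h6)
    · have : (0 : ℝ) < (l : ℝ) + k + 1 := by positivity
      linarith
  · exact h4

lemma I_ne (m : ℕ) {l k : ℕ} (h : l ≠ k) : I m l k = 0 := by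
  induction m with
  | zero => exact I_zero h
  | succ m ih => rw [I_succ, ih, mul_zero]

lemma I_diag {l m : ℕ} (h : m ≤ l) : I m l l * ((l - m).factorial : ℝ) =
    ((l + m).factorial : ℝ) * I 0 l l := by
  induction m with
  | zero => simp [mul_comm]
  | succ m ih =>
    have h1 := ih (by omega)
    obtain ⟨k, rfl⟩ := Nat.exists_eq_add_of_le h
    have e1 : m + 1 + k - (m + 1) = k := by omega
    have e2 : m + 1 + k - m = k + 1 := by omega
    have e3 : m + 1 + k + (m + 1) = (m + 1 + k + m) + 1 := by ring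
    rw [e2, Nat.factorial_succ] at h1
    rw [e1, e3, Nat.factorial_succ (m + 1 + k + m), I_succ]
    push_cast at h1 ⊢
    linear_combination ((m : ℝ) + 1 + k + m + 1) * h1

/-- the beta integral -/
noncomputable def be (l : ℕ) : ℝ := J ((1 - X ^ 2) ^ l)

lemma be_succ (l : ℕ) : (2 * (l : ℝ) + 3) * be (l + 1) = 2 * ((l : ℝ) + 1) * be l := by
  have h := J_deriv (X * (1 - X ^ 2) ^ (l + 1))
  have e1 : ((X * (1 - X ^ 2) ^ (l + 1) : ℝ[X])).eval 1 = 0 := by simp
  have e2 : ((X * (1 - X ^ 2) ^ (l + 1) : ℝ[X])).eval (-1) = 0 := by simp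
  rw [e1, e2, sub_zero] at h
  have e3 : derivative (X * (1 - X ^ 2) ^ (l + 1) : ℝ[X]) =
      C (2 * (l : ℝ) + 3) * (1 - X ^ 2) ^ (l + 1) + C (-(2 * ((l : ℝ) + 1))) * (1 - X ^ 2) ^ l := by
    rw [derivative_mul, derivative_pow, derivative_sub, derivative_X_pow, derivative_one,
      derivative_X, Nat.add_sub_cancel, C_neg]
    simp only [map_mul, map_add, C_ofNat, map_natCast, map_one, Nat.cast_add, Nat.cast_one]
    push_cast
    ring
  rw [e3, J_add, J_C_mul, J_C_mul] at h
  unfold be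
  linarith

lemma be_zero : be 0 = 2 := by
  unfold be J
  simp
  norm_num

lemma be_eq (l : ℕ) : be l * ((2 * l + 1).factorial : ℝ) =
    2 * 4 ^ l * (l.factorial : ℝ) ^ 2 := by
  induction l with
  | zero => simp [be_zero]
  | succ l ih =>
    have h := be_succ l
    have e1 : 2 * (l + 1) + 1 = (2 * l + 1) + 1 + 1 := by ring
    rw [e1, Nat.factorial_succ, Nat.factorial_succ (2 * l + 1), Nat.factorial_succ l]
    push_cast
    have h2 : (2 * (l : ℝ) + 2) * (2 * (l : ℝ) + 3) * be (l + 1) * ((2 * l + 1).factorial : ℝ) =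
        (2 * (l : ℝ) + 2) * (2 * ((l : ℝ) + 1)) * (2 * 4 ^ l * (l.factorial : ℝ) ^ 2) := by
      linear_combination (2 * (l : ℝ) + 2) * ((2 * l + 1).factorial : ℝ) * h +
        (2 * (l : ℝ) + 2) * (2 * ((l : ℝ) + 1)) * ih
    rw [pow_succ]
    linear_combination h2

lemma natDegree_Q (l : ℕ) : ((X ^ 2 - 1 : ℝ[X]) ^ l).natDegree = 2 * l := by
  rw [natDegree_pow, ← C_1, natDegree_X_pow_sub_C, mul_comm]

lemma coeff_Q (l : ℕ) : ((X ^ 2 - 1 : ℝ[X]) ^ l).coeff (2 * l) = 1 := by
  have h : ((X ^ 2 - 1 : ℝ[X]) ^ l).Monic := by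
    refine Monic.pow ?_ l
    rw [← C_1]
    exact monic_X_pow_sub_C _ two_ne_zero
  rw [← natDegree_Q l]
  exact h

lemma coeff_Qd (l n k : ℕ) (h : n + k = 2 * l) :
    (Qd l n).coeff k = ((2 * l).descFactorial n : ℝ) := by
  rw [Qd, coeff_iterate_derivative, add_comm k n, h, coeff_Q, nsmul_eq_mul, mul_one]

lemma natDegree_Pl (l : ℕ) : (Pl l).natDegree = l := by
  refine le_antisymm ?_ (le_natDegree_of_ne_zero ?_)
  · rw [Pl]
    refine (natDegree_C_mul_le _ _).trans ?_
    refine (natDegree_iterate_derivative _ _).trans ?_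
    rw [natDegree_Q]
    omega
  · rw [Pl, coeff_C_mul, coeff_Qd l l l (by ring)]
    refine mul_ne_zero (rc_pos l).ne' ?_
    have : 0 < (2 * l).descFactorial l := Nat.descFactorial_pos.2 (by omega)
    positivity

lemma Y_top (l : ℕ) : Y l l = C (rc l * ((2 * l).factorial : ℝ)) := by
  have h1 : (Qd l (l + l)).natDegree = 0 := by
    have := natDegree_iterate_derivative ((X ^ 2 - 1 : ℝ[X]) ^ l) (l + l)
    rw [natDegree_Q] at this
    rw [Qd]
    omega
  rw [Y_eq, eq_C_of_natDegree_eq_zero h1, coeff_Qd l (l + l) 0 (by ring), ← C_mul, two_mul,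
    Nat.descFactorial_self]

lemma I_top (l : ℕ) : I l l l = (rc l * ((2 * l).factorial : ℝ)) ^ 2 * be l := by
  unfold I
  rw [Y_top, ← C_mul, mul_comm, J_C_mul, be]
  ring

lemma I_norm (l : ℕ) : I 0 l l * (2 * (l : ℝ) + 1) = 2 := by
  have h1 := I_diag (le_refl l)
  rw [I_top, Nat.sub_self, Nat.factorial_zero, Nat.cast_one, mul_one, ← two_mul] at h1
  have h2 := be_eq l
  have h3 : ((2 * l).factorial : ℝ) ≠ 0 := by positivity
  have h4 : (l.factorial : ℝ) ≠ 0 := by positivity
  rw [Nat.factorial_succ] at h2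
  push_cast at h2
  have h5 : rc l * (2 ^ l * (l.factorial : ℝ)) = 1 := by
    unfold rc
    field_simp
  have h6 : (4 : ℝ) ^ l = 2 ^ l * 2 ^ l := by rw [← mul_pow]; norm_num
  rw [h6] at h2
  have h7 : I 0 l l = rc l ^ 2 * ((2 * l).factorial : ℝ) * be l := by
    apply mul_left_cancel₀ h3
    linear_combination -h1
  rw [h7]
  linear_combination rc l ^ 2 * h2 + 2 * (rc l * (2 ^ l * (l.factorial : ℝ)) + 1) * h5

/-- the Sonin function -/
noncomputable def Vs (l m : ℕ) (c : ℝ) : ℝ[X] :=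
  Y l m ^ 2 + C (1 / c) * ((1 - X ^ 2) * Y l (m + 1) ^ 2)

lemma Vs_deriv (l m : ℕ) {c : ℝ} (hc : c ≠ 0) (hc' : c = (l : ℝ) * (l + 1) - m * (m + 1)) :
    derivative (Vs l m c) = C (1 / c * (4 * (m : ℝ) + 2)) * (X * Y l (m + 1) ^ 2) := by
  have e4 := Y_ode l m
  rw [← hc'] at e4
  have e5 : (C (1 / c) * C c : ℝ[X]) = 1 := by
    rw [← C_mul, one_div_mul_cancel hc, C_1]
  rw [Vs]
  simp only [derivative_add, derivative_mul, derivative_pow, Y_succ, derivative_sub,
    derivative_one, derivative_C, derivative_X]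
  simp only [map_mul, map_add, C_ofNat, map_natCast, map_one, Nat.cast_ofNat] at e4 ⊢
  simp only [pow_one, Nat.add_one_sub_one]
  have e6 : m + 1 + 1 = m + 2 := rfl
  rw [e6]
  linear_combination 2 * C (1 / c) * Y l (m + 1) * e4 - 2 * Y l m * Y l (m + 1) * e5

lemma sup_bound {l m : ℕ} (h : m ≤ l) {z : ℝ} (hz : z ^ 2 ≤ 1) : |(Y l m).eval z| ≤ v1 l m := by
  have hv : 0 ≤ v1 l m := by
    unfold v1
    positivity
  refine abs_le_of_sq_le_sq ?_ hv
  rcases h.lt_or_eq with h1 | h1
  · set c : ℝ := (l : ℝ) * (l + 1) - m * (m + 1) with hc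
    have hml : (m : ℝ) + 1 ≤ l := by exact_mod_cast h1
    have hm0 : (0 : ℝ) ≤ m := by positivity
    have hc0 : 0 < c := by nlinarith
    have hd : ∀ x : ℝ, deriv (fun x => (Vs l m c).eval x) x =
        1 / c * (4 * (m : ℝ) + 2) * (x * (Y l (m + 1)).eval x ^ 2) := by
      intro x
      rw [Polynomial.deriv, Vs_deriv l m hc0.ne' hc]
      simp only [eval_mul, eval_C, eval_X, eval_pow]
    have hk : 0 ≤ 1 / c * (4 * (m : ℝ) + 2) := by positivity
    have hval : ∀ x : ℝ, (Vs l m c).eval x =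
        (Y l m).eval x ^ 2 + 1 / c * ((1 - x ^ 2) * (Y l (m + 1)).eval x ^ 2) := by
      intro x
      simp only [Vs, eval_add, eval_mul, eval_C, eval_X, eval_pow, eval_sub, eval_one]
    have hle : (Y l m).eval z ^ 2 ≤ (Vs l m c).eval z := by
      rw [hval]
      have : 0 ≤ 1 / c * ((1 - z ^ 2) * (Y l (m + 1)).eval z ^ 2) := by
        have h0 : 0 ≤ 1 - z ^ 2 := by linarith
        positivity
      linarith
    refine hle.trans ?_
    have hab := abs_le_one_iff_mul_self_le_one.2 (by nlinarith : z * z ≤ 1)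
    rw [abs_le] at hab
    rcases le_total 0 z with h0 | h0
    · have hmo : MonotoneOn (fun x => (Vs l m c).eval x) (Set.Icc 0 1) := by
        refine monotoneOn_of_deriv_nonneg (convex_Icc 0 1) (Vs l m c).continuous.continuousOn
          (Vs l m c).differentiable.differentiableOn fun x hx => ?_
        rw [interior_Icc] at hx
        rw [hd]
        have := hx.1.le
        positivity
      have h3 := hmo ⟨h0, hab.2⟩ ⟨zero_le_one, le_rfl⟩ hab.2
      refine h3.trans ?_
      dsimp only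
      rw [hval, Y_eval (by norm_num : (1 : ℝ) ^ 2 = 1) h]
      simp
    · have hmo : AntitoneOn (fun x => (Vs l m c).eval x) (Set.Icc (-1) 0) := by
        refine antitoneOn_of_deriv_nonpos (convex_Icc (-1) 0) (Vs l m c).continuous.continuousOn
          (Vs l m c).differentiable.differentiableOn fun x hx => ?_
        rw [interior_Icc] at hx
        rw [hd]
        have h5 := hx.2.le
        have h6 : x * (Y l (m + 1)).eval x ^ 2 ≤ 0 :=
          mul_nonpos_of_nonpos_of_nonneg h5 (sq_nonneg _)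
        exact mul_nonpos_of_nonneg_of_nonpos hk h6
      have h3 := hmo ⟨le_rfl, by norm_num⟩ ⟨hab.1, h0⟩ hab.1
      refine h3.trans ?_
      dsimp only
      rw [hval, Y_eval (by norm_num : (-1 : ℝ) ^ 2 = 1) h]
      simp
  · subst h1
    have e1 : (Y m m).eval z = (Y m m).eval 1 := by rw [Y_top, eval_C, eval_C]
    rw [e1, Y_eval (by norm_num : (1 : ℝ) ^ 2 = 1) le_rfl]

end LegAux

theorem legendre_exists : ∃ P : ℕ → Polynomial ℝ,
    (∀ l, (P l).natDegree = l) ∧ (∀ l, P l ≠ 0) ∧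
    (∀ m l k : ℕ, l ≠ k → ∫ z in (-1 : ℝ)..1, (1 - z ^ 2) ^ m *
      ((Polynomial.derivative^[m] (P l)).eval z * (Polynomial.derivative^[m] (P k)).eval z) = 0) ∧
    (∀ m l : ℕ, m ≤ l → nrm m (Polynomial.derivative^[m] (P l)) =
      ((l + m).factorial : ℝ) / ((2 * (l : ℝ) + 1) * ((l - m).factorial : ℝ))) ∧
    (∀ m l : ℕ, m ≤ l → ∀ z : ℝ, z ^ 2 ≤ 1 → |(Polynomial.derivative^[m] (P l)).eval z| ≤
      ((l + m).factorial : ℝ) / (2 ^ m * (m.factorial : ℝ) * ((l - m).factorial : ℝ))) := by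
  refine ⟨LegAux.Pl, LegAux.natDegree_Pl, ?_, ?_, ?_, fun m l h z hz => LegAux.sup_bound h hz⟩
  · intro l h
    have h1 := LegAux.I_norm l
    have h2 : LegAux.I 0 l l = 0 := by
      rw [LegAux.I_eq, LegAux.Y_zero, h]
      simp
    rw [h2, zero_mul] at h1
    norm_num at h1
  · intro m l k h
    exact (LegAux.I_eq m l k).symm.trans (LegAux.I_ne m h)
  · intro m l h
    have h1 := LegAux.I_diag h
    have h2 := LegAux.I_norm l
    have h3 : nrm m (Polynomial.derivative^[m] (LegAux.Pl l)) = 1 / 2 * LegAux.I m l l := by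
      rw [nrm, LegAux.I_eq]
      congr 1
      refine intervalIntegral.integral_congr fun z _ => ?_
      change (1 - z ^ 2) ^ m * ((LegAux.Y l m).eval z) ^ 2 =
        (1 - z ^ 2) ^ m * ((LegAux.Y l m).eval z * (LegAux.Y l m).eval z)
      ring
    have h4 : ((l - m).factorial : ℝ) ≠ 0 := by positivity
    have h5 : (2 * (l : ℝ) + 1) ≠ 0 := by positivity
    rw [h3, eq_div_iff (mul_ne_zero h5 h4)]
    linear_combination 1 / 2 * (2 * (l : ℝ) + 1) * h1 +
      1 / 2 * ((l + m).factorial : ℝ) * h2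

end Pool.Agent.Helper83.SD
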