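import Pool.Agent.Helper83.SD.Coord
import Pool.Agent.Helper83.SD.Bern

/-!
Project SD, module Loc1: latitude derivatives in mean square.

`∂_ψ ev q (pt ψ φ) = ev (sin φ L_0 q - cos φ L_1 q)(pt ψ φ)`; iterating,
`(∂_ψ^k P)^2 ≤ Σ_words (L_w p)^2` (Cauchy-Schwarz, the coefficient squares of the words of
length `k` in `L_0, L_1` sum to 1), and `Σ_words mu ((L_w p)^2) ≤ (lam t)^k mu (p^2)` by
iterating `bern` (all `L_w p` have degree `≤ t`), `≤ (lam t)^(k-1) en p` if `k ≥ 1`.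
-/

set_option autoImplicit false

open MeasureTheory Real

namespace Pool.Agent.Helper83.SD

/-- continuity in the second variable -/
theorem cont_right {D : ℝ → ℝ → ℝ} (hD : Continuous fun x : ℝ × ℝ => D x.1 x.2) (ψ : ℝ) :
    Continuous fun φ => D ψ φ :=
  hD.comp (by fun_prop : Continuous fun φ : ℝ => (ψ, φ))

/-- continuity of a rotated pair -/
theorem cont_comb {A B : ℝ → ℝ → ℝ} (hA : Continuous fun x : ℝ × ℝ => A x.1 x.2)
    (hB : Continuous fun x : ℝ × ℝ => B x.1 x.2) :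
    Continuous fun x : ℝ × ℝ => sin x.2 * A x.1 x.2 - cos x.2 * B x.1 x.2 := by
  fun_prop

/-- derivative under the integral -/
theorem param_deriv {D D' : ℝ → ℝ → ℝ} (hD : Continuous fun x : ℝ × ℝ => D x.1 x.2)
    (hD' : Continuous fun x : ℝ × ℝ => D' x.1 x.2)
    (hd : ∀ x φ : ℝ, HasDerivAt (fun s => D s φ) (D' x φ) x) (ψ : ℝ) {b : ℝ} (hb : 0 ≤ b) :
    HasDerivAt (fun ψ => ∫ φ in (0 : ℝ)..b, (D ψ φ) ^ 2)
      (∫ φ in (0 : ℝ)..b, 2 * D ψ φ * D' ψ φ) ψ := by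
  have hcF : Continuous fun x : ℝ × ℝ => (D x.1 x.2) ^ 2 := hD.pow 2
  have hcF' : Continuous fun x : ℝ × ℝ => 2 * D x.1 x.2 * D' x.1 x.2 :=
    (continuous_const.mul hD).mul hD'
  have hs : ∀ ψ : ℝ, Continuous fun φ => (D ψ φ) ^ 2 := fun ψ =>
    hcF.comp (by fun_prop : Continuous fun φ : ℝ => (ψ, φ))
  have hs' : ∀ ψ : ℝ, Continuous fun φ => 2 * D ψ φ * D' ψ φ := fun ψ =>
    hcF'.comp (by fun_prop : Continuous fun φ : ℝ => (ψ, φ))
  have hK : IsCompact (Metric.closedBall ψ 1 ×ˢ Set.Icc (0 : ℝ) b) :=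
    (isCompact_closedBall ψ 1).prod isCompact_Icc
  obtain ⟨C, hC⟩ := hK.exists_bound_of_continuousOn hcF'.continuousOn
  have g1 : ∀ᶠ x in nhds ψ, AEStronglyMeasurable (fun φ => (D x φ) ^ 2)
      (volume.restrict (Set.uIoc 0 b)) :=
    Filter.Eventually.of_forall fun x => (hs x).aestronglyMeasurable
  have g2 : IntervalIntegrable (fun φ => (D ψ φ) ^ 2) volume 0 b :=
    (hs ψ).intervalIntegrable _ _
  have g3 : AEStronglyMeasurable (fun φ => 2 * D ψ φ * D' ψ φ)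
      (volume.restrict (Set.uIoc 0 b)) := (hs' ψ).aestronglyMeasurable
  have g4 : ∀ᵐ φ ∂volume, φ ∈ Set.uIoc 0 b → ∀ x ∈ Metric.ball ψ 1,
      ‖2 * D x φ * D' x φ‖ ≤ C := by
    refine Filter.Eventually.of_forall fun φ hφ x hx => ?_
    rw [Set.uIoc_of_le hb] at hφ
    exact hC (x, φ) ⟨Metric.ball_subset_closedBall hx, ⟨hφ.1.le, hφ.2⟩⟩
  have g5 : ∀ᵐ φ ∂volume, φ ∈ Set.uIoc 0 b → ∀ x ∈ Metric.ball ψ 1,
      HasDerivAt (fun x => (D x φ) ^ 2) (2 * D x φ * D' x φ) x := by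
    refine Filter.Eventually.of_forall fun φ _ x _ => ?_
    have h := (hd x φ).fun_pow 2
    refine h.congr_deriv ?_
    simp
  have g6 : IntervalIntegrable (fun _ : ℝ => C) volume 0 b := intervalIntegrable_const
  exact (intervalIntegral.hasDerivAt_integral_of_dominated_loc_of_deriv_le
    (Metric.ball_mem_nhds ψ one_pos) g1 g2 g3 g4 g6 g5).2

/-- the `k`-th latitude derivative -/
noncomputable def Dk (k : ℕ) (p : Poly) (ψ φ : ℝ) : ℝ :=
  iteratedDeriv k (fun s => ev p (pt s φ)) ψ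

theorem pt_hasDeriv (ψ φ : ℝ) :
    HasDerivAt (fun s => pt s φ) (!₂[-sin ψ * cos φ, -sin ψ * sin φ, cos ψ] : E3) ψ := by
  have h : HasDerivAt (fun s => (![cos s * cos φ, cos s * sin φ, sin s] : Fin 3 → ℝ))
      (![-sin ψ * cos φ, -sin ψ * sin φ, cos ψ]) ψ := by
    rw [hasDerivAt_pi]
    intro i
    fin_cases i
    · simpa using (Real.hasDerivAt_cos ψ).mul_const (cos φ)
    · simpa using (Real.hasDerivAt_cos ψ).mul_const (sin φ)
    · simpa using Real.hasDerivAt_sin ψ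
  exact (PiLp.hasFDerivAt_toLp 2 _).comp_hasDerivAt ψ h

theorem ev_pt_hasDeriv (p : Poly) (ψ φ : ℝ) :
    HasDerivAt (fun s => ev p (pt s φ))
      (sin φ * ev (Lr 0 p) (pt ψ φ) - cos φ * ev (Lr 1 p) (pt ψ φ)) ψ := by
  have h := hasDerivAt_ev p (pt_hasDeriv ψ φ)
  refine h.congr_deriv ?_
  have h2 := sum_Lr p (!₂[sin φ, -cos φ, 0] : E3) (pt ψ φ)
  have f1 : (0 + 1 : Fin 3) = 1 := rfl
  have f2 : (0 + 2 : Fin 3) = 2 := rfl
  have f3 : (1 + 1 : Fin 3) = 2 := rfl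
  have f4 : (1 + 2 : Fin 3) = 0 := rfl
  have f5 : (2 + 1 : Fin 3) = 0 := rfl
  have f6 : (2 + 2 : Fin 3) = 1 := rfl
  have h3 := Real.sin_sq_add_cos_sq φ
  simp only [Fin.sum_univ_three, f1, f2, f3, f4, f5, f6, pt, PiLp.toLp_apply,
    Matrix.cons_val_zero, Matrix.cons_val_one, Matrix.cons_val] at h2 ⊢
  linear_combination h2 - (ev (MvPolynomial.pderiv 2 p)
    !₂[cos ψ * cos φ, cos ψ * sin φ, sin ψ]) * cos ψ * h3

theorem Dk_hasDeriv (φ : ℝ) (k : ℕ) : ∀ (p : Poly) (ψ : ℝ),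
    HasDerivAt (fun s => Dk k p s φ) (sin φ * Dk k (Lr 0 p) ψ φ - cos φ * Dk k (Lr 1 p) ψ φ) ψ := by
  induction k with
  | zero =>
    intro p ψ
    simpa [Dk] using ev_pt_hasDeriv p ψ φ
  | succ k ih =>
    have key : ∀ (p : Poly), (fun s => Dk (k + 1) p s φ) =
        fun s => sin φ * Dk k (Lr 0 p) s φ - cos φ * Dk k (Lr 1 p) s φ := by
      intro p
      funext s
      unfold Dk
      rw [iteratedDeriv_succ]
      exact (ih p s).deriv
    have key' : ∀ (p : Poly) (s : ℝ), Dk (k + 1) p s φ =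
        sin φ * Dk k (Lr 0 p) s φ - cos φ * Dk k (Lr 1 p) s φ := fun p s => congrFun (key p) s
    intro p ψ
    rw [key p, key' (Lr 0 p), key' (Lr 1 p)]
    exact ((ih (Lr 0 p) ψ).const_mul (sin φ)).sub ((ih (Lr 1 p) ψ).const_mul (cos φ))

theorem Dk_succ (k : ℕ) (p : Poly) (ψ φ : ℝ) : Dk (k + 1) p ψ φ =
    sin φ * Dk k (Lr 0 p) ψ φ - cos φ * Dk k (Lr 1 p) ψ φ := by
  have := (Dk_hasDeriv φ k p ψ).deriv
  unfold Dk at this ⊢
  rw [iteratedDeriv_succ]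
  exact this

theorem Dk_hasDeriv' (k : ℕ) (p : Poly) (ψ φ : ℝ) :
    HasDerivAt (fun s => Dk k p s φ) (Dk (k + 1) p ψ φ) ψ := by
  rw [Dk_succ]
  exact Dk_hasDeriv φ k p ψ

theorem pt_continuous : Continuous fun x : ℝ × ℝ => pt x.1 x.2 := by
  unfold pt
  refine (PiLp.continuous_toLp 2 _).comp ?_
  refine continuous_pi fun i => ?_
  fin_cases i
  · simp only [Fin.zero_eta, Fin.isValue, Matrix.cons_val_zero]; fun_prop
  · simp only [Fin.mk_one, Fin.isValue, Matrix.cons_val_one, Matrix.cons_val_zero]; fun_prop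
  · simp only [Fin.reduceFinMk, Matrix.cons_val]; fun_prop

theorem Dk_continuous (k : ℕ) : ∀ p : Poly, Continuous fun x : ℝ × ℝ => Dk k p x.1 x.2 := by
  induction k with
  | zero =>
    intro p
    have h : Continuous fun x : ℝ × ℝ => ev p (pt x.1 x.2) := (ev_continuous p).comp pt_continuous
    simpa [Dk] using h
  | succ k ih =>
    intro p
    simp only [Dk_succ]
    exact cont_comb (ih (Lr 0 p)) (ih (Lr 1 p))

theorem Nk_eq (k : ℕ) (p : Poly) (ψ : ℝ) :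
    Nk k p ψ = (1 / (2 * π)) * ∫ φ in (0 : ℝ)..(2 * π), (Dk k p ψ φ) ^ 2 := rfl

theorem Nk_continuous (k : ℕ) (p : Poly) : Continuous (Nk k p) := by
  have h := Dk_continuous k p
  have h2 : Continuous fun ψ => ∫ φ in (0 : ℝ)..(2 * π), (Dk k p ψ φ) ^ 2 := by
    have h3 : Continuous fun x : ℝ × ℝ => (Dk k p x.1 x.2) ^ 2 := h.pow 2
    exact intervalIntegral.continuous_parametric_intervalIntegral_of_continuous'
      (f := fun ψ φ => (Dk k p ψ φ) ^ 2) h3 _ _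
  exact continuous_const.mul h2

theorem Nk_nonneg (k : ℕ) (p : Poly) (ψ : ℝ) : 0 ≤ Nk k p ψ := by
  rw [Nk_eq]
  have hpi := Real.pi_pos
  refine mul_nonneg (by positivity) ?_
  refine intervalIntegral.integral_nonneg (by positivity) fun φ _ => sq_nonneg _

theorem Nk_succ_le (k : ℕ) (p : Poly) (ψ : ℝ) :
    Nk (k + 1) p ψ ≤ Nk k (Lr 0 p) ψ + Nk k (Lr 1 p) ψ := by
  have hpi := Real.pi_pos
  rw [Nk_eq, Nk_eq, Nk_eq, ← mul_add]
  have hc : ∀ (j : ℕ) (q : Poly), Continuous fun φ => (Dk j q ψ φ) ^ 2 := by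
    intro j q
    exact (cont_right (Dk_continuous j q) ψ).pow 2
  rw [← intervalIntegral.integral_add ((hc _ _).intervalIntegrable _ _)
    ((hc _ _).intervalIntegrable _ _)]
  refine mul_le_mul_of_nonneg_left ?_ (by positivity)
  refine intervalIntegral.integral_mono_on (by positivity) ((hc _ _).intervalIntegrable _ _)
    (((hc _ _).add (hc _ _)).intervalIntegrable _ _) fun φ _ => ?_
  rw [Dk_succ]
  have h3 := Real.sin_sq_add_cos_sq φ
  have : (Dk k (Lr 0 p) ψ φ) ^ 2 + (Dk k (Lr 1 p) ψ φ) ^ 2 -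
      (sin φ * Dk k (Lr 0 p) ψ φ - cos φ * Dk k (Lr 1 p) ψ φ) ^ 2 =
      (cos φ * Dk k (Lr 0 p) ψ φ + sin φ * Dk k (Lr 1 p) ψ φ) ^ 2 := by
    linear_combination (-(Dk k (Lr 0 p) ψ φ) ^ 2 - (Dk k (Lr 1 p) ψ φ) ^ 2) * h3
  nlinarith [sq_nonneg (cos φ * Dk k (Lr 0 p) ψ φ + sin φ * Dk k (Lr 1 p) ψ φ)]

/-- the integral of `Nk` -/
noncomputable def Ik (k : ℕ) (p : Poly) : ℝ :=
  (1 / 2) * (∫ ψ in (-(π / 2))..(π / 2), Nk k p ψ * cos ψ)

theorem Ik_zero (p : Poly) : Ik 0 p = mu (p ^ 2) := by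
  rw [mu_pt']
  unfold Ik Nk
  simp only [iteratedDeriv_zero, ev_pow]

theorem Ik_succ_le (k : ℕ) (p : Poly) : Ik (k + 1) p ≤ Ik k (Lr 0 p) + Ik k (Lr 1 p) := by
  have hpi := Real.pi_pos
  have hc : ∀ (j : ℕ) (q : Poly), Continuous fun ψ => Nk j q ψ * cos ψ := by
    intro j q
    exact (Nk_continuous j q).mul Real.continuous_cos
  unfold Ik
  rw [← mul_add, ← intervalIntegral.integral_add ((hc _ _).intervalIntegrable _ _)
    ((hc _ _).intervalIntegrable _ _)]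
  refine mul_le_mul_of_nonneg_left ?_ (by norm_num)
  refine intervalIntegral.integral_mono_on (by linarith) ((hc _ _).intervalIntegrable _ _)
    (((hc _ _).add (hc _ _)).intervalIntegrable _ _) fun ψ hψ => ?_
  have h1 := Nk_succ_le k p ψ
  have h2 : 0 ≤ cos ψ := Real.cos_nonneg_of_mem_Icc hψ
  nlinarith

theorem mu_L_le (p : Poly) : mu ((Lr 0 p) ^ 2) + mu ((Lr 1 p) ^ 2) ≤ en p := by
  unfold en gr
  rw [Fin.sum_univ_three]
  have h : 0 ≤ mu (Lr 2 p * Lr 2 p) := by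
    refine mu_nonneg fun x _ => ?_
    rw [ev_mul]
    exact mul_self_nonneg _
  have e0 : (Lr 0 p) ^ 2 = Lr 0 p * Lr 0 p := sq _
  have e1 : (Lr 1 p) ^ 2 = Lr 1 p * Lr 1 p := sq _
  rw [e0, e1]
  linarith

theorem Ik_le (t k : ℕ) : ∀ p : Poly, p.totalDegree ≤ t → Ik k p ≤ (lam t) ^ k * mu (p ^ 2) := by
  induction k with
  | zero =>
    intro p _
    rw [Ik_zero, pow_zero, one_mul]
  | succ k ih =>
    intro p hp
    have h0 := ih (Lr 0 p) ((Lr_deg 0 p).trans hp)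
    have h1 := ih (Lr 1 p) ((Lr_deg 1 p).trans hp)
    have h2 := Ik_succ_le k p
    have h3 := mu_L_le p
    have h4 := bern t p hp
    have h5 : 0 ≤ (lam t) ^ k := pow_nonneg (lam_nonneg t) k
    calc Ik (k + 1) p ≤ (lam t) ^ k * (mu ((Lr 0 p) ^ 2) + mu ((Lr 1 p) ^ 2)) := by
          rw [mul_add]; linarith
      _ ≤ (lam t) ^ k * (lam t * mu (p ^ 2)) :=
          mul_le_mul_of_nonneg_left (h3.trans h4) h5
      _ = (lam t) ^ (k + 1) * mu (p ^ 2) := by ring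

theorem Nk_int (t k : ℕ) (p : Poly) (hp : p.totalDegree ≤ t) :
    (1 / 2) * (∫ ψ in (-(π / 2))..(π / 2), Nk k p ψ * cos ψ) ≤ (lam t) ^ k * mu (p ^ 2) :=
  Ik_le t k p hp

theorem Nk_int' (t k : ℕ) (hk : 1 ≤ k) (p : Poly) (hp : p.totalDegree ≤ t) :
    (1 / 2) * (∫ ψ in (-(π / 2))..(π / 2), Nk k p ψ * cos ψ) ≤ (lam t) ^ (k - 1) * en p := by
  obtain ⟨j, rfl⟩ : ∃ j, k = j + 1 := ⟨k - 1, by omega⟩
  have h0 := Ik_le t j (Lr 0 p) ((Lr_deg 0 p).trans hp)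
  have h1 := Ik_le t j (Lr 1 p) ((Lr_deg 1 p).trans hp)
  have h2 := Ik_succ_le j p
  have h3 := mu_L_le p
  have h5 : 0 ≤ (lam t) ^ j := pow_nonneg (lam_nonneg t) j
  calc Ik (j + 1) p ≤ (lam t) ^ j * (mu ((Lr 0 p) ^ 2) + mu ((Lr 1 p) ^ 2)) := by
        rw [mul_add]; linarith
    _ ≤ (lam t) ^ j * en p := mul_le_mul_of_nonneg_left h3 h5
    _ = (lam t) ^ (j + 1 - 1) * en p := by rw [Nat.add_sub_cancel]

/-- Cauchy-Schwarz for continuous functions on an interval -/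
theorem cs_int {f g : ℝ → ℝ} (hf : Continuous f) (hg : Continuous g) {a b : ℝ} (hab : a ≤ b) :
    |∫ x in a..b, f x * g x| ≤ √((∫ x in a..b, (f x) ^ 2) * ∫ x in a..b, (g x) ^ 2) := by
  set A := ∫ x in a..b, (f x) ^ 2 with hA
  set B := ∫ x in a..b, (g x) ^ 2 with hB
  set C := ∫ x in a..b, f x * g x with hC
  have hf2 : IntervalIntegrable (fun x => (f x) ^ 2) volume a b :=
    (hf.pow 2).intervalIntegrable _ _
  have hg2 : IntervalIntegrable (fun x => (g x) ^ 2) volume a b :=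
    (hg.pow 2).intervalIntegrable _ _
  have hfg : IntervalIntegrable (fun x => f x * g x) volume a b :=
    (hf.mul hg).intervalIntegrable _ _
  have key : ∀ s r : ℝ, 0 ≤ s ^ 2 * A + 2 * s * r * C + r ^ 2 * B := by
    intro s r
    have h1 : ∫ x in a..b, (s * f x + r * g x) ^ 2 = s ^ 2 * A + 2 * s * r * C + r ^ 2 * B := by
      rw [hA, hB, hC, ← intervalIntegral.integral_const_mul, ← intervalIntegral.integral_const_mul,
        ← intervalIntegral.integral_const_mul, ← intervalIntegral.integral_add (hf2.const_mul _)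
        (hfg.const_mul _), ← intervalIntegral.integral_add
        ((hf2.const_mul _).add (hfg.const_mul _)) (hg2.const_mul _)]
      refine intervalIntegral.integral_congr fun x _ => ?_
      ring
    rw [← h1]
    exact intervalIntegral.integral_nonneg hab fun x _ => sq_nonneg _
  have hA0 : 0 ≤ A := by have := key 1 0; simpa using this
  have hB0 : 0 ≤ B := by have := key 0 1; simpa using this
  apply Real.abs_le_sqrt
  have h1 := key B (-C)
  rcases eq_or_lt_of_le hB0 with h0 | h0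
  · rw [← h0] at h1 ⊢
    have h2 := key 1 (-C)
    have h3 := key C (-(A + 1))
    rw [← h0] at h3
    nlinarith
  · nlinarith

/-- smoothness of `Nk` with the derivative bound `|Nk'| ≤ 2 √(N_k N_{k+1})` -/
theorem Nk_deriv (k : ℕ) (p : Poly) (ψ : ℝ) : ∃ d : ℝ, HasDerivAt (Nk k p) d ψ ∧
    |d| ≤ 2 * √(Nk k p ψ * Nk (k + 1) p ψ) := by
  have hpi := Real.pi_pos
  have hder : HasDerivAt (fun ψ => ∫ φ in (0 : ℝ)..(2 * π), (Dk k p ψ φ) ^ 2)
      (∫ φ in (0 : ℝ)..(2 * π), 2 * Dk k p ψ φ * Dk (k + 1) p ψ φ) ψ :=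
    param_deriv (Dk_continuous k p) (Dk_continuous (k + 1) p) (Dk_hasDeriv' k p) ψ (by positivity)
  refine ⟨_, hder.const_mul (1 / (2 * π)), ?_⟩
  have hD : ∀ (j : ℕ), Continuous fun φ => Dk j p ψ φ := fun j =>
    cont_right (Dk_continuous j p) ψ
  have hcs := cs_int (hD k) (hD (k + 1)) (a := 0) (b := 2 * π) (by positivity)
  have e1 : ∫ φ in (0 : ℝ)..(2 * π), 2 * Dk k p ψ φ * Dk (k + 1) p ψ φ =
      2 * ∫ φ in (0 : ℝ)..(2 * π), Dk k p ψ φ * Dk (k + 1) p ψ φ := by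
    rw [← intervalIntegral.integral_const_mul]
    refine intervalIntegral.integral_congr fun x _ => ?_
    ring
  rw [e1, Nk_eq, Nk_eq, abs_mul, abs_mul, abs_of_nonneg (by positivity : (0 : ℝ) ≤ 1 / (2 * π)),
    abs_of_nonneg (by norm_num : (0 : ℝ) ≤ 2)]
  have e2 : 1 / (2 * π) * (∫ φ in (0 : ℝ)..(2 * π), (Dk k p ψ φ) ^ 2) *
      (1 / (2 * π) * ∫ φ in (0 : ℝ)..(2 * π), (Dk (k + 1) p ψ φ) ^ 2) =
      (1 / (2 * π)) ^ 2 * ((∫ φ in (0 : ℝ)..(2 * π), (Dk k p ψ φ) ^ 2) *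
        ∫ φ in (0 : ℝ)..(2 * π), (Dk (k + 1) p ψ φ) ^ 2) := by ring
  rw [e2, Real.sqrt_mul (by positivity), Real.sqrt_sq (by positivity)]
  have h6 : (0 : ℝ) ≤ 1 / (2 * π) := by positivity
  calc 1 / (2 * π) * (2 * |∫ φ in (0 : ℝ)..(2 * π), Dk k p ψ φ * Dk (k + 1) p ψ φ|)
      ≤ 1 / (2 * π) * (2 * √((∫ φ in (0 : ℝ)..(2 * π), (Dk k p ψ φ) ^ 2) *
        ∫ φ in (0 : ℝ)..(2 * π), (Dk (k + 1) p ψ φ) ^ 2)) := by
        refine mul_le_mul_of_nonneg_left ?_ h6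
        linarith
    _ = 2 * (1 / (2 * π) * √((∫ φ in (0 : ℝ)..(2 * π), (Dk k p ψ φ) ^ 2) *
        ∫ φ in (0 : ℝ)..(2 * π), (Dk (k + 1) p ψ φ) ^ 2)) := by ring

end Pool.Agent.Helper83.SD
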