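import Pool.Agent.Helper83.SD.Pars

/-!
Project SD, module Ring: means over `n` equally spaced points of a circle.

`(1/n) Σ_i exp(i m 2π i/n)` is 1 if `n ∣ m` and 0 otherwise; expand `ev p` and `(ev p)^2 =
(ev p) * conj (ev p)` in modes and take real parts.
-/

set_option autoImplicit false

open MeasureTheory Real

namespace Pool.Agent.Helper83.SD

variable {t : ℕ} {p : Poly} {u v : ℤ → Polynomial ℝ}

namespace RingAux

open Pars

/-- mean of a character over equally spaced points -/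
lemma mean_exp {n : ℕ} (hn : 1 ≤ n) (k : ℤ) :
    (1 / (n : ℂ)) * ∑ i ∈ Finset.range n,
      Complex.exp (Complex.I * (k : ℂ) * ((2 * π * (i : ℝ) / (n : ℝ) : ℝ) : ℂ)) =
      if (n : ℤ) ∣ k then 1 else 0 := by
  have hn0 : (n : ℂ) ≠ 0 := Nat.cast_ne_zero.mpr (by omega)
  set ω : ℂ := Complex.exp (Complex.I * (k : ℂ) * ((2 * π / (n : ℝ) : ℝ) : ℂ)) with hω
  have h1 : ∀ i ∈ Finset.range n,
      Complex.exp (Complex.I * (k : ℂ) * ((2 * π * (i : ℝ) / (n : ℝ) : ℝ) : ℂ)) = ω ^ i := by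
    intro i _
    rw [hω, ← Complex.exp_nat_mul]
    congr 1
    push_cast
    ring
  rw [Finset.sum_congr rfl h1]
  split_ifs with h
  · obtain ⟨j, hj⟩ := h
    have h2 : ω = 1 := by
      rw [hω, Complex.exp_eq_one_iff]
      refine ⟨j, ?_⟩
      rw [hj]
      push_cast
      field_simp
    rw [h2]
    simp [hn0]
  · have h2 : ω ≠ 1 := by
      intro h3
      rw [hω, Complex.exp_eq_one_iff] at h3
      obtain ⟨j, hj⟩ := h3
      apply h
      refine ⟨j, ?_⟩
      have hpi : (π : ℂ) ≠ 0 := Complex.ofReal_ne_zero.mpr Real.pi_ne_zero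
      have hI := Complex.I_ne_zero
      have h4 : (k : ℂ) = (n : ℂ) * (j : ℂ) := by
        push_cast at hj
        field_simp at hj
        exact hj
      exact_mod_cast h4
    have h3 : ω ^ n = 1 := by
      rw [hω, ← Complex.exp_nat_mul, Complex.exp_eq_one_iff]
      refine ⟨k, ?_⟩
      push_cast
      field_simp
    rw [geom_sum_eq h2, h3]
    simp

lemma ofReal_rmean (n : ℕ) (z : ℝ) (F : E3 → ℝ) : ((rmean n z F : ℝ) : ℂ) =
    (1 / (n : ℂ)) * ∑ i ∈ Finset.range n, ((F (sp z (2 * π * (i : ℝ) / (n : ℝ))) : ℝ) : ℂ) := by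
  unfold rmean
  push_cast
  rfl

lemma rmean_lin (h : Modes t p u v) {n : ℕ} (hn : 1 ≤ n) {z : ℝ} (hz : z ^ 2 ≤ 1) :
    ((rmean n z (ev p) : ℝ) : ℂ) =
      ∑ m ∈ (Finset.Icc (-(t : ℤ)) t).filter (fun m => (n : ℤ) ∣ m), cf u v z m := by
  rw [ofReal_rmean]
  simp only [ev_eq h hz]
  rw [Finset.sum_comm, Finset.mul_sum, Finset.sum_filter]
  refine Finset.sum_congr rfl fun m _ => ?_
  rw [← Finset.mul_sum, mul_left_comm, mean_exp hn m]
  split_ifs <;> simp

lemma rmean_sq (h : Modes t p u v) {n : ℕ} (hn : 1 ≤ n) {z : ℝ} (hz : z ^ 2 ≤ 1) :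
    ((rmean n z (fun x => (ev p x) ^ 2) : ℝ) : ℂ) =
      ∑ m ∈ Finset.Icc (-(t : ℤ)) t,
        ∑ m' ∈ (Finset.Icc (-(t : ℤ)) t).filter (fun m' => (n : ℤ) ∣ m - m'),
          cf u v z m * (starRingEnd ℂ) (cf u v z m') := by
  rw [ofReal_rmean]
  simp only [sq_eq h hz]
  rw [Finset.sum_comm, Finset.mul_sum]
  refine Finset.sum_congr rfl fun m _ => ?_
  rw [Finset.sum_comm, Finset.mul_sum, Finset.sum_filter]
  refine Finset.sum_congr rfl fun m' _ => ?_
  rw [← Finset.mul_sum, mul_left_comm, mean_exp hn (m - m')]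
  split_ifs <;> simp

lemma cf_abs {z : ℝ} (hz : z ^ 2 ≤ 1) (m : ℤ) : ‖cf u v z m‖ = Fm u v m z := by
  have h1 := cf_norm (u := u) (v := v) hz m
  rw [Complex.mul_conj, Complex.normSq_eq_norm_sq] at h1
  have h2 : ‖cf u v z m‖ ^ 2 =
      (1 - z ^ 2) ^ m.natAbs * (((u m).eval z) ^ 2 + ((v m).eval z) ^ 2) := by
    exact_mod_cast h1
  rw [Fm, ← h2, Real.sqrt_sq (norm_nonneg _)]

lemma cf_re (z : ℝ) (m : ℤ) : (cf u v z m).re = √(1 - z ^ 2) ^ m.natAbs * (u m).eval z := by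
  unfold cf
  rw [Complex.re_ofReal_mul]
  simp

end RingAux

open RingAux Pars

theorem ring_lin (h : Modes t p u v) {n : ℕ} (hn : 1 ≤ n) {z : ℝ} (hz : z ^ 2 ≤ 1) :
    |rmean n z (ev p) - (u 0).eval z| ≤ hsum t n u z := by
  have h1 := congrArg Complex.re (rmean_lin h hn hz)
  rw [Complex.ofReal_re, Complex.re_sum] at h1
  simp only [cf_re] at h1
  have h0 : (0 : ℤ) ∈ (Finset.Icc (-(t : ℤ)) t).filter (fun m => (n : ℤ) ∣ m) := by
    simp
  rw [← Finset.add_sum_erase _ _ h0] at h1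
  have h2 : rmean n z (ev p) - (u 0).eval z =
      ∑ m ∈ ((Finset.Icc (-(t : ℤ)) t).filter (fun m => (n : ℤ) ∣ m)).erase 0,
        √(1 - z ^ 2) ^ m.natAbs * (u m).eval z := by
    rw [h1]
    simp
  rw [h2]
  refine (Finset.abs_sum_le_sum_abs _ _).trans (le_of_eq ?_)
  unfold hsum
  refine Finset.sum_congr ?_ fun m _ => ?_
  · ext m
    simp only [Finset.mem_erase, Finset.mem_filter]
    tauto
  · rw [abs_mul, abs_of_nonneg (by positivity)]

theorem ring_sq (h : Modes t p u v) {n : ℕ} (hn : 1 ≤ n) {z : ℝ} (hz : z ^ 2 ≤ 1) :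
    |rmean n z (fun x => (ev p x) ^ 2) - (modeA t u v).eval z| ≤ cross t n u v z := by
  have h1 := rmean_sq h hn hz
  have h2 : (((modeA t u v).eval z : ℝ) : ℂ) = ∑ m ∈ Finset.Icc (-(t : ℤ)) t,
      cf u v z m * (starRingEnd ℂ) (cf u v z m) := by
    rw [modeA_eval]
    push_cast
    refine Finset.sum_congr rfl fun m _ => ?_
    rw [cf_norm hz]
    push_cast
    rfl
  have h3 : ((rmean n z (fun x => (ev p x) ^ 2) - (modeA t u v).eval z : ℝ) : ℂ) =
      ∑ m ∈ Finset.Icc (-(t : ℤ)) t,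
        ∑ m' ∈ (Finset.Icc (-(t : ℤ)) t).filter (fun m' => m' ≠ m ∧ (n : ℤ) ∣ m - m'),
          cf u v z m * (starRingEnd ℂ) (cf u v z m') := by
    rw [Complex.ofReal_sub, h1, h2, ← Finset.sum_sub_distrib]
    refine Finset.sum_congr rfl fun m hm => ?_
    have h0 : m ∈ (Finset.Icc (-(t : ℤ)) t).filter (fun m' => (n : ℤ) ∣ m - m') := by
      simp only [Finset.mem_filter, sub_self, dvd_zero, and_true]
      exact hm
    rw [← Finset.add_sum_erase _ _ h0, add_sub_cancel_left]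
    refine Finset.sum_congr ?_ fun _ _ => rfl
    ext m'
    simp only [Finset.mem_erase, Finset.mem_filter]
    tauto
  have h4 : |rmean n z (fun x => (ev p x) ^ 2) - (modeA t u v).eval z| =
      ‖((rmean n z (fun x => (ev p x) ^ 2) - (modeA t u v).eval z : ℝ) : ℂ)‖ := by
    rw [Complex.norm_real, Real.norm_eq_abs]
  rw [h4, h3]
  unfold cross
  refine (norm_sum_le _ _).trans (Finset.sum_le_sum fun m _ => ?_)
  refine (norm_sum_le _ _).trans (Finset.sum_le_sum fun m' _ => ?_)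
  rw [norm_mul, RCLike.norm_conj, cf_abs hz, cf_abs hz]

theorem cross_zero {n : ℕ} (hn : 2 * t < n) (z : ℝ) : cross t n u v z = 0 := by
  unfold cross
  refine Finset.sum_eq_zero fun m hm => ?_
  rw [Finset.filter_false_of_mem, Finset.sum_empty]
  rintro m' hm' ⟨h1, h2⟩
  rw [Finset.mem_Icc] at hm hm'
  have h3 : m - m' ≠ 0 := sub_ne_zero.mpr (Ne.symm h1)
  have h4 := Int.le_of_dvd (by positivity : (0 : ℤ) < |m - m'|) ((dvd_abs _ _).mpr h2)
  have h5 : |m - m'| ≤ 2 * t := abs_le.mpr ⟨by omega, by omega⟩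
  omega

theorem hsum_zero {n : ℕ} (hn : t < n) (z : ℝ) : hsum t n u z = 0 := by
  unfold hsum
  rw [Finset.filter_false_of_mem, Finset.sum_empty]
  rintro m hm ⟨h1, h2⟩
  rw [Finset.mem_Icc] at hm
  have h4 := Int.le_of_dvd (by positivity : (0 : ℤ) < |m|) ((dvd_abs _ _).mpr h2)
  have h5 : |m| ≤ t := abs_le.mpr ⟨by omega, by omega⟩
  omega

theorem pole_val (h : Modes t p u v) : ev p (sp 1 0) = (u 0).eval 1 ∧
    ev p (sp (-1) 0) = (u 0).eval (-1) := by
  have key : ∀ z : ℝ, z ^ 2 = 1 → ev p (sp z 0) = (u 0).eval z := by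
    intro z hz
    have h1 := congrArg Complex.re (ev_eq h hz.le 0)
    rw [Complex.ofReal_re, Complex.re_sum, Finset.sum_eq_single (0 : ℤ)] at h1
    · rw [h1]
      simp [cf_re]
    · intro m _ hm
      have h2 : cf u v z m = 0 := by
        unfold cf
        rw [hz, sub_self, Real.sqrt_zero, zero_pow (by omega)]
        simp
      rw [h2]
      simp
    · intro h3
      exact absurd (Finset.mem_Icc.mpr ⟨by simp, by simp⟩) h3
  exact ⟨key 1 (by norm_num), key (-1) (by norm_num)⟩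

theorem modeA_pole (h : Modes t p u v) : (modeA t u v).eval 1 = ((u 0).eval 1) ^ 2 ∧
    (modeA t u v).eval (-1) = ((u 0).eval (-1)) ^ 2 := by
  have key : ∀ z : ℝ, z ^ 2 = 1 → (modeA t u v).eval z = ((u 0).eval z) ^ 2 := by
    intro z hz
    rw [modeA_eval, Finset.sum_eq_single (0 : ℤ)]
    · rw [h.v0]
      simp
    · intro m _ hm
      rw [hz, sub_self, zero_pow (by omega), zero_mul]
    · intro h3
      exact absurd (Finset.mem_Icc.mpr ⟨by simp, by simp⟩) h3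
  exact ⟨key 1 (by norm_num), key (-1) (by norm_num)⟩

namespace RingAux

/-- the two configuration means differ by the differences on the rings -/
lemma SJ_sub {J : ℕ} {F : E3 → ℝ} {B : ℝ → ℝ} {e : ℕ → ℝ → ℝ}
    (h1 : F (sp 1 0) = B 1) (h2 : F (sp (-1) 0) = B (-1))
    (h3 : ∀ j, 1 ≤ j → j ≤ J → ∀ z : ℝ, z ^ 2 ≤ 1 → |rmean (6 * j) z F - B z| ≤ e (6 * j) z)
    (hJ : 1 ≤ J) (h4 : e (6 * J) 0 = 0) :
    |SJ J F - SZ J B| ≤ ∑ j ∈ Finset.Ico 1 J, 6 * (j : ℝ) / (6 * (J : ℝ) ^ 2 + 2) *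
        (e (6 * j) (zr J j) + e (6 * j) (-(zr J j))) := by
  have hN : 0 < 6 * (J : ℝ) ^ 2 + 2 := by positivity
  have h5 : rmean (6 * J) 0 F = B 0 := by
    have := h3 J hJ le_rfl 0 (by norm_num)
    rw [h4] at this
    have := abs_nonpos_iff.mp this
    linarith
  have h6 : SJ J F - SZ J B = (∑ j ∈ Finset.Ico 1 J, 6 * (j : ℝ) *
      ((rmean (6 * j) (zr J j) F - B (zr J j)) +
        (rmean (6 * j) (-(zr J j)) F - B (-(zr J j))))) / (6 * (J : ℝ) ^ 2 + 2) := by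
    have h7 : ∑ j ∈ Finset.Ico 1 J, 6 * (j : ℝ) *
      ((rmean (6 * j) (zr J j) F - B (zr J j)) +
        (rmean (6 * j) (-(zr J j)) F - B (-(zr J j)))) =
        ∑ j ∈ Finset.Ico 1 J, 6 * (j : ℝ) * (rmean (6 * j) (zr J j) F +
          rmean (6 * j) (-(zr J j)) F) -
        ∑ j ∈ Finset.Ico 1 J, 6 * (j : ℝ) * (B (zr J j) + B (-(zr J j))) := by
      rw [← Finset.sum_sub_distrib]
      refine Finset.sum_congr rfl fun j _ => ?_
      ring
    rw [h7]
    unfold SJ SZ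
    rw [h1, h2, h5]
    ring
  rw [h6, abs_div, abs_of_pos hN, div_le_iff₀ hN, Finset.sum_mul]
  refine (Finset.abs_sum_le_sum_abs _ _).trans (Finset.sum_le_sum fun j hj => ?_)
  have hj' := Finset.mem_Ico.mp hj
  have hz := zr_sq_le (J := J) (j := j) (by omega)
  have h8 := h3 j hj'.1 (by omega) _ hz
  have h9 := h3 j hj'.1 (by omega) (-(zr J j)) (by rwa [neg_sq])
  have h10 : 6 * (j : ℝ) / (6 * (J : ℝ) ^ 2 + 2) *
        (e (6 * j) (zr J j) + e (6 * j) (-(zr J j))) * (6 * (J : ℝ) ^ 2 + 2) =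
      6 * (j : ℝ) * (e (6 * j) (zr J j) + e (6 * j) (-(zr J j))) := by
    field_simp
  rw [h10, abs_mul, abs_of_nonneg (by positivity : (0 : ℝ) ≤ 6 * (j : ℝ))]
  refine mul_le_mul_of_nonneg_left ?_ (by positivity)
  exact (abs_add_le _ _).trans (add_le_add h8 h9)

end RingAux

/-- assembled: the configuration mean of a square -/
theorem SJ_sq (h : Modes t p u v) {J : ℕ} (hJ : 1 ≤ J) (hJt : 2 * t < 6 * J) :
    |SJ J (fun x => (ev p x) ^ 2) - SZ J (fun z => (modeA t u v).eval z)| ≤ AL t J u v := by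
  have h1 := pole_val h
  have h2 := modeA_pole h
  refine SJ_sub (e := fun n z => cross t n u v z) ?_ ?_ ?_ hJ (cross_zero hJt 0)
  · rw [h1.1, h2.1]
  · rw [h1.2, h2.2]
  · intro j hj _ z hz
    exact ring_sq h (by omega) hz

/-- assembled: the configuration mean -/
theorem SJ_lin (h : Modes t p u v) {J : ℕ} (hJ : 1 ≤ J) (hJt : 2 * t < 6 * J) :
    |SJ J (ev p) - SZ J (fun z => (u 0).eval z)| ≤
      ∑ j ∈ Finset.Ico 1 J, 6 * (j : ℝ) / (6 * (J : ℝ) ^ 2 + 2) *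
        (hsum t (6 * j) u (zr J j) + hsum t (6 * j) u (-(zr J j))) := by
  have h1 := pole_val h
  refine SJ_sub (e := fun n z => hsum t n u z) h1.1 h1.2 ?_ hJ (hsum_zero (by omega) 0)
  intro j hj _ z hz
  exact ring_lin h (by omega) hz

end Pool.Agent.Helper83.SD
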