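import Pool.Agent.Helper83.SD.Basic

/-!
Project SD, module Wt: the weight `wt y = 1/(exp(2 pi y) - 1)`.

`y * wt y ≤ (1 + 2 pi y)/(2 pi) * exp(-2 pi y)` is `x e^x ≤ (1+x)(e^x - 1)`, i.e. `1 + x ≤ e^x`.
Moments: `wt y = Σ_{n ≥ 1} exp(-2 pi n y)` for `y > 0`, and
`∫_0^∞ y^k exp(-2 pi n y) dy = k! / (2 pi n)^(k+1)`; the sums `Σ 1/n^(k+1)` for even `k+1` are in
Mathlib (`hasSum_zeta_nat`).  `moment_bern` is stated with `bernoulli`.
-/

set_option autoImplicit false

open MeasureTheory Real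

namespace Pool.Agent.Helper83.SD

theorem wt_pos {y : ℝ} (hy : 0 < y) : 0 < wt y := by
  unfold wt
  have h : 1 < Real.exp (2 * π * y) := Real.one_lt_exp_iff.mpr (by positivity)
  exact div_pos one_pos (by linarith)

theorem y_wt_le {y : ℝ} (hy : 0 < y) :
    y * wt y ≤ (1 + 2 * π * y) / (2 * π) * Real.exp (-(2 * π * y)) := by
  unfold wt
  have hx : 0 < 2 * π * y := by positivity
  have h : 1 < Real.exp (2 * π * y) := Real.one_lt_exp_iff.mpr hx
  have h2 := Real.add_one_le_exp (2 * π * y)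
  rw [Real.exp_neg]
  set E := Real.exp (2 * π * y) with hE
  have hE1 : 0 < E - 1 := by linarith
  have hE0 : 0 < E := by linarith
  have hpi : 0 < π := Real.pi_pos
  rw [mul_one_div, ← div_eq_mul_inv, div_div, div_le_div_iff₀ hE1 (by positivity)]
  have h3 : (1 + 2 * π * y) * (E - 1) - y * (2 * π * E) = E - 1 - 2 * π * y := by ring
  linarith

theorem measurable_wt : Measurable wt := by
  unfold wt
  fun_prop

/-- gamma integrand with natural exponent -/
theorem int_pow_exp (n : ℕ) {b : ℝ} (hb : 0 < b) :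
    IntegrableOn (fun y : ℝ => y ^ n * Real.exp (-(b * y))) (Set.Ioi 0) := by
  have h := integrableOn_rpow_mul_exp_neg_mul_rpow (p := 1) (s := (n : ℝ)) (b := b)
    (by have : (0 : ℝ) ≤ n := Nat.cast_nonneg n; linarith) one_pos hb
  refine h.congr_fun (fun y _ => ?_) measurableSet_Ioi
  simp only [Real.rpow_one, Real.rpow_natCast, neg_mul]

theorem integral_pow_exp (n : ℕ) {b : ℝ} (hb : 0 < b) :
    ∫ y in Set.Ioi (0 : ℝ), y ^ n * Real.exp (-(b * y)) = (n.factorial : ℝ) / b ^ (n + 1) := by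
  have h := Real.integral_rpow_mul_exp_neg_mul_Ioi (a := (n : ℝ) + 1) (r := b)
    (by positivity) hb
  rw [Real.Gamma_nat_eq_factorial] at h
  have h1 : (1 / b) ^ ((n : ℝ) + 1) = 1 / b ^ (n + 1) := by
    have : ((n : ℝ) + 1) = ((n + 1 : ℕ) : ℝ) := by push_cast; ring
    rw [this, Real.rpow_natCast, div_pow, one_pow]
  rw [h1] at h
  have h2 : ∫ y in Set.Ioi (0 : ℝ), y ^ n * Real.exp (-(b * y)) =
      ∫ t : ℝ in Set.Ioi 0, t ^ ((n : ℝ) + 1 - 1) * rexp (-(b * t)) := by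
    refine setIntegral_congr_fun measurableSet_Ioi (fun y _ => ?_)
    simp only [add_sub_cancel_right, Real.rpow_natCast]
  rw [h2, h]
  ring

theorem int_wt (k : ℕ) (hk : 1 ≤ k) {c : ℝ} (hc : c < 2 * π) :
    IntegrableOn (fun y : ℝ => y ^ k * Real.exp (c * y) * wt y) (Set.Ioi 0) := by
  have hb : 0 < 2 * π - c := by linarith
  have h1 := (int_pow_exp (k - 1) hb).const_mul (1 / (2 * π))
  have h2 := int_pow_exp k hb
  refine Integrable.mono' (h1.add h2) ?_ ?_
  · exact (Measurable.mul (by fun_prop) measurable_wt).aestronglyMeasurable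
  · refine (ae_restrict_iff' measurableSet_Ioi).mpr (ae_of_all _ (fun y hy => ?_))
    have hy' : 0 < y := hy
    have hw := wt_pos hy'
    rw [Real.norm_of_nonneg (by positivity)]
    have h3 := y_wt_le hy'
    obtain ⟨m, rfl⟩ : ∃ m, k = m + 1 := ⟨k - 1, by omega⟩
    simp only [Nat.add_sub_cancel, Pi.add_apply]
    have h4 : y ^ (m + 1) * Real.exp (c * y) * wt y =
        y ^ m * Real.exp (c * y) * (y * wt y) := by ring
    have h5 : Real.exp (-((2 * π - c) * y)) = Real.exp (c * y) * Real.exp (-(2 * π * y)) := by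
      rw [← Real.exp_add]; congr 1; ring
    rw [h4, h5]
    have h6 : 0 ≤ y ^ m * Real.exp (c * y) := by positivity
    refine (mul_le_mul_of_nonneg_left h3 h6).trans (le_of_eq ?_)
    have hpi : (π : ℝ) ≠ 0 := Real.pi_ne_zero
    field_simp
    ring

/-- special case `c = 0` -/
theorem int_wt0 (k : ℕ) (hk : 1 ≤ k) :
    IntegrableOn (fun y : ℝ => y ^ k * wt y) (Set.Ioi 0) := by
  have h := int_wt k hk (c := 0) (by positivity)
  refine h.congr_fun (fun y _ => ?_) measurableSet_Ioi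
  simp

/-- geometric expansion of the weight -/
theorem hasSum_wt {y : ℝ} (hy : 0 < y) :
    HasSum (fun n : ℕ => Real.exp (-(2 * π * ((n : ℝ) + 1) * y))) (wt y) := by
  have hx : 0 < 2 * π * y := by positivity
  have hq1 : Real.exp (-(2 * π * y)) < 1 := Real.exp_lt_one_iff.mpr (by linarith)
  have hq0 : 0 < Real.exp (-(2 * π * y)) := Real.exp_pos _
  have h := (hasSum_geometric_of_lt_one hq0.le hq1).mul_left (Real.exp (-(2 * π * y)))
  have h1 : wt y = Real.exp (-(2 * π * y)) * (1 - Real.exp (-(2 * π * y)))⁻¹ := by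
    unfold wt
    have hE : Real.exp (2 * π * y) = (Real.exp (-(2 * π * y)))⁻¹ := by
      rw [Real.exp_neg, inv_inv]
    rw [hE]
    have : (1 : ℝ) - Real.exp (-(2 * π * y)) ≠ 0 := by linarith
    field_simp
  rw [h1]
  refine h.congr_fun ?_
  intro n
  rw [← Real.exp_nat_mul, ← Real.exp_add]
  congr 1
  ring

theorem moment (k : ℕ) (hk : 1 ≤ k) :
    ∫ y in Set.Ioi (0 : ℝ), y ^ k * wt y =
      (k.factorial : ℝ) / (2 * π) ^ (k + 1) * ∑' n : ℕ, 1 / ((n : ℝ) + 1) ^ (k + 1) := by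
  have hpos : ∀ n : ℕ, 0 < 2 * π * ((n : ℝ) + 1) := fun n => by positivity
  have hint : ∀ n : ℕ, ∫ y in Set.Ioi (0 : ℝ), y ^ k * Real.exp (-(2 * π * ((n : ℝ) + 1) * y)) =
      (k.factorial : ℝ) / (2 * π) ^ (k + 1) * (1 / ((n : ℝ) + 1) ^ (k + 1)) := by
    intro n
    rw [integral_pow_exp k (hpos n), mul_pow, div_mul_div_comm, mul_one]
  have hsum : Summable (fun n : ℕ => (k.factorial : ℝ) / (2 * π) ^ (k + 1) *
      (1 / ((n : ℝ) + 1) ^ (k + 1))) := by
    refine Summable.mul_left _ ?_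
    have h := (summable_nat_add_iff 1).mpr
      (Real.summable_one_div_nat_pow.mpr (show 1 < k + 1 by omega))
    refine h.congr (fun n => ?_)
    push_cast
    rfl
  have h := integral_tsum_of_summable_integral_norm
    (μ := volume.restrict (Set.Ioi (0 : ℝ)))
    (F := fun (n : ℕ) (y : ℝ) => y ^ k * Real.exp (-(2 * π * ((n : ℝ) + 1) * y)))
    (fun n => int_pow_exp k (hpos n))
    (by
      refine hsum.congr (fun n => ?_)
      rw [← hint n]
      refine setIntegral_congr_fun measurableSet_Ioi (fun y hy => ?_)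
      have hy' : 0 < y := hy
      rw [Real.norm_of_nonneg (by positivity)])
  simp only [hint] at h
  rw [tsum_mul_left] at h
  rw [h]
  refine setIntegral_congr_fun measurableSet_Ioi (fun y hy => ?_)
  have hy' : 0 < y := hy
  rw [tsum_mul_left, (hasSum_wt hy').tsum_eq]

theorem moment_bern (r : ℕ) (hr : 1 ≤ r) :
    ∫ y in Set.Ioi (0 : ℝ), y ^ (2 * r - 1) * wt y =
      (-1) ^ (r + 1) * (bernoulli (2 * r) : ℝ) / (4 * (r : ℝ)) := by
  rw [moment (2 * r - 1) (by omega)]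
  have h0 := hasSum_zeta_nat (k := r) (by omega)
  have h1 := h0.tsum_eq
  rw [h0.summable.tsum_eq_zero_add] at h1
  have h2 : (0 : ℝ) ^ (2 * r) = 0 := zero_pow (by omega)
  simp only [Nat.cast_zero, h2, div_zero, zero_add] at h1
  have h3 : 2 * r - 1 + 1 = 2 * r := by omega
  rw [h3]
  have h4 : ∑' n : ℕ, 1 / ((n : ℝ) + 1) ^ (2 * r) = ∑' n : ℕ, 1 / (((n + 1 : ℕ) : ℝ)) ^ (2 * r) := by
    refine tsum_congr (fun n => ?_)
    push_cast
    rfl
  rw [h4, h1]
  have h5 : (2 * r).factorial = 2 * r * (2 * r - 1).factorial := by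
    obtain ⟨m, rfl⟩ : ∃ m, r = m + 1 := ⟨r - 1, by omega⟩
    rw [show 2 * (m + 1) = (2 * m + 1) + 1 by ring, Nat.factorial_succ]
    simp
  rw [h5]
  have h6 : (2 * π) ^ (2 * r) = 2 * 2 ^ (2 * r - 1) * π ^ (2 * r) := by
    rw [mul_pow]
    congr 1
    rw [← pow_succ', h3]
  rw [h6]
  have hpi : (π : ℝ) ≠ 0 := Real.pi_ne_zero
  have hf : (((2 * r - 1).factorial : ℕ) : ℝ) ≠ 0 := by positivity
  have hr0 : (r : ℝ) ≠ 0 := by positivity
  push_cast
  field_simp
  ring

theorem moment_one : ∫ y in Set.Ioi (0 : ℝ), y * wt y = 1 / 24 := by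
  have h := moment_bern 1 le_rfl
  simp only [mul_one, show 2 - 1 = 1 from rfl, pow_one] at h
  rw [h, bernoulli_eq_bernoulli'_of_ne_one (by decide : 2 ≠ 1), bernoulli'_two]
  norm_num

theorem moment_three : ∫ y in Set.Ioi (0 : ℝ), y ^ 3 * wt y = 1 / 240 := by
  have h := moment_bern 2 (by norm_num)
  simp only [show 2 * 2 - 1 = 3 from rfl, show 2 * 2 = 4 from rfl] at h
  rw [h, bernoulli_eq_bernoulli'_of_ne_one (by decide : 4 ≠ 1), bernoulli'_four]
  norm_num

theorem bern_six : bernoulli' 6 = 1 / 42 := by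
  have h1 : bernoulli' 5 = 0 := bernoulli'_eq_zero_of_odd (by decide) (by norm_num)
  rw [bernoulli'_def]
  have c2 : Nat.choose 6 2 = 15 := by decide
  have c3 : Nat.choose 6 3 = 20 := by decide
  have c4 : Nat.choose 6 4 = 15 := by decide
  norm_num [Finset.sum_range_succ, Finset.sum_range_zero, h1, c2, c3, c4]

theorem bern_eight : bernoulli' 8 = -1 / 30 := by
  have h1 : bernoulli' 5 = 0 := bernoulli'_eq_zero_of_odd (by decide) (by norm_num)
  have h2 : bernoulli' 7 = 0 := bernoulli'_eq_zero_of_odd (by decide) (by norm_num)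
  rw [bernoulli'_def]
  have c2 : Nat.choose 8 2 = 28 := by decide
  have c3 : Nat.choose 8 3 = 56 := by decide
  have c4 : Nat.choose 8 4 = 70 := by decide
  have c6 : Nat.choose 8 6 = 28 := by decide
  norm_num [Finset.sum_range_succ, Finset.sum_range_zero, h1, h2, c2, c3, c4, c6, bern_six]

theorem moment_five : ∫ y in Set.Ioi (0 : ℝ), y ^ 5 * wt y = 1 / 504 := by
  have h := moment_bern 3 (by norm_num)
  simp only [show 2 * 3 - 1 = 5 from rfl, show 2 * 3 = 6 from rfl] at h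
  rw [h, bernoulli_eq_bernoulli'_of_ne_one (by decide : 6 ≠ 1), bern_six]
  norm_num

theorem zeta_eight_le : ∑' n : ℕ, 1 / ((n : ℝ) + 1) ^ 8 ≤ 1.01 := by
  have h0 := hasSum_zeta_nat (k := 4) (by norm_num)
  have h1 := h0.tsum_eq
  rw [h0.summable.tsum_eq_zero_add] at h1
  simp only [show 2 * 4 = 8 from rfl, Nat.cast_zero] at h1
  rw [bernoulli_eq_bernoulli'_of_ne_one (by decide : 8 ≠ 1), bern_eight] at h1
  have h4 : ∑' n : ℕ, 1 / ((n : ℝ) + 1) ^ 8 = ∑' n : ℕ, 1 / (((n + 1 : ℕ) : ℝ)) ^ 8 := by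
    refine tsum_congr (fun n => ?_)
    push_cast
    rfl
  rw [h4]
  have h5 : ∑' n : ℕ, 1 / (((n + 1 : ℕ) : ℝ)) ^ 8 = π ^ 8 / 9450 := by
    norm_num [Nat.factorial] at h1
    norm_num
    rw [h1]
    ring
  rw [h5]
  have h6 : π < 3.1416 := Real.pi_lt_d4
  have h7 : π ^ 8 ≤ 3.1416 ^ 8 := pow_le_pow_left₀ Real.pi_pos.le h6.le 8
  have h8 : (3.1416 : ℝ) ^ 8 ≤ 1.01 * 9450 := by norm_num
  rw [div_le_iff₀ (by norm_num)]
  linarith

theorem moment_le (k : ℕ) (hk : 7 ≤ k) :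
    ∫ y in Set.Ioi (0 : ℝ), y ^ k * wt y ≤ 1.01 * (k.factorial : ℝ) / (2 * π) ^ (k + 1) := by
  rw [moment k (by omega)]
  have hs : ∀ m : ℕ, 2 ≤ m → Summable (fun n : ℕ => 1 / ((n : ℝ) + 1) ^ m) := by
    intro m hm
    have h := (summable_nat_add_iff 1).mpr (Real.summable_one_div_nat_pow.mpr
      (show 1 < m by omega))
    refine h.congr (fun n => ?_)
    push_cast
    rfl
  have h1 : ∑' n : ℕ, 1 / ((n : ℝ) + 1) ^ (k + 1) ≤ ∑' n : ℕ, 1 / ((n : ℝ) + 1) ^ 8 := by
    refine (hs (k + 1) (by omega)).tsum_le_tsum (fun n => ?_) (hs 8 (by norm_num))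
    refine one_div_le_one_div_of_le (by positivity) ?_
    exact pow_le_pow_right₀ (by have : (0 : ℝ) ≤ n := Nat.cast_nonneg n; linarith) (by omega)
  have h2 := h1.trans zeta_eight_le
  have h3 : 0 ≤ (k.factorial : ℝ) / (2 * π) ^ (k + 1) := by positivity
  refine (mul_le_mul_of_nonneg_left h2 h3).trans (le_of_eq ?_)
  ring

end Pool.Agent.Helper83.SD
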