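import Pool.Agent.Helper83.SD.EM

/-!
Project SD, module Zonal: the exact error formula of the zonal sum.

With `L = L2 J`, `f(v) = v * C(1 - (v^2 + 1/6)/L)` for `C = B` and `C = refl B`:
`em` gives `Σ_{0<j<J} f(j) + f(J)/2 = ∫_0^J f + Lam J f - Lam 0 f`; substitute `z = 1 - (v^2+1/6)/L`
in the integral: `∫_0^J f = (L/2) ∫_{1/(6L)}^{1 - 1/(6L)} C`;
`Lam 0 f = 2 ∫ y C(1 + (y^2 - 1/6)/L) wt`, and `1 - ((J + i y)^2 + 1/6)/L = zeta J y`
(use `L - J^2 = 1/3`), `N = 6 J^2 + 2 = 6 L`.  The identity is exact for every polynomial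
(checked with exact rational arithmetic).
-/

set_option autoImplicit false

open MeasureTheory Real

namespace Pool.Agent.Helper83.SD

namespace Zonal

/-- the polynomial `v * C(1 - (v^2 + 1/6)/L)` -/
noncomputable def zf (L : ℝ) (C : Polynomial ℝ) : Polynomial ℝ :=
  Polynomial.X * C.comp (Polynomial.C (1 - 1 / 6 / L) - Polynomial.C (1 / L) * Polynomial.X ^ 2)

theorem zf_eval (L : ℝ) (C : Polynomial ℝ) (v : ℝ) :
    (zf L C).eval v = v * C.eval (1 - (v ^ 2 + 1 / 6) / L) := by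
  have h : 1 - 1 / 6 / L - 1 / L * v ^ 2 = 1 - (v ^ 2 + 1 / 6) / L := by ring
  simp only [zf, Polynomial.eval_mul, Polynomial.eval_X, Polynomial.eval_comp, Polynomial.eval_sub,
    Polynomial.eval_C, Polynomial.eval_pow, h]

theorem zf_aeval (L : ℝ) (C : Polynomial ℝ) (w : ℂ) :
    Polynomial.aeval w (zf L C) = w * Polynomial.aeval (1 - (w ^ 2 + 1 / 6) / (L : ℂ)) C := by
  have h : Polynomial.aeval w (Polynomial.C (1 - 1 / 6 / L) - Polynomial.C (1 / L) *
      Polynomial.X ^ 2 : Polynomial ℝ) = 1 - (w ^ 2 + 1 / 6) / (L : ℂ) := by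
    rw [map_sub, map_mul, map_pow, Polynomial.aeval_C, Polynomial.aeval_C, Polynomial.aeval_X]
    simp only [Complex.coe_algebraMap]
    push_cast
    ring
  rw [zf, map_mul, Polynomial.aeval_X, Polynomial.aeval_comp, h]

theorem zf_add (L : ℝ) (B C : Polynomial ℝ) : zf L (B + C) = zf L B + zf L C := by
  simp [zf, mul_add]

theorem Lam_add (a : ℝ) (f g : Polynomial ℝ) : Lam a (f + g) = Lam a f + Lam a g := by
  unfold Lam
  rw [← mul_add, ← integral_add (lam_integrable a f) (lam_integrable a g)]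
  congr 1
  refine integral_congr_ae (Filter.Eventually.of_forall fun y => ?_)
  simp only [map_add, Complex.add_im]
  ring

theorem cont (C : Polynomial ℝ) : Continuous fun z : ℝ => C.eval z := C.continuous

theorem ii (C : Polynomial ℝ) (a b : ℝ) : IntervalIntegrable (fun z : ℝ => C.eval z) volume a b :=
  (cont C).intervalIntegrable a b

theorem Lam_zero (L : ℝ) (C : Polynomial ℝ) :
    Lam 0 (zf L C) = 2 * ∫ y in Set.Ioi (0 : ℝ), y * C.eval (1 + (y ^ 2 - 1 / 6) / L) * wt y := by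
  unfold Lam
  congr 1
  refine integral_congr_ae (Filter.Eventually.of_forall fun y => ?_)
  simp only
  have h1 : (1 - (((0 : ℝ) : ℂ) + Complex.I * (y : ℂ)) ^ 2 / (L : ℂ) - 1 / 6 / (L : ℂ)) =
      ((1 + (y ^ 2 - 1 / 6) / L : ℝ) : ℂ) := by
    push_cast
    rw [zero_add, mul_pow, Complex.I_sq]
    ring
  have h2 : (1 - ((((0 : ℝ) : ℂ) + Complex.I * (y : ℂ)) ^ 2 + 1 / 6) / (L : ℂ)) =
      ((1 + (y ^ 2 - 1 / 6) / L : ℝ) : ℂ) := by
    rw [← h1]; ring
  rw [zf_aeval, h2]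
  have h3 : Polynomial.aeval ((1 + (y ^ 2 - 1 / 6) / L : ℝ) : ℂ) C =
      ((C.eval (1 + (y ^ 2 - 1 / 6) / L) : ℝ) : ℂ) := by
    rw [← Complex.coe_algebraMap, Polynomial.aeval_algebraMap_apply]
    simp
  rw [h3]
  simp [mul_assoc]

theorem Lam_J (J : ℕ) (C : Polynomial ℝ) :
    Lam (J : ℝ) (zf (L2 J) C) = 2 * ∫ y in Set.Ioi (0 : ℝ),
        (((J : ℂ) + Complex.I * (y : ℂ)) * Polynomial.aeval (zeta J y) C).im * wt y := by
  unfold Lam
  congr 1
  refine integral_congr_ae (Filter.Eventually.of_forall fun y => ?_)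
  simp only
  have hL : (L2 J : ℂ) ≠ 0 := by exact_mod_cast (L2_pos J).ne'
  have h2 : (1 - ((((J : ℝ) : ℂ) + Complex.I * (y : ℂ)) ^ 2 + 1 / 6) / (L2 J : ℂ)) = zeta J y := by
    unfold zeta
    have hLe : (L2 J : ℂ) = (J : ℂ) ^ 2 + 1 / 3 := by unfold L2; push_cast; ring
    push_cast
    field_simp
    rw [hLe]
    ring_nf
    rw [Complex.I_sq]
    ring
  rw [zf_aeval, h2]
  simp

theorem int_zf {L : ℝ} (hL : 0 < L) (C : Polynomial ℝ) (b : ℝ) :
    ∫ x in (0 : ℝ)..b, (zf L C).eval x =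
      L / 2 * ∫ z in (1 - (b ^ 2 + 1 / 6) / L)..(1 - 1 / 6 / L), C.eval z := by
  have h1 := intervalIntegral.integral_comp_mul_deriv (a := (0 : ℝ)) (b := b)
    (f := fun v : ℝ => 1 - (v ^ 2 + 1 / 6) / L) (f' := fun v : ℝ => -(2 * v) / L)
    (g := fun z : ℝ => C.eval z) (fun x _ => by
      have := (((hasDerivAt_pow 2 x).add_const (1 / 6)).div_const L).const_sub 1
      refine this.congr_deriv ?_
      norm_num
      ring) (by fun_prop) (cont C)
  have h2 : (1 - ((0 : ℝ) ^ 2 + 1 / 6) / L) = 1 - 1 / 6 / L := by ring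
  simp only [h2] at h1
  rw [intervalIntegral.integral_symm (1 - 1 / 6 / L), ← h1, ← intervalIntegral.integral_neg,
    ← intervalIntegral.integral_const_mul]
  refine intervalIntegral.integral_congr fun x _ => ?_
  simp only [zf_eval, Function.comp]
  field_simp

end Zonal

open Zonal

theorem zonal (J : ℕ) (hJ : 1 ≤ J) (B : Polynomial ℝ) :
    SZ J (fun z => B.eval z) - (1 / 2) * (∫ z in (-1 : ℝ)..1, B.eval z) =
      (PoleF (L2 J) B + PoleF (L2 J) (refl B) + EqF J (B + refl B)) / L2 J := by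
  have hL : 0 < L2 J := L2_pos J
  have hD : ∀ z : ℝ, (B + refl B).eval z = B.eval z + B.eval (-z) := fun z => by
    rw [Polynomial.eval_add, refl_eval]
  have hem := em (zf (L2 J) (B + refl B)) J
  have e0 : (zf (L2 J) (B + refl B)).eval 0 = 0 := by rw [zf_eval, zero_mul]
  have e1 : ∑ j ∈ Finset.range J, (zf (L2 J) (B + refl B)).eval (j : ℝ) =
      ∑ j ∈ Finset.Ico 1 J, (j : ℝ) * (B.eval (zr J j) + B.eval (-(zr J j))) := by
    rw [Finset.range_eq_Ico, Finset.sum_eq_sum_Ico_succ_bot (by omega)]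
    rw [Nat.cast_zero, e0, zero_add, zero_add]
    refine Finset.sum_congr rfl fun j _ => ?_
    rw [zf_eval, hD]
    rfl
  have eJ : (1 - ((J : ℝ) ^ 2 + 1 / 6) / L2 J) = 1 / 6 / L2 J := by
    have : (J : ℝ) ^ 2 = L2 J - 1 / 3 := by unfold L2; ring
    rw [this]
    field_simp
    ring
  have e2 : (zf (L2 J) (B + refl B)).eval (J : ℝ) = (J : ℝ) * (B + refl B).eval (1 / 6 / L2 J) := by
    rw [zf_eval, eJ]
  have e3 := int_zf hL (B + refl B) (J : ℝ)
  rw [eJ] at e3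
  have e4 : Lam 0 (zf (L2 J) (B + refl B)) = Lam 0 (zf (L2 J) B) + Lam 0 (zf (L2 J) (refl B)) := by
    rw [zf_add, Lam_add]
  rw [e0, e1, e2, e3, e4, Lam_zero, Lam_zero, Lam_J] at hem
  have eP : ∀ C : Polynomial ℝ, ∫ s in (0 : ℝ)..(1 / 6), C.eval (1 - s / L2 J) =
      L2 J * ∫ z in (1 - 1 / 6 / L2 J)..1, C.eval z := by
    intro C
    rw [intervalIntegral.integral_comp_sub_div (fun z => C.eval z) hL.ne' 1]
    simp
  have eE : ∀ C : Polynomial ℝ, ∫ s in (0 : ℝ)..(1 / 6), C.eval (s / L2 J) =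
      L2 J * ∫ z in (0 : ℝ)..(1 / 6 / L2 J), C.eval z := by
    intro C
    rw [intervalIntegral.integral_comp_div (fun z => C.eval z) hL.ne']
    simp
  have eI : ∫ z in (-1 : ℝ)..1, B.eval z = (∫ z in (0 : ℝ)..(1 / 6 / L2 J), (B + refl B).eval z) +
      (∫ z in (1 / 6 / L2 J)..(1 - 1 / 6 / L2 J), (B + refl B).eval z) +
      ∫ z in (1 - 1 / 6 / L2 J)..1, (B + refl B).eval z := by
    rw [intervalIntegral.integral_add_adjacent_intervals (ii _ _ _) (ii _ _ _),
      intervalIntegral.integral_add_adjacent_intervals (ii _ _ _) (ii _ _ _)]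
    have h1 : ∫ z in (0 : ℝ)..1, (B + refl B).eval z =
        (∫ z in (0 : ℝ)..1, B.eval z) + ∫ z in (0 : ℝ)..1, (refl B).eval z := by
      rw [← intervalIntegral.integral_add (ii _ _ _) (ii _ _ _)]
      simp only [Polynomial.eval_add]
    have h2 : ∫ z in (0 : ℝ)..1, (refl B).eval z = ∫ z in (-1 : ℝ)..0, B.eval z := by
      simp only [refl_eval]
      rw [intervalIntegral.integral_comp_neg (fun z => B.eval z)]
      simp
    rw [h1, h2, add_comm, intervalIntegral.integral_add_adjacent_intervals (ii _ _ _) (ii _ _ _)]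
  have eA : ∀ a b : ℝ, ∫ z in a..b, (B + refl B).eval z =
      (∫ z in a..b, B.eval z) + ∫ z in a..b, (refl B).eval z := by
    intro a b
    rw [← intervalIntegral.integral_add (ii _ _ _) (ii _ _ _)]
    simp only [Polynomial.eval_add]
  have eS : ∑ j ∈ Finset.Ico 1 J, 6 * (j : ℝ) * (B.eval (zr J j) + B.eval (-(zr J j))) =
      6 * ∑ j ∈ Finset.Ico 1 J, (j : ℝ) * (B.eval (zr J j) + B.eval (-(zr J j))) := by
    rw [Finset.mul_sum]
    exact Finset.sum_congr rfl fun j _ => by ring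
  unfold SZ PoleF EqF
  rw [N_eq, eP, eP, eE, eI, eS, refl_eval, hD 0, neg_zero, eA (1 - 1 / 6 / L2 J) 1]
  generalize (∑ j ∈ Finset.Ico 1 J, (j : ℝ) * (B.eval (zr J j) + B.eval (-(zr J j)))) = S
    at hem ⊢
  generalize (∫ y in Set.Ioi (0 : ℝ),
    (((J : ℂ) + Complex.I * (y : ℂ)) * Polynomial.aeval (zeta J y) (B + refl B)).im * wt y) = X1
    at hem ⊢
  generalize (∫ y in Set.Ioi (0 : ℝ), y * B.eval (1 + (y ^ 2 - 1 / 6) / L2 J) * wt y) = X2
    at hem ⊢
  generalize (∫ y in Set.Ioi (0 : ℝ), y * (refl B).eval (1 + (y ^ 2 - 1 / 6) / L2 J) * wt y) = X3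
    at hem ⊢
  generalize (∫ z in (1 / 6 / L2 J)..(1 - 1 / 6 / L2 J), (B + refl B).eval z) = X4 at hem ⊢
  generalize (∫ z in (0 : ℝ)..(1 / 6 / L2 J), (B + refl B).eval z) = X5
  generalize (∫ z in (1 - 1 / 6 / L2 J)..1, B.eval z) = X6
  generalize (∫ z in (1 - 1 / 6 / L2 J)..1, (refl B).eval z) = X7
  generalize (B + refl B).eval (1 / 6 / L2 J) = X8 at hem ⊢
  generalize L2 J = L at hL hem ⊢
  rw [eq_div_iff hL.ne']
  have h6 : ∀ a : ℝ, a / (6 * L) * L = a / 6 := fun a => by field_simp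
  rw [sub_mul, h6]
  linear_combination hem

end Pool.Agent.Helper83.SD
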